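import Mathlib.Computability.TuringMachine.Computable
import Mathlib.Data.Finset.Card
import Mathlib.Data.Fintype.Pi
import Mathlib.Data.Fintype.BigOperators
import Mathlib.Algebra.Polynomial.Eval.Defs

/-!
# The two-player game of SET, polynomial space and polynomial-time reductions
-/

namespace Pool.Agent.SetPS

open Turing

/-! ### The game -/

/-- A card with `n` attributes, each taking one of three values. -/
abbrev Card (n : ℕ) : Type := Fin n → Fin 3

/-- Three distinct cards form a Set if in every attribute their values are all equal or pairwise
distinct. -/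
def IsSet {n : ℕ} (a b c : Card n) : Prop :=
  a ≠ b ∧ b ≠ c ∧ a ≠ c ∧
    ∀ i, (a i = b i ∧ b i = c i) ∨ (a i ≠ b i ∧ b i ≠ c i ∧ a i ≠ c i)

/-- The player to move wins the game played with the cards `C`: some Set of three cards of `C` can
be removed such that the next player does not win. -/
def FirstWins {n : ℕ} (C : Finset (Card n)) : Prop :=
  ∃ (a b c : Card n) (_ : a ∈ C) (_ : b ∈ C) (_ : c ∈ C), IsSet a b c ∧
    ¬ FirstWins (C \ {a, b, c})
termination_by C.card
decreasing_by
  apply Finset.card_lt_card
  rw [Finset.ssubset_iff_subset_ne]
  refine ⟨Finset.sdiff_subset, fun h => ?_⟩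
  have h1 : a ∈ C \ {a, b, c} := by rw [h]; assumption
  simp at h1

/-! ### The input -/

/-- The input alphabet: the three attribute values and a separator. -/
abbrev Sy : Type := Option (Fin 3)

/-- The string describing the number `n` of attributes (in unary) and the list `l` of cards. -/
def encodeInput (n : ℕ) (l : List (Card n)) : List Sy :=
  List.replicate n (some 0) ++ none :: l.flatMap fun c => (List.ofFn c).map some ++ [none]

/-- The decision problem 2P 3-value SET: given `n` and a list of distinct cards, does the first
player win? -/
def SET : Set (List Sy) :=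
  {w | ∃ (n : ℕ) (l : List (Card n)), l.Nodup ∧ w = encodeInput n l ∧ FirstWins l.toFinset}

/-! ### Polynomial space and reductions -/

/-- The space used by a configuration of a Turing machine with several stacks: the total number
of symbols on its stacks. -/
def space (tm : FinTM2) (c : tm.Cfg) : ℕ :=
  letI := tm.kFin
  ∑ k, (c.stk k).length

/-- The language `L` is in `PSPACE`: a Turing machine started on any word `x` halts with the
correct answer, all configurations on the way having space at most `p |x|`, for a fixed
polynomial `p`. -/
def InPSPACE {Γ : Type} (L : Set (List Γ)) : Prop :=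
  ∃ (tm : FinTM2) (inA : tm.Γ tm.k₀ ≃ Γ) (outA : tm.Γ tm.k₁ ≃ Bool) (p : Polynomial ℕ),
    ∀ x : List Γ,
      (∃ b : Bool, (b = true ↔ x ∈ L) ∧ ∃ n : ℕ,
        (flip bind tm.step)^[n] (some (initList tm (x.map inA.symm))) =
          some (haltList tm [outA.symm b])) ∧
      ∀ (n : ℕ) (c : tm.Cfg),
        (flip bind tm.step)^[n] (some (initList tm (x.map inA.symm))) = some c →
          space tm c ≤ p.eval x.length

/-- Polynomial-time many-one reducibility. -/
def PolyReduces {Γ Δ : Type} (A : Set (List Γ)) (B : Set (List Δ)) : Prop :=
  ∃ f : List Γ → List Δ, Nonempty (TM2ComputableInPolyTime (fun x : List Γ => x)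
    (fun y : List Δ => y) f) ∧ ∀ x, x ∈ A ↔ f x ∈ B

end Pool.Agent.SetPS
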