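import Pool.Agent.SetPS.PspaceUM

/-!
# Polynomial space machines as simple machines, acceptance = reachability of a halting control
-/

set_option linter.unusedSectionVars false

namespace Pool.Agent.SetPS

open Pool.Agent.PT81 Pool.Agent.IsoImp Polynomial Turing

theorem sim_none {tm : FinTM2} {g : Σ k, tm.Γ k} (x : CC tm × (tm.K → List (SS tm g)))
    (h : x.1.1 = none) (n : ℕ) : (sim tm g).step^[n] x = x := by
  obtain ⟨⟨o, v'⟩, S'⟩ := x
  simp only at h
  subst h
  have hst : (sim tm g).step ((none, v'), S') = ((none, v'), S') := by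
    have : (sim tm g).step ((none, v'), S') =
      ((none, v'), Function.update S' tm.k₀ (S' tm.k₀)) := rfl
    rw [this, Function.update_eq_self]
  induction n with
  | zero => rfl
  | succ n ih => rw [Function.iterate_succ_apply, hst, ih]

/-- Every language in PSPACE is decided by a simple machine with polynomially bounded stacks:
the word is accepted iff a configuration with halting control and a fixed symbol on top of
a fixed stack is reached. -/
theorem pspace_um_halt {Γ : Type} [Fintype Γ] (L : Set (List Γ)) (hL : InPSPACE L) :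
    ∃ (C K Sg : Type) (_ : Fintype C) (_ : DecidableEq C) (_ : Fintype K) (_ : DecidableEq K)
      (_ : Fintype Sg) (_ : DecidableEq Sg) (M : UM C K Sg) (c0 : C) (k₀ k₁ : K) (inX : Γ → Sg)
      (acc : Sg) (hc : C → Bool) (p : ℕ[X]), ∀ x : List Γ,
      (∀ t k, ((M.step^[t] (c0, fun k => if k = k₀ then x.map inX else [])).2 k).length ≤
        p.eval x.length) ∧
      (x ∈ L ↔ ∃ t, hc (M.step^[t] (c0, fun k => if k = k₀ then x.map inX else [])).1 = true ∧
        ((M.step^[t] (c0, fun k => if k = k₀ then x.map inX else [])).2 k₁)[0]? = some acc) := by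
  classical
  obtain ⟨tm, inA, outA, p₀, hp₀⟩ := hL
  set g : Σ k, tm.Γ k := ⟨tm.k₁, outA.symm true⟩ with hg
  letI : Fintype tm.K := tm.kFin
  letI : Fintype tm.σ := tm.σFin
  set p : ℕ[X] := p₀ + C (depMax tm) with hp
  refine ⟨CC tm, tm.K, SS tm g, inferInstance, Classical.decEq _, inferInstance, tm.kDecidableEq,
    inferInstance, Classical.decEq _, sim tm g,
    (some ⟨tm.m tm.main, main_mem _ _⟩, tm.initialState), tm.k₀, tm.k₁,
    fun a => ⟨⟨tm.k₀, inA.symm a⟩, mem_syms_in _⟩, ⟨g, mem_syms_self⟩, fun c => c.1.isNone, p,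
    fun x => ?_⟩
  obtain ⟨⟨b, hb, n, hn⟩, hsp⟩ := hp₀ x
  set x₀ : CC tm × (tm.K → List (SS tm g)) :=
    ((some ⟨tm.m tm.main, main_mem _ _⟩, tm.initialState), fun k =>
      if k = tm.k₀ then x.map (fun a => (⟨⟨tm.k₀, inA.symm a⟩, mem_syms_in _⟩ : SS tm g)) else [])
    with hx₀
  have hrel : RelC tm g (initList tm (x.map inA.symm)) x₀ := by
    refine ⟨rfl, rfl, fun k => ?_⟩
    rw [init_stk]
    by_cases h : k = tm.k₀
    · simp only [hx₀, if_pos h, List.map_map]
      rfl
    · simp only [hx₀, if_neg h, List.map_nil]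
  obtain ⟨T, hT, hcov⟩ := cover n hrel hn
  have hfix : ∀ d, (sim tm g).step^[d] ((sim tm g).step^[T] x₀) = (sim tm g).step^[T] x₀ :=
    fun d => sim_halt hT rfl d
  have hpe : p.eval x.length = p₀.eval x.length + depMax tm := by
    simp [hp]
  have hlen : ∀ t k, (((sim tm g).step^[t] x₀).2 k).length ≤ p.eval x.length := by
    have hle : ∀ t ≤ T, ∀ k, (((sim tm g).step^[t] x₀).2 k).length ≤ p.eval x.length := by
      intro t ht k
      obtain ⟨j, c'', s, hj, hs1, hs2, hr⟩ := hcov t ht
      obtain ⟨d, rfl⟩ := Nat.exists_eq_add_of_le hs1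
      rw [Nat.add_comm s d, Function.iterate_add_apply]
      have h1 := um_len_iter (sim tm g) d ((sim tm g).step^[s] x₀) k
      rw [relS_len hr.2.2 k] at h1
      have h2 := len_le_space tm c'' k
      have h3 := hsp j c'' hj
      rw [hpe]
      omega
    intro t k
    rcases le_total t T with h | h
    · exact hle t h k
    · obtain ⟨d, rfl⟩ := Nat.exists_eq_add_of_le h
      rw [Nat.add_comm T d, Function.iterate_add_apply, hfix]
      exact hle T le_rfl k
  refine ⟨hlen, ?_⟩
  have hTn : ((sim tm g).step^[T] x₀).1.1 = none := by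
    have h1 := hT.1
    simp only [haltList, Option.map_none, Option.map_eq_none_iff] at h1
    exact h1
  have hall : ∀ t, ((sim tm g).step^[t] x₀).1.1 = none →
      (sim tm g).step^[t] x₀ = (sim tm g).step^[T] x₀ := by
    intro t ht
    rcases le_total t T with h | h
    · obtain ⟨d, hd⟩ := Nat.exists_eq_add_of_le h
      rw [hd, Nat.add_comm t d, Function.iterate_add_apply, sim_none _ ht]
    · obtain ⟨d, rfl⟩ := Nat.exists_eq_add_of_le h
      rw [Nat.add_comm T d, Function.iterate_add_apply, hfix]
  have key : x ∈ L ↔ (((sim tm g).step^[T] x₀).2 tm.k₁)[0]? =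
      some (⟨g, mem_syms_self⟩ : SS tm g) := by
    obtain ⟨_, _, h3⟩ := hT
    have h4 := h3 tm.k₁
    rw [halt_stk] at h4
    rw [← hb]
    cases hSc : ((sim tm g).step^[T] x₀).2 tm.k₁ with
    | nil => rw [hSc] at h4; simp at h4
    | cons a l =>
      rw [hSc] at h4
      simp only [List.map_cons, List.cons.injEq, List.map_nil] at h4
      obtain ⟨h5, _⟩ := h4
      simp only [List.getElem?_cons_zero, Option.some.injEq]
      rw [Subtype.ext_iff, h5]
      constructor
      · intro h
        rw [h]
      · intro h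
        have h6 := eq_of_heq (Sigma.mk.inj h).2
        exact outA.symm.injective h6
  rw [key]
  constructor
  · intro h
    exact ⟨T, Option.isNone_iff_eq_none.mpr hTn, h⟩
  · rintro ⟨t, ht1, ht2⟩
    have h1 : ((sim tm g).step^[t] x₀).1.1 = none := Option.isNone_iff_eq_none.mp ht1
    rw [hall t h1] at ht2
    exact ht2

end Pool.Agent.SetPS
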