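import Pool.Agent.SetPS.Qbf
import Mathlib.Logic.Relation
import Mathlib.Data.Fintype.BigOperators

/-!
# Savitch's theorem: reachability in a graph with polynomial-time adjacency is in PSPACE
-/

set_option linter.unusedSectionVars false

namespace Pool.Agent.SetPS.Sv

open Pool.Agent.PT81 Pool.Agent.IsoImp Polynomial Qb Relation

variable {V : Type} [DecidableEq V]

/-- Reachability in at most `2 ^ k` steps, midpoints being taken among the decoded strings. -/
def R (Adj : V → V → Bool) (dec : List Bool → V) (N : ℕ) : ℕ → V → V → Prop
  | 0, u, v => u = v ∨ Adj u v = true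
  | k + 1, u, v => ∃ b : List Bool, b.length = N ∧ R Adj dec N k u (dec b) ∧
      R Adj dec N k (dec b) v

theorem R_sound {Adj : V → V → Bool} {dec : List Bool → V} {N : ℕ} (k : ℕ) : ∀ {u v : V},
    R Adj dec N k u v → ReflTransGen (fun u v => Adj u v = true) u v := by
  induction k with
  | zero =>
    rintro u v (rfl | h)
    · exact .refl
    · exact .single h
  | succ k ih =>
    rintro u v ⟨b, -, h1, h2⟩
    exact (ih h1).trans (ih h2)

theorem R_complete {Adj : V → V → Bool} {dec : List Bool → V} {N : ℕ} {f : ℕ → V} {n : ℕ}
    (hf : ∀ i < n, Adj (f i) (f (i + 1)) = true)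
    (hc : ∀ i < n, ∃ b : List Bool, b.length = N ∧ dec b = f i) (k : ℕ) :
    ∀ i m, i < n → i + m ≤ n → m ≤ 2 ^ k → R Adj dec N k (f i) (f (i + m)) := by
  induction k with
  | zero =>
    intro i m hi him hm
    have : m = 0 ∨ m = 1 := by
      simp only [pow_zero] at hm
      omega
    rcases this with rfl | rfl
    · exact Or.inl rfl
    · exact Or.inr (hf i hi)
  | succ k ih =>
    intro i m hi him hm
    have h2 : i + m / 2 < n := by omega
    obtain ⟨b, hb1, hb2⟩ := hc (i + m / 2) h2
    have hp : 2 ^ (k + 1) = 2 * 2 ^ k := by ring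
    refine ⟨b, hb1, ?_, ?_⟩
    · rw [hb2]
      exact ih i (m / 2) hi (by omega) (by omega)
    · rw [hb2]
      have h3 := ih (i + m / 2) (m - m / 2) h2 (by omega) (by omega)
      have e : i + m / 2 + (m - m / 2) = i + m := by omega
      rw [e] at h3
      exact h3

/-- A walk given by a function. -/
def Walk (Adj : V → V → Bool) (s t : V) (n : ℕ) : Prop :=
  ∃ f : ℕ → V, f 0 = s ∧ f n = t ∧ ∀ i < n, Adj (f i) (f (i + 1)) = true

theorem exists_walk {Adj : V → V → Bool} {s t : V}
    (h : ReflTransGen (fun u v => Adj u v = true) s t) : ∃ n, Walk Adj s t n := by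
  induction h with
  | refl => exact ⟨0, fun _ => s, rfl, rfl, fun i hi => absurd hi (by omega)⟩
  | @tail b c _ h2 ih =>
    obtain ⟨n, f, h3, h4, h5⟩ := ih
    refine ⟨n + 1, fun i => if i ≤ n then f i else c, ?_, ?_, ?_⟩
    · simp [h3]
    · simp
    · intro i hi
      by_cases h6 : i < n
      · simp only [show i ≤ n by omega, if_true, show i + 1 ≤ n by omega]
        exact h5 i h6
      · have : i = n := by omega
        subst this
        simp [h4, h2]

theorem walk_reach {Adj : V → V → Bool} {f : ℕ → V} {n : ℕ}
    (hf : ∀ i < n, Adj (f i) (f (i + 1)) = true) (i : ℕ) (hi : i ≤ n) :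
    ReflTransGen (fun u v => Adj u v = true) (f 0) (f i) := by
  induction i with
  | zero => exact .refl
  | succ i ih => exact (ih (by omega)).tail (hf i (by omega))

theorem R_iff {Adj : V → V → Bool} {dec : List Bool → V} {N : ℕ} {s t : V} (hst : s ≠ t)
    (hcode : ∀ w, ReflTransGen (fun u v => Adj u v = true) s w →
      w = t ∨ ∃ b : List Bool, b.length = N ∧ dec b = w) :
    R Adj dec N N s t ↔ ReflTransGen (fun u v => Adj u v = true) s t := by
  classical
  refine ⟨R_sound N, fun h => ?_⟩
  have hex := exists_walk h
  set n := Nat.find hex with hn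
  obtain ⟨f, h0, h1, h2⟩ := Nat.find_spec hex
  rw [← hn] at h1 h2
  have hmin : ∀ m < n, ¬ Walk Adj s t m := fun m hm => Nat.find_min hex hm
  have hn0 : 0 < n := by
    rcases Nat.eq_zero_or_pos n with h3 | h3
    · rw [h3] at h1
      exact absurd (h0.symm.trans h1) hst
    · exact h3
  -- the vertices before the end are different from the end
  have ht : ∀ i < n, f i ≠ t := fun i hi e => hmin i hi ⟨f, h0, e, fun j hj => h2 j (by omega)⟩
  -- all vertices are different
  have hinj : ∀ i j, i < j → j < n → f i ≠ f j := by
    intro i j hij hj e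
    refine hmin (n - (j - i)) (by omega) ⟨fun l => if l ≤ i then f l else f (l + (j - i)),
      ?_, ?_, ?_⟩
    · simp [h0]
    · have : ¬ n - (j - i) ≤ i := by omega
      simp only [this, if_false]
      rw [Nat.sub_add_cancel (by omega)]
      exact h1
    · intro l hl
      by_cases h3 : l < i
      · simp only [show l ≤ i by omega, if_true, show l + 1 ≤ i by omega]
        exact h2 l (by omega)
      · by_cases h4 : l = i
        · subst h4
          simp only [le_refl, if_true, show ¬ l + 1 ≤ l by omega, if_false]
          rw [e, show l + 1 + (j - l) = j + 1 by omega]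
          exact h2 j hj
        · simp only [show ¬ l ≤ i by omega, show ¬ l + 1 ≤ i by omega, if_false]
          rw [show l + 1 + (j - i) = l + (j - i) + 1 by omega]
          exact h2 _ (by omega)
  have hc : ∀ i < n, ∃ b : List Bool, b.length = N ∧ dec b = f i := by
    intro i hi
    have h3 : ReflTransGen (fun u v => Adj u v = true) s (f i) := by
      rw [← h0]
      exact walk_reach h2 i (by omega)
    rcases hcode _ h3 with h4 | h4
    · exact absurd h4 (ht i hi)
    · exact h4
  choose! b hb using hc
  have hcard : n ≤ 2 ^ N := by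
    let F : Fin n → List.Vector Bool N := fun i => ⟨b i.1, (hb i.1 i.2).1⟩
    have hF : Function.Injective F := by
      intro i j hij
      by_contra hne
      have h3 : b i.1 = b j.1 := congrArg Subtype.val hij
      have h4 : f i.1 = f j.1 := by rw [← (hb i.1 i.2).2, ← (hb j.1 j.2).2, h3]
      rcases lt_trichotomy i.1 j.1 with h | h | h
      · exact hinj _ _ h j.2 h4
      · exact hne (Fin.ext h)
      · exact hinj _ _ h i.2 h4.symm
    have h3 := Fintype.card_le_of_injective F hF
    rwa [Fintype.card_fin, card_vector, Fintype.card_bool] at h3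
  have h3 := R_complete h2 (fun i hi => ⟨b i, hb i hi⟩) N 0 n hn0 (by omega) hcard
  rw [h0, Nat.zero_add, h1] at h3
  exact h3

/-! ### The formula -/

/-- Processing one choice. -/
def upd (dec : List Bool → V) (N : ℕ) (c : Bool) (a : V × (V × List Bool)) :
    V × (V × List Bool) :=
  if a.2.2.length = N then
    (if c then (dec a.2.2, a.2.1, []) else (a.1, dec a.2.2, []))
  else (a.1, a.2.1, c :: a.2.2)

/-- The levels. -/
def levels (N : ℕ) : ℕ → List Bool
  | 0 => []
  | k + 1 => List.replicate N true ++ false :: levels N k

theorem levels_eq (N k : ℕ) : levels N k =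
    (List.range k).flatMap fun _ => List.replicate N true ++ [false] := by
  induction k with
  | zero => rfl
  | succ k ih =>
    rw [List.range_succ_eq_map, List.flatMap_cons, List.flatMap_map]
    simp [levels, ih]

/-- The final test. -/
def fin (Adj : V → V → Bool) (a : V × (V × List Bool)) : Bool :=
  decide (a.1 = a.2.1) || Adj a.1 a.2.1

theorem qval_levels (Adj : V → V → Bool) (dec : List Bool → V) (N : ℕ) (a0 : V × (V × List Bool))
    (k : ℕ) : ∀ (path : List Bool) (u v : V),
    path.foldr (upd dec N) a0 = (u, v, []) →
    (qval (fun p => fin Adj (p.foldr (upd dec N) a0)) (levels N k) path = true ↔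
      R Adj dec N k u v) := by
  induction k with
  | zero =>
    intro path u v h
    simp only [levels, qval, h, fin, R, Bool.or_eq_true, decide_eq_true_eq]
  | succ k ih =>
    -- the inner quantifiers
    have inner : ∀ (r : ℕ) (path : List Bool) (u v : V) (buf : List Bool),
        path.foldr (upd dec N) a0 = (u, v, buf) → buf.length + r = N →
        (qval (fun p => fin Adj (p.foldr (upd dec N) a0))
          (List.replicate r true ++ false :: levels N k) path = true ↔
          ∃ b : List Bool, b.length = r ∧ R Adj dec N k u (dec (b ++ buf)) ∧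
            R Adj dec N k (dec (b ++ buf)) v) := by
      intro r
      induction r with
      | zero =>
        intro path u v buf h hb
        have hb' : buf.length = N := by omega
        have e1 : (false :: path).foldr (upd dec N) a0 = (u, dec buf, []) := by
          rw [List.foldr_cons, h]
          simp [upd, hb']
        have e2 : (true :: path).foldr (upd dec N) a0 = (dec buf, v, []) := by
          rw [List.foldr_cons, h]
          simp [upd, hb']
        simp only [List.replicate_zero, List.nil_append, qval, cond_false, Bool.and_eq_true,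
          ih _ _ _ e1, ih _ _ _ e2]
        constructor
        · rintro h
          exact ⟨[], rfl, h⟩
        · rintro ⟨b, hb1, hb2⟩
          rw [List.length_eq_zero_iff] at hb1
          subst hb1
          exact hb2
      | succ r ihr =>
        intro path u v buf h hb
        have hb' : buf.length ≠ N := by omega
        have e : ∀ c : Bool, (c :: path).foldr (upd dec N) a0 = (u, v, c :: buf) := by
          intro c
          rw [List.foldr_cons, h]
          simp [upd, hb']
        simp only [List.replicate_succ, List.cons_append, qval, cond_true, Bool.or_eq_true,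
          ihr _ _ _ _ (e false) (by simp only [List.length_cons]; omega),
          ihr _ _ _ _ (e true) (by simp only [List.length_cons]; omega)]
        constructor
        · rintro (⟨b, hb1, hb2, hb3⟩ | ⟨b, hb1, hb2, hb3⟩)
          · exact ⟨b ++ [false], by simp [hb1], by simpa using hb2, by simpa using hb3⟩
          · exact ⟨b ++ [true], by simp [hb1], by simpa using hb2, by simpa using hb3⟩
        · rintro ⟨b, hb1, hb2, hb3⟩
          obtain ⟨b', c, rfl⟩ : ∃ b' c, b = b' ++ [c] := by
            have hne : b ≠ [] := by
              rintro rfl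
              simp at hb1
            exact ⟨b.dropLast, b.getLast hne, (List.dropLast_append_getLast hne).symm⟩
          have hb1' : b'.length = r := by simpa using hb1
          cases c
          · left
            exact ⟨b', hb1', by simpa using hb2, by simpa using hb3⟩
          · right
            exact ⟨b', hb1', by simpa using hb2, by simpa using hb3⟩
    intro path u v h
    rw [levels, inner N path u v [] h (by simp)]
    simp [R]

theorem poly_upd {E : Env} {δ : Type} [Enc E δ] [Enc E V] {dec : δ × List Bool → V} {N : δ → ℕ}
    (hdec : Poly E dec) (hN : Poly E N) :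
    Poly E (fun q : (δ × List Bool) × (Bool × (V × (V × List Bool))) =>
      upd (fun b => dec (q.1.1, b)) (N q.1.1) q.2.1 q.2.2) := by
  have hx : Poly E (fun q : (δ × List Bool) × (Bool × (V × (V × List Bool))) => q.1.1) :=
    Poly.fst.comp Poly.fst
  have hc : Poly E (fun q : (δ × List Bool) × (Bool × (V × (V × List Bool))) => q.2.1) :=
    Poly.fst.comp Poly.snd
  have hu : Poly E (fun q : (δ × List Bool) × (Bool × (V × (V × List Bool))) => q.2.2.1) :=
    Poly.fst.comp (Poly.snd.comp Poly.snd)
  have hv : Poly E (fun q : (δ × List Bool) × (Bool × (V × (V × List Bool))) => q.2.2.2.1) :=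
    Poly.fst.comp (Poly.snd.comp (Poly.snd.comp Poly.snd))
  have hb : Poly E (fun q : (δ × List Bool) × (Bool × (V × (V × List Bool))) => q.2.2.2.2) :=
    Poly.snd.comp (Poly.snd.comp (Poly.snd.comp Poly.snd))
  have hd : Poly E (fun q : (δ × List Bool) × (Bool × (V × (V × List Bool))) =>
      dec (q.1.1, q.2.2.2.2)) := hdec.comp (Poly.pair hx hb)
  refine (Poly.ite (Poly.eq hb.length (hN.comp hx)) (Poly.ite hc
    (Poly.pair hd (Poly.pair hv (Poly.const []))) (Poly.pair hu (Poly.pair hd (Poly.const []))))
    (Poly.pair hu (Poly.pair hv (Poly.cons hc hb)))).congr fun q => ?_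
  simp only [upd, decide_eq_true_eq]

theorem poly_leaf {E : Env} {δ : Type} [Enc E δ] [Enc E V] {dec : δ × List Bool → V} {N : δ → ℕ}
    {s t : δ → V} {adj : δ × (V × V) → Bool}
    (hdec : Poly E dec) (hN : Poly E N) (hs : Poly E s) (ht : Poly E t) (hadj : Poly E adj) :
    Poly E (fun p : δ × List Bool => fin (fun u v => adj (p.1, (u, v)))
      (p.2.foldr (upd (fun b => dec (p.1, b)) (N p.1)) (s p.1, t p.1, []))) := by
  obtain ⟨pd, hpd⟩ := hdec.bound
  obtain ⟨pN, hpN⟩ := hN.bound
  have h1 : Poly E (fun p : δ × List Bool =>
      p.2.foldr (upd (fun b => dec (p.1, b)) (N p.1)) (s p.1, t p.1, [])) := by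
    refine Poly.foldrAdd (f := fun p : δ × List Bool => p.2)
      (b := fun p : δ × List Bool => (s p.1, t p.1, ([] : List Bool)))
      (g := fun q : (δ × List Bool) × (Bool × (V × (V × List Bool))) =>
        upd (fun b => dec (q.1.1, b)) (N q.1.1) q.2.1 q.2.2) Poly.snd
      (Poly.pair (hs.comp Poly.fst) (Poly.pair (ht.comp Poly.fst) (Poly.const _)))
      (poly_upd hdec hN) (pd.comp (X + 4 * pN + 4) + 10) ?_
    rintro ⟨x, path⟩ c hc ⟨u, v, buf⟩
    unfold upd
    have h1 := hpd (x, buf)
    have h2 := hpN x
    have h3 := esz_bool (E := E) c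
    have h5 : esz E x ≤ esz E (x, path) := by simp only [esz_prod]; omega
    have h6 := pmono pN h5
    simp only [eval_add, eval_comp, eval_mul, eval_X, eval_ofNat]
    by_cases h : buf.length = N x
    · have h4 := esz_len_le (E := E) 3 (fun a : Bool => esz_bool a) buf
      rw [h] at h4
      rw [esz_nat] at h2
      have h7 : pd.eval (esz E (x, buf)) ≤
          pd.eval (esz E (x, path) + 4 * pN.eval (esz E (x, path)) + 4) := by
        refine pmono pd ?_
        simp only [esz_prod] at *
        omega
      simp only [h, if_true]
      cases c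
      · simp only [Bool.false_eq_true, if_false, esz_prod, esz_nil] at *
        omega
      · simp only [if_true, esz_prod, esz_nil] at *
        omega
    · simp only [h, if_false]
      simp only [esz_prod, esz_cons] at *
      omega
  exact Poly.or (Poly.eq (Poly.fst.comp h1) (Poly.fst.comp (Poly.snd.comp h1)))
    (hadj.comp (Poly.pair Poly.fst (Poly.pair (Poly.fst.comp h1)
      (Poly.fst.comp (Poly.snd.comp h1)))))

end Sv

open Sv Qb Pool.Agent.PT81 Pool.Agent.IsoImp Polynomial Relation

/-- Savitch's theorem: reachability in a graph whose reachable vertices have codes of polynomial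
length and whose adjacency is decidable in polynomial time is in PSPACE. -/
theorem inPSPACE_reach {Γ V : Type} [Fintype Γ] [DecidableEq Γ] [Enc (io Γ Bool) Γ]
    [Enc (io Γ Bool) V] [DecidableEq V] (L : Set (List Γ)) (s t : List Γ → V) (N : List Γ → ℕ)
    (dec : List Γ × List Bool → V) (adj : List Γ × (V × V) → Bool)
    (hs : Poly (io Γ Bool) s) (ht : Poly (io Γ Bool) t) (hN : Poly (io Γ Bool) N)
    (hdec : Poly (io Γ Bool) dec) (hadj : Poly (io Γ Bool) adj) (hst : ∀ x, s x ≠ t x)
    (hcode : ∀ x w, ReflTransGen (fun u v => adj (x, (u, v)) = true) (s x) w →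
      w = t x ∨ ∃ b : List Bool, b.length = N x ∧ dec (x, b) = w)
    (hL : ∀ x, x ∈ L ↔ ReflTransGen (fun u v => adj (x, (u, v)) = true) (s x) (t x)) :
    InPSPACE L := by
  refine inPSPACE_qval L (fun x => x) (fun x => levels (N x) (N x))
    (fun p => Sv.fin (fun u v => adj (p.1, (u, v)))
      (p.2.foldr (upd (fun b => dec (p.1, b)) (N p.1)) (s p.1, t p.1, [])))
    Poly.id ?_ ?_ ?_
  · refine (Poly.flatMap (g := fun p : List Γ × ℕ => List.replicate (N p.1) true ++ [false])
      (Poly.range hN) (Poly.append (Poly.replicate (g := fun _ => true) (hN.comp Poly.fst)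
        (Poly.const _)) (Poly.const _))).congr fun x => ?_
    exact (levels_eq (N x) (N x)).symm
  · exact poly_leaf hdec hN hs ht hadj
  · intro x
    rw [hL, ← R_iff (dec := fun b => dec (x, b)) (N := N x) (hst x) (hcode x)]
    exact (qval_levels (fun u v => adj (x, (u, v))) (fun b => dec (x, b)) (N x) _ (N x) [] _ _
      rfl).symm

end Pool.Agent.SetPS
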