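import Pool.Agent.SetPS.StrBasic
import Pool.Agent.Lib_MP_a1eae6_lc.MembPoly
import Pool.Agent.Lib_MP_a1eae6_lc.Gen

/-!
# The string of a table is computable in polynomial time
-/

namespace Pool.Agent.SetPS

open Pool.Agent.PT81 Pool.Agent.IsoImp Polynomial

variable {E : Env} {γ α β : Type} [Enc E γ] [Enc E α] [Enc E β]

theorem poly_isSome {f : γ → Option α} (hf : Poly E f) : Poly E (fun c => (f c).isSome) :=
  Poly.optCasesF (f := f) (g := fun _ => false) (h := fun _ : γ × α => true) _ hf
    (Poly.const _) (Poly.const _) (fun c hc => by rw [hc]; rfl) (fun c a hc => by rw [hc]; rfl)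

theorem poly_isNone {f : γ → Option α} (hf : Poly E f) : Poly E (fun c => (f c).isNone) :=
  Poly.optCasesF (f := f) (g := fun _ => true) (h := fun _ : γ × α => false) _ hf
    (Poly.const _) (Poly.const _) (fun c hc => by rw [hc]; rfl) (fun c a hc => by rw [hc]; rfl)

theorem poly_lt {G : γ → List α} {w : γ → ℕ} (hG : Poly E G) (hw : Poly E w) :
    Poly E (fun c => decide (w c < (G c).length)) :=
  (poly_isSome (IsoImp.Poly.getElem? (i := w) hG hw)).congr fun c => by
    by_cases h : w c < (G c).length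
    · simp [h]
    · simp [h]

theorem poly_beq [BEq α] [LawfulBEq α] [DecidableEq α] {f g : γ → α} (hf : Poly E f)
    (hg : Poly E g) :
    Poly E (fun c => f c == g c) :=
  (Poly.eq hf hg).congr fun c => by
    by_cases h : f c = g c <;> simp [h]

theorem poly_arcOf {G : γ → GI} {v : γ → ℕ} (hG : Poly E G) (hv : Poly E v) (i : Fin 2) :
    Poly E (fun c => Tab.arcOf (G c) (v c) i) := by
  refine Poly.optCasesF (f := fun c => (G c)[v c]?) (g := fun _ => none)
    (h := fun p : γ × (Option ℕ × Option ℕ) =>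
      (if i = 0 then p.2.1 else p.2.2).filter fun w => decide (w < (G p.1).length))
    _ (IsoImp.Poly.getElem? (i := v) hG hv) (Poly.const _) ?_ ?_ ?_
  · refine Poly.optCasesF
      (f := fun p : γ × (Option ℕ × Option ℕ) => if i = 0 then p.2.1 else p.2.2)
      (g := fun _ => none)
      (h := fun q : (γ × (Option ℕ × Option ℕ)) × ℕ =>
        if decide (q.2 < (G q.1.1).length) then some q.2 else none) _ ?_ (Poly.const _) ?_ ?_ ?_
    · by_cases hi : i = 0
      · simp only [hi, if_true]
        exact Poly.fst.comp Poly.snd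
      · simp only [hi, if_false]
        exact Poly.snd.comp Poly.snd
    · exact Poly.ite (poly_lt (hG.comp (Poly.fst.comp Poly.fst)) Poly.snd)
        (Poly.osome Poly.snd) (Poly.const _)
    · intro c hc
      rw [hc]; rfl
    · intro c w hc
      rw [hc]
      rfl
  · intro c hc
    have h : (G c).getD (v c) (none, none) = (none, none) := by
      rw [List.getD_eq_getElem?_getD, hc]; rfl
    unfold Tab.arcOf
    rw [h]
    simp
  · intro c a hc
    have h : (G c).getD (v c) (none, none) = a := by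
      rw [List.getD_eq_getElem?_getD, hc]; rfl
    unfold Tab.arcOf
    rw [h]

theorem poly_listMap {ι : Type} (l : List ι) {h : ι → γ → β} (hh : ∀ k, Poly E (h k)) :
    Poly E (fun c => l.map fun k => h k c) := by
  induction l with
  | nil => exact Poly.const _
  | cons k l ih => exact Poly.cons (hh k) ih

namespace Tab

variable (t : Tab) [Fintype t.T] [Enc E t.T]

theorem poly_digit {G : γ → GI} {c : γ → ℕ × t.T} {u : γ → ℕ} (hG : Poly E G) (hc : Poly E c)
    (hu : Poly E u) (k : Fin t.D) [Enc E (Fin 3)] :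
    Poly E (fun x => t.digit (G x) (c x) (u x) k) := by
  have hv : Poly E (fun x => (c x).1) := Poly.fst.comp hc
  have ha0 := poly_arcOf hG hv 0
  have ha1 := poly_arcOf hG hv 1
  have h : Poly E (fun x => ((c x).2, ((u x == (c x).1), ((arcOf (G x) (c x).1 0 == some (u x)),
      ((arcOf (G x) (c x).1 1 == some (u x)), ((arcOf (G x) (c x).1 0).isNone,
        (arcOf (G x) (c x).1 1).isNone)))))) :=
    Poly.pair (Poly.snd.comp hc) (Poly.pair (poly_beq hu hv) (Poly.pair (poly_beq ha0 hu.osome)
      (Poly.pair (poly_beq ha1 hu.osome) (Poly.pair (poly_isNone ha0) (poly_isNone ha1)))))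
  exact Poly.comp₁ (fun y : t.T × (Bool × (Bool × (Bool × (Bool × Bool)))) =>
    t.dg y.1 k y.2.1 y.2.2.1 y.2.2.2.1 y.2.2.2.2.1 y.2.2.2.2.2) h

theorem poly_digits {G : γ → GI} {c : γ → ℕ × t.T} (hG : Poly E G) (hc : Poly E c)
    [Enc E (Fin 3)] : Poly E (fun x => t.digits (G x) (c x)) :=
  Poly.flatMap (g := fun p : γ × ℕ => (List.finRange t.D).map fun k =>
      t.digit (G p.1) (c p.1) p.2 k) (Poly.range hG.length.succ)
    (poly_listMap _ fun k => t.poly_digit (hG.comp Poly.fst) (hc.comp Poly.fst) Poly.snd k)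

theorem poly_cardList {G : γ → GI} (hG : Poly E G) : Poly E (fun x => t.cardList (G x)) := by
  refine Poly.append (Poly.flatMap (g := fun p : γ × ℕ =>
    (t.tags.filter fun a => t.keep a (p.2 == 0) (arcOf (G p.1) p.2 0).isNone
      (arcOf (G p.1) p.2 1).isNone).map fun a => (p.2, a)) (Poly.range hG.length) ?_) ?_
  · refine Poly.map (g := fun q : (γ × ℕ) × t.T => (q.1.2, q.2)) (Poly.filter
      (g := fun q : (γ × ℕ) × t.T => t.keep q.2 (q.1.2 == 0) (arcOf (G q.1.1) q.1.2 0).isNone
        (arcOf (G q.1.1) q.1.2 1).isNone) (Poly.const _) ?_)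
      (Poly.pair (Poly.snd.comp Poly.fst) Poly.snd)
    have hG' : Poly E (fun q : (γ × ℕ) × t.T => G q.1.1) := hG.comp (Poly.fst.comp Poly.fst)
    have hv : Poly E (fun q : (γ × ℕ) × t.T => q.1.2) := Poly.snd.comp Poly.fst
    have h : Poly E (fun q : (γ × ℕ) × t.T => (q.2, ((q.1.2 == 0), ((arcOf (G q.1.1) q.1.2 0).isNone,
        (arcOf (G q.1.1) q.1.2 1).isNone)))) :=
      Poly.pair Poly.snd (Poly.pair (poly_beq hv (Poly.const 0))
        (Poly.pair (poly_isNone (poly_arcOf hG' hv 0)) (poly_isNone (poly_arcOf hG' hv 1))))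
    exact Poly.comp₁ (fun y : t.T × (Bool × (Bool × Bool)) => t.keep y.1 y.2.1 y.2.2.1 y.2.2.2) h
  · exact Poly.map (g := fun q : γ × t.T => ((G q.1).length, q.2)) (Poly.const _)
      (Poly.pair (hG.comp Poly.fst).length Poly.snd)

end Tab

theorem Tab.poly_str (t : Tab) [Fintype t.T] (E : Env) [Enc E (Fin 3)] :
    Poly E (fun G : GI => t.str G) := by
  let _ : Enc E t.T := finEnc E t.T
  have h0 : Poly E (fun G : GI => G) := Poly.id
  refine Poly.append (Poly.replicate (g := fun _ => some 0) (Poly.mul h0.length.succ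
    (Poly.const t.D)) (Poly.const _)) (Poly.cons (Poly.const none) ?_)
  refine Poly.flatMap (g := fun p : GI × (ℕ × t.T) => (t.digits p.1 p.2).map some ++ [none])
    (t.poly_cardList h0) (Poly.append ?_ (Poly.const _))
  exact Poly.map (g := fun q : (GI × (ℕ × t.T)) × Fin 3 => some q.2)
    (t.poly_digits Poly.fst Poly.snd) (Poly.osome Poly.snd)

end Pool.Agent.SetPS
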