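import Pool.Agent.SetPS.MemDefs
import Pool.Agent.SetPS.StrPoly

/-!
# The search algorithm: everything is computable in polynomial time
-/

namespace Pool.Agent.SetPS.Mem

open Pool.Agent.PT81 Pool.Agent.IsoImp Polynomial

variable {E : Env} [Enc E (Fin 3)] {γ : Type} [Enc E γ]

theorem poly_isSetL {a b c : γ → LC} (ha : Poly E a) (hb : Poly E b) (hc : Poly E c) :
    Poly E (fun x => isSetL (a x) (b x) (c x)) := by
  refine Poly.and (Poly.not (Poly.eq ha hb)) (Poly.and (Poly.not (Poly.eq hb hc))
    (Poly.and (Poly.not (Poly.eq ha hc)) ?_))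
  refine Poly.all (g := fun p : γ × ℕ => tri ((a p.1)[p.2]?, ((b p.1)[p.2]?, (c p.1)[p.2]?)))
    (Poly.range ha.length) ?_
  exact Poly.comp₁ tri (Poly.pair
    (IsoImp.Poly.getElem? (f := fun p : γ × ℕ => a p.1) (i := fun p : γ × ℕ => p.2)
      (ha.comp Poly.fst) Poly.snd)
    (Poly.pair (IsoImp.Poly.getElem? (f := fun p : γ × ℕ => b p.1) (i := fun p : γ × ℕ => p.2)
      (hb.comp Poly.fst) Poly.snd)
    (IsoImp.Poly.getElem? (f := fun p : γ × ℕ => c p.1) (i := fun p : γ × ℕ => p.2)
      (hc.comp Poly.fst) Poly.snd)))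

theorem poly_moves' {C : γ → List LC} (hC : Poly E C) : Poly E (fun x => moves (C x)) := by
  have h1 : Poly E (fun p : (γ × LC) × LC => C p.1.1) := hC.comp (Poly.fst.comp Poly.fst)
  refine Poly.flatMap (g := fun p : γ × LC => (C p.1).flatMap fun b =>
    ((C p.1).filter fun c => isSetL p.2 b c).map fun c => [p.2, b, c]) hC ?_
  refine Poly.flatMap (g := fun q : (γ × LC) × LC =>
    ((C q.1.1).filter fun c => isSetL q.1.2 q.2 c).map fun c => [q.1.2, q.2, c])
    (hC.comp Poly.fst) ?_
  refine Poly.map (g := fun r : ((γ × LC) × LC) × LC => [r.1.1.2, r.1.2, r.2]) (Poly.filter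
    (g := fun r : ((γ × LC) × LC) × LC => isSetL r.1.1.2 r.1.2 r.2) h1 ?_) ?_
  · exact poly_isSetL (Poly.snd.comp (Poly.fst.comp Poly.fst)) (Poly.snd.comp Poly.fst) Poly.snd
  · exact Poly.cons (Poly.snd.comp (Poly.fst.comp Poly.fst)) (Poly.cons (Poly.snd.comp Poly.fst)
      (Poly.cons Poly.snd (Poly.const [])))

theorem poly_moves (E : Env) [Enc E (Fin 3)] : Poly E moves := poly_moves' Poly.id

theorem poly_rem {C m : γ → List LC} (hC : Poly E C) (hm : Poly E m) :
    Poly E (fun x => rem (C x) (m x)) := by
  refine Poly.filter (g := fun p : γ × LC => !((m p.1).any fun b => decide (p.2 = b))) hC ?_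
  refine Poly.not (Poly.any (g := fun q : (γ × LC) × LC => decide (q.1.2 = q.2))
    (hm.comp Poly.fst) (Poly.eq (Poly.snd.comp Poly.fst) Poly.snd))

theorem poly_step (E : Env) [Enc E (Fin 3)] : Poly E step := by
  refine Poly.listCasesF (f := fun s : St => s.2) (g := fun s => s)
    (h := fun p : St × ((List LC × List (List LC)) × List (List LC × List (List LC))) =>
      step (p.1.1, p.2.1 :: p.2.2)) _ Poly.snd Poly.id ?_ ?_ ?_
  · refine Poly.optCasesF
      (f := fun p : St × ((List LC × List (List LC)) × List (List LC × List (List LC))) => p.1.1)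
      (g := fun p => step (none, p.2.1 :: p.2.2))
      (h := fun q : (St × ((List LC × List (List LC)) × List (List LC × List (List LC)))) × Bool =>
        if q.2 then (none, q.1.2.1 :: q.1.2.2) else (some true, q.1.2.2)) _
      (Poly.fst.comp Poly.fst) ?_ ?_ ?_ ?_
    · have hC : Poly E (fun p : St × ((List LC × List (List LC)) × List (List LC × List (List LC)))
          => p.2.1.1) := Poly.fst.comp (Poly.fst.comp Poly.snd)
      have hs : Poly E (fun p : St × ((List LC × List (List LC)) × List (List LC × List (List LC)))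
          => p.2.2) := Poly.snd.comp Poly.snd
      refine Poly.listCasesF
        (f := fun p : St × ((List LC × List (List LC)) × List (List LC × List (List LC))) =>
          p.2.1.2)
        (g := fun p => (some false, p.2.2))
        (h := fun q : (St × ((List LC × List (List LC)) × List (List LC × List (List LC)))) ×
          (List LC × List (List LC)) =>
          (none, (rem q.1.2.1.1 q.2.1, moves (rem q.1.2.1.1 q.2.1)) :: (q.1.2.1.1, q.2.2) ::
            q.1.2.2)) _ (Poly.snd.comp (Poly.fst.comp Poly.snd)) ?_ ?_ ?_ ?_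
      · exact Poly.pair (Poly.const _) hs
      · have hr := poly_rem (hC.comp (Poly.fst (β := List LC × List (List LC))))
          (Poly.fst.comp (Poly.snd (α := St × ((List LC × List (List LC)) ×
            List (List LC × List (List LC)))) (β := List LC × List (List LC)) (E := E)))
        refine Poly.pair (Poly.const _) (Poly.cons (Poly.pair hr (poly_moves' hr)) (Poly.cons
          (Poly.pair (hC.comp Poly.fst) (Poly.snd.comp Poly.snd)) (hs.comp Poly.fst)))
      · rintro ⟨s, ⟨C, ms⟩, st⟩ h
        simp only at h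
        subst h
        rfl
      · rintro ⟨s, ⟨C, ms⟩, st⟩ m l h
        simp only at h
        subst h
        rfl
    · exact Poly.ite Poly.snd (Poly.pair (Poly.const _) (Poly.cons
        (Poly.fst.comp (Poly.snd.comp Poly.fst)) (Poly.snd.comp (Poly.snd.comp Poly.fst))))
        (Poly.pair (Poly.const _) (Poly.snd.comp (Poly.snd.comp Poly.fst)))
    · rintro ⟨⟨b, s⟩, f, st⟩ h
      simp only at h
      subst h
      rfl
    · rintro ⟨⟨b, s⟩, f, st⟩ a h
      simp only at h
      subst h
      obtain ⟨C, ms⟩ := f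
      cases a <;> cases ms <;> rfl
  · rintro ⟨b, s⟩ h
    simp only at h
    subst h
    cases b with
    | none => rfl
    | some b => cases b <;> rfl
  · rintro ⟨b, s⟩ f st h
    simp only at h
    subst h
    rfl

theorem poly_cont (E : Env) [Enc E (Fin 3)] : Poly E cont :=
  Poly.not (Poly.isEmpty Poly.snd)

theorem poly_out (E : Env) [Enc E (Fin 3)] : Poly E out :=
  Poly.eq Poly.fst (Poly.const _)

/-- One step of the decomposition into blocks. -/
def bst (a : Sy) (p : List LC × LC) : List LC × LC := match a with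
  | none => ([] :: p.1, p.2)
  | some d => match p.1 with
    | [] => ([], d :: p.2)
    | b :: bs => ((d :: b) :: bs, p.2)

theorem poly_bst {a : γ → Sy} {p : γ → List LC × LC} (ha : Poly E a) (hp : Poly E p) :
    Poly E (fun x => bst (a x) (p x)) := by
  refine Poly.optCasesF (f := a) (g := fun x => ([] :: (p x).1, (p x).2))
    (h := fun q : γ × Fin 3 => bst (some q.2) (p q.1)) _ ha
    (Poly.pair (Poly.cons (Poly.const _) (Poly.fst.comp hp)) (Poly.snd.comp hp)) ?_ ?_ ?_
  · refine Poly.listCasesF (f := fun q : γ × Fin 3 => (p q.1).1)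
      (g := fun q => ([], q.2 :: (p q.1).2))
      (h := fun r : (γ × Fin 3) × (LC × List LC) => ((r.1.2 :: r.2.1) :: r.2.2, (p r.1.1).2)) _
      (Poly.fst.comp (hp.comp Poly.fst)) (Poly.pair (Poly.const _)
        (Poly.cons Poly.snd (Poly.snd.comp (hp.comp Poly.fst)))) ?_ ?_ ?_
    · exact Poly.pair (Poly.cons (Poly.cons (Poly.snd.comp Poly.fst) (Poly.fst.comp Poly.snd))
        (Poly.snd.comp Poly.snd)) (Poly.snd.comp (hp.comp (Poly.fst.comp Poly.fst)))
    · intro q hq
      unfold bst
      rw [hq]
    · intro q b l hq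
      unfold bst
      rw [hq]
  · intro x hx
    rw [hx]
    rfl
  · intro x d hx
    rw [hx]

theorem poly_blocks (E : Env) [Enc E (Fin 3)] : Poly E blocks := by
  refine Poly.foldrAdd (f := fun x : List Sy => x) (b := fun _ => (([] : List LC), ([] : LC)))
    (g := fun q : List Sy × (Sy × (List LC × LC)) => bst q.2.1 q.2.2) Poly.id (Poly.const _)
    (poly_bst (Poly.fst.comp Poly.snd) (Poly.snd.comp Poly.snd)) (X + 5) ?_
  intro x a ha p
  obtain ⟨p, r⟩ := p
  simp only [eval_add, eval_X, eval_ofNat]
  cases a with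
  | none =>
    show esz E (([] : LC) :: p, r) ≤ _
    simp only [esz_prod, esz_cons, esz_nil]
    omega
  | some d =>
    have h1 := mem_esz_le (E := E) x (some d) ha
    simp only [esz_some] at h1
    cases p with
    | nil =>
      show esz E (([] : List LC), d :: r) ≤ _
      simp only [esz_prod, esz_cons, esz_nil]
      omega
    | cons b bs =>
      show esz E ((d :: b) :: bs, r) ≤ _
      simp only [esz_prod, esz_cons]
      omega

theorem poly_headD {C : γ → List LC} (hC : Poly E C) : Poly E (fun x => (C x).headD []) :=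
  Poly.listCasesF (f := C) (g := fun _ => []) (h := fun p : γ × (LC × List LC) => p.2.1) _ hC
    (Poly.const _) (Poly.fst.comp Poly.snd) (fun x hx => by rw [hx]; rfl)
    (fun x a l hx => by rw [hx]; rfl)

theorem poly_valid (E : Env) [Enc E (Fin 3)] : Poly E valid := by
  have h1 : Poly E (fun p : List LC × LC => p.1) := Poly.fst
  have h2 : Poly E (fun p : List LC × LC => p.2) := Poly.snd
  have hh := poly_headD h1
  refine Poly.and (Poly.isEmpty h2) (Poly.and (Poly.not (Poly.isEmpty h1)) (Poly.and ?_
    (Poly.and ?_ ?_)))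
  · exact Poly.all (g := fun q : (List LC × LC) × Fin 3 => decide (q.2 = 0)) hh
      (Poly.eq Poly.snd (Poly.const _))
  · exact Poly.all (g := fun q : (List LC × LC) × LC =>
      decide (q.2.length = (q.1.1.headD []).length)) h1.tail
      (Poly.eq (Poly.length Poly.snd) (Poly.length (hh.comp Poly.fst)))
  · exact Poly.all (g := fun q : (List LC × LC) × LC =>
      decide ((q.1.1.tail.filter fun d => decide (d = q.2)).length = 1)) h1.tail
      (Poly.eq (Poly.length (Poly.filter (g := fun r : ((List LC × LC) × LC) × LC =>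
        decide (r.2 = r.1.2)) (h1.tail.comp Poly.fst) (Poly.eq Poly.snd
          (Poly.snd.comp Poly.fst)))) (Poly.const _))

theorem poly_init (E : Env) [Enc E (Fin 3)] : Poly E init := by
  have hb := poly_blocks E
  have ht : Poly E (fun x : List Sy => (blocks x).1.tail) := Poly.tail (Poly.fst.comp hb)
  exact Poly.ite ((poly_valid E).comp hb) (Poly.pair (Poly.const _) (Poly.cons
    (Poly.pair ht (poly_moves' ht)) (Poly.const _))) (Poly.const _)

end Pool.Agent.SetPS.Mem
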