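import Pool.Agent.SetPS.MemDefs
import Pool.Agent.Lib_MP_a1eae6_lc.Fold

/-!
# The search algorithm: correctness and size of the states
-/

namespace Pool.Agent.SetPS.Mem

open Pool.Agent.PT81 Polynomial

theorem step_true (f : List LC × List (List LC)) (st : List (List LC × List (List LC))) :
    step (some true, f :: st) = (none, f :: st) := by
  obtain ⟨C, ms⟩ := f
  cases ms <;> rfl

theorem step_false (f : List LC × List (List LC)) (st : List (List LC × List (List LC))) :
    step (some false, f :: st) = (some true, st) := by
  obtain ⟨C, ms⟩ := f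
  cases ms <;> rfl

/-! ### Correctness -/

/-- The search leads from `s` to `s'` in `N` steps and the frames `st` stay below. -/
def Reach (s : St) (N : ℕ) (s' : St) (st : List (List LC × List (List LC))) : Prop :=
  step^[N] s = s' ∧ ∀ t < N, ∃ fr, fr ≠ [] ∧ (step^[t] s).2 = fr ++ st

theorem Reach.trans {s s' s'' : St} {N N' : ℕ} {st : List (List LC × List (List LC))}
    (h : Reach s N s' st) (h' : Reach s' N' s'' st) : Reach s (N + N') s'' st := by
  refine ⟨by rw [Nat.add_comm, Function.iterate_add_apply, h.1, h'.1], ?_⟩
  intro t ht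
  by_cases h1 : t < N
  · exact h.2 t h1
  · obtain ⟨r, rfl⟩ := Nat.exists_eq_add_of_le (le_of_not_gt h1)
    rw [Nat.add_comm, Function.iterate_add_apply, h.1]
    exact h'.2 r (by omega)

theorem Reach.weaken {s s' : St} {N : ℕ} {f : List LC × List (List LC)}
    {st : List (List LC × List (List LC))} (h : Reach s N s' (f :: st)) : Reach s N s' st := by
  refine ⟨h.1, fun t ht => ?_⟩
  obtain ⟨fr, -, h2⟩ := h.2 t ht
  exact ⟨fr ++ [f], by simp, by rw [h2]; simp⟩

theorem Reach.one {s s' : St} {st : List (List LC × List (List LC))} (h : step s = s')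
    (fr : List (List LC × List (List LC))) (hf : fr ≠ []) (hs : s.2 = fr ++ st) :
    Reach s 1 s' st := by
  refine ⟨h, fun t ht => ?_⟩
  have : t = 0 := by omega
  subst this
  exact ⟨fr, hf, hs⟩

open Classical in
theorem run (n : ℕ) : ∀ C : List LC, C.length ≤ n → ∀ (ms : List (List LC)),
    (∀ m ∈ ms, m ∈ moves C) → ∀ st, ∃ N, Reach (none, (C, ms) :: st) N
      (some (decide (∃ m ∈ ms, ¬ winL (rem C m))), st) st := by
  induction n with
  | zero =>
    intro C hC ms hms st
    have : ms = [] := by
      cases ms with
      | nil => rfl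
      | cons m ms =>
        have := rem_lt (hms m (by simp))
        omega
    subst this
    refine ⟨1, Reach.one ?_ [(C, [])] (by simp) rfl⟩
    simp [step]
  | succ n ih =>
    intro C hC ms
    induction ms with
    | nil =>
      intro _ st
      refine ⟨1, Reach.one ?_ [(C, [])] (by simp) rfl⟩
      simp [step]
    | cons m ms ihm =>
      intro hms st
      have hm := hms m (by simp)
      have hlt := rem_lt hm
      obtain ⟨N1, h1⟩ := ih (rem C m) (by omega) (moves (rem C m)) (fun _ h => h) ((C, ms) :: st)
      have hs : Reach (none, (C, m :: ms) :: st) 1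
          (none, (rem C m, moves (rem C m)) :: (C, ms) :: st) st :=
        Reach.one rfl [(C, m :: ms)] (by simp) rfl
      have h2 := hs.trans h1.weaken
      have hw : (∃ m' ∈ moves (rem C m), ¬ winL (rem (rem C m) m')) ↔ winL (rem C m) := by
        conv_rhs => rw [winL]
        simp only [exists_prop]
      rw [decide_eq_decide.2 hw] at h2
      by_cases hb : winL (rem C m)
      · rw [decide_eq_true hb] at h2
        have h3 : Reach (some true, (C, ms) :: st) 1 (none, (C, ms) :: st) st :=
          Reach.one (step_true _ _) [(C, ms)] (by simp) rfl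
        obtain ⟨N2, h4⟩ := ihm (fun m' h => hms m' (List.mem_cons_of_mem _ h)) st
        have h5 := (h2.trans h3).trans h4
        refine ⟨1 + N1 + 1 + N2, ?_⟩
        have e : (∃ m' ∈ m :: ms, ¬ winL (rem C m')) ↔ ∃ m' ∈ ms, ¬ winL (rem C m') := by
          constructor
          · rintro ⟨m', h6, h7⟩
            rcases List.mem_cons.1 h6 with rfl | h6
            · exact absurd hb h7
            · exact ⟨m', h6, h7⟩
          · rintro ⟨m', h6, h7⟩
            exact ⟨m', List.mem_cons_of_mem _ h6, h7⟩
        rw [decide_eq_decide.2 e]
        exact h5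
      · rw [decide_eq_false hb] at h2
        have h3 : Reach (some false, (C, ms) :: st) 1 (some true, st) st :=
          Reach.one (step_false _ _) [(C, ms)] (by simp) rfl
        refine ⟨1 + N1 + 1, ?_⟩
        have e : (∃ m' ∈ m :: ms, ¬ winL (rem C m')) := ⟨m, by simp, hb⟩
        rw [decide_eq_true e]
        exact h2.trans h3

theorem search_correct (C : List LC) : ∃ N, cont (step^[N] (none, [(C, moves C)])) = false ∧
    (∀ t < N, cont (step^[t] (none, [(C, moves C)])) = true) ∧
    (out (step^[N] (none, [(C, moves C)])) = true ↔ winL C) := by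
  classical
  obtain ⟨N, h1, h2⟩ := run C.length C le_rfl (moves C) (fun _ h => h) []
  refine ⟨N, ?_, ?_, ?_⟩
  · rw [h1]; rfl
  · intro t ht
    obtain ⟨fr, h3, h4⟩ := h2 t ht
    unfold cont
    rw [h4]
    cases fr with
    | nil => exact absurd rfl h3
    | cons a fr => rfl
  · rw [h1]
    unfold out
    conv_rhs => rw [winL]
    simp only [exists_prop, decide_eq_true_eq, Option.some.injEq]

/-! ### Size of the states -/

variable {E : Env}

theorem esz_sublist {α : Type} [Enc E α] {l m : List α} (h : l.Sublist m) :
    esz E l ≤ esz E m := by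
  induction h with
  | slnil => exact le_rfl
  | cons a h ih => simp only [esz_cons]; omega
  | cons_cons a h ih => simp only [esz_cons]; omega

/-- The invariant of the search. -/
structure Inv (C₀ : List LC) (s : St) : Prop where
  sub : ∀ f ∈ s.2, f.1.Sublist C₀ ∧ f.2 <:+ moves f.1
  pw : s.2.Pairwise fun f g => f.1.length < g.1.length

theorem Inv.step {C₀ : List LC} {s : St} (h : Inv C₀ s) : Inv C₀ (step s) := by
  obtain ⟨b, st⟩ := s
  cases st with
  | nil => cases b with
    | none => exact h
    | some b => cases b <;> exact h
  | cons f st =>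
    obtain ⟨C, ms⟩ := f
    have h1 : ∀ f ∈ st, f.1.Sublist C₀ ∧ f.2 <:+ moves f.1 := fun f hf =>
      h.sub f (List.mem_cons_of_mem _ hf)
    have h2 := List.pairwise_cons.1 h.pw
    cases b with
    | none =>
      cases ms with
      | nil => exact ⟨h1, h2.2⟩
      | cons m ms =>
        have h3 := h.sub (C, m :: ms) (by simp)
        have hm : m ∈ moves C := h3.2.subset (by simp)
        have hlt := rem_lt hm
        have hsub : (rem C m).Sublist C := List.filter_sublist
        refine ⟨?_, ?_⟩
        · intro f hf
          have hf' : f ∈ (rem C m, moves (rem C m)) :: (C, ms) :: st := hf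
          rcases List.mem_cons.1 hf' with rfl | hf'
          · exact ⟨hsub.trans h3.1, List.suffix_refl _⟩
          · rcases List.mem_cons.1 hf' with rfl | hf'
            · exact ⟨h3.1, (List.suffix_cons m ms).trans h3.2⟩
            · exact h1 f hf'
        · show List.Pairwise _ ((rem C m, moves (rem C m)) :: (C, ms) :: st)
          refine List.pairwise_cons.2 ⟨?_, List.pairwise_cons.2 ⟨h2.1, h2.2⟩⟩
          intro g hg
          rcases List.mem_cons.1 hg with rfl | hg
          · exact hlt
          · exact hlt.trans (h2.1 g hg)
    | some b =>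
      cases b with
      | false => rw [step_false]; exact ⟨h1, h2.2⟩
      | true => rw [step_true]; exact ⟨h.sub, h.pw⟩

theorem Inv.length {C₀ : List LC} {s : St} (h : Inv C₀ s) : s.2.length ≤ C₀.length + 1 := by
  have h1 : (s.2.map fun f => f.1.length).Nodup := by
    rw [List.Nodup, List.pairwise_map]
    exact h.pw.imp fun hab => ne_of_lt hab
  have h2 : (s.2.map fun f => f.1.length).toFinset ⊆ Finset.range (C₀.length + 1) := by
    intro n hn
    rw [List.mem_toFinset, List.mem_map] at hn
    obtain ⟨f, hf, rfl⟩ := hn
    rw [Finset.mem_range]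
    have := (h.sub f hf).1.length_le
    omega
  have h3 := Finset.card_le_card h2
  rw [List.toFinset_card_of_nodup h1, List.length_map, Finset.card_range] at h3
  exact h3

theorem search_size (E : Env) [Enc E (Fin 3)] (hm : Poly E moves) : ∃ p : ℕ[X], ∀ C t,
    esz E (step^[t] (none, [(C, moves C)])) ≤ p.eval (esz E C) := by
  obtain ⟨q, hq⟩ := hm.bound
  refine ⟨7 + X * (2 + X + q), fun C t => ?_⟩
  have h0 : Inv C (none, [(C, moves C)]) := by
    refine ⟨?_, by simp⟩
    intro f hf
    simp only [List.mem_singleton] at hf
    subst hf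
    exact ⟨List.Sublist.refl _, List.suffix_refl _⟩
  have h1 : ∀ t, Inv C (step^[t] (none, [(C, moves C)])) := by
    intro t
    induction t with
    | zero => exact h0
    | succ t ih => rw [Function.iterate_succ_apply']; exact ih.step
  have h2 := h1 t
  generalize step^[t] (none, [(C, moves C)]) = s at h2
  obtain ⟨b, st⟩ := s
  have h3 : ∀ f ∈ st, esz E f ≤ 1 + esz E C + q.eval (esz E C) := by
    intro f hf
    obtain ⟨h4, h5⟩ := h2.sub f hf
    have h6 := esz_sublist (E := E) h4
    have h7 := (esz_sublist (E := E) h5.sublist).trans (hq f.1)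
    have h8 := pmono q h6
    obtain ⟨a, b⟩ := f
    simp only [esz_prod]
    simp only at h6 h7 h8
    omega
  have h4 : ∀ (l : List (List LC × List (List LC))), (∀ f ∈ l, esz E f ≤
      1 + esz E C + q.eval (esz E C)) → esz E l ≤ 1 + l.length *
        (2 + esz E C + q.eval (esz E C)) := by
    intro l
    induction l with
    | nil => intro _; simp
    | cons f l ih =>
      intro hl
      have h5 := ih fun g hg => hl g (List.mem_cons_of_mem _ hg)
      have h6 := hl f (by simp)
      simp only [esz_cons, List.length_cons]
      have : (l.length + 1) * (2 + esz E C + q.eval (esz E C)) =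
          l.length * (2 + esz E C + q.eval (esz E C)) + (2 + esz E C + q.eval (esz E C)) := by ring
      rw [this]
      omega
  have h5 := h4 st h3
  have h6 : st.length ≤ esz E C := by
    have h7 : st.length ≤ C.length + 1 := h2.length
    have h8 := length_le_esz (E := E) C
    omega
  have h7 := Nat.mul_le_mul_right (2 + esz E C + q.eval (esz E C)) h6
  have h8 : esz E b ≤ 5 := by
    cases b with
    | none => simp
    | some b =>
      have := esz_bool (E := E) b
      simp only [esz_some]
      omega
  simp only [esz_prod, eval_add, eval_mul, eval_X, eval_ofNat]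
  omega

end Pool.Agent.SetPS.Mem
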