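import Pool.Agent.SetPS.Defs
import Pool.Agent.Lib_MP_a1eae6_lc.Gen

/-!
# Iterating a polynomial-time function in polynomial space
-/

set_option linter.unusedSectionVars false

namespace Pool.Agent.SetPS.WH

open Turing Polynomial Pool.Agent.PT81 Pool.Agent.IsoImp
open Function (update)

section generic

variable {K : Type} [DecidableEq K] [Fintype K] {Γ : K → Type} {σ : Type}

/-- The total number of symbols. -/
def tot (S : ∀ k, List (Γ k)) : ℕ := ∑ k, (S k).length

theorem tot_update (S : ∀ k, List (Γ k)) (k : K) (l : List (Γ k)) :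
    tot (update S k l) + (S k).length = tot S + l.length := by
  unfold tot
  rw [← Finset.add_sum_erase _ _ (Finset.mem_univ k),
    ← Finset.add_sum_erase (a := k) (Finset.univ) (fun k => (S k).length) (Finset.mem_univ k)]
  have h : ∑ x ∈ Finset.univ.erase k, (update S k l x).length =
      ∑ x ∈ Finset.univ.erase k, (S x).length := by
    apply Finset.sum_congr rfl
    intro x hx
    rw [Function.update_of_ne (Finset.ne_of_mem_erase hx)]
  rw [h, Function.update_self]
  omega

/-- A run of exactly `t` steps whose configurations have size at most `B`. -/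
def StepsB {Λ : Type} (M : Λ → TM2.Stmt Γ Λ σ) (t : ℕ) (a b : TM2.Cfg Γ Λ σ) (B : ℕ) : Prop :=
  Steps M t a b ∧ ∀ s ≤ t, ∀ c, (flip bind (TM2.step M))^[s] (some a) = some c → tot c.stk ≤ B

variable {Λ : Type} {M : Λ → TM2.Stmt Γ Λ σ}

theorem StepsB.trans {t₁ t₂ B : ℕ} {a b c : TM2.Cfg Γ Λ σ} (h₁ : StepsB M t₁ a b B)
    (h₂ : StepsB M t₂ b c B) : StepsB M (t₁ + t₂) a c B := by
  refine ⟨h₁.1.trans h₂.1, ?_⟩
  intro s hs d hd
  by_cases h : s ≤ t₁
  · exact h₁.2 s h d hd
  · obtain ⟨r, rfl⟩ := Nat.exists_eq_add_of_le (le_of_not_ge h)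
    rw [Nat.add_comm, Function.iterate_add_apply] at hd
    have h3 : (flip bind (TM2.step M))^[t₁] (some a) = some b := h₁.1
    rw [h3] at hd
    exact h₂.2 r (by omega) d hd

theorem StepsB.mono {t B B' : ℕ} {a b : TM2.Cfg Γ Λ σ} (h : StepsB M t a b B) (hB : B ≤ B') :
    StepsB M t a b B' :=
  ⟨h.1, fun s hs c hc => (h.2 s hs c hc).trans hB⟩

theorem StepsB.one {a b : TM2.Cfg Γ Λ σ} {B : ℕ} (h : TM2.step M a = some b)
    (ha : tot a.stk ≤ B) (hb : tot b.stk ≤ B) : StepsB M 1 a b B := by
  have h1 := Steps.one h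
  refine ⟨h1, ?_⟩
  intro s hs c hc
  rcases Nat.le_one_iff_eq_zero_or_eq_one.1 hs with rfl | rfl
  · have : a = c := Option.some.inj hc
    rw [← this]
    exact ha
  · have h2 : (flip bind (TM2.step M))^[1] (some a) = some b := h1
    rw [h2] at hc
    have : b = c := Option.some.inj hc
    rw [← this]
    exact hb

theorem StepsB.tot_le {t B : ℕ} {a b : TM2.Cfg Γ Λ σ} (h : StepsB M t a b B) : tot b.stk ≤ B :=
  h.2 t le_rfl b h.1

/-- Size along the run of a compiled command. -/
theorem code_space {c : Cmd Γ σ} {v v' : σ}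
    {S S' : ∀ k, List (Γ k)} {t : ℕ} (h : Exec c v S v' S' t) :
    ∀ (emb : Lab c → Λ) (exit : Λ), (∀ l, M (emb l) = code c emb exit l) →
      StepsB M t ⟨some (emb (entry c)), v, S⟩ ⟨some exit, v', S'⟩ (tot S + t) := by
  induction h with
  | push k f v S =>
    intro emb exit hM
    refine StepsB.one ?_ (by simp) ?_
    · simp only [TM2.step]
      rw [hM]
      rfl
    · have h := tot_update S k (f v :: S k)
      simp only [List.length_cons] at h
      show tot (update S k (f v :: S k)) ≤ _
      omega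
  | pop k f v S =>
    intro emb exit hM
    refine StepsB.one ?_ (by simp) ?_
    · simp only [TM2.step]
      rw [hM]
      rfl
    · have h := tot_update S k (S k).tail
      simp only [List.length_tail] at h
      show tot (update S k (S k).tail) ≤ _
      omega
  | peek k f v S =>
    intro emb exit hM
    refine StepsB.one ?_ (by simp) (by simp)
    simp only [TM2.step]
    rw [hM]
    rfl
  | load f v S =>
    intro emb exit hM
    refine StepsB.one ?_ (by simp) (by simp)
    simp only [TM2.step]
    rw [hM]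
    rfl
  | seq h₁ h₂ ih₁ ih₂ =>
    intro emb exit hM
    have e1 := ih₁ (fun l => emb (Sum.inl l)) (emb (Sum.inr (entry _))) (fun l => hM (Sum.inl l))
    have e2 := ih₂ (fun l => emb (Sum.inr l)) exit (fun l => hM (Sum.inr l))
    have e3 := e1.tot_le
    simp only at e3
    exact StepsB.trans (e1.mono (by omega)) (e2.mono (by omega))
  | iteT hp h ih =>
    intro emb exit hM
    refine StepsB.trans (StepsB.one ?_ (by simp) (by simp))
      ((ih (fun l => emb (some (Sum.inl l))) exit
      (fun l => hM (some (Sum.inl l)))).mono (by omega))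
    simp only [TM2.step]
    rw [hM]
    show some (cond _ _ _) = _
    rw [hp]
    rfl
  | iteF hp h ih =>
    intro emb exit hM
    refine StepsB.trans (StepsB.one ?_ (by simp) (by simp))
      ((ih (fun l => emb (some (Sum.inr l))) exit
      (fun l => hM (some (Sum.inr l)))).mono (by omega))
    simp only [TM2.step]
    rw [hM]
    show some (cond _ _ _) = _
    rw [hp]
    rfl
  | loopDone hp =>
    intro emb exit hM
    refine StepsB.one ?_ (by simp) (by simp)
    simp only [TM2.step]
    rw [hM]
    show some (cond _ _ _) = _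
    rw [hp]
    rfl
  | loopStep hp h₁ h₂ ih₁ ih₂ =>
    intro emb exit hM
    have e1 := ih₁ (fun l => emb (some l)) (emb none) (fun l => hM (some l))
    have e2 := ih₂ emb exit hM
    have e3 := e1.tot_le
    simp only at e3
    refine StepsB.trans (StepsB.trans (StepsB.one ?_ (by simp [Nat.add_assoc]) (by simp [Nat.add_assoc]))
      (e1.mono (by omega))) (e2.mono (by omega))
    simp only [TM2.step]
    rw [hM]
    show some (cond _ _ _) = _
    rw [hp]
    rfl

/-- Execution with a bound on the size. -/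
inductive ExecS (B : ℕ) : Cmd Γ σ → σ → (∀ k, List (Γ k)) → σ → (∀ k, List (Γ k)) → ℕ → Prop
  | base {c : Cmd Γ σ} {v v' : σ} {S S' : ∀ k, List (Γ k)} {t : ℕ} :
      Exec c v S v' S' t → tot S + t ≤ B → ExecS B c v S v' S' t
  | seq {c₁ c₂ : Cmd Γ σ} {v₀ v₁ v₂ : σ} {S₀ S₁ S₂ : ∀ k, List (Γ k)} {t₁ t₂ : ℕ} :
      ExecS B c₁ v₀ S₀ v₁ S₁ t₁ → ExecS B c₂ v₁ S₁ v₂ S₂ t₂ →
        ExecS B (.seq c₁ c₂) v₀ S₀ v₂ S₂ (t₁ + t₂)
  | loopStep {p : σ → Bool} {c : Cmd Γ σ} {v v' v'' : σ} {S S' S'' : ∀ k, List (Γ k)}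
      {t t' : ℕ} :
      p v = true → tot S ≤ B → ExecS B c v S v' S' t → ExecS B (.loop p c) v' S' v'' S'' t' →
        ExecS B (.loop p c) v S v'' S'' (1 + t + t')

theorem code_spaceS {B : ℕ} {c : Cmd Γ σ} {v v' : σ}
    {S S' : ∀ k, List (Γ k)} {t : ℕ} (h : ExecS B c v S v' S' t) :
    ∀ (emb : Lab c → Λ) (exit : Λ), (∀ l, M (emb l) = code c emb exit l) →
      StepsB M t ⟨some (emb (entry c)), v, S⟩ ⟨some exit, v', S'⟩ B := by
  induction h with
  | base h hB =>
    intro emb exit hM
    exact (code_space h emb exit hM).mono hB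
  | seq h₁ h₂ ih₁ ih₂ =>
    intro emb exit hM
    exact StepsB.trans (ih₁ (fun l => emb (Sum.inl l)) (emb (Sum.inr (entry _)))
      (fun l => hM (Sum.inl l))) (ih₂ (fun l => emb (Sum.inr l)) exit (fun l => hM (Sum.inr l)))
  | loopStep hp hB h₁ h₂ ih₁ ih₂ =>
    intro emb exit hM
    refine StepsB.trans (StepsB.trans (StepsB.one ?_ hB hB)
      (ih₁ (fun l => emb (some l)) (emb none) (fun l => hM (some l)))) (ih₂ emb exit hM)
    simp only [TM2.step]
    rw [hM]
    show some (cond _ _ _) = _
    rw [hp]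
    rfl

theorem prog_spaceS {B : ℕ} {c : Cmd Γ σ} {v v' : σ} {S S' : ∀ k, List (Γ k)} {t : ℕ}
    (h : ExecS B c v S v' S' t) :
    StepsB (prog c) (t + 1) ⟨some (some (entry c)), v, S⟩ ⟨none, v', S'⟩ B := by
  have h1 := code_spaceS (M := prog c) h some none (fun l => rfl)
  refine StepsB.trans h1 (StepsB.one ?_ h1.tot_le h1.tot_le)
  simp [TM2.step, prog]

/-- After halting nothing happens. -/
theorem after_halt {t : ℕ} {a b : TM2.Cfg Γ Λ σ} {B : ℕ} (h : StepsB M t a b B)
    (hb : b.l = none) (s : ℕ) (c : TM2.Cfg Γ Λ σ)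
    (hc : (flip bind (TM2.step M))^[s] (some a) = some c) : tot c.stk ≤ B := by
  by_cases hs : s ≤ t
  · exact h.2 s hs c hc
  · exfalso
    obtain ⟨r, rfl⟩ := Nat.exists_eq_add_of_lt (lt_of_not_ge hs)
    have e : t + r + 1 = r + (1 + t) := by ring
    rw [e, Function.iterate_add_apply, Function.iterate_add_apply] at hc
    have h3 : (flip bind (TM2.step M))^[t] (some a) = some b := h.1
    rw [h3] at hc
    have h4 : (flip bind (TM2.step M))^[1] (some b) = none := by
      obtain ⟨l, w, S⟩ := b
      simp only at hb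
      subst hb
      rfl
    rw [h4] at hc
    have h5 : ∀ r, (flip bind (TM2.step M))^[r] none = none := by
      intro r
      induction r with
      | zero => rfl
      | succ r ih => rw [Function.iterate_succ_apply', ih]; rfl
    rw [h5] at hc
    simp at hc

end generic

section machine

variable {Γ : Type} [Fintype Γ] [DecidableEq Γ]

/-- The leaf labels. -/
abbrev Al (Γ : Type) : Type := Option (Γ ⊕ Bool)

/-- Reading an input symbol. -/
def j₀ (Γ : Type) : Γ → PT81.Sy (Al Γ) := fun g => some (some (some (Sum.inl g)))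

/-- Writing an output symbol. -/
def d₀ (Γ : Type) : Option (PT81.Sy (Al Γ)) → Bool := fun z => match z with
  | some (some (some (some (Sum.inr g)))) => g
  | _ => default

/-- The test of the flag. -/
def test : Cm Γ Bool (Al Γ) := .seq (cpop 0) (.seq (cpeek 0) (cpush 0 (some none)))

/-- Reading the input. -/
def pre (c : Cm Γ Bool (Al Γ)) : Cm Γ Bool (Al Γ) :=
  .seq (cpush 0 (some (some none)))
  (.seq (peekI (j₀ Γ)) (.seq (inLoop (j₀ Γ)) (.seq buildLoop (.seq c test))))

/-- Writing the output. -/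
def post (c : Cm Γ Bool (Al Γ)) : Cm Γ Bool (Al Γ) :=
  .seq c (.seq outLoop1 (.seq (cpeek 2) (.seq (outLoop2 (d₀ Γ)) (.load fun _ => (none, false)))))

/-- The loop. -/
def lp (c : Cm Γ Bool (Al Γ)) : Cm Γ Bool (Al Γ) :=
  .loop (fun v => decide (v.1 = some (some none))) (.seq c test)

/-- The value of the first variable after the test of a flag. -/
def hd (b : Bool) : Option (PT81.Sy (Al Γ)) := if b then some (some none) else some (some (some none))

theorem rn_test (b : Bool) (t : Tr (Al Γ)) (v : Va (Al Γ)) :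
    Rn (test (Γ := Γ)) [] [] v (vec (Tr.node (bstr none b) t).str [] [] [])
      (hd b, v.2) (vec (Tr.node (bstr none b) t).str [] [] []) 3 := by
  have h : Rn (test (Γ := Γ)) [] [] v (vec (Tr.node (bstr none b) t).str [] [] [])
      ((Tr.node (bstr none b) t).str.tail.head?, v.2)
      (vec (Tr.node (bstr none b) t).str [] [] []) (1 + (1 + 1)) :=
    Rn.seq (rn_pop0 _ _ _ _ _) (Rn.seq (rn_peek0 _ _ _ _ _) (rn_push0 _ _ _ _ _ _))
  have e1 : (Tr.node (bstr none b) t).str.tail.head? = (hd b : Option (PT81.Sy (Al Γ))) := by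
    cases b <;> rfl
  rw [e1] at h
  exact h

/-- The state with one work stack. -/
abbrev st0 (x : List Γ) (O : List Bool) (m : List (PT81.Sy (Al Γ))) :
    ∀ k, List (Gam Γ Bool (Al Γ) k) := st x O (vec m [] [] [])

theorem tot_st0 (x : List Γ) (O : List Bool) (m : List (PT81.Sy (Al Γ))) :
    tot (st0 x O m) = x.length + O.length + m.length := by
  have h : (Finset.univ : Finset RK) = {.inp, .out, .r 0, .r 1, .r 2, .r 3} := by decide
  unfold tot
  rw [h]
  simp
  omega

variable {St : Type} [Enc (io Γ Bool) St]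

theorem run_pre (x : List Γ) (c : Cm Γ Bool (Al Γ)) (b : Bool) (t : Tr (Al Γ)) (B : ℕ)
    (hc : ∀ v, ∃ v', Rn c [] [] v (vec (le (E := io Γ Bool) (inE Γ Bool) x).str [] [] []) v'
      (vec (Tr.node (bstr none b) t).str [] [] []) B) :
    ∃ f, ∃ n ≤ 9 * x.length + B + 10, Exec (pre c) (none, false) (st0 x [] []) (hd b, f)
      (st0 [] [] (Tr.node (bstr none b) t).str) n := by
  have h1 : Ex (A := Al Γ) (cpush 0 (some (some none))) (none, false) x
      ([] : List Bool) (vec [] [] [] [])
      (none, false) x [] (vec [some (some none)] [] [] []) 1 := by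
    have := ex_push (I := x) (O := ([] : List Bool)) (R := vec [] [] [] []) (v := (none, false)) 0
      (some (some (none : Al Γ)))
    rw [upd0] at this
    exact this
  have h2 := ex_peekI (I := x) (O := ([] : List Bool)) (j₀ Γ) (none, false)
    (vec [some (some none)] [] [] [])
  have h3 := ex_inLoop (O := ([] : List Bool)) (j₀ Γ) x false [some (some none)] [] [] []
  obtain ⟨n4, hn4, h4⟩ := rn_buildLoop (I := ([] : List Γ)) (O := ([] : List Bool))
    (x.map (j₀ Γ)).reverse (none, false) [some (some none)] [] []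
  rw [List.reverse_reverse] at h4
  have e1 : inter (x.map (j₀ Γ)) ++ [some (some none)] =
      (le (E := io Γ Bool) (inE Γ Bool) x).str := by
    have := le_str (io Γ Bool) (fun g : Γ => (some (Sum.inl g) : (io Γ Bool).A)) x
    exact this.symm
  rw [e1] at h4
  rw [List.append_nil] at h3
  obtain ⟨v5, n5, hn5, h5⟩ := hc (none, false)
  obtain ⟨n6, hn6, h6⟩ := rn_test (Γ := Γ) b t v5
  refine ⟨v5.2, _, ?_, Ex.seq h1 (Ex.seq h2 (Ex.seq h3 (Ex.seq h4 (Ex.seq h5 h6))))⟩
  simp only [List.length_map, List.length_reverse] at hn4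
  omega

theorem run_post (c : Cm Γ Bool (Al Γ)) (b : Bool) (m : List (PT81.Sy (Al Γ))) (v : Va (Al Γ)) (B : ℕ)
    (hc : ∃ v', Rn c [] [] v (vec m [] [] []) v'
      (vec (le (E := io Γ Bool) (outE Γ Bool) [b]).str [] [] []) B) :
    ∃ n ≤ B + 20, Exec (post c) v (st0 [] [] m) (none, false) (st0 [] [b] []) n := by
  obtain ⟨v5, n5, hn5, h5⟩ := hc
  have hle : le (E := io Γ Bool) (outE Γ Bool) [b] =
      le (E := io Γ Bool) Tr.leaf ([b].map fun g => (some (Sum.inr g) : (io Γ Bool).A)) :=
    le_map (io Γ Bool) (fun g : Bool => (some (Sum.inr g) : (io Γ Bool).A)) [b]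
  rw [hle] at h5
  obtain ⟨n6, hn6, h6⟩ := rn_outLoop1 (I := ([] : List Γ)) (O := ([] : List Bool))
    (none : Al Γ) ([b].map fun g => (some (Sum.inr g) : Al Γ)) v5 [] [] []
  rw [List.append_nil] at h6
  set w : List (PT81.Sy (Al Γ)) := (([b].map
    fun g => (some (Sum.inr g) : Al Γ)).map fun a => some (some a)).reverse with hw
  have h7 : Ex (cpeek 2) (some (some (some none)), v5.2) ([] : List Γ) ([] : List Bool)
    (vec [] [] w []) (w.head?, v5.2) [] [] (vec [] [] w []) 1 := ex_peek 2
  have h8 := ex_outLoop2 (I := ([] : List Γ)) (d₀ Γ) w v5.2 [] [] [] []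
  have e2 : (w.map fun z => d₀ Γ (some z)).reverse ++ [] = [b] := by
    rw [hw]; rfl
  rw [e2] at h8
  have h9 : Ex (.load fun _ => (none, false)) (none, v5.2) ([] : List Γ) [b]
    (vec [] [] [] []) (none, false) [] [b] (vec [] [] [] []) 1 :=
    Exec.load (Γ := Gam Γ Bool (Al Γ)) (fun _ => (none, false)) _ _
  refine ⟨_, ?_, Ex.seq h5 (Ex.seq h6 (Ex.seq h7 (Ex.seq h8 h9)))⟩
  have hwl : w.length = 1 := by simp [hw]
  simp only [List.length_map, List.length_cons, List.length_nil] at hn6
  rw [hwl]
  omega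

/-- The flag and the state. -/
abbrev fs (cont : St → Bool) (s : St) : Bool × St := (cont s, s)

theorem run_loop (cs : Cm Γ Bool (Al Γ)) (step : St → St) (cont : St → Bool) (q M B : ℕ)
    (s₀ : St) (N : ℕ)
    (hM : ∀ t, (en (io Γ Bool) (fs cont (step^[t] s₀))).sz ≤ M)
    (hcs : ∀ t v, ∃ v', Rn cs [] [] v (vec (en (io Γ Bool) (fs cont (step^[t] s₀))).str [] [] [])
      v' (vec (en (io Γ Bool) (fs cont (step^[t + 1] s₀))).str [] [] []) q)
    (hB : M + q + 3 ≤ B) (h0 : cont (step^[N] s₀) = false)
    (h1 : ∀ t < N, cont (step^[t] s₀) = true) :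
    ∀ (m k : ℕ), k + m = N → ∀ f, ∃ f' n, ExecS B (lp cs) (hd (cont (step^[k] s₀)), f)
      (st0 [] [] (en (io Γ Bool) (fs cont (step^[k] s₀))).str) (hd false, f')
      (st0 [] [] (en (io Γ Bool) (fs cont (step^[N] s₀))).str) n := by
  have htot : ∀ t, tot (st0 (Γ := Γ) [] [] (en (io Γ Bool) (fs cont (step^[t] s₀))).str) ≤ M := by
    intro t
    rw [tot_st0]
    simp only [List.length_nil, zero_add]
    exact hM t
  intro m
  induction m with
  | zero =>
    intro k hk f
    have hk' : k = N := by omega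
    subst hk'
    refine ⟨f, 1, ?_⟩
    rw [h0]
    refine ExecS.base (Exec.loopDone (by rfl)) ?_
    have := htot k
    omega
  | succ m ih =>
    intro k hk f
    obtain ⟨v', n1, hn1, e1⟩ := hcs k (hd (cont (step^[k] s₀)), f)
    obtain ⟨n2, hn2, e2⟩ := rn_test (Γ := Γ) (cont (step^[k + 1] s₀))
      (en (io Γ Bool) (step^[k + 1] s₀)) v'
    obtain ⟨f', n3, e3⟩ := ih (k + 1) (by omega) v'.2
    refine ⟨f', _, ExecS.loopStep ?_ ((htot k).trans (by omega)) (ExecS.base (Exec.seq e1 e2) ?_) e3⟩
    · rw [h1 k (by omega)]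
      rfl
    · have := htot k
      omega

end machine

end Pool.Agent.SetPS.WH

namespace Pool.Agent.SetPS

open Turing Polynomial Pool.Agent.PT81 Pool.Agent.IsoImp WH

/-- Module W: a polynomial-time step function iterated on states of polynomial size decides in
polynomial space. -/
theorem inPSPACE_of_while {Γ St : Type} [Fintype Γ] [DecidableEq Γ] [Enc (io Γ Bool) Γ]
    [Enc (io Γ Bool) St] (L : Set (List Γ)) (init : List Γ → St) (step : St → St)
    (cont out : St → Bool) (h1 : Poly (io Γ Bool) init) (h2 : Poly (io Γ Bool) step)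
    (h3 : Poly (io Γ Bool) cont) (h4 : Poly (io Γ Bool) out) (p : ℕ[X])
    (hp : ∀ x t, esz (io Γ Bool) (step^[t] (init x)) ≤ p.eval x.length)
    (hL : ∀ x, ∃ N, cont (step^[N] (init x)) = false ∧
      (∀ t < N, cont (step^[t] (init x)) = true) ∧
      (out (step^[N] (init x)) = true ↔ x ∈ L)) : InPSPACE L := by
  -- the three programs
  have ha : PT (io Γ Bool) (le (inE Γ Bool)) (en (io Γ Bool)) (fun x => fs cont (init x)) := by
    have k1 : Poly (io Γ Bool) (fun l : List (RawI Γ) => l.map RawI.val) :=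
      Poly.map (g := fun p : List (RawI Γ) × RawI Γ => p.2.val) Poly.id
        (Poly.comp₁ RawI.val Poly.snd)
    have k2 : Poly (io Γ Bool) (fun l : List (RawI Γ) => fs cont (init (l.map RawI.val))) :=
      Poly.pair (h3.comp (h1.comp k1)) (h1.comp k1)
    have e1 : ∀ l : List Γ, le (inE Γ Bool) l = en (io Γ Bool) (l.map RawI.mk) := by
      intro l
      induction l with
      | nil => rfl
      | cons a l ih => simp only [le, ih]; rfl
    have k3 := PT.precode k2 (fun l : List Γ => l.map RawI.mk) e1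
    refine PT.congr k3 fun l => ?_
    have : (l.map RawI.mk).map RawI.val = l := by simp [Function.comp_def]
    rw [this]
  have hb : PT (io Γ Bool) (en (io Γ Bool)) (en (io Γ Bool))
      (fun s : Bool × St => fs cont (step s.2)) :=
    Poly.pair (h3.comp (h2.comp Poly.snd)) (h2.comp Poly.snd)
  have hc : PT (io Γ Bool) (en (io Γ Bool)) (le (outE Γ Bool)) (fun s : Bool × St => [out s.2]) := by
    have k1 : Poly (io Γ Bool) (fun s : Bool × St => [RawO.mk (out s.2)]) :=
      Poly.cons ((Poly.ofFin (fun b : Bool => RawO.mk b)).comp (h4.comp Poly.snd)) (Poly.const [])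
    exact PT.recode k1 fun s => rfl
  obtain ⟨ca, pa, ha⟩ := ha
  obtain ⟨cb, pb, hb⟩ := hb
  obtain ⟨cc, pc, hc⟩ := hc
  let C : Cm Γ Bool (Al Γ) := .seq (pre ca) (.seq (lp cb) (post cc))
  let _ : Fintype (Option (Lab C)) := by
    let _ := labFintype C
    infer_instance
  let tm : FinTM2 :=
    { K := RK
      k₀ := .inp
      k₁ := .out
      Γ := Gam Γ Bool (Al Γ)
      Λ := Option (Lab C)
      main := some (entry C)
      σ := Va (Al Γ)
      initialState := (none, false)
      Γk₀Fin := inferInstanceAs (Fintype Γ)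
      m := prog C }
  have hst : ∀ (x : List Γ) (O : List Bool), (st x O (vec [] [] [] []) :
      ∀ k, List (Gam Γ Bool (Al Γ) k)) = fun k => match k with
        | .inp => x
        | .out => O
        | .r _ => [] := by
    intro x O
    funext k
    cases k with
    | inp => rfl
    | out => rfl
    | r i => fin_cases i <;> rfl
  have hinit : ∀ x : List Γ, initList tm x = (⟨some (some (entry C)), (none, false),
      st x [] (vec [] [] [] [])⟩ : TM2.Cfg _ _ _) := by
    intro x
    rw [hst]
    simp only [initList]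
    congr 1
    funext k
    cases k <;> rfl
  have hhalt : ∀ x : List Bool, haltList tm x = (⟨none, (none, false),
      st [] x (vec [] [] [] [])⟩ : TM2.Cfg _ _ _) := by
    intro x
    rw [hst]
    simp only [haltList]
    congr 1
    funext k
    cases k <;> rfl
  have hrun : ∀ x : List Γ, ∃ N n, (out (step^[N] (init x)) = true ↔ x ∈ L) ∧
      StepsB (prog C) (n + 1) ⟨some (some (entry C)), (none, false), st0 x [] []⟩
        ⟨none, (none, false), st0 [] [out (step^[N] (init x))] []⟩
        (10 * x.length + pa.eval (2 * x.length + 1) + (p.eval x.length + 4) +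
          pb.eval (p.eval x.length + 4) + pc.eval (p.eval x.length + 4) + 40) := by
    intro x
    obtain ⟨N, hN0, hN1, hNL⟩ := hL x
    have hx : (le (E := io Γ Bool) (inE Γ Bool) x).sz = 2 * x.length + 1 :=
      le_sz (io Γ Bool) (fun g : Γ => (some (Sum.inl g) : (io Γ Bool).A)) x
    have hM : ∀ t, (en (io Γ Bool) (fs cont (step^[t] (init x)))).sz ≤ p.eval x.length + 4 := by
      intro t
      have e1 := hp x t
      have e2 : esz (io Γ Bool) (cont (step^[t] (init x))) ≤ 3 := esz_bool _
      have e3 : (en (io Γ Bool) (fs cont (step^[t] (init x)))).sz =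
          1 + esz (io Γ Bool) (cont (step^[t] (init x))) +
            esz (io Γ Bool) (step^[t] (init x)) := by
        show (Tr.node _ _).sz = _
        rw [Tr.sz_node]
        rfl
      omega
    obtain ⟨f1, n1, hn1, e1⟩ := run_pre x ca (cont (init x)) (en (io Γ Bool) (init x))
      (pa.eval (2 * x.length + 1)) (fun v => by
        obtain ⟨v', hv⟩ := (ha x).2 [] [] [] v
        rw [hx] at hv
        exact ⟨v', hv⟩)
    obtain ⟨f2, n2, e2⟩ := run_loop (St := St) cb step cont (pb.eval (p.eval x.length + 4))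
      (p.eval x.length + 4)
      (10 * x.length + pa.eval (2 * x.length + 1) + (p.eval x.length + 4) +
          pb.eval (p.eval x.length + 4) + pc.eval (p.eval x.length + 4) + 40)
      (init x) N hM (fun t v => by
        obtain ⟨v', hv⟩ := (hb (fs cont (step^[t] (init x)))).2 [] [] [] v
        refine ⟨v', ?_⟩
        have e3 : fs cont (step^[t + 1] (init x)) =
            fs cont (step (fs cont (step^[t] (init x))).2) := by
          show fs cont (step^[t + 1] (init x)) = fs cont (step (step^[t] (init x)))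
          rw [Function.iterate_succ_apply']
        rw [e3]
        exact hv.mono (pmono pb (hM t))) (by omega) hN0 hN1 N 0 (by omega) f1
    obtain ⟨n3, hn3, e3⟩ := run_post cc (out (step^[N] (init x)))
      (en (io Γ Bool) (fs cont (step^[N] (init x)))).str (hd false, f2)
      (pc.eval (p.eval x.length + 4)) (by
        obtain ⟨v', hv⟩ := (hc (fs cont (step^[N] (init x)))).2 [] [] [] (hd false, f2)
        exact ⟨v', hv.mono (pmono pc (hM N))⟩)
    have t1 : tot (st0 x ([] : List Bool) ([] : List (PT81.Sy (Al Γ)))) = x.length := by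
      rw [tot_st0]; simp
    have t2 : tot (st0 ([] : List Γ) ([] : List Bool)
        (en (io Γ Bool) (fs cont (step^[N] (init x)))).str) ≤ p.eval x.length + 4 := by
      rw [tot_st0]
      simp only [List.length_nil, zero_add]
      exact hM N
    refine ⟨N, _, hNL, prog_spaceS (ExecS.seq (ExecS.base e1 ?_) (ExecS.seq e2
      (ExecS.base e3 ?_)))⟩
    · omega
    · refine (Nat.add_le_add_right t2 _).trans ?_
      omega
  refine ⟨tm, Equiv.refl _, Equiv.refl _, 10 * X + pa.comp (2 * X + 1) + (p + 4) +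
    pb.comp (p + 4) + pc.comp (p + 4) + 40, fun x => ?_⟩
  obtain ⟨N, n, hNL, hB⟩ := hrun x
  have hmap0 : List.map (Equiv.refl Γ).symm x = x := by simp
  constructor
  · refine ⟨out (step^[N] (init x)), hNL, n + 1, ?_⟩
    have h5 := hB.1
    rw [show (⟨some (some (entry C)), (none, false), st0 x [] []⟩ : TM2.Cfg _ _ _) =
      initList tm x from (hinit x).symm, show (⟨none, (none, false),
        st0 [] [out (step^[N] (init x))] []⟩ : TM2.Cfg _ _ _) =
      haltList tm [out (step^[N] (init x))] from (hhalt _).symm] at h5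
    erw [hmap0]
    exact h5
  · intro k c hck
    erw [hmap0, hinit x] at hck
    have h6 := after_halt hB rfl k c hck
    have h7 : space tm c = tot c.stk := rfl
    rw [h7]
    simp only [eval_add, eval_mul, eval_X, eval_ofNat, eval_comp, eval_one]
    exact h6

end Pool.Agent.SetPS
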