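import Pool.Agent.SetPS.MemInput
import Pool.Agent.SetPS.MemSearch
import Pool.Agent.SetPS.MemPoly
import Pool.Agent.SetPS.While

/-!
# The game of SET is in PSPACE
-/

namespace Pool.Agent.SetPS

open Pool.Agent.PT81 Pool.Agent.IsoImp Polynomial Mem

theorem esz_le_length {E : Env} {α : Type} [Fintype α] [Enc E α] :
    ∃ M : ℕ, ∀ x : List α, esz E x ≤ M * x.length + 1 := by
  classical
  refine ⟨1 + Finset.univ.sup (fun a : α => esz E a), fun x => ?_⟩
  induction x with
  | nil => simp
  | cons a x ih =>
    have h1 : esz E a ≤ Finset.univ.sup (fun a : α => esz E a) :=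
      Finset.le_sup (f := fun a : α => esz E a) (Finset.mem_univ a)
    simp only [esz_cons, List.length_cons]
    have h2 : (1 + Finset.univ.sup (fun a : α => esz E a)) * (x.length + 1) =
      (1 + Finset.univ.sup (fun a : α => esz E a)) * x.length +
        (1 + Finset.univ.sup (fun a : α => esz E a)) := by ring
    rw [h2]
    omega

/-- Membership of the problem in PSPACE. -/
theorem set_mem : InPSPACE SET := by
  let _ : Enc (io Sy Bool) (Fin 3) := finEnc _ (Fin 3)
  have hb : Poly (io Sy Bool) (fun x : List Sy => (blocks x).1.tail) :=
    Poly.tail (Poly.fst.comp (poly_blocks _))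
  obtain ⟨p1, h1⟩ := search_size (io Sy Bool) (poly_moves _)
  obtain ⟨p2, h2⟩ := hb.bound
  obtain ⟨M, hM⟩ := esz_le_length (E := io Sy Bool) (α := Sy)
  have hfix : ∀ t, step^[t] (some false, []) = (some false, []) := by
    intro t
    induction t with
    | zero => rfl
    | succ t ih => rw [Function.iterate_succ_apply', ih]; rfl
  refine inPSPACE_of_while SET init step cont out (poly_init _) (poly_step _) (poly_cont _)
    (poly_out _) (p1.comp (p2.comp (C M * X + 1)) + 10) ?_ ?_
  · intro x t
    unfold init
    by_cases hv : valid (blocks x) = true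
    · rw [if_pos hv]
      have e1 := h1 (blocks x).1.tail t
      have e2 := (h2 x).trans (pmono p2 (hM x))
      have e3 := e1.trans (pmono p1 e2)
      simp only [eval_add, eval_comp, eval_mul, eval_C, eval_X, eval_one, eval_ofNat]
      omega
    · rw [if_neg hv, hfix]
      have e1 : esz (io Sy Bool) ((some false, []) : St) ≤ 10 := by
        have := esz_bool (E := io Sy Bool) false
        simp only [esz_prod, esz_some, esz_nil]
        omega
      simp only [eval_add, eval_comp, eval_mul, eval_C, eval_X, eval_one, eval_ofNat]
      omega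
  · intro x
    unfold init
    by_cases hv : valid (blocks x) = true
    · rw [if_pos hv]
      obtain ⟨N, e1, e2, e3⟩ := search_correct (blocks x).1.tail
      refine ⟨N, e1, e2, e3.trans ?_⟩
      rw [valid_iff]
      exact ⟨fun h => ⟨hv, h⟩, fun h => h.2⟩
    · rw [if_neg hv]
      refine ⟨0, rfl, fun t ht => absurd ht (by omega), ?_⟩
      rw [valid_iff]
      constructor
      · intro h
        simp [out] at h
      · intro h
        exact absurd h.1 hv

end Pool.Agent.SetPS
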