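import Pool.Agent.SetPS.AcnfGeoSem
import Pool.Agent.Lib_MP_a1eae6_lc.MembPoly

/-!
# From alternating CNF to geography: the construction runs in polynomial time
-/

set_option linter.unusedSectionVars false

namespace Pool.Agent.SetPS

open Pool.Agent.PT81 Pool.Agent.IsoImp Polynomial

namespace AG

open V

/-- The code of a vertex. -/
def cd : V → ℕ × (List Nm × (CNF × List (Nm × Bool)))
  | Ch xs => (0, (xs, ([], [])))
  | V.Tr x => (1, ([x], ([], [])))
  | Fa x => (2, ([x], ([], [])))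
  | Jn xs => (3, (xs, ([], [])))
  | P cs => (4, ([], (cs, [])))
  | V.D cs => (5, ([], (cs, [])))
  | E cs ls => (6, ([], (cs, ls)))
  | G cs ls => (7, ([], (cs, ls)))
  | L l => (8, ([], ([], [l])))
  | Q => (9, ([], ([], [])))

theorem cd_inj : Function.Injective cd := by
  intro a b h
  cases a <;> cases b <;> simp_all [cd]

instance encV {E₀ : Env} : Enc E₀ V where
  enc v := en E₀ (cd v)
  inj := fun _ _ h => cd_inj (en_inj h)

variable {E₀ : Env} {γ α β : Type} [Enc E₀ γ] [Enc E₀ α] [Enc E₀ β]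

theorem ofCd {f : γ → V} (h : Poly E₀ (fun c => cd (f c))) : Poly E₀ f :=
  PT.recode h fun _ => rfl

theorem poly_Ch {f : γ → List Nm} (hf : Poly E₀ f) : Poly E₀ (fun c => Ch (f c)) :=
  ofCd (Poly.pair (Poly.const 0) (Poly.pair hf (Poly.const _)))

theorem poly_Tr {f : γ → Nm} (hf : Poly E₀ f) : Poly E₀ (fun c => V.Tr (f c)) :=
  ofCd (Poly.pair (Poly.const 1) (Poly.pair (Poly.cons hf (Poly.const [])) (Poly.const _)))

theorem poly_Fa {f : γ → Nm} (hf : Poly E₀ f) : Poly E₀ (fun c => Fa (f c)) :=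
  ofCd (Poly.pair (Poly.const 2) (Poly.pair (Poly.cons hf (Poly.const [])) (Poly.const _)))

theorem poly_Jn {f : γ → List Nm} (hf : Poly E₀ f) : Poly E₀ (fun c => Jn (f c)) :=
  ofCd (Poly.pair (Poly.const 3) (Poly.pair hf (Poly.const _)))

theorem poly_P {f : γ → CNF} (hf : Poly E₀ f) : Poly E₀ (fun c => P (f c)) :=
  ofCd (Poly.pair (Poly.const 4) (Poly.pair (Poly.const []) (Poly.pair hf (Poly.const _))))

theorem poly_D {f : γ → CNF} (hf : Poly E₀ f) : Poly E₀ (fun c => V.D (f c)) :=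
  ofCd (Poly.pair (Poly.const 5) (Poly.pair (Poly.const []) (Poly.pair hf (Poly.const _))))

theorem poly_E {f : γ → CNF} {g : γ → List (Nm × Bool)} (hf : Poly E₀ f) (hg : Poly E₀ g) :
    Poly E₀ (fun c => E (f c) (g c)) :=
  ofCd (Poly.pair (Poly.const 6) (Poly.pair (Poly.const []) (Poly.pair hf hg)))

theorem poly_G {f : γ → CNF} {g : γ → List (Nm × Bool)} (hf : Poly E₀ f) (hg : Poly E₀ g) :
    Poly E₀ (fun c => G (f c) (g c)) :=
  ofCd (Poly.pair (Poly.const 7) (Poly.pair (Poly.const []) (Poly.pair hf hg)))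

theorem poly_L {f : γ → Nm × Bool} (hf : Poly E₀ f) : Poly E₀ (fun c => L (f c)) :=
  ofCd (Poly.pair (Poly.const 8) (Poly.pair (Poly.const []) (Poly.pair (Poly.const [])
    (Poly.cons hf (Poly.const [])))))

theorem tails_eq (l : List α) : l.tails = (List.range (l.length + 1)).map fun i => l.drop i := by
  induction l with
  | nil => rfl
  | cons a l ih =>
    have h1 : List.range ((a :: l).length + 1) = 0 :: (List.range (l.length + 1)).map (· + 1) :=
      List.range_succ_eq_map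
    rw [List.tails_cons, ih, h1, List.map_cons, List.map_map]
    simp only [List.drop_zero, Function.comp_def, List.drop_succ_cons]

theorem poly_tails {f : γ → List α} (hf : Poly E₀ f) : Poly E₀ (fun c => (f c).tails) := by
  refine (Poly.map (g := fun p : γ × ℕ => (f p.1).drop p.2) (Poly.range hf.length.succ)
    (Poly.drop (hf.comp Poly.fst) Poly.snd)).congr fun c => ?_
  rw [tails_eq]

theorem poly_omap {f : γ → Option α} {g : γ × α → β} (hf : Poly E₀ f) (hg : Poly E₀ g) :
    Poly E₀ (fun c => (f c).map (fun a => g (c, a))) :=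
  Poly.optCasesF (f := f) (g := fun _ => none) (h := fun p : γ × α => some (g p)) _ hf
    (Poly.const none) (Poly.osome hg) (fun c hc => by rw [hc]; rfl) (fun c a hc => by rw [hc]; rfl)

theorem poly_nxt {F : γ → CNF} {xs : γ → List Nm} (hF : Poly E₀ F) (hxs : Poly E₀ xs) :
    Poly E₀ (fun c => nxt (F c) (xs c)) :=
  Poly.ite (Poly.isEmpty hxs) (poly_P hF) (poly_Ch hxs)

theorem poly_ent {v : γ → V} {o o' : γ → Option V} (hv : Poly E₀ v) (ho : Poly E₀ o)
    (ho' : Poly E₀ o') : Poly E₀ (fun c => ((v c, (o c, o' c)) : Ent)) :=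
  Poly.pair hv (Poly.pair ho ho')

theorem poly_vblk {F : γ → CNF} {xs : γ → List Nm} (hF : Poly E₀ F) (hxs : Poly E₀ xs) :
    Poly E₀ (fun c => vblk (F c) (xs c)) := by
  refine Poly.listCasesF (f := xs) (g := fun _ => [])
    (h := fun p : γ × (Nm × List Nm) => vblk (F p.1) (p.2.1 :: p.2.2)) _ hxs (Poly.const []) ?_
    (fun c hc => by rw [hc]; rfl) (fun c a l hc => by rw [hc])
  have hx : Poly E₀ (fun p : γ × (Nm × List Nm) => p.2.1) := Poly.fst.comp Poly.snd
  have hl : Poly E₀ (fun p : γ × (Nm × List Nm) => p.2.2) := Poly.snd.comp Poly.snd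
  have hFF : Poly E₀ (fun p : γ × (Nm × List Nm) => F p.1) := hF.comp Poly.fst
  have hn : Poly E₀ (fun _ : γ × (Nm × List Nm) => (none : Option V)) := Poly.const _
  exact Poly.cons (poly_ent (poly_Ch (Poly.cons hx hl)) (Poly.osome (poly_Tr hx))
      (Poly.osome (poly_Fa hx)))
    (Poly.cons (poly_ent (poly_Tr hx) (Poly.osome (poly_Jn hl)) hn)
    (Poly.cons (poly_ent (poly_Fa hx) (Poly.osome (poly_Jn hl)) hn)
    (Poly.cons (poly_ent (poly_Jn hl) (Poly.osome (poly_nxt hFF hl)) hn)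
    (Poly.cons (poly_ent (poly_L (Poly.pair hx (Poly.const true))) (Poly.osome (poly_Tr hx)) hn)
    (Poly.cons (poly_ent (poly_L (Poly.pair hx (Poly.const false))) (Poly.osome (poly_Fa hx)) hn)
    (Poly.const []))))))

theorem poly_lblk {cs : γ → CNF} {ls : γ → List (Nm × Bool)} (hcs : Poly E₀ cs)
    (hls : Poly E₀ ls) : Poly E₀ (fun c => lblk (cs c) (ls c)) := by
  have hn : Poly E₀ (fun _ : γ => (none : Option V)) := Poly.const _
  refine Poly.listCasesF (f := ls) (g := fun c => lblk (cs c) [])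
    (h := fun p : γ × ((Nm × Bool) × List (Nm × Bool)) => lblk (cs p.1) (p.2.1 :: p.2.2)) _ hls
    (Poly.cons (poly_ent (poly_E hcs (Poly.const [])) hn hn) (Poly.const [])) ?_
    (fun c hc => by rw [hc]) (fun c a l hc => by rw [hc])
  have hx : Poly E₀ (fun p : γ × ((Nm × Bool) × List (Nm × Bool)) => p.2.1) :=
    Poly.fst.comp Poly.snd
  have hl : Poly E₀ (fun p : γ × ((Nm × Bool) × List (Nm × Bool)) => p.2.2) :=
    Poly.snd.comp Poly.snd
  have hcc : Poly E₀ (fun p : γ × ((Nm × Bool) × List (Nm × Bool)) => cs p.1) :=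
    hcs.comp Poly.fst
  have hn' : Poly E₀ (fun _ : γ × ((Nm × Bool) × List (Nm × Bool)) => (none : Option V)) :=
    Poly.const _
  exact Poly.cons (poly_ent (poly_E hcc (Poly.cons hx hl)) (Poly.osome (poly_L hx))
      (Poly.osome (poly_G hcc (Poly.cons hx hl))))
    (Poly.cons (poly_ent (poly_G hcc (Poly.cons hx hl)) (Poly.osome (poly_E hcc hl)) hn')
    (Poly.const []))

theorem poly_cblk {cs : γ → CNF} (hcs : Poly E₀ cs) : Poly E₀ (fun c => cblk (cs c)) := by
  refine Poly.listCasesF (f := cs) (g := fun _ => cblk [])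
    (h := fun p : γ × (List (Nm × Bool) × CNF) => cblk (p.2.1 :: p.2.2)) _ hcs
    (Poly.const _) ?_ (fun c hc => by rw [hc]) (fun c a l hc => by rw [hc])
  have hx : Poly E₀ (fun p : γ × (List (Nm × Bool) × CNF) => p.2.1) := Poly.fst.comp Poly.snd
  have hl : Poly E₀ (fun p : γ × (List (Nm × Bool) × CNF) => p.2.2) := Poly.snd.comp Poly.snd
  have hc := Poly.cons hx hl
  have hn' : Poly E₀ (fun _ : γ × (List (Nm × Bool) × CNF) => (none : Option V)) :=
    Poly.const _
  have h1 : Poly E₀ (fun p : γ × (List (Nm × Bool) × CNF) =>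
      (p.2.1.tails).flatMap (fun ls => lblk (p.2.1 :: p.2.2) ls)) :=
    Poly.flatMap (g := fun q : (γ × (List (Nm × Bool) × CNF)) × List (Nm × Bool) =>
      lblk (q.1.2.1 :: q.1.2.2) q.2) (poly_tails hx) (poly_lblk (hc.comp Poly.fst) Poly.snd)
  exact Poly.append (Poly.cons (poly_ent (poly_P hc) (Poly.osome (poly_D hc)) hn')
    (Poly.cons (poly_ent (poly_D hc) (Poly.osome (poly_E hc hx)) (Poly.osome (poly_P hl)))
    (Poly.const []))) h1

theorem poly_ents {I : γ → List Nm × CNF} (hI : Poly E₀ I) : Poly E₀ (fun c => ents (I c)) := by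
  have h1 : Poly E₀ (fun c => (I c).1) := Poly.fst.comp hI
  have h2 : Poly E₀ (fun c => (I c).2) := Poly.snd.comp hI
  exact Poly.append (Poly.flatMap (g := fun q : γ × List Nm => vblk (I q.1).2 q.2) (poly_tails h1)
      (poly_vblk (h2.comp Poly.fst) Poly.snd))
    (Poly.append (Poly.flatMap (g := fun q : γ × CNF => cblk q.2) (poly_tails h2)
      (poly_cblk Poly.snd)) (Poly.const _))

theorem poly_pos {l : γ → List Ent} {y : γ → V} (hl : Poly E₀ l) (hy : Poly E₀ y) :
    Poly E₀ (fun c => pos (l c) (y c)) :=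
  Poly.findIdx (p := fun q : γ × Ent => decide (q.2.1 = y q.1)) hl
    (Poly.eq (Poly.fst.comp Poly.snd) (hy.comp Poly.fst))

theorem poly_geo {I : γ → List Nm × CNF} (hI : Poly E₀ I) : Poly E₀ (fun c => geo (I c)) := by
  have he := poly_ents hI
  refine Poly.map (g := fun q : γ × Ent =>
    (q.2.2.1.map (pos (ents (I q.1))), q.2.2.2.map (pos (ents (I q.1))))) he ?_
  refine Poly.pair ?_ ?_
  · exact poly_omap (g := fun r : (γ × Ent) × V => pos (ents (I r.1.1)) r.2)
      (Poly.fst.comp (Poly.snd.comp Poly.snd))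
      (poly_pos (he.comp (Poly.fst.comp Poly.fst)) Poly.snd)
  · exact poly_omap (g := fun r : (γ × Ent) × V => pos (ents (I r.1.1)) r.2)
      (Poly.snd.comp (Poly.snd.comp Poly.snd))
      (poly_pos (he.comp (Poly.fst.comp Poly.fst)) Poly.snd)

end AG

/-- Module E. -/
theorem acnf_geo : ∃ g : List Nm × CNF → GI, (∀ E : Env, Poly E g) ∧
    ∀ I, WF I → (g I).Valid ∧ ∀ h, (ATrue I ↔ (g I).Wins h) :=
  ⟨AG.geo, fun _ => AG.poly_geo Poly.id, fun _ hI => ⟨AG.geo_valid hI, AG.geo_wins hI⟩⟩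

end Pool.Agent.SetPS
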