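import Pool.Agent.SetPS.Iface
import Mathlib.Data.List.Basic
import Mathlib.Data.List.Nodup
import Mathlib.Tactic

/-!
# From alternating CNF to geography: the construction and its correctness
-/

namespace Pool.Agent.SetPS

namespace AG

/-- The vertices. -/
inductive V : Type
  | Ch (xs : List Nm)
  | Tr (x : Nm)
  | Fa (x : Nm)
  | Jn (xs : List Nm)
  | P (cs : CNF)
  | D (cs : CNF)
  | E (cs : CNF) (ls : List (Nm × Bool))
  | G (cs : CNF) (ls : List (Nm × Bool))
  | L (l : Nm × Bool)
  | Q
  deriving DecidableEq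

open V

/-- A vertex with its two out-neighbours. -/
abbrev Ent : Type := V × (Option V × Option V)

def nxt (F : CNF) (xs : List Nm) : V := if xs.isEmpty then P F else Ch xs

def vblk (F : CNF) : List Nm → List Ent
  | [] => []
  | x :: xs =>
    [(Ch (x :: xs), (some (Tr x), some (Fa x))), (Tr x, (some (Jn xs), none)),
      (Fa x, (some (Jn xs), none)), (Jn xs, (some (nxt F xs), none)),
      (L (x, true), (some (Tr x), none)), (L (x, false), (some (Fa x), none))]

def lblk (cs : CNF) : List (Nm × Bool) → List Ent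
  | [] => [(E cs [], (none, none))]
  | l :: ls => [(E cs (l :: ls), (some (L l), some (G cs (l :: ls)))),
      (G cs (l :: ls), (some (E cs ls), none))]

def cblk : CNF → List Ent
  | [] => [(P [], (some Q, none))]
  | c :: cs => [(P (c :: cs), (some (D (c :: cs)), none)),
      (D (c :: cs), (some (E (c :: cs) c), some (P cs)))] ++ c.tails.flatMap (lblk (c :: cs))

/-- All vertices with their out-neighbours. -/
def ents (I : List Nm × CNF) : List Ent :=
  I.1.tails.flatMap (vblk I.2) ++ (I.2.tails.flatMap cblk ++ [(Q, (none, none))])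

/-- The position of a vertex. -/
def pos (l : List Ent) (y : V) : ℕ := l.findIdx (fun z => decide (z.1 = y))

/-- The instance of geography. -/
def geo (I : List Nm × CNF) : GI :=
  (ents I).map fun e => (e.2.1.map (pos (ents I)), e.2.2.map (pos (ents I)))

/-! ### Vertices are distinct -/

theorem vk_mem (F : CNF) (xs : List Nm) (v : V) (h : v ∈ (xs.tails.flatMap (vblk F)).map Prod.fst) :
    (∃ ys : List Nm, v = Ch ys ∧ ys.length ≤ xs.length ∧ ys ≠ []) ∨ (∃ x ∈ xs, v = Tr x) ∨
      (∃ x ∈ xs, v = Fa x) ∨ (∃ ys : List Nm, v = Jn ys ∧ ys.length < xs.length) ∨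
      (∃ x ∈ xs, ∃ b, v = L (x, b)) := by
  induction xs with
  | nil => simp [vblk] at h
  | cons x xs ih =>
    rw [List.tails_cons, List.flatMap_cons, List.map_append, List.mem_append] at h
    rcases h with h | h
    · simp only [vblk, List.map_cons, List.map_nil, List.mem_cons, List.not_mem_nil, or_false] at h
      rcases h with h | h | h | h | h | h
      · exact Or.inl ⟨_, h, le_rfl, by simp⟩
      · exact Or.inr (Or.inl ⟨x, by simp, h⟩)
      · exact Or.inr (Or.inr (Or.inl ⟨x, by simp, h⟩))
      · exact Or.inr (Or.inr (Or.inr (Or.inl ⟨xs, h, by simp⟩)))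
      · exact Or.inr (Or.inr (Or.inr (Or.inr ⟨x, by simp, true, h⟩)))
      · exact Or.inr (Or.inr (Or.inr (Or.inr ⟨x, by simp, false, h⟩)))
    · rcases ih h with ⟨ys, h1, h2, h3⟩ | ⟨y, h1, h2⟩ | ⟨y, h1, h2⟩ | ⟨ys, h1, h2⟩ | ⟨y, h1, b, h2⟩
      · exact Or.inl ⟨ys, h1, by simp; omega, h3⟩
      · exact Or.inr (Or.inl ⟨y, by simp [h1], h2⟩)
      · exact Or.inr (Or.inr (Or.inl ⟨y, by simp [h1], h2⟩))
      · exact Or.inr (Or.inr (Or.inr (Or.inl ⟨ys, h1, by simp; omega⟩)))
      · exact Or.inr (Or.inr (Or.inr (Or.inr ⟨y, by simp [h1], b, h2⟩)))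

theorem lk_mem (cs : CNF) (ls : List (Nm × Bool)) (v : V)
    (h : v ∈ (ls.tails.flatMap (lblk cs)).map Prod.fst) :
    (∃ ms : List (Nm × Bool), v = E cs ms ∧ ms.length ≤ ls.length) ∨
      (∃ ms : List (Nm × Bool), v = G cs ms ∧ ms.length ≤ ls.length) := by
  induction ls with
  | nil =>
    simp only [List.tails, List.flatMap_cons, List.flatMap_nil, lblk, List.append_nil,
      List.map_cons, List.map_nil, List.mem_singleton] at h
    exact Or.inl ⟨[], h, le_rfl⟩
  | cons l ls ih =>
    rw [List.tails_cons, List.flatMap_cons, List.map_append, List.mem_append] at h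
    rcases h with h | h
    · simp only [lblk, List.map_cons, List.map_nil, List.mem_cons, List.not_mem_nil, or_false] at h
      rcases h with h | h
      · exact Or.inl ⟨_, h, le_rfl⟩
      · exact Or.inr ⟨_, h, le_rfl⟩
    · rcases ih h with ⟨ms, h1, h2⟩ | ⟨ms, h1, h2⟩
      · exact Or.inl ⟨ms, h1, by simp; omega⟩
      · exact Or.inr ⟨ms, h1, by simp; omega⟩

theorem ck_mem (cs : CNF) (v : V) (h : v ∈ (cs.tails.flatMap cblk).map Prod.fst) :
    (∃ ds : CNF, v = P ds ∧ ds.length ≤ cs.length) ∨ (∃ ds : CNF, v = D ds ∧ ds.length ≤ cs.length) ∨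
      (∃ (ds : CNF) (ls : List (Nm × Bool)), v = E ds ls ∧ ds.length ≤ cs.length) ∨
      (∃ (ds : CNF) (ls : List (Nm × Bool)), v = G ds ls ∧ ds.length ≤ cs.length) := by
  induction cs with
  | nil =>
    simp only [List.tails, List.flatMap_cons, List.flatMap_nil, cblk, List.append_nil,
      List.map_cons, List.map_nil, List.mem_singleton] at h
    exact Or.inl ⟨[], h, le_rfl⟩
  | cons c cs ih =>
    rw [List.tails_cons, List.flatMap_cons, List.map_append, List.mem_append] at h
    rcases h with h | h
    · rw [cblk, List.map_append, List.mem_append] at h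
      rcases h with h | h
      · simp only [List.map_cons, List.map_nil, List.mem_cons, List.not_mem_nil, or_false] at h
        rcases h with h | h
        · exact Or.inl ⟨_, h, le_rfl⟩
        · exact Or.inr (Or.inl ⟨_, h, le_rfl⟩)
      · rcases lk_mem _ _ _ h with ⟨ms, h1, h2⟩ | ⟨ms, h1, h2⟩
        · exact Or.inr (Or.inr (Or.inl ⟨_, ms, h1, le_rfl⟩))
        · exact Or.inr (Or.inr (Or.inr ⟨_, ms, h1, le_rfl⟩))
    · rcases ih h with ⟨ds, h1, h2⟩ | ⟨ds, h1, h2⟩ | ⟨ds, ls, h1, h2⟩ | ⟨ds, ls, h1, h2⟩
      · exact Or.inl ⟨ds, h1, by simp; omega⟩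
      · exact Or.inr (Or.inl ⟨ds, h1, by simp; omega⟩)
      · exact Or.inr (Or.inr (Or.inl ⟨ds, ls, h1, by simp; omega⟩))
      · exact Or.inr (Or.inr (Or.inr ⟨ds, ls, h1, by simp; omega⟩))

theorem vk_nodup (F : CNF) (xs : List Nm) (hx : xs.Nodup) :
    ((xs.tails.flatMap (vblk F)).map Prod.fst).Nodup := by
  induction xs with
  | nil => simp [vblk]
  | cons x xs ih =>
    rw [List.tails_cons, List.flatMap_cons, List.map_append, List.nodup_append]
    refine ⟨by simp [vblk], ih (List.nodup_cons.1 hx).2, ?_⟩
    intro a ha b hb hab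
    subst hab
    have hxx := (List.nodup_cons.1 hx).1
    simp only [vblk, List.map_cons, List.map_nil, List.mem_cons, List.not_mem_nil, or_false] at ha
    rcases vk_mem F xs a hb with ⟨ys, h1, h2, h3⟩ | ⟨y, h1, h2⟩ | ⟨y, h1, h2⟩ | ⟨ys, h1, h2⟩ |
        ⟨y, h1, b, h2⟩
    · subst h1
      simp at ha
      rw [ha] at h2
      simp at h2
    · subst h2
      simp at ha
      exact hxx (ha ▸ h1)
    · subst h2
      simp at ha
      exact hxx (ha ▸ h1)
    · subst h1
      simp at ha
      rw [ha] at h2
      simp at h2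
    · subst h2
      simp at ha
      rcases ha with ha | ha
      · exact hxx (ha.1 ▸ h1)
      · exact hxx (ha.1 ▸ h1)

theorem lk_nodup (cs : CNF) (ls : List (Nm × Bool)) :
    ((ls.tails.flatMap (lblk cs)).map Prod.fst).Nodup := by
  induction ls with
  | nil => simp [lblk]
  | cons l ls ih =>
    rw [List.tails_cons, List.flatMap_cons, List.map_append, List.nodup_append]
    refine ⟨by simp [lblk], ih, ?_⟩
    intro a ha b hb hab
    subst hab
    simp only [lblk, List.map_cons, List.map_nil, List.mem_cons, List.not_mem_nil, or_false] at ha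
    rcases lk_mem cs ls a hb with ⟨ms, h1, h2⟩ | ⟨ms, h1, h2⟩
    · subst h1
      simp at ha
      rw [ha] at h2
      simp at h2
    · subst h1
      simp at ha
      rw [ha] at h2
      simp at h2

theorem ck_nodup (cs : CNF) : ((cs.tails.flatMap cblk).map Prod.fst).Nodup := by
  induction cs with
  | nil => simp [cblk]
  | cons c cs ih =>
    rw [List.tails_cons, List.flatMap_cons, List.map_append, List.nodup_append]
    refine ⟨?_, ih, ?_⟩
    · rw [cblk, List.map_append, List.nodup_append]
      refine ⟨by simp, lk_nodup _ _, ?_⟩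
      intro a ha b hb hab
      subst hab
      simp only [List.map_cons, List.map_nil, List.mem_cons, List.not_mem_nil, or_false] at ha
      rcases lk_mem _ _ _ hb with ⟨ms, h1, h2⟩ | ⟨ms, h1, h2⟩ <;> subst h1 <;> simp at ha
    · intro a ha b hb hab
      subst hab
      rw [cblk, List.map_append, List.mem_append] at ha
      have ha' : a = P (c :: cs) ∨ a = D (c :: cs) ∨ (∃ ls, a = E (c :: cs) ls) ∨
          (∃ ls, a = G (c :: cs) ls) := by
        rcases ha with ha | ha
        · simp only [List.map_cons, List.map_nil, List.mem_cons, List.not_mem_nil, or_false] at ha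
          rcases ha with ha | ha
          · exact Or.inl ha
          · exact Or.inr (Or.inl ha)
        · rcases lk_mem _ _ _ ha with ⟨ms, h1, h2⟩ | ⟨ms, h1, h2⟩
          · exact Or.inr (Or.inr (Or.inl ⟨_, h1⟩))
          · exact Or.inr (Or.inr (Or.inr ⟨_, h1⟩))
      rcases ck_mem cs a hb with ⟨ds, h1, h2⟩ | ⟨ds, h1, h2⟩ | ⟨ds, ls, h1, h2⟩ | ⟨ds, ls, h1, h2⟩
      · subst h1
        simp at ha'
        rw [ha'] at h2
        simp at h2
      · subst h1
        simp at ha'
        rw [ha'] at h2
        simp at h2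
      · subst h1
        simp at ha'
        rw [ha'] at h2
        simp at h2
      · subst h1
        simp at ha'
        rw [ha'] at h2
        simp at h2

theorem nodup_keys (I : List Nm × CNF) (h : I.1.Nodup) : ((ents I).map Prod.fst).Nodup := by
  rw [ents, List.map_append, List.nodup_append]
  refine ⟨vk_nodup _ _ h, ?_, ?_⟩
  · rw [List.map_append, List.nodup_append]
    refine ⟨ck_nodup _, by simp, ?_⟩
    intro a ha b hb hab
    subst hab
    simp only [List.map_cons, List.map_nil, List.mem_cons, List.not_mem_nil, or_false] at hb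
    subst hb
    rcases ck_mem _ _ ha with ⟨ds, h1, h2⟩ | ⟨ds, h1, h2⟩ | ⟨ds, ls, h1, h2⟩ | ⟨ds, ls, h1, h2⟩ <;>
      simp at h1
  · intro a ha b hb hab
    subst hab
    rw [List.map_append, List.mem_append] at hb
    rcases hb with hb | hb
    · rcases vk_mem _ _ _ ha with ⟨ys, h1, h2, h3⟩ | ⟨y, h1, h2⟩ | ⟨y, h1, h2⟩ | ⟨ys, h1, h2⟩ |
        ⟨y, h1, b, h2⟩ <;>
      rcases ck_mem _ _ hb with ⟨ds, h4, h5⟩ | ⟨ds, h4, h5⟩ | ⟨ds, ls, h4, h5⟩ | ⟨ds, ls, h4, h5⟩ <;>
      simp_all
    · simp only [List.map_cons, List.map_nil, List.mem_cons, List.not_mem_nil, or_false] at hb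
      subst hb
      rcases vk_mem _ _ _ ha with ⟨ys, h1, h2, h3⟩ | ⟨y, h1, h2⟩ | ⟨y, h1, h2⟩ | ⟨ys, h1, h2⟩ |
        ⟨y, h1, b, h2⟩ <;> simp_all

/-! ### Geography at the level of vertices -/

/-- The out-neighbours. -/
def outV (l : List Ent) (v : V) (i : Fin 2) : Option V :=
  (l.find? (fun e => decide (e.1 = v))).bind fun e => if i = 0 then e.2.1 else e.2.2

theorem outV_of_mem (l : List Ent) (h : (l.map Prod.fst).Nodup) {v : V} {o : Option V × Option V}
    (hm : (v, o) ∈ l) (i : Fin 2) : outV l v i = if i = 0 then o.1 else o.2 := by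
  induction l with
  | nil => simp at hm
  | cons e l ih =>
    rw [List.map_cons, List.nodup_cons] at h
    rcases List.mem_cons.1 hm with hm | hm
    · subst hm
      simp [outV]
    · have hne : e.1 ≠ v := by
        intro he
        apply h.1
        rw [he]
        exact List.mem_map.2 ⟨_, hm, rfl⟩
      have := ih h.2 hm
      simpa [outV, hne] using this

theorem geoWins_iff {A : Type} [DecidableEq A] (out : A → Fin 2 → Option A) (D : Finset A) (t : A) :
    GeoWins out D t ↔ ∃ i w, out t i = some w ∧ w ∈ D ∧ ¬ GeoWins out (D.erase w) w := by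
  rw [GeoWins]
  constructor
  · rintro ⟨i, w, h1, h2, h3⟩
    exact ⟨i, w, h1, h2, h3⟩
  · rintro ⟨i, w, h1, h2, h3⟩
    exact ⟨i, w, h1, h2, h3⟩

theorem geo_transfer {A B : Type} [DecidableEq A] [DecidableEq B] (φ : A ↪ B)
    (oA : A → Fin 2 → Option A) (oB : B → Fin 2 → Option B)
    (h : ∀ a i a', oA a i = some a' ↔ oB (φ a) i = some (φ a')) (D : Finset A) (t : A) :
    GeoWins oA D t ↔ GeoWins oB (D.map φ) (φ t) := by
  induction hn : D.card using Nat.strong_induction_on generalizing D t with
  | _ n ih =>
    rw [geoWins_iff, geoWins_iff oB]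
    constructor
    · rintro ⟨i, w, h1, h2, h3⟩
      refine ⟨i, φ w, (h _ _ _).1 h1, Finset.mem_map_of_mem _ h2, ?_⟩
      rw [← Finset.map_erase, ← ih _ (hn ▸ Finset.card_erase_lt_of_mem h2) _ _ rfl]
      exact h3
    · rintro ⟨i, w, h1, h2, h3⟩
      obtain ⟨w, h4, rfl⟩ := Finset.mem_map.1 h2
      refine ⟨i, w, (h _ _ _).2 h1, h4, ?_⟩
      rw [← Finset.map_erase, ← ih _ (hn ▸ Finset.card_erase_lt_of_mem h4) _ _ rfl] at h3
      exact h3

/-- The player to move wins. -/
def W (I : List Nm × CNF) (D : Finset V) (v : V) : Prop := GeoWins (outV (ents I)) D v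

theorem W_iff {I : List Nm × CNF} (hI : I.1.Nodup) {D : Finset V} {v : V}
    {o : Option V × Option V} (hm : (v, o) ∈ ents I) :
    W I D v ↔ ∃ w, (o.1 = some w ∨ o.2 = some w) ∧ w ∈ D ∧ ¬ W I (D.erase w) w := by
  rw [W, geoWins_iff]
  constructor
  · rintro ⟨i, w, h1, h2, h3⟩
    rw [outV_of_mem _ (nodup_keys I hI) hm] at h1
    refine ⟨w, ?_, h2, h3⟩
    split at h1
    · exact Or.inl h1
    · exact Or.inr h1
  · rintro ⟨w, h1 | h1, h2, h3⟩
    · exact ⟨0, w, by rw [outV_of_mem _ (nodup_keys I hI) hm]; simpa using h1, h2, h3⟩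
    · exact ⟨1, w, by rw [outV_of_mem _ (nodup_keys I hI) hm]; simpa using h1, h2, h3⟩

/-- The set of all vertices. -/
def K (I : List Nm × CNF) : Finset V := ((ents I).map Prod.fst).toFinset

theorem mem_K {I : List Nm × CNF} {v : V} {o : Option V × Option V} (h : (v, o) ∈ ents I) :
    v ∈ K I := by
  rw [K, List.mem_toFinset]
  exact List.mem_map.2 ⟨_, h, rfl⟩

theorem ment_v {I : List Nm × CNF} {xs : List Nm} (h : xs <:+ I.1) {e : Ent}
    (he : e ∈ vblk I.2 xs) : e ∈ ents I :=
  List.mem_append_left _ (List.mem_flatMap.2 ⟨xs, (List.mem_tails _ _).2 h, he⟩)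

theorem ment_c {I : List Nm × CNF} {cs : CNF} (h : cs <:+ I.2) {e : Ent}
    (he : e ∈ cblk cs) : e ∈ ents I :=
  List.mem_append_right _ (List.mem_append_left _
    (List.mem_flatMap.2 ⟨cs, (List.mem_tails _ _).2 h, he⟩))

theorem ment_l {I : List Nm × CNF} {c : List (Nm × Bool)} {cs : CNF} (h : (c :: cs) <:+ I.2)
    {ls : List (Nm × Bool)} (hls : ls <:+ c) {e : Ent}
    (he : e ∈ lblk (c :: cs) ls) : e ∈ ents I :=
  ment_c h (List.mem_append_right _ (List.mem_flatMap.2 ⟨ls, (List.mem_tails _ _).2 hls, he⟩))

theorem ment_q (I : List Nm × CNF) : (Q, (none, none)) ∈ ents I :=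
  List.mem_append_right _ (List.mem_append_right _ (by simp))

/-- The variables have been given the values `a`. -/
structure Dec (I : List Nm × CNF) (a : Nm → Bool) (D : Finset V) : Prop where
  J : ∀ xs, Jn xs ∉ D
  T : ∀ x ∈ I.1, Tr x ∈ D ↔ a x = false
  F : ∀ x ∈ I.1, Fa x ∈ D ↔ a x = true

theorem Dec.erase {I : List Nm × CNF} {a : Nm → Bool} {D : Finset V} (h : Dec I a D) (v : V)
    (h1 : ∀ x, v ≠ Tr x) (h2 : ∀ x, v ≠ Fa x) : Dec I a (D.erase v) := by
  refine ⟨fun xs hx => h.J xs (Finset.mem_of_mem_erase hx), fun x hx => ?_, fun x hx => ?_⟩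
  · rw [Finset.mem_erase, h.T x hx]
    simp [(h1 x).symm]
  · rw [Finset.mem_erase, h.F x hx]
    simp [(h2 x).symm]

theorem W_Tr {I : List Nm × CNF} (hI : WF I) {D : Finset V} (hJ : ∀ xs, Jn xs ∉ D) {x : Nm}
    (hx : x ∈ I.1) : ¬ W I D (Tr x) := by
  obtain ⟨s, t, hst⟩ := List.append_of_mem hx
  have hsuf : (x :: t) <:+ I.1 := ⟨s, hst.symm⟩
  rw [W_iff hI.nodup (ment_v hsuf (e := (Tr x, (some (Jn t), none))) (by simp [vblk]))]
  rintro ⟨w, h1, h2, h3⟩
  simp only [Option.some.injEq, reduceCtorEq, or_false] at h1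
  subst h1
  exact hJ _ h2

theorem W_Fa {I : List Nm × CNF} (hI : WF I) {D : Finset V} (hJ : ∀ xs, Jn xs ∉ D) {x : Nm}
    (hx : x ∈ I.1) : ¬ W I D (Fa x) := by
  obtain ⟨s, t, hst⟩ := List.append_of_mem hx
  have hsuf : (x :: t) <:+ I.1 := ⟨s, hst.symm⟩
  rw [W_iff hI.nodup (ment_v hsuf (e := (Fa x, (some (Jn t), none))) (by simp [vblk]))]
  rintro ⟨w, h1, h2, h3⟩
  simp only [Option.some.injEq, reduceCtorEq, or_false] at h1
  subst h1
  exact hJ _ h2

theorem W_L {I : List Nm × CNF} (hI : WF I) {a : Nm → Bool} {D : Finset V} (hD : Dec I a D)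
    (l : Nm × Bool) (hx : l.1 ∈ I.1) : W I D (L l) ↔ a l.1 ≠ l.2 := by
  obtain ⟨x, b⟩ := l
  obtain ⟨s, t, hst⟩ := List.append_of_mem hx
  have hsuf : (x :: t) <:+ I.1 := ⟨s, hst.symm⟩
  have hx' : x ∈ I.1 := hx
  cases b with
  | true =>
    rw [W_iff hI.nodup (ment_v hsuf (e := (L (x, true), (some (Tr x), none))) (by simp [vblk]))]
    have hT := hD.T x hx'
    constructor
    · rintro ⟨w, h1, h2, h3⟩
      simp only [Option.some.injEq, reduceCtorEq, or_false] at h1
      subst h1
      rw [hT] at h2
      simp [h2]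
    · intro h
      refine ⟨Tr x, Or.inl rfl, ?_, W_Tr hI (fun xs hxs => hD.J xs (Finset.mem_of_mem_erase hxs)) hx'⟩
      rw [hT]
      simpa using h
  | false =>
    rw [W_iff hI.nodup (ment_v hsuf (e := (L (x, false), (some (Fa x), none))) (by simp [vblk]))]
    have hF := hD.F x hx'
    constructor
    · rintro ⟨w, h1, h2, h3⟩
      simp only [Option.some.injEq, reduceCtorEq, or_false] at h1
      subst h1
      rw [hF] at h2
      simp [h2]
    · intro h
      refine ⟨Fa x, Or.inl rfl, ?_, W_Fa hI (fun xs hxs => hD.J xs (Finset.mem_of_mem_erase hxs)) hx'⟩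
      rw [hF]
      simpa using h

theorem mem_L {I : List Nm × CNF} {x : Nm} (hx : x ∈ I.1) (b : Bool) : L (x, b) ∈ K I := by
  obtain ⟨s, t, hst⟩ := List.append_of_mem hx
  have hsuf : (x :: t) <:+ I.1 := ⟨s, hst.symm⟩
  cases b with
  | true => exact mem_K (ment_v hsuf (e := (L (x, true), (some (Tr x), none))) (by simp [vblk]))
  | false => exact mem_K (ment_v hsuf (e := (L (x, false), (some (Fa x), none))) (by simp [vblk]))

/-- Evaluation of a clause. -/
theorem evalE {I : List Nm × CNF} (hI : WF I) {a : Nm → Bool} {c : List (Nm × Bool)} {cs : CNF}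
    (hcs : (c :: cs) <:+ I.2) (ls : List (Nm × Bool)) (hls : ls <:+ c) (D : Finset V)
    (hE : ∀ ms, E (c :: cs) ms ∈ K I → ms.length < ls.length → E (c :: cs) ms ∈ D)
    (hG : ∀ ms, G (c :: cs) ms ∈ K I → ms.length ≤ ls.length → G (c :: cs) ms ∈ D)
    (hL : ∀ x ∈ I.1, ∀ b, L (x, b) ∈ D) (hD : Dec I a D) :
    W I D (E (c :: cs) ls) ↔ ∃ l ∈ ls, a l.1 = l.2 := by
  induction ls generalizing D with
  | nil =>
    rw [W_iff hI.nodup (ment_l hcs hls (e := (E (c :: cs) [], (none, none))) (by simp [lblk]))]
    simp
  | cons l ls ih =>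
    have hl : l.1 ∈ I.1 := by
      have h1 : c ∈ I.2 := hcs.subset (by simp)
      exact hI.vars c h1 l (hls.subset (by simp))
    have hls' : ls <:+ c := (List.suffix_cons l ls).trans hls
    have m1 : (E (c :: cs) (l :: ls), (some (L l), some (G (c :: cs) (l :: ls)))) ∈ ents I :=
      ment_l hcs hls (by simp [lblk])
    have m2 : (G (c :: cs) (l :: ls), (some (E (c :: cs) ls), none)) ∈ ents I :=
      ment_l hcs hls (by simp [lblk])
    have m3 : E (c :: cs) ls ∈ K I := by
      cases ls with
      | nil => exact mem_K (ment_l hcs hls' (e := (E (c :: cs) [], (none, none))) (by simp [lblk]))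
      | cons l' ls => exact mem_K (ment_l hcs hls' (e := (E (c :: cs) (l' :: ls),
          (some (L l'), some (G (c :: cs) (l' :: ls))))) (by simp [lblk]))
    have hLl : L l ∈ D := hL l.1 hl l.2
    have hGl : G (c :: cs) (l :: ls) ∈ D := hG _ (mem_K m2) le_rfl
    have hEl : E (c :: cs) ls ∈ D := hE _ m3 (by simp)
    have hW1 : ¬ W I (D.erase (L l)) (L l) ↔ a l.1 = l.2 := by
      rw [W_L hI (hD.erase _ (by simp) (by simp)) l hl]
      simp
    have hW2 : W I (D.erase (G (c :: cs) (l :: ls))) (G (c :: cs) (l :: ls)) ↔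
        ¬ W I ((D.erase (G (c :: cs) (l :: ls))).erase (E (c :: cs) ls)) (E (c :: cs) ls) := by
      rw [W_iff hI.nodup m2]
      constructor
      · rintro ⟨w, h1, h2, h3⟩
        simp only [Option.some.injEq, reduceCtorEq, or_false] at h1
        subst h1
        exact h3
      · intro h
        exact ⟨_, Or.inl rfl, by simp [hEl], h⟩
    have hW3 := ih hls' ((D.erase (G (c :: cs) (l :: ls))).erase (E (c :: cs) ls)) (by
        intro ms hm hlen
        have := hE ms hm (by simp; omega)
        rw [Finset.mem_erase, Finset.mem_erase]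
        refine ⟨?_, by simp, this⟩
        intro h
        simp only [V.E.injEq, true_and] at h
        rw [h] at hlen
        exact absurd hlen (lt_irrefl _)) (by
        intro ms hm hlen
        have := hG ms hm (by simp; omega)
        rw [Finset.mem_erase, Finset.mem_erase]
        refine ⟨by simp, ?_, this⟩
        intro h
        simp only [V.G.injEq, true_and] at h
        rw [h] at hlen
        simp at hlen) (by
        intro x hx b
        simp [hL x hx b]) ((hD.erase _ (by simp) (by simp)).erase _ (by simp) (by simp))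
    rw [W_iff hI.nodup m1]
    constructor
    · rintro ⟨w, h1 | h1, h2, h3⟩
      · simp only [Option.some.injEq] at h1
        subst h1
        exact ⟨l, by simp, hW1.1 h3⟩
      · simp only [Option.some.injEq] at h1
        subst h1
        rw [hW2, not_not, hW3] at h3
        obtain ⟨l', h4, h5⟩ := h3
        exact ⟨l', by simp [h4], h5⟩
    · rintro ⟨l', h4, h5⟩
      rcases List.mem_cons.1 h4 with h4 | h4
      · subst h4
        exact ⟨_, Or.inl rfl, hLl, hW1.2 h5⟩
      · refine ⟨_, Or.inr rfl, hGl, ?_⟩
        rw [hW2, not_not, hW3]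
        exact ⟨l', h4, h5⟩

/-- The vertices used after the vertex `P cs` with `cs.length = n`. -/
def below (n : ℕ) : V → Prop
  | P ds => ds.length < n
  | V.D ds => ds.length ≤ n
  | E ds _ => ds.length ≤ n
  | G ds _ => ds.length ≤ n
  | L _ => True
  | Q => True
  | _ => False

/-- Evaluation of the formula. -/
theorem evalP {I : List Nm × CNF} (hI : WF I) {a : Nm → Bool} (cs : CNF)
    (hcs : cs <:+ I.2) (D : Finset V)
    (hB : ∀ v ∈ K I, below cs.length v → v ∈ D) (hD : Dec I a D) :
    W I D (P cs) ↔ ∀ c ∈ cs, ∃ l ∈ c, a l.1 = l.2 := by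
  induction cs generalizing D with
  | nil =>
    rw [W_iff hI.nodup (ment_c hcs (e := (P [], (some Q, none))) (by simp [cblk]))]
    have hQ : Q ∈ D := hB _ (mem_K (ment_q I)) trivial
    have h1 : ¬ W I (D.erase Q) Q := by
      rw [W_iff hI.nodup (ment_q I)]
      simp
    simp only [Option.some.injEq, reduceCtorEq, or_false, List.not_mem_nil, false_implies,
      implies_true, iff_true]
    exact ⟨Q, rfl, hQ, h1⟩
  | cons c cs ih =>
    have hcs' : cs <:+ I.2 := (List.suffix_cons c cs).trans hcs
    have m1 : (P (c :: cs), (some (V.D (c :: cs)), none)) ∈ ents I :=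
      ment_c hcs (by simp [cblk])
    have m2 : (V.D (c :: cs), (some (E (c :: cs) c), some (P cs))) ∈ ents I :=
      ment_c hcs (by simp [cblk])
    have m3 : E (c :: cs) c ∈ K I := by
      rcases hc : c with _ | ⟨l, ls⟩
      · refine mem_K (ment_l (c := []) (cs := cs) (hc ▸ hcs) (List.suffix_refl _)
          (e := (E ([] :: cs) [], (none, none))) (by simp [lblk]))
      · refine mem_K (ment_l (c := l :: ls) (cs := cs) (hc ▸ hcs) (List.suffix_refl _)
          (e := (E ((l :: ls) :: cs) (l :: ls), (some (L l), some (G ((l :: ls) :: cs) (l :: ls)))))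
          (by simp [lblk]))
    have m4 : P cs ∈ K I := by
      cases cs with
      | nil => exact mem_K (ment_c hcs' (e := (P [], (some Q, none))) (by simp [cblk]))
      | cons c' cs => exact mem_K (ment_c hcs' (e := (P (c' :: cs), (some (V.D (c' :: cs)), none)))
          (by simp [cblk]))
    have hDD : V.D (c :: cs) ∈ D := hB _ (mem_K m2) le_rfl
    have hPP : P cs ∈ D := hB _ m4 (by simp [below])
    have hEE : E (c :: cs) c ∈ D := hB _ m3 le_rfl
    have hW1 : W I (D.erase (V.D (c :: cs))) (V.D (c :: cs)) ↔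
        (¬ W I ((D.erase (V.D (c :: cs))).erase (E (c :: cs) c)) (E (c :: cs) c) ∨
        ¬ W I ((D.erase (V.D (c :: cs))).erase (P cs)) (P cs)) := by
      rw [W_iff hI.nodup m2]
      constructor
      · rintro ⟨w, h1 | h1, h2, h3⟩
        · simp only [Option.some.injEq] at h1
          subst h1
          exact Or.inl h3
        · simp only [Option.some.injEq] at h1
          subst h1
          exact Or.inr h3
      · rintro (h | h)
        · exact ⟨_, Or.inl rfl, by simp [hEE], h⟩
        · exact ⟨_, Or.inr rfl, by simp [hPP], h⟩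
    have hW2 := evalE hI (a := a) hcs c (List.suffix_refl _)
      ((D.erase (V.D (c :: cs))).erase (E (c :: cs) c)) (by
        intro ms hm hlen
        have := hB _ hm le_rfl
        rw [Finset.mem_erase, Finset.mem_erase]
        refine ⟨?_, by simp, this⟩
        intro h
        simp only [V.E.injEq, true_and] at h
        rw [h] at hlen
        exact absurd hlen (lt_irrefl _)) (by
        intro ms hm hlen
        have := hB _ hm le_rfl
        simp [this]) (by
        intro x hx b
        have := hB _ (mem_L hx b) trivial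
        simp [this]) ((hD.erase _ (by simp) (by simp)).erase _ (by simp) (by simp))
    have hW3 := ih hcs' ((D.erase (V.D (c :: cs))).erase (P cs)) (by
        intro v hv hb
        have h1 : v ∈ D := by
          refine hB v hv ?_
          cases v <;> simp_all [below] <;> omega
        rw [Finset.mem_erase, Finset.mem_erase]
        refine ⟨?_, ?_, h1⟩
        · rintro rfl
          simp [below] at hb
        · rintro rfl
          simp [below] at hb) ((hD.erase _ (by simp) (by simp)).erase _ (by simp) (by simp))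
    rw [W_iff hI.nodup m1]
    rw [List.forall_mem_cons, ← hW2, ← hW3]
    constructor
    · rintro ⟨w, h1, h2, h3⟩
      simp only [Option.some.injEq, reduceCtorEq, or_false] at h1
      subst h1
      rw [hW1, not_or, not_not, not_not] at h3
      exact h3
    · intro h
      refine ⟨_, Or.inl rfl, hDD, ?_⟩
      rw [hW1, not_or, not_not, not_not]
      exact h

/-- The vertices used after the vertex `nxt F xs`. -/
def belowV (F : CNF) (xs : List Nm) : V → Prop
  | Ch ys => ys.length < xs.length
  | Tr x => x ∈ xs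
  | Fa x => x ∈ xs
  | Jn ys => ys.length < xs.length
  | P ds => xs ≠ [] ∨ ds.length < F.length
  | _ => True

theorem nxt_mem {I : List Nm × CNF} {xs : List Nm} (hxs : xs <:+ I.1) : nxt I.2 xs ∈ K I := by
  cases xs with
  | nil =>
    rw [nxt]
    simp only [List.isEmpty_nil, if_true]
    rcases hc : I.2 with _ | ⟨c, cs⟩
    · exact mem_K (ment_c (by rw [hc]) (e := (P [], (some Q, none))) (by simp [cblk]))
    · exact mem_K (ment_c (by rw [hc]) (e := (P (c :: cs), (some (V.D (c :: cs)), none)))
        (by simp [cblk]))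
  | cons x xs =>
    exact mem_K (ment_v hxs (e := (Ch (x :: xs), (some (Tr x), some (Fa x)))) (by simp [vblk]))

theorem jn_mem {I : List Nm × CNF} {ys : List Nm} (h : Jn ys ∈ K I) :
    ys <:+ I.1 ∧ ys.length < I.1.length := by
  rw [K, List.mem_toFinset, List.mem_map] at h
  obtain ⟨e, he, h1⟩ := h
  rw [ents, List.mem_append, List.mem_append] at he
  rcases he with he | he | he
  · obtain ⟨zs, hz, he⟩ := List.mem_flatMap.1 he
    rw [List.mem_tails] at hz
    cases zs with
    | nil => simp [vblk] at he
    | cons z zs =>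
      have : ys = zs := by
        simp only [vblk, List.mem_cons, List.not_mem_nil, or_false] at he
        rcases he with he | he | he | he | he | he <;> subst he <;> simp at h1
        exact h1.symm
      subst this
      refine ⟨(List.suffix_cons _ _).trans hz, ?_⟩
      have := hz.length_le
      simp at this
      omega
  · have h2 : Jn ys ∈ (I.2.tails.flatMap cblk).map Prod.fst := List.mem_map.2 ⟨e, he, h1⟩
    rcases ck_mem _ _ h2 with ⟨ds, h3, h4⟩ | ⟨ds, h3, h4⟩ | ⟨ds, ls, h3, h4⟩ | ⟨ds, ls, h3, h4⟩ <;>
      simp at h3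
  · simp only [List.mem_singleton] at he
    subst he
    simp at h1

theorem evalV {I : List Nm × CNF} (hI : WF I) (xs : List Nm) (hxs : xs <:+ I.1) (a : Nm → Bool)
    (D : Finset V) (hB : ∀ v ∈ K I, belowV I.2 xs v → v ∈ D)
    (hJ : ∀ ys, Jn ys ∈ D → ys <:+ I.1 ∧ ys.length < xs.length)
    (hT : ∀ x ∈ I.1, x ∉ xs → (Tr x ∈ D ↔ a x = false))
    (hF : ∀ x ∈ I.1, x ∉ xs → (Fa x ∈ D ↔ a x = true)) :
    (Even xs.length → (W I D (nxt I.2 xs) ↔ Alt I.2 true xs a)) ∧
    (¬ Even xs.length → (W I D (nxt I.2 xs) ↔ ¬ Alt I.2 false xs a)) := by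
  induction xs generalizing a D with
  | nil =>
    refine ⟨fun _ => ?_, fun h => absurd (by simp) h⟩
    simp only [nxt, List.isEmpty_nil, if_true, Alt]
    refine evalP hI I.2 (List.suffix_refl _) D ?_ ⟨fun ys h => ?_, fun x hx => hT x hx (by simp),
      fun x hx => hF x hx (by simp)⟩
    · intro v hv hb
      refine hB v hv ?_
      cases v <;> simp_all [below, belowV]
    · have := (hJ ys h).2
      simp at this
  | cons x xs ih =>
    have hxs' : xs <:+ I.1 := (List.suffix_cons x xs).trans hxs
    have hxx : x ∉ xs := by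
      have := hI.nodup.sublist hxs.sublist
      exact (List.nodup_cons.1 this).1
    have hx1 : x ∈ I.1 := hxs.subset (by simp)
    have m1 : (Ch (x :: xs), (some (Tr x), some (Fa x))) ∈ ents I := ment_v hxs (by simp [vblk])
    have m2 : (Tr x, (some (Jn xs), none)) ∈ ents I := ment_v hxs (by simp [vblk])
    have m3 : (Fa x, (some (Jn xs), none)) ∈ ents I := ment_v hxs (by simp [vblk])
    have m4 : (Jn xs, (some (nxt I.2 xs), none)) ∈ ents I := ment_v hxs (by simp [vblk])
    have hTD : Tr x ∈ D := hB _ (mem_K m2) (by simp [belowV])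
    have hFD : Fa x ∈ D := hB _ (mem_K m3) (by simp [belowV])
    have hJD : Jn xs ∈ D := hB _ (mem_K m4) (by simp [belowV])
    have hND : nxt I.2 xs ∈ D := by
      refine hB _ (nxt_mem hxs') ?_
      cases xs <;> simp [nxt, belowV]
    let w : Bool → V := fun b => if b then Tr x else Fa x
    have hw : ∀ b, w b = Tr x ∨ w b = Fa x := by
      intro b
      cases b <;> simp [w]
    have hwm : ∀ b, (w b, (some (Jn xs), none)) ∈ ents I := by
      intro b
      cases b
      · exact m3
      · exact m2
    let Db : Bool → Finset V := fun b => ((D.erase (w b)).erase (Jn xs)).erase (nxt I.2 xs)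
    have hnw : ∀ b, nxt I.2 xs ≠ w b := by
      intro b
      cases xs <;> cases b <;> simp [nxt, w]
    have hnj : nxt I.2 xs ≠ Jn xs := by
      cases xs <;> simp [nxt]
    have hjw : ∀ b, Jn xs ≠ w b := by
      intro b
      cases b <;> simp [w]
    have hstep : ∀ b, ¬ W I (D.erase (w b)) (w b) ↔ ¬ W I (Db b) (nxt I.2 xs) := by
      intro b
      have e1 : W I (D.erase (w b)) (w b) ↔
          ¬ W I ((D.erase (w b)).erase (Jn xs)) (Jn xs) := by
        rw [W_iff hI.nodup (hwm b)]
        constructor
        · rintro ⟨v, h1, h2, h3⟩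
          simp only [Option.some.injEq, reduceCtorEq, or_false] at h1
          subst h1
          exact h3
        · intro h
          exact ⟨_, Or.inl rfl, Finset.mem_erase.2 ⟨hjw b, hJD⟩, h⟩
      have e2 : W I ((D.erase (w b)).erase (Jn xs)) (Jn xs) ↔ ¬ W I (Db b) (nxt I.2 xs) := by
        rw [W_iff hI.nodup m4]
        constructor
        · rintro ⟨v, h1, h2, h3⟩
          simp only [Option.some.injEq, reduceCtorEq, or_false] at h1
          subst h1
          exact h3
        · intro h
          exact ⟨_, Or.inl rfl, Finset.mem_erase.2 ⟨hnj, Finset.mem_erase.2 ⟨hnw b, hND⟩⟩, h⟩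
      rw [e1, e2, not_not]
    have hIH : ∀ b, (Even xs.length → (W I (Db b) (nxt I.2 xs) ↔
          Alt I.2 true xs (Function.update a x b))) ∧
        (¬ Even xs.length → (W I (Db b) (nxt I.2 xs) ↔
          ¬ Alt I.2 false xs (Function.update a x b))) := by
      intro b
      refine ih hxs' (Function.update a x b) (Db b) ?_ ?_ ?_ ?_
      · intro v hv hb
        have h1 : v ∈ D := by
          refine hB v hv ?_
          cases v <;> simp_all [belowV] <;> omega
        have h2 : v ≠ nxt I.2 xs := by
          rintro rfl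
          cases xs <;> simp [nxt, belowV] at hb
        have h3 : v ≠ Jn xs := by
          rintro rfl
          simp [belowV] at hb
        have h4 : v ≠ w b := by
          rintro rfl
          cases b <;> simp [w, belowV] at hb <;> exact hxx hb
        exact Finset.mem_erase.2 ⟨h2, Finset.mem_erase.2 ⟨h3, Finset.mem_erase.2 ⟨h4, h1⟩⟩⟩
      · intro ys hy
        have h1 := Finset.mem_of_mem_erase (Finset.mem_of_mem_erase (Finset.mem_of_mem_erase hy))
        have h2 := (Finset.mem_erase.1 (Finset.mem_of_mem_erase hy)).1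
        obtain ⟨h5, h3⟩ := hJ ys h1
        refine ⟨h5, ?_⟩
        have h4 : ys.length ≠ xs.length := by
          intro h6
          apply h2
          rw [List.IsSuffix.eq_of_length (List.suffix_of_suffix_length_le h5 hxs' h6.le) h6]
        simp only [List.length_cons] at h3
        omega
      · intro y hy hyx
        have e1 : Tr y ∈ Db b ↔ Tr y ≠ w b ∧ Tr y ∈ D := by
          simp only [Db, Finset.mem_erase]
          have : Tr y ≠ nxt I.2 xs := by cases xs <;> simp [nxt]
          simp [this]
        rw [e1]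
        by_cases hxy : y = x
        · subst hxy
          cases b <;> simp [w, hTD]
        · rw [Function.update_of_ne hxy, hT y hy (by simp [hxy, hyx])]
          cases b <;> simp [w, hxy]
      · intro y hy hyx
        have e1 : Fa y ∈ Db b ↔ Fa y ≠ w b ∧ Fa y ∈ D := by
          simp only [Db, Finset.mem_erase]
          have : Fa y ≠ nxt I.2 xs := by cases xs <;> simp [nxt]
          simp [this]
        rw [e1]
        by_cases hxy : y = x
        · subst hxy
          cases b <;> simp [w, hFD]
        · rw [Function.update_of_ne hxy, hF y hy (by simp [hxy, hyx])]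
          cases b <;> simp [w, hxy]
    have hmain : W I D (nxt I.2 (x :: xs)) ↔ ∃ b, ¬ W I (Db b) (nxt I.2 xs) := by
      rw [show nxt I.2 (x :: xs) = Ch (x :: xs) by simp [nxt], W_iff hI.nodup m1]
      constructor
      · rintro ⟨v, h1 | h1, h2, h3⟩
        · simp only [Option.some.injEq] at h1
          subst h1
          exact ⟨true, (hstep true).1 h3⟩
        · simp only [Option.some.injEq] at h1
          subst h1
          exact ⟨false, (hstep false).1 h3⟩
      · rintro ⟨b, hb⟩
        cases b with
        | true => exact ⟨_, Or.inl rfl, hTD, (hstep true).2 hb⟩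
        | false => exact ⟨_, Or.inr rfl, hFD, (hstep false).2 hb⟩
    rw [hmain]
    constructor
    · intro he
      have ho : ¬ Even xs.length := by
        rw [List.length_cons, Nat.even_add_one] at he
        exact he
      simp only [Alt]
      constructor
      · rintro ⟨b, hb⟩
        rw [(hIH b).2 ho, not_not] at hb
        exact ⟨b, hb⟩
      · rintro ⟨b, hb⟩
        refine ⟨b, ?_⟩
        rw [(hIH b).2 ho, not_not]
        exact hb
    · intro he
      have ho : Even xs.length := by
        rw [List.length_cons, Nat.even_add_one, not_not] at he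
        exact he
      simp only [Alt]
      rw [not_forall]
      constructor
      · rintro ⟨b, hb⟩
        rw [(hIH b).1 ho] at hb
        exact ⟨b, hb⟩
      · rintro ⟨b, hb⟩
        refine ⟨b, ?_⟩
        rw [(hIH b).1 ho]
        exact hb

/-! ### The instance -/

theorem geo_length (I : List Nm × CNF) : (geo I).length = (ents I).length := by
  simp [geo]

theorem head_ents (I : List Nm × CNF) (h : 0 < (ents I).length) :
    ((ents I)[0]'h).1 = nxt I.2 I.1 := by
  rcases I with ⟨xs, F⟩
  rcases xs with _ | ⟨x, xs⟩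
  · rcases F with _ | ⟨c, cs⟩
    · simp [ents, vblk, cblk, nxt]
    · simp [ents, vblk, cblk, nxt]
  · simp [ents, vblk, nxt]

theorem pos_eq {l : List Ent} (hl : (l.map Prod.fst).Nodup) (y : V) (k : ℕ) (hk : k < l.length) :
    pos l y = k ↔ (l[k]'hk).1 = y := by
  constructor
  · intro h
    subst h
    have := List.findIdx_getElem (p := fun z : Ent => decide (z.1 = y)) (xs := l) (w := hk)
    exact of_decide_eq_true this
  · intro h
    have h1 : pos l y < l.length := by
      rw [pos, List.findIdx_lt_length]
      exact ⟨l[k], List.getElem_mem _, by simpa using h⟩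
    have h2 : (l[pos l y]'h1).1 = y := by
      have := List.findIdx_getElem (p := fun z : Ent => decide (z.1 = y)) (xs := l) (w := h1)
      exact of_decide_eq_true this
    have h3 := (List.Nodup.getElem_inj_iff hl (i := pos l y) (j := k) (hi := by simpa using h1)
      (hj := by simpa using hk)).1
    apply h3
    rw [List.getElem_map, List.getElem_map, h2, h]

theorem pos_lt {l : List Ent} (y : V) (h : pos l y < l.length) : (l[pos l y]'h).1 = y := by
  have := List.findIdx_getElem (p := fun z : Ent => decide (z.1 = y)) (xs := l) (w := h)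
  exact of_decide_eq_true this

/-- The vertex with a given number. -/
def vx (I : List Nm × CNF) (k : Fin (geo I).length) : V :=
  ((ents I)[k.1]'(by rw [← geo_length]; exact k.2)).1

theorem geo_out {I : List Nm × CNF} (hI : I.1.Nodup) (k k' : Fin (geo I).length) (i : Fin 2) :
    (geo I).out k i = some k' ↔ outV (ents I) (vx I k) i = some (vx I k') := by
  have hk : k.1 < (ents I).length := by rw [← geo_length]; exact k.2
  have hk' : k'.1 < (ents I).length := by rw [← geo_length]; exact k'.2
  have hm : (vx I k, ((ents I)[k.1]'hk).2) ∈ ents I := List.getElem_mem hk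
  rw [outV_of_mem _ (nodup_keys I hI) hm]
  have hg : (geo I).get k = (((ents I)[k.1]'hk).2.1.map (pos (ents I)),
      ((ents I)[k.1]'hk).2.2.map (pos (ents I))) := by
    rw [List.get_eq_getElem]
    exact List.getElem_map _
  have key : ∀ o : Option V, ((o.map (pos (ents I))).bind fun w =>
      if h : w < (geo I).length then some (⟨w, h⟩ : Fin (geo I).length) else none) = some k' ↔
      o = some (vx I k') := by
    intro o
    cases o with
    | none => simp
    | some y =>
      simp only [Option.map_some, Option.bind_some, Option.some.injEq]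
      constructor
      · intro h
        split at h
        · rename_i hlt
          simp only [Option.some.injEq] at h
          subst h
          exact (pos_lt y (by rw [← geo_length]; exact hlt)).symm
        · simp at h
      · intro h
        have h1 : pos (ents I) y = k'.1 := (pos_eq (nodup_keys I hI) y k'.1 hk').2 h.symm
        have h2 : pos (ents I) y < (geo I).length := by rw [h1]; exact k'.2
        rw [dif_pos h2]
        congr 1
        exact Fin.ext h1
  rw [GI.out, hg]
  split
  · exact key _
  · exact key _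

theorem vx_inj {I : List Nm × CNF} (hI : I.1.Nodup) : Function.Injective (vx I) := by
  intro k k' h
  apply Fin.ext
  have hk : k.1 < (ents I).length := by rw [← geo_length]; exact k.2
  have hk' : k'.1 < (ents I).length := by rw [← geo_length]; exact k'.2
  have := (List.Nodup.getElem_inj_iff (nodup_keys I hI) (i := k.1) (j := k'.1)
    (hi := by simpa using hk) (hj := by simpa using hk')).1
  apply this
  rw [List.getElem_map, List.getElem_map]
  exact h

theorem ents_arc (I : List Nm × CNF) (e : Ent) (he : e ∈ ents I) :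
    e.2.1 ≠ some e.1 ∧ e.2.2 ≠ some e.1 ∧ ∀ w, ¬ (e.2.1 = some w ∧ e.2.2 = some w) := by
  rw [ents, List.mem_append, List.mem_append] at he
  rcases he with he | he | he
  · obtain ⟨zs, hz, he⟩ := List.mem_flatMap.1 he
    cases zs with
    | nil => simp [vblk] at he
    | cons z zs =>
      simp only [vblk, List.mem_cons, List.not_mem_nil, or_false] at he
      rcases he with he | he | he | he | he | he <;> subst he
      · refine ⟨by simp, by simp, ?_⟩
        rintro w ⟨h1, h2⟩
        simp only [Option.some.injEq] at h1 h2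
        rw [← h1] at h2
        simp at h2
      · refine ⟨by simp, by simp, ?_⟩
        rintro w ⟨h1, h2⟩
        simp at h2
      · refine ⟨by simp, by simp, ?_⟩
        rintro w ⟨h1, h2⟩
        simp at h2
      · refine ⟨?_, by simp, ?_⟩
        · cases zs <;> simp [nxt]
        · rintro w ⟨h1, h2⟩
          simp at h2
      · refine ⟨by simp, by simp, ?_⟩
        rintro w ⟨h1, h2⟩
        simp at h2
      · refine ⟨by simp, by simp, ?_⟩
        rintro w ⟨h1, h2⟩
        simp at h2
  · obtain ⟨zs, hz, he⟩ := List.mem_flatMap.1 he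
    cases zs with
    | nil =>
      simp only [cblk, List.mem_cons, List.not_mem_nil, or_false] at he
      subst he
      refine ⟨by simp, by simp, ?_⟩
      rintro w ⟨h1, h2⟩
      simp at h2
    | cons z zs =>
      rw [cblk, List.mem_append] at he
      rcases he with he | he
      · simp only [List.mem_cons, List.not_mem_nil, or_false] at he
        rcases he with he | he <;> subst he
        · refine ⟨by simp, by simp, ?_⟩
          rintro w ⟨h1, h2⟩
          simp at h2
        · refine ⟨by simp, by simp, ?_⟩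
          rintro w ⟨h1, h2⟩
          simp only [Option.some.injEq] at h1 h2
          rw [← h1] at h2
          simp at h2
      · obtain ⟨ls, hl, he⟩ := List.mem_flatMap.1 he
        cases ls with
        | nil =>
          simp only [lblk, List.mem_cons, List.not_mem_nil, or_false] at he
          subst he
          simp
        | cons l ls =>
          simp only [lblk, List.mem_cons, List.not_mem_nil, or_false] at he
          rcases he with he | he <;> subst he
          · refine ⟨by simp, by simp, ?_⟩
            rintro w ⟨h1, h2⟩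
            simp only [Option.some.injEq] at h1 h2
            rw [← h1] at h2
            simp at h2
          · refine ⟨by simp, by simp, ?_⟩
            rintro w ⟨h1, h2⟩
            simp at h2
  · simp only [List.mem_singleton] at he
    subst he
    simp

theorem geo_valid {I : List Nm × CNF} (hI : WF I) : (geo I).Valid := by
  have hout : ∀ (k : Fin (geo I).length) (i : Fin 2), ∃ e ∈ ents I, e.1 = vx I k ∧
      outV (ents I) (vx I k) 0 = e.2.1 ∧ outV (ents I) (vx I k) 1 = e.2.2 := by
    intro k i
    have hk : k.1 < (ents I).length := by rw [← geo_length]; exact k.2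
    have hm : (vx I k, ((ents I)[k.1]'hk).2) ∈ ents I := List.getElem_mem hk
    refine ⟨(vx I k, ((ents I)[k.1]'hk).2), hm, rfl, ?_, ?_⟩
    · rw [outV_of_mem _ (nodup_keys I hI.nodup) hm]; simp
    · rw [outV_of_mem _ (nodup_keys I hI.nodup) hm]; simp
  refine ⟨?_, ?_, ?_⟩
  · rw [geo_length]
    exact List.length_pos_of_mem (ment_q I)
  · intro v i h
    rw [geo_out hI.nodup] at h
    obtain ⟨e, he, h1, h2, h3⟩ := hout v i
    obtain ⟨h4, h5, h6⟩ := ents_arc I e he
    fin_cases i
    · simp only [Fin.zero_eta] at h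
      rw [h2, ← h1] at h
      exact h4 h
    · simp only [Fin.mk_one] at h
      rw [h3, ← h1] at h
      exact h5 h
  · rintro v w ⟨h7, h8⟩
    rw [geo_out hI.nodup] at h7 h8
    obtain ⟨e, he, h1, h2, h3⟩ := hout v 0
    obtain ⟨h4, h5, h6⟩ := ents_arc I e he
    rw [h2] at h7
    rw [h3] at h8
    exact h6 _ ⟨h7, h8⟩

theorem geo_wins {I : List Nm × CNF} (hI : WF I) (h : 0 < (geo I).length) :
    ATrue I ↔ (geo I).Wins h := by
  have h0 : 0 < (ents I).length := by rw [← geo_length]; exact h
  rw [GI.Wins, geo_transfer ⟨vx I, vx_inj hI.nodup⟩ (geo I).out (outV (ents I))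
    (fun a i a' => geo_out hI.nodup a a' i)]
  have e1 : (⟨vx I, vx_inj hI.nodup⟩ : Fin (geo I).length ↪ V) ⟨0, h⟩ = nxt I.2 I.1 :=
    head_ents I h0
  have e2 : (Finset.univ : Finset (Fin (geo I).length)).map ⟨vx I, vx_inj hI.nodup⟩ = K I := by
    ext v
    simp only [Finset.mem_map, Finset.mem_univ, true_and, Function.Embedding.coeFn_mk, K,
      List.mem_toFinset, List.mem_map]
    constructor
    · rintro ⟨k, rfl⟩
      have hk : k.1 < (ents I).length := by rw [← geo_length]; exact k.2
      exact ⟨(ents I)[k.1]'hk, List.getElem_mem hk, rfl⟩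
    · rintro ⟨e, he, rfl⟩
      obtain ⟨k, hk, rfl⟩ := List.getElem_of_mem he
      exact ⟨⟨k, by rw [geo_length]; exact hk⟩, rfl⟩
  rw [Finset.map_erase, e1, e2]
  have := (evalV hI I.1 (List.suffix_refl _) (fun _ => false) ((K I).erase (nxt I.2 I.1)) ?_ ?_ ?_
    ?_).1 hI.even
  · exact this.symm
  · intro v hv hb
    refine Finset.mem_erase.2 ⟨?_, hv⟩
    rintro rfl
    rcases hxs : I.1 with _ | ⟨x, xs⟩
    · rw [hxs] at hb
      simp [nxt, belowV] at hb
    · rw [hxs] at hb
      simp [nxt, belowV] at hb
  · intro ys hy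
    exact jn_mem (Finset.mem_of_mem_erase hy)
  · intro x hx hx'
    exact absurd hx hx'
  · intro x hx hx'
    exact absurd hx hx'

end AG

end Pool.Agent.SetPS
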