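import Pool.Agent.SetPS.CoreStep2

/-!
# Module A: see `Pool.Agent.SetPS.CoreStep2`, theorem `core`
-/
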