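import Pool.Agent.SetPS.Iface
import Mathlib.Data.Fintype.Basic
import Mathlib.Data.Fintype.Prod
import Mathlib.Data.Fintype.Sum
import Mathlib.Data.Finset.Image
import Mathlib.Data.Nat.Bitwise

/-!
# Kayles on hypergraphs, and the gadget
-/

namespace Pool.Agent.SetPS

/-! ### Kayles on hypergraphs -/

section kayles

variable {X : Type} [DecidableEq X]

/-- The player to move wins: a move removes the (nonempty) set `S` of cards, where `E S` and all
cards of `S` are present. -/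
def Wins (E : Finset X → Prop) (P : Finset X) : Prop :=
  ∃ (S : Finset X) (_ : E S) (_ : S ⊆ P) (_ : S.Nonempty), ¬ Wins E (P \ S)
termination_by P.card
decreasing_by
  apply Finset.card_lt_card
  rw [Finset.ssubset_iff_subset_ne]
  refine ⟨Finset.sdiff_subset, fun h => ?_⟩
  obtain ⟨x, hx⟩ := ‹S.Nonempty›
  have h1 : x ∈ P \ S := by rw [h]; exact ‹S ⊆ P› hx
  simp [hx] at h1

/-- The least natural number not in the set. -/
noncomputable def mex (s : Set ℕ) : ℕ := sInf sᶜ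

/-- The Grundy value. -/
noncomputable def grundy (E : Finset X → Prop) (P : Finset X) : ℕ :=
  mex {m | ∃ (S : Finset X) (_ : E S) (_ : S ⊆ P) (_ : S.Nonempty), m = grundy E (P \ S)}
termination_by P.card
decreasing_by
  apply Finset.card_lt_card
  rw [Finset.ssubset_iff_subset_ne]
  refine ⟨Finset.sdiff_subset, fun h => ?_⟩
  obtain ⟨x, hx⟩ := ‹S.Nonempty›
  have h1 : x ∈ P \ S := by rw [h]; exact ‹S ⊆ P› hx
  simp [hx] at h1

end kayles

/-! ### The gadget -/

/-- Two hypergraphs with distinguished cards: `c`, `κ₀ … κ₃`, `φ₀ … φ₃`, `q₀₀ … q₁₃` in the first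
one and `f` in the second one. -/
structure Gad where
  nC : ℕ
  nZ : ℕ
  SC : Finset (Finset (Fin nC))
  SZ : Finset (Finset (Fin nZ))
  c : Fin nC
  κ : Fin 4 → Fin nC
  φ : Fin 4 → Fin nC
  q : Fin 2 → Fin 4 → Fin nC
  f : Fin nZ

namespace Gad

variable (G : Gad)

/-- The Grundy value of a set of cards of the first hypergraph. -/
noncomputable def gC (A : Finset (Fin G.nC)) : ℕ := grundy (fun S => S ∈ G.SC) A

/-- The Grundy value of a set of cards of the second hypergraph. -/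
noncomputable def gZ (A : Finset (Fin G.nZ)) : ℕ := grundy (fun S => S ∈ G.SZ) A

/-- The sets of cards of the first hypergraph that can remain after it has been touched. -/
inductive R : Finset (Fin G.nC) → Prop
  | set0 (S : Finset (Fin G.nC)) (h : S ∈ G.SC) : R (Finset.univ \ S)
  | c0 : R (Finset.univ \ {G.c})
  | κ0 (x : Fin 4) : R (Finset.univ \ {G.κ x})
  | φ0 (x : Fin 4) : R (Finset.univ \ {G.φ x})
  | q0 (i : Fin 2) (x : Fin 4) : R (Finset.univ \ {G.q i x})
  | set (A S : Finset (Fin G.nC)) (h : R A) (hS : S ∈ G.SC) (hSA : S ⊆ A) : R (A \ S)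
  | c (A : Finset (Fin G.nC)) (h : R A) : R (A \ {G.c})
  | κ (A : Finset (Fin G.nC)) (x : Fin 4) (h : R A) : R (A \ {G.κ x})

/-- The properties of the gadget on which the game argument relies. -/
structure Good : Prop where
  cardC : ∀ S ∈ G.SC, S.card = 3
  cardZ : ∀ S ∈ G.SZ, S.card = 3
  c_ne_κ : ∀ x, G.c ≠ G.κ x
  c_ne_φ : ∀ x, G.c ≠ G.φ x
  c_ne_q : ∀ i x, G.c ≠ G.q i x
  κ_ne_q : ∀ x i y, G.κ x ≠ G.q i y
  /-- (H1) -/
  full : G.gC Finset.univ = 8
  tight : ∀ S ∈ G.SC, G.gC (Finset.univ \ S) < 8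
  /-- (H2) -/
  small : ∀ A, G.R A → G.gC A < 8
  /-- (H3) -/
  cval : G.gC (Finset.univ \ {G.c}) = 0
  fval : G.gZ (Finset.univ \ {G.f}) = 0
  /-- (H5) -/
  fmove : ∀ k < 8, ∃ S ∈ G.SZ, G.f ∈ S ∧ G.gZ (Finset.univ \ S) = k
  fsmall : ∀ S ∈ G.SZ, G.f ∈ S → G.gZ (Finset.univ \ S) < 8
  /-- (H6) -/
  payload : ∀ S ∈ G.SZ, G.f ∉ S → 4 ≤ G.gZ ((Finset.univ \ S) \ {G.f}) ∧
    G.gZ ((Finset.univ \ S) \ {G.f}) < 8
  φval : ∀ x : Fin 4, G.gC (Finset.univ \ {G.φ x}) = 4 + x
  /-- (H8) -/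
  qval : ∀ i x, 4 ≤ G.gC (Finset.univ \ {G.q i x}) ∧ G.gC (Finset.univ \ {G.q i x}) < 8
  cqκ : ∀ i (x : Fin 4), G.gC ((Finset.univ \ {G.c}) \ {G.q i x}) ^^^
    G.gC (Finset.univ \ {G.κ x}) = x
  /-- (H9) -/
  inert : ∀ A, G.R A → ∀ x, G.gC A / 4 = G.gC (A \ {G.κ x}) / 4

end Gad

/-! ### The hypergraph built from a graph -/

section cards

variable (G : Gad) (V : Type)

/-- The cards of the big hypergraph. -/
inductive Crd : Type
  | c (v : V) (a : Fin G.nC)
  | z (v : V) (a : Fin G.nZ)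
  | arc (v : V) (i : Fin 2)
  | fix (v : V) (x : Fin 4)
  | y (a : Fin G.nC)
  deriving DecidableEq

variable {V}

/-- The Sets of the big hypergraph. -/
inductive IsS [DecidableEq V] (out : V → Fin 2 → Option V) : Finset (Crd G V) → Prop
  | c (v : V) (S : Finset (Fin G.nC)) (h : S ∈ G.SC) : IsS out (S.image (Crd.c v))
  | z (v : V) (S : Finset (Fin G.nZ)) (h : S ∈ G.SZ) : IsS out (S.image (Crd.z v))
  | y (S : Finset (Fin G.nC)) (h : S ∈ G.SC) : IsS out (S.image Crd.y)
  | arc (v : V) (i : Fin 2) (w : V) (h : out v i = some w) :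
      IsS out {Crd.c v G.c, Crd.z w G.f, Crd.arc v i}
  | ann (v : V) (i : Fin 2) (w : V) (h : out v i = some w) (x : Fin 4) :
      IsS out {Crd.z v G.f, Crd.c w (G.κ x), Crd.c v (G.q i x)}
  | fix (v : V) (x : Fin 4) : IsS out {Crd.z v G.f, Crd.c v (G.φ x), Crd.fix v x}

/-- The start position: all cards except `f` of the start vertex and the private cards of missing
arcs. -/
def InStart (out : V → Fin 2 → Option V) (s : V) : Crd G V → Prop
  | .z v a => ¬ (v = s ∧ a = G.f)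
  | .arc v i => out v i ≠ none
  | _ => True

end cards

end Pool.Agent.SetPS
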