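import Mathlib
import Pool.Agent.SetPS.GadDefs

/-!
# Grundy values: basic facts
-/

namespace Pool.Agent.SetPS

set_option linter.unusedSectionVars false
set_option linter.unusedVariables false

/-! ### mex -/

lemma mex_not_mem {s : Set ℕ} (hs : s.Finite) : mex s ∉ s :=
  Nat.sInf_mem (s := sᶜ) hs.infinite_compl.nonempty

lemma mem_of_lt_mex {s : Set ℕ} {k : ℕ} (h : k < mex s) : k ∈ s := by
  by_contra hk
  exact absurd (Nat.sInf_le (show k ∈ sᶜ from hk)) (not_le.2 h)

/-! ### Grundy values -/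

section kayles

variable {X : Type} [DecidableEq X]

lemma grundy_eq (E : Finset X → Prop) (P : Finset X) :
    grundy E P = mex {m | ∃ S, E S ∧ S ⊆ P ∧ S.Nonempty ∧ m = grundy E (P \ S)} := by
  rw [grundy]
  congr 1
  ext m
  constructor
  · rintro ⟨S, h1, h2, h3, h4⟩; exact ⟨S, h1, h2, h3, h4⟩
  · rintro ⟨S, h1, h2, h3, h4⟩; exact ⟨S, h1, h2, h3, h4⟩

lemma options_finite (E : Finset X → Prop) (P : Finset X) :
    {m | ∃ S, E S ∧ S ⊆ P ∧ S.Nonempty ∧ m = grundy E (P \ S)}.Finite := by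
  refine (P.powerset.finite_toSet.image (fun S => grundy E (P \ S))).subset ?_
  rintro m ⟨S, -, h2, -, rfl⟩
  exact ⟨S, by simpa using h2, rfl⟩

lemma grundy_ne {E : Finset X → Prop} {P S : Finset X} (h1 : E S) (h2 : S ⊆ P) (h3 : S.Nonempty) :
    grundy E (P \ S) ≠ grundy E P := by
  intro h
  have := mex_not_mem (options_finite E P)
  rw [← grundy_eq] at this
  exact this ⟨S, h1, h2, h3, h.symm⟩

lemma grundy_lt {E : Finset X → Prop} {P : Finset X} {k : ℕ} (h : k < grundy E P) :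
    ∃ S, E S ∧ S ⊆ P ∧ S.Nonempty ∧ grundy E (P \ S) = k := by
  rw [grundy_eq] at h
  obtain ⟨S, h1, h2, h3, h4⟩ := mem_of_lt_mex h
  exact ⟨S, h1, h2, h3, h4.symm⟩

lemma wins_iff (E : Finset X → Prop) (P : Finset X) :
    Wins E P ↔ ∃ S, E S ∧ S ⊆ P ∧ S.Nonempty ∧ ¬ Wins E (P \ S) := by
  rw [Wins]
  constructor
  · rintro ⟨S, h1, h2, h3, h4⟩; exact ⟨S, h1, h2, h3, h4⟩
  · rintro ⟨S, h1, h2, h3, h4⟩; exact ⟨S, h1, h2, h3, h4⟩

end kayles

namespace Gad

variable {G : Gad}

lemma gC_ne (hG : G.Good) {A S : Finset (Fin G.nC)} (h : S ∈ G.SC) (h2 : S ⊆ A) :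
    G.gC (A \ S) ≠ G.gC A :=
  grundy_ne h h2 (Finset.card_pos.1 (by rw [hG.cardC S h]; norm_num))

lemma gZ_ne (hG : G.Good) {A S : Finset (Fin G.nZ)} (h : S ∈ G.SZ) (h2 : S ⊆ A) :
    G.gZ (A \ S) ≠ G.gZ A :=
  grundy_ne h h2 (Finset.card_pos.1 (by rw [hG.cardZ S h]; norm_num))

lemma gC_lt {A : Finset (Fin G.nC)} {k : ℕ} (h : k < G.gC A) :
    ∃ S ∈ G.SC, S ⊆ A ∧ G.gC (A \ S) = k := by
  obtain ⟨S, h1, h2, -, h4⟩ := grundy_lt h
  exact ⟨S, h1, h2, h4⟩

lemma gZ_lt {A : Finset (Fin G.nZ)} {k : ℕ} (h : k < G.gZ A) :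
    ∃ S ∈ G.SZ, S ⊆ A ∧ G.gZ (A \ S) = k := by
  obtain ⟨S, h1, h2, -, h4⟩ := grundy_lt h
  exact ⟨S, h1, h2, h4⟩

lemma R_ne_univ (hG : G.Good) {A : Finset (Fin G.nC)} (h : G.R A) : A ≠ Finset.univ := by
  intro h1
  have h2 := hG.small A h
  rw [h1, hG.full] at h2
  omega

end Gad

/-! ### The Grundy value of geography -/

section geo

variable {V : Type} [DecidableEq V]

/-- The Grundy value of geography. -/
noncomputable def gam (out : V → Fin 2 → Option V) (D : Finset V) (t : V) : ℕ :=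
  mex {m | ∃ (i : Fin 2) (w : V) (_ : out t i = some w) (_ : w ∈ D), m = gam out (D.erase w) w}
termination_by D.card
decreasing_by exact Finset.card_erase_lt_of_mem ‹_›

lemma gam_eq (out : V → Fin 2 → Option V) (D : Finset V) (t : V) :
    gam out D t = mex {m | ∃ i w, out t i = some w ∧ w ∈ D ∧ m = gam out (D.erase w) w} := by
  rw [gam]
  congr 1
  ext m
  constructor
  · rintro ⟨S, h1, h2, h3, h4⟩; exact ⟨S, h1, h2, h3, h4⟩
  · rintro ⟨S, h1, h2, h3, h4⟩; exact ⟨S, h1, h2, h3, h4⟩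

lemma gam_options_finite (out : V → Fin 2 → Option V) (D : Finset V) (t : V) :
    {m | ∃ i w, out t i = some w ∧ w ∈ D ∧ m = gam out (D.erase w) w}.Finite := by
  refine (D.finite_toSet.image (fun w => gam out (D.erase w) w)).subset ?_
  rintro m ⟨i, w, -, h2, rfl⟩
  exact ⟨w, h2, rfl⟩

lemma gam_ne {out : V → Fin 2 → Option V} {D : Finset V} {t : V} {i : Fin 2} {w : V}
    (h1 : out t i = some w) (h2 : w ∈ D) : gam out (D.erase w) w ≠ gam out D t := by
  intro h
  have := mex_not_mem (gam_options_finite out D t)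
  rw [← gam_eq] at this
  exact this ⟨i, w, h1, h2, h.symm⟩

lemma gam_lt {out : V → Fin 2 → Option V} {D : Finset V} {t : V} {k : ℕ} (h : k < gam out D t) :
    ∃ i w, out t i = some w ∧ w ∈ D ∧ gam out (D.erase w) w = k := by
  rw [gam_eq] at h
  obtain ⟨i, w, h1, h2, h3⟩ := mem_of_lt_mex h
  exact ⟨i, w, h1, h2, h3.symm⟩

lemma gam_le (out : V → Fin 2 → Option V) (D : Finset V) (t : V) : gam out D t ≤ 2 := by
  by_contra h
  push Not at h
  obtain ⟨i0, w0, a0, -, b0⟩ := gam_lt (show 0 < gam out D t by omega)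
  obtain ⟨i1, w1, a1, -, b1⟩ := gam_lt (show 1 < gam out D t by omega)
  obtain ⟨i2, w2, a2, -, b2⟩ := gam_lt (show 2 < gam out D t by omega)
  have key : ∀ {i j : Fin 2} {w w' : V}, out t i = some w → out t j = some w' →
      gam out (D.erase w) w ≠ gam out (D.erase w') w' → i ≠ j := by
    rintro i j w w' h1 h2 h3 rfl
    rw [h1] at h2
    cases h2
    exact h3 rfl
  have k1 := key a0 a1 (by rw [b0, b1]; norm_num)
  have k2 := key a0 a2 (by rw [b0, b2]; norm_num)
  have k3 := key a1 a2 (by rw [b1, b2]; norm_num)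
  omega

lemma geoWins_iff (out : V → Fin 2 → Option V) (D : Finset V) (t : V) :
    GeoWins out D t ↔ gam out D t ≠ 0 := by
  induction hn : D.card using Nat.strong_induction_on generalizing D t with
  | _ n ih =>
    rw [GeoWins]
    constructor
    · rintro ⟨i, w, h1, h2, h3⟩
      have h4 := (ih _ (by rw [← hn]; exact Finset.card_erase_lt_of_mem h2) (D.erase w) w rfl).not.1 h3
      push Not at h4
      intro h5
      exact gam_ne h1 h2 (h4.trans h5.symm)
    · intro h
      obtain ⟨i, w, h1, h2, h3⟩ := gam_lt (Nat.pos_of_ne_zero h)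
      refine ⟨i, w, h1, h2, ?_⟩
      rw [ih _ (by rw [← hn]; exact Finset.card_erase_lt_of_mem h2) (D.erase w) w rfl]
      simpa using h3

end geo

/-! ### Nim sums -/

section nimsum

variable {V : Type} [Fintype V] [DecidableEq V]

instance xorComm : Std.Commutative (fun a b : ℕ => a ^^^ b) := ⟨Nat.xor_comm⟩

instance xorAssoc : Std.Associative (fun a b : ℕ => a ^^^ b) := ⟨Nat.xor_assoc⟩

/-- The nim sum of a family. -/
def xs (f : V → ℕ) : ℕ := Finset.univ.fold (fun a b : ℕ => a ^^^ b) 0 f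

lemma xs_xor (f g : V → ℕ) : xs (fun v => f v ^^^ g v) = xs f ^^^ xs g := by
  have h := Finset.fold_op_distrib (op := fun a b : ℕ => a ^^^ b) (f := f) (g := g) (b₁ := 0)
    (b₂ := 0) (s := Finset.univ)
  exact h

lemma fold_zero (s : Finset V) (f : V → ℕ) (h : ∀ v ∈ s, f v = 0) : s.fold (fun a b : ℕ => a ^^^ b) 0 f = 0 := by
  induction s using Finset.induction_on with
  | empty => rfl
  | insert a s ha ih =>
    rw [Finset.fold_insert ha, ih (fun v hv => h v (Finset.mem_insert_of_mem hv)),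
      h a (Finset.mem_insert_self _ _)]
    rfl

lemma xs_zero {f : V → ℕ} (h : ∀ v, f v = 0) : xs f = 0 := fold_zero _ f fun v _ => h v

lemma xs_single {f : V → ℕ} (v : V) (h : ∀ u, u ≠ v → f u = 0) : xs f = f v := by
  unfold xs
  rw [← Finset.insert_erase (Finset.mem_univ v), Finset.fold_insert (Finset.notMem_erase _ _),
    fold_zero _ f (fun u hu => h u (Finset.ne_of_mem_erase hu))]
  exact Nat.xor_zero _

lemma xs_pair {f : V → ℕ} {v w : V} (hvw : v ≠ w) (h : ∀ u, u ≠ v → u ≠ w → f u = 0) :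
    xs f = f v ^^^ f w := by
  unfold xs
  rw [← Finset.insert_erase (Finset.mem_univ v), Finset.fold_insert (Finset.notMem_erase _ _)]
  have hw : w ∈ Finset.univ.erase v := Finset.mem_erase.2 ⟨hvw.symm, Finset.mem_univ _⟩
  rw [← Finset.insert_erase hw, Finset.fold_insert (Finset.notMem_erase _ _),
    fold_zero _ f (fun u hu => h u ?_ (Finset.ne_of_mem_erase hu))]
  · show f v ^^^ (f w ^^^ 0) = _
    rw [Nat.xor_zero]
  · have := Finset.mem_of_mem_erase hu
    exact Finset.ne_of_mem_erase this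

lemma exists_testBit {f : V → ℕ} {k : ℕ} (h : (xs f).testBit k = true) :
    ∃ v, (f v).testBit k = true := by
  by_contra hcon
  push Not at hcon
  have key : ∀ s : Finset V, (s.fold (fun a b : ℕ => a ^^^ b) 0 f).testBit k = false := by
    intro s
    induction s using Finset.induction_on with
    | empty => exact Nat.zero_testBit k
    | insert a s ha ih =>
      rw [Finset.fold_insert ha, Nat.testBit_xor, ih]
      simpa using hcon a
  unfold xs at h
  rw [key] at h
  exact absurd h (by simp)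

/-- The top bit. -/
lemma exists_top {X : ℕ} (hX : X ≠ 0) : ∃ k, X.testBit k = true ∧
    ∀ a : ℕ, a.testBit k = true → a ^^^ X < a := by
  refine ⟨Nat.log2 X, Nat.testBit_log2 hX, fun a ha => ?_⟩
  refine Nat.lt_of_testBit (Nat.log2 X) ?_ ha ?_
  · rw [Nat.testBit_xor, ha, Nat.testBit_log2 hX]; rfl
  · intro j hj
    have h1 : X.testBit j = false := by
      refine Nat.testBit_eq_false_of_lt ?_
      exact (Nat.log2_lt hX).1 hj
    rw [Nat.testBit_xor, h1]
    simp

end nimsum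

end Pool.Agent.SetPS
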