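import Pool.Agent.SetPS.CoreBasic

/-!
# Positions of the big hypergraph: components, value, class
-/

namespace Pool.Agent.SetPS

set_option linter.unusedSectionVars false
set_option linter.unusedVariables false

open Finset

section pos

variable {G : Gad} {V : Type} [Fintype V] [DecidableEq V]

/-- The cards of the copy of the first hypergraph at `v`. -/
def CC (P : Finset (Crd G V)) (v : V) : Finset (Fin G.nC) := univ.filter (fun a => Crd.c v a ∈ P)

/-- The cards of the copy of the second hypergraph at `v`. -/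
def ZZ (P : Finset (Crd G V)) (v : V) : Finset (Fin G.nZ) := univ.filter (fun a => Crd.z v a ∈ P)

/-- The cards of the extra copy. -/
def YY (P : Finset (Crd G V)) : Finset (Fin G.nC) := univ.filter (fun a => Crd.y a ∈ P)

lemma mem_CC {P : Finset (Crd G V)} {v : V} {a : Fin G.nC} : a ∈ CC P v ↔ Crd.c v a ∈ P := by
  simp [CC]

lemma mem_ZZ {P : Finset (Crd G V)} {v : V} {a : Fin G.nZ} : a ∈ ZZ P v ↔ Crd.z v a ∈ P := by
  simp [ZZ]

lemma mem_YY {P : Finset (Crd G V)} {a : Fin G.nC} : a ∈ YY P ↔ Crd.y a ∈ P := by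
  simp [YY]

lemma CC_sdiff (P T : Finset (Crd G V)) (v : V) : CC (P \ T) v = CC P v \ CC T v := by
  ext a; simp only [mem_sdiff, mem_CC]

lemma ZZ_sdiff (P T : Finset (Crd G V)) (v : V) : ZZ (P \ T) v = ZZ P v \ ZZ T v := by
  ext a; simp only [mem_sdiff, mem_ZZ]

lemma YY_sdiff (P T : Finset (Crd G V)) : YY (P \ T) = YY P \ YY T := by
  ext a; simp only [mem_sdiff, mem_YY]

lemma CC_mono {P Q : Finset (Crd G V)} (h : P ⊆ Q) (v : V) : CC P v ⊆ CC Q v := fun a ha =>
  mem_CC.2 (h (mem_CC.1 ha))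

/-- There is a token at `v`. -/
def Tok (P : Finset (Crd G V)) (v : V) : Prop := G.f ∉ ZZ P v ∧ CC P v = univ

/-- The untouched vertices. -/
def DD (P : Finset (Crd G V)) : Finset V := univ.filter (fun v => G.f ∈ ZZ P v)

lemma mem_DD {P : Finset (Crd G V)} {v : V} : v ∈ DD P ↔ G.f ∈ ZZ P v := by simp [DD]

/-- The value of the vertex `v`, without the contribution of geography. -/
noncomputable def bb (P : Finset (Crd G V)) (v : V) : ℕ :=
  if G.f ∈ ZZ P v then 0 else G.gZ (ZZ P v) ^^^ G.gC (CC P v)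

/-- The sum of the values. -/
noncomputable def BB (P : Finset (Crd G V)) : ℕ := xs (bb P) ^^^ G.gC (YY P)

open Classical in
/-- The contribution of geography. -/
noncomputable def gm (out : V → Fin 2 → Option V) (T : V → Prop) (D : Finset V) : ℕ :=
  if h : ∃ t, T t then gam out D h.choose else 0

/-- The value of the position. -/
noncomputable def FF (out : V → Fin 2 → Option V) (P : Finset (Crd G V)) : ℕ :=
  BB P ^^^ gm out (Tok P) (DD P)

lemma gm_lt (out : V → Fin 2 → Option V) (T : V → Prop) (D : Finset V) : gm out T D < 4 := by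
  unfold gm
  split_ifs with h
  · have := gam_le out D h.choose
    omega
  · norm_num

lemma gm_tok {out : V → Fin 2 → Option V} {T : V → Prop} {D : Finset V} {t : V}
    (h : T t) (hu : ∀ u v, T u → T v → u = v) : gm out T D = gam out D t := by
  have h1 : ∃ t, T t := ⟨t, h⟩
  unfold gm
  rw [dif_pos h1, hu _ _ h1.choose_spec h]

lemma gm_none {out : V → Fin 2 → Option V} {T : V → Prop} {D : Finset V}
    (h : ∀ t, ¬ T t) : gm out T D = 0 := by
  unfold gm
  rw [dif_neg]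
  rintro ⟨t, ht⟩
  exact h t ht

/-- The class of positions. -/
structure Cls (out : V → Fin 2 → Option V) (P : Finset (Crd G V)) : Prop where
  d : ∀ v, G.f ∈ ZZ P v → CC P v = univ ∧ ZZ P v = univ
  r : ∀ v, G.f ∉ ZZ P v → CC P v = univ ∨ G.R (CC P v)
  tok : ∀ u v, Tok P u → Tok P v → u = v
  arc : ∀ v i w, out v i = some w → G.c ∈ CC P v → Crd.arc v i ∈ P
  fix : ∀ v x, G.f ∈ ZZ P v → Crd.fix v x ∈ P

/-- The two components of `P` and `P'` at `u` are the same. -/
def Same (P P' : Finset (Crd G V)) (u : V) : Prop := CC P' u = CC P u ∧ ZZ P' u = ZZ P u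

lemma Same.bb {P P' : Finset (Crd G V)} {u : V} (h : Same P P' u) : bb P' u = bb P u := by
  unfold SetPS.bb
  rw [h.1, h.2]

lemma Same.tok {P P' : Finset (Crd G V)} {u : V} (h : Same P P' u) : Tok P' u ↔ Tok P u := by
  unfold Tok
  rw [h.1, h.2]

lemma BB_one {P P' : Finset (Crd G V)} (v : V) (h : ∀ u, u ≠ v → Same P P' u) (hY : YY P' = YY P) :
    BB P' = BB P ^^^ (bb P v ^^^ bb P' v) := by
  have h1 : xs (fun u => bb P u ^^^ bb P' u) = bb P v ^^^ bb P' v := by
    refine xs_single v fun u hu => ?_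
    rw [(h u hu).bb, Nat.xor_self]
  rw [xs_xor] at h1
  unfold BB
  rw [← h1, hY]
  rw [Nat.xor_comm (xs (SetPS.bb P)) (G.gC (YY P)), Nat.xor_assoc, ← Nat.xor_assoc (xs (SetPS.bb P)),
    Nat.xor_self, Nat.zero_xor, Nat.xor_comm]

lemma BB_two {P P' : Finset (Crd G V)} {v w : V} (hvw : v ≠ w)
    (h : ∀ u, u ≠ v → u ≠ w → Same P P' u) (hY : YY P' = YY P) :
    BB P' = BB P ^^^ ((bb P v ^^^ bb P' v) ^^^ (bb P w ^^^ bb P' w)) := by
  have h1 : xs (fun u => bb P u ^^^ bb P' u) = (bb P v ^^^ bb P' v) ^^^ (bb P w ^^^ bb P' w) := by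
    refine xs_pair hvw fun u hu hu2 => ?_
    rw [(h u hu hu2).bb, Nat.xor_self]
  rw [xs_xor] at h1
  unfold BB
  rw [← h1, hY]
  rw [Nat.xor_comm (xs (SetPS.bb P)) (G.gC (YY P)), Nat.xor_assoc, ← Nat.xor_assoc (xs (SetPS.bb P)),
    Nat.xor_self, Nat.zero_xor, Nat.xor_comm]

lemma bb_D {P : Finset (Crd G V)} {v : V} (h : G.f ∈ ZZ P v) : bb P v = 0 := by
  unfold bb; rw [if_pos h]

lemma bb_N {P : Finset (Crd G V)} {v : V} (h : G.f ∉ ZZ P v) :
    bb P v = G.gZ (ZZ P v) ^^^ G.gC (CC P v) := by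
  unfold bb; rw [if_neg h]

lemma cls_of {out : V → Fin 2 → Option V} {P P' : Finset (Crd G V)} (hG : G.Good)
    (h : Cls out P) (hsub : P' ⊆ P)
    (hst : ∀ u, Same P P' u ∨
      (G.f ∉ ZZ P' u ∧ (G.R (CC P' u) ∨ (CC P' u = CC P u ∧ G.f ∉ ZZ P u))))
    (harc : ∀ u i w, out u i = some w → G.c ∈ CC P' u → Crd.arc u i ∈ P → Crd.arc u i ∈ P')
    (hfix : ∀ u x, G.f ∈ ZZ P' u → Crd.fix u x ∈ P → Crd.fix u x ∈ P') : Cls out P' := by
  have htok : ∀ u, Tok P' u → Tok P u := by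
    intro u hu
    rcases hst u with h1 | ⟨h1, h2 | h2⟩
    · exact h1.tok.1 hu
    · exact absurd hu.2 (Gad.R_ne_univ hG h2)
    · exact ⟨h2.2, h2.1.symm.trans hu.2⟩
  refine ⟨fun u hu => ?_, fun u hu => ?_, fun u v hu hv => h.tok u v (htok u hu) (htok v hv),
    fun u i w h1 h2 => ?_, fun u x hu => ?_⟩
  · rcases hst u with h1 | ⟨h1, h2⟩
    · rw [h1.1, h1.2]
      exact h.d u (by rw [← h1.2]; exact hu)
    · exact absurd hu h1
  · rcases hst u with h1 | ⟨h1, h2 | h2⟩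
    · rw [h1.1]
      exact h.r u (by rw [← h1.2]; exact hu)
    · exact Or.inr h2
    · rw [h2.1]
      exact h.r u h2.2
  · exact harc u i w h1 h2 (h.arc u i w h1 (CC_mono hsub u h2))
  · refine hfix u x hu (h.fix u x ?_)
    rcases hst u with h1 | ⟨h1, h2⟩
    · rw [← h1.2]; exact hu
    · exact absurd hu h1

lemma cls_tok {out : V → Fin 2 → Option V} {P P' : Finset (Crd G V)} (hG : G.Good)
    (h : Cls out P) (hsub : P' ⊆ P) (w : V) (hw : Tok P' w)
    (hst : ∀ u, u ≠ w → Same P P' u ∨ (G.f ∉ ZZ P' u ∧ G.R (CC P' u)))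
    (hno : ∀ u, u ≠ w → ¬ Tok P' u)
    (harc : ∀ u i w, out u i = some w → G.c ∈ CC P' u → Crd.arc u i ∈ P → Crd.arc u i ∈ P')
    (hfix : ∀ u x, G.f ∈ ZZ P' u → Crd.fix u x ∈ P → Crd.fix u x ∈ P') : Cls out P' := by
  refine ⟨fun u hu => ?_, fun u hu => ?_, fun u v hu hv => ?_,
    fun u i w h1 h2 => ?_, fun u x hu => ?_⟩
  · have huw : u ≠ w := fun h1 => hw.1 (h1 ▸ hu)
    rcases hst u huw with h1 | ⟨h1, h2⟩
    · rw [h1.1, h1.2]
      exact h.d u (by rw [← h1.2]; exact hu)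
    · exact absurd hu h1
  · by_cases huw : u = w
    · left; rw [huw]; exact hw.2
    · rcases hst u huw with h1 | ⟨h1, h2⟩
      · rw [h1.1]
        exact h.r u (by rw [← h1.2]; exact hu)
      · exact Or.inr h2
  · have h1 : u = w := by by_contra h1; exact hno u h1 hu
    have h2 : v = w := by by_contra h2; exact hno v h2 hv
    rw [h1, h2]
  · exact harc u i _ h1 h2 (h.arc u i _ h1 (CC_mono hsub u h2))
  · have huw : u ≠ w := fun h1 => hw.1 (h1 ▸ hu)
    refine hfix u x hu (h.fix u x ?_)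
    rcases hst u huw with h1 | ⟨h1, h2⟩
    · rw [← h1.2]; exact hu
    · exact absurd hu h1

lemma tok_eq {P P' : Finset (Crd G V)} (h : ∀ u, Tok P' u ↔ Tok P u) : Tok P' = Tok P := by
  funext u
  exact propext (h u)

lemma imC_sub {P : Finset (Crd G V)} {v : V} {S : Finset (Fin G.nC)} :
    S.image (Crd.c v) ⊆ P ↔ S ⊆ CC P v := by
  rw [image_subset_iff]
  exact ⟨fun h a ha => mem_CC.2 (h a ha), fun h a ha => mem_CC.1 (h ha)⟩

lemma imZ_sub {P : Finset (Crd G V)} {v : V} {S : Finset (Fin G.nZ)} :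
    S.image (Crd.z v) ⊆ P ↔ S ⊆ ZZ P v := by
  rw [image_subset_iff]
  exact ⟨fun h a ha => mem_ZZ.2 (h a ha), fun h a ha => mem_ZZ.1 (h ha)⟩

lemma imY_sub {P : Finset (Crd G V)} {S : Finset (Fin G.nC)} :
    S.image Crd.y ⊆ P ↔ S ⊆ YY P := by
  rw [image_subset_iff]
  exact ⟨fun h a ha => mem_YY.2 (h a ha), fun h a ha => mem_YY.1 (h ha)⟩

/-! ### The components of the Sets -/

lemma CC_imC (v : V) (S : Finset (Fin G.nC)) (u : V) :
    CC (S.image (Crd.c (G := G) v)) u = if u = v then S else ∅ := by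
  ext a
  rw [mem_CC, mem_image]
  split_ifs with h
  · subst h
    simp
  · simp
    intro _ h1
    exact h h1.symm

lemma ZZ_imC (v : V) (S : Finset (Fin G.nC)) (u : V) :
    ZZ (S.image (Crd.c (G := G) v)) u = ∅ := by
  ext a
  rw [mem_ZZ, mem_image]
  simp

lemma YY_imC (v : V) (S : Finset (Fin G.nC)) :
    YY (S.image (Crd.c (G := G) v)) = ∅ := by
  ext a
  rw [mem_YY, mem_image]
  simp

lemma CC_imZ (v : V) (S : Finset (Fin G.nZ)) (u : V) :
    CC (S.image (Crd.z (G := G) v)) u = ∅ := by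
  ext a
  rw [mem_CC, mem_image]
  simp

lemma ZZ_imZ (v : V) (S : Finset (Fin G.nZ)) (u : V) :
    ZZ (S.image (Crd.z (G := G) v)) u = if u = v then S else ∅ := by
  ext a
  rw [mem_ZZ, mem_image]
  split_ifs with h
  · subst h
    simp
  · simp
    intro _ h1
    exact h h1.symm

lemma YY_imZ (v : V) (S : Finset (Fin G.nZ)) :
    YY (S.image (Crd.z (G := G) v)) = ∅ := by
  ext a
  rw [mem_YY, mem_image]
  simp

lemma CC_imY (S : Finset (Fin G.nC)) (u : V) : CC (S.image (Crd.y (G := G) (V := V))) u = ∅ := by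
  ext a
  rw [mem_CC, mem_image]
  simp

lemma ZZ_imY (S : Finset (Fin G.nC)) (u : V) : ZZ (S.image (Crd.y (G := G) (V := V))) u = ∅ := by
  ext a
  rw [mem_ZZ, mem_image]
  simp

lemma YY_imY (S : Finset (Fin G.nC)) : YY (S.image (Crd.y (G := G) (V := V))) = S := by
  ext a
  rw [mem_YY, mem_image]
  simp

lemma CC_arc (v w : V) (i : Fin 2) (u : V) :
    CC ({Crd.c v G.c, Crd.z w G.f, Crd.arc v i} : Finset (Crd G V)) u = if u = v then {G.c} else ∅ := by
  ext a
  rw [mem_CC]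
  split_ifs with h
  · subst h; simp
  · simp [h]

lemma ZZ_arc (v w : V) (i : Fin 2) (u : V) :
    ZZ ({Crd.c v G.c, Crd.z w G.f, Crd.arc v i} : Finset (Crd G V)) u = if u = w then {G.f} else ∅ := by
  ext a
  rw [mem_ZZ]
  split_ifs with h
  · subst h; simp
  · simp [h]

lemma YY_arc (v w : V) (i : Fin 2) :
    YY ({Crd.c v G.c, Crd.z w G.f, Crd.arc v i} : Finset (Crd G V)) = ∅ := by
  ext a
  rw [mem_YY]
  simp

lemma CC_ann {v w : V} (hvw : v ≠ w) (i : Fin 2) (x : Fin 4) (u : V) :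
    CC ({Crd.z v G.f, Crd.c w (G.κ x), Crd.c v (G.q i x)} : Finset (Crd G V)) u =
      if u = v then {G.q i x} else if u = w then {G.κ x} else ∅ := by
  ext a
  rw [mem_CC]
  split_ifs with h h1
  · subst h; simp [hvw]
  · subst h1; simp [h]
  · simp [h, h1]

lemma ZZ_ann (v w : V) (i : Fin 2) (x : Fin 4) (u : V) :
    ZZ ({Crd.z v G.f, Crd.c w (G.κ x), Crd.c v (G.q i x)} : Finset (Crd G V)) u =
      if u = v then {G.f} else ∅ := by
  ext a
  rw [mem_ZZ]
  split_ifs with h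
  · subst h; simp
  · simp [h]

lemma YY_ann (v w : V) (i : Fin 2) (x : Fin 4) :
    YY ({Crd.z v G.f, Crd.c w (G.κ x), Crd.c v (G.q i x)} : Finset (Crd G V)) = ∅ := by
  ext a
  rw [mem_YY]
  simp

lemma CC_fix (v : V) (x : Fin 4) (u : V) :
    CC ({Crd.z v G.f, Crd.c v (G.φ x), Crd.fix v x} : Finset (Crd G V)) u =
      if u = v then {G.φ x} else ∅ := by
  ext a
  rw [mem_CC]
  split_ifs with h
  · subst h; simp
  · simp [h]

lemma ZZ_fix (v : V) (x : Fin 4) (u : V) :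
    ZZ ({Crd.z v G.f, Crd.c v (G.φ x), Crd.fix v x} : Finset (Crd G V)) u =
      if u = v then {G.f} else ∅ := by
  ext a
  rw [mem_ZZ]
  split_ifs with h
  · subst h; simp
  · simp [h]

lemma YY_fix (v : V) (x : Fin 4) :
    YY ({Crd.z v G.f, Crd.c v (G.φ x), Crd.fix v x} : Finset (Crd G V)) = ∅ := by
  ext a
  rw [mem_YY]
  simp

end pos

end Pool.Agent.SetPS
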