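import Pool.Agent.SetPS.CorePos

/-!
# Positions of nonzero value have a move to a position of value zero
-/

namespace Pool.Agent.SetPS

set_option linter.unusedSectionVars false
set_option linter.unusedVariables false

open Finset

section step

variable {G : Gad} {V : Type} [Fintype V] [DecidableEq V]

/-- There is a move to a position of the class of value zero. -/
def Reply (out : V → Fin 2 → Option V) (P : Finset (Crd G V)) : Prop :=
  ∃ T, IsS G out T ∧ T ⊆ P ∧ T.Nonempty ∧ Cls out (P \ T) ∧ FF out (P \ T) = 0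

lemma im_nonempty {α β : Type} [DecidableEq β] {S : Finset α} {f : α → β} (h : S.card = 3) :
    (S.image f).Nonempty := by
  rw [image_nonempty]
  exact card_pos.1 (by omega)

lemma x1 (B z c g : ℕ) : (B ^^^ ((z ^^^ c) ^^^ ((z ^^^ (B ^^^ g)) ^^^ c))) ^^^ g = 0 := by
  apply Nat.eq_of_testBit_eq; intro i
  simp only [Nat.testBit_xor, Nat.zero_testBit]
  cases B.testBit i <;> cases z.testBit i <;> cases c.testBit i <;> cases g.testBit i <;> rfl

lemma x2 (B z c g : ℕ) : (B ^^^ ((z ^^^ c) ^^^ (z ^^^ (c ^^^ (B ^^^ g))))) ^^^ g = 0 := by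
  apply Nat.eq_of_testBit_eq; intro i
  simp only [Nat.testBit_xor, Nat.zero_testBit]
  cases B.testBit i <;> cases z.testBit i <;> cases c.testBit i <;> cases g.testBit i <;> rfl

/-- Removing an internal Set from a copy of the second hypergraph. -/
lemma facts_Z (P : Finset (Crd G V)) (v : V) (S : Finset (Fin G.nZ)) :
    (∀ u, CC (P \ S.image (Crd.z v)) u = CC P u) ∧
    (∀ u, u ≠ v → ZZ (P \ S.image (Crd.z v)) u = ZZ P u) ∧
    ZZ (P \ S.image (Crd.z v)) v = ZZ P v \ S ∧ YY (P \ S.image (Crd.z v)) = YY P ∧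
    (∀ u i, Crd.arc u i ∈ P \ S.image (Crd.z v) ↔ Crd.arc u i ∈ P) ∧
    (∀ u x, Crd.fix u x ∈ P \ S.image (Crd.z v) ↔ Crd.fix u x ∈ P) := by
  refine ⟨fun u => ?_, fun u hu => ?_, ?_, ?_, fun u i => ?_, fun u x => ?_⟩
  · rw [CC_sdiff, CC_imZ, sdiff_empty]
  · rw [ZZ_sdiff, ZZ_imZ, if_neg hu, sdiff_empty]
  · rw [ZZ_sdiff, ZZ_imZ, if_pos rfl]
  · rw [YY_sdiff, YY_imZ, sdiff_empty]
  · simp
  · simp

/-- Removing an internal Set from a copy of the first hypergraph. -/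
lemma facts_C (P : Finset (Crd G V)) (v : V) (S : Finset (Fin G.nC)) :
    (∀ u, ZZ (P \ S.image (Crd.c v)) u = ZZ P u) ∧
    (∀ u, u ≠ v → CC (P \ S.image (Crd.c v)) u = CC P u) ∧
    CC (P \ S.image (Crd.c v)) v = CC P v \ S ∧ YY (P \ S.image (Crd.c v)) = YY P ∧
    (∀ u i, Crd.arc u i ∈ P \ S.image (Crd.c v) ↔ Crd.arc u i ∈ P) ∧
    (∀ u x, Crd.fix u x ∈ P \ S.image (Crd.c v) ↔ Crd.fix u x ∈ P) := by
  refine ⟨fun u => ?_, fun u hu => ?_, ?_, ?_, fun u i => ?_, fun u x => ?_⟩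
  · rw [ZZ_sdiff, ZZ_imC, sdiff_empty]
  · rw [CC_sdiff, CC_imC, if_neg hu, sdiff_empty]
  · rw [CC_sdiff, CC_imC, if_pos rfl]
  · rw [YY_sdiff, YY_imC, sdiff_empty]
  · simp
  · simp

/-- Removing an internal Set from the extra copy. -/
lemma facts_Y (P : Finset (Crd G V)) (S : Finset (Fin G.nC)) :
    (∀ u, ZZ (P \ S.image Crd.y) u = ZZ P u) ∧
    (∀ u, CC (P \ S.image Crd.y) u = CC P u) ∧
    YY (P \ S.image Crd.y) = YY P \ S ∧
    (∀ u i, Crd.arc u i ∈ P \ S.image Crd.y ↔ Crd.arc u i ∈ P) ∧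
    (∀ u x, Crd.fix u x ∈ P \ S.image Crd.y ↔ Crd.fix u x ∈ P) := by
  refine ⟨fun u => ?_, fun u => ?_, ?_, fun u i => ?_, fun u x => ?_⟩
  · rw [ZZ_sdiff, ZZ_imY, sdiff_empty]
  · rw [CC_sdiff, CC_imY, sdiff_empty]
  · rw [YY_sdiff, YY_imY]
  · simp
  · simp

/-- Removing an arc Set. -/
lemma facts_arc (P : Finset (Crd G V)) (v w : V) (i : Fin 2) :
    (∀ u, u ≠ v → CC (P \ {Crd.c v G.c, Crd.z w G.f, Crd.arc v i}) u = CC P u) ∧
    CC (P \ {Crd.c v G.c, Crd.z w G.f, Crd.arc v i}) v = CC P v \ {G.c} ∧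
    (∀ u, u ≠ w → ZZ (P \ {Crd.c v G.c, Crd.z w G.f, Crd.arc v i}) u = ZZ P u) ∧
    ZZ (P \ {Crd.c v G.c, Crd.z w G.f, Crd.arc v i}) w = ZZ P w \ {G.f} ∧
    YY (P \ {Crd.c v G.c, Crd.z w G.f, Crd.arc v i}) = YY P ∧
    (∀ u j, u ≠ v → (Crd.arc u j ∈ P \ {Crd.c v G.c, Crd.z w G.f, Crd.arc v i} ↔
      Crd.arc u j ∈ P)) ∧
    (∀ u x, Crd.fix u x ∈ P \ {Crd.c v G.c, Crd.z w G.f, Crd.arc v i} ↔ Crd.fix u x ∈ P) := by
  refine ⟨fun u hu => ?_, ?_, fun u hu => ?_, ?_, ?_, fun u i hu => ?_, fun u x => ?_⟩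
  · rw [CC_sdiff, CC_arc, if_neg hu, sdiff_empty]
  · rw [CC_sdiff, CC_arc, if_pos rfl]
  · rw [ZZ_sdiff, ZZ_arc, if_neg hu, sdiff_empty]
  · rw [ZZ_sdiff, ZZ_arc, if_pos rfl]
  · rw [YY_sdiff, YY_arc, sdiff_empty]
  · simp [hu]
  · simp

/-- Removing an annihilator. -/
lemma facts_ann (P : Finset (Crd G V)) {v w : V} (hvw : v ≠ w) (i : Fin 2) (x : Fin 4) :
    (∀ u, u ≠ v → u ≠ w →
      CC (P \ {Crd.z v G.f, Crd.c w (G.κ x), Crd.c v (G.q i x)}) u = CC P u) ∧
    CC (P \ {Crd.z v G.f, Crd.c w (G.κ x), Crd.c v (G.q i x)}) v = CC P v \ {G.q i x} ∧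
    CC (P \ {Crd.z v G.f, Crd.c w (G.κ x), Crd.c v (G.q i x)}) w = CC P w \ {G.κ x} ∧
    (∀ u, u ≠ v → ZZ (P \ {Crd.z v G.f, Crd.c w (G.κ x), Crd.c v (G.q i x)}) u = ZZ P u) ∧
    ZZ (P \ {Crd.z v G.f, Crd.c w (G.κ x), Crd.c v (G.q i x)}) v = ZZ P v \ {G.f} ∧
    YY (P \ {Crd.z v G.f, Crd.c w (G.κ x), Crd.c v (G.q i x)}) = YY P ∧
    (∀ u j, (Crd.arc u j ∈ P \ {Crd.z v G.f, Crd.c w (G.κ x), Crd.c v (G.q i x)} ↔
      Crd.arc u j ∈ P)) ∧
    (∀ u y, Crd.fix u y ∈ P \ {Crd.z v G.f, Crd.c w (G.κ x), Crd.c v (G.q i x)} ↔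
      Crd.fix u y ∈ P) := by
  refine ⟨fun u hu hu2 => ?_, ?_, ?_, fun u hu => ?_, ?_, ?_, fun u i => ?_, fun u x => ?_⟩
  · rw [CC_sdiff, CC_ann hvw, if_neg hu, if_neg hu2, sdiff_empty]
  · rw [CC_sdiff, CC_ann hvw, if_pos rfl]
  · rw [CC_sdiff, CC_ann hvw, if_neg hvw.symm, if_pos rfl]
  · rw [ZZ_sdiff, ZZ_ann, if_neg hu, sdiff_empty]
  · rw [ZZ_sdiff, ZZ_ann, if_pos rfl]
  · rw [YY_sdiff, YY_ann, sdiff_empty]
  · simp
  · simp

/-- Removing a fixer. -/
lemma facts_fix (P : Finset (Crd G V)) (v : V) (x : Fin 4) :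
    (∀ u, u ≠ v → CC (P \ {Crd.z v G.f, Crd.c v (G.φ x), Crd.fix v x}) u = CC P u) ∧
    CC (P \ {Crd.z v G.f, Crd.c v (G.φ x), Crd.fix v x}) v = CC P v \ {G.φ x} ∧
    (∀ u, u ≠ v → ZZ (P \ {Crd.z v G.f, Crd.c v (G.φ x), Crd.fix v x}) u = ZZ P u) ∧
    ZZ (P \ {Crd.z v G.f, Crd.c v (G.φ x), Crd.fix v x}) v = ZZ P v \ {G.f} ∧
    YY (P \ {Crd.z v G.f, Crd.c v (G.φ x), Crd.fix v x}) = YY P ∧
    (∀ u j, (Crd.arc u j ∈ P \ {Crd.z v G.f, Crd.c v (G.φ x), Crd.fix v x} ↔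
      Crd.arc u j ∈ P)) ∧
    (∀ u y, u ≠ v → (Crd.fix u y ∈ P \ {Crd.z v G.f, Crd.c v (G.φ x), Crd.fix v x} ↔
      Crd.fix u y ∈ P)) := by
  refine ⟨fun u hu => ?_, ?_, fun u hu => ?_, ?_, ?_, fun u i => ?_, fun u x hu => ?_⟩
  · rw [CC_sdiff, CC_fix, if_neg hu, sdiff_empty]
  · rw [CC_sdiff, CC_fix, if_pos rfl]
  · rw [ZZ_sdiff, ZZ_fix, if_neg hu, sdiff_empty]
  · rw [ZZ_sdiff, ZZ_fix, if_pos rfl]
  · rw [YY_sdiff, YY_fix, sdiff_empty]
  · simp
  · simp [hu]

/-! ### Nonzero value -/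

variable {out : V → Fin 2 → Option V}

/-- An internal move in `Z_v` at a touched vertex. -/
lemma mv_Z (hG : G.Good) {P : Finset (Crd G V)} (hP : Cls out P) {v : V} (hv : G.f ∉ ZZ P v)
    (S : Finset (Fin G.nZ)) :
    Cls out (P \ S.image (Crd.z v)) ∧ FF out (P \ S.image (Crd.z v)) =
      (BB P ^^^ ((G.gZ (ZZ P v) ^^^ G.gC (CC P v)) ^^^ (G.gZ (ZZ P v \ S) ^^^ G.gC (CC P v)))) ^^^
        gm out (Tok P) (DD P) := by
  obtain ⟨h1, h2, h3, h4, h5, h6⟩ := facts_Z P v S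
  set P' := P \ S.image (Crd.z v) with hP'
  have hv' : G.f ∉ ZZ P' v := by
    rw [h3]; exact fun h => hv (mem_sdiff.1 h).1
  have hs : ∀ u, u ≠ v → Same P P' u := fun u hu => ⟨h1 u, h2 u hu⟩
  have ht : Tok P' = Tok P := tok_eq fun u => by
    by_cases hu : u = v
    · subst hu
      exact ⟨fun h => ⟨hv, by rw [← h1]; exact h.2⟩, fun h => ⟨hv', by rw [h1]; exact h.2⟩⟩
    · exact (hs u hu).tok
  have hd : DD P' = DD P := by
    ext u
    rw [mem_DD, mem_DD]
    by_cases hu : u = v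
    · subst hu; exact ⟨fun h => absurd h hv', fun h => absurd h hv⟩
    · rw [h2 u hu]
  refine ⟨cls_of hG hP sdiff_subset (fun u => ?_) (fun u i w _ _ h => (h5 u i).2 h)
    (fun u x _ h => (h6 u x).2 h), ?_⟩
  · by_cases hu : u = v
    · subst hu; exact Or.inr ⟨hv', Or.inr ⟨h1 u, hv⟩⟩
    · exact Or.inl (hs u hu)
  · unfold FF
    rw [BB_one v hs h4, ht, hd, bb_N hv, bb_N hv', h3, h1]

/-- An internal move in `C_v` at a touched vertex without token. -/
lemma mv_C (hG : G.Good) {P : Finset (Crd G V)} (hP : Cls out P) {v : V} (hv : G.f ∉ ZZ P v)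
    (hR : G.R (CC P v)) {S : Finset (Fin G.nC)} (hS : S ∈ G.SC) (hSv : S ⊆ CC P v) :
    Cls out (P \ S.image (Crd.c v)) ∧ FF out (P \ S.image (Crd.c v)) =
      (BB P ^^^ ((G.gZ (ZZ P v) ^^^ G.gC (CC P v)) ^^^ (G.gZ (ZZ P v) ^^^ G.gC (CC P v \ S)))) ^^^
        gm out (Tok P) (DD P) := by
  obtain ⟨h1, h2, h3, h4, h5, h6⟩ := facts_C P v S
  set P' := P \ S.image (Crd.c v) with hP'
  have hv' : G.f ∉ ZZ P' v := by rw [h1]; exact hv
  have hs : ∀ u, u ≠ v → Same P P' u := fun u hu => ⟨h2 u hu, h1 u⟩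
  have hR' : G.R (CC P' v) := by rw [h3]; exact Gad.R.set _ _ hR hS hSv
  have ht : Tok P' = Tok P := tok_eq fun u => by
    by_cases hu : u = v
    · subst hu
      exact ⟨fun h => absurd h.2 (Gad.R_ne_univ hG hR'), fun h => absurd h.2 (Gad.R_ne_univ hG hR)⟩
    · exact (hs u hu).tok
  have hd : DD P' = DD P := by
    ext u
    rw [mem_DD, mem_DD, h1]
  refine ⟨cls_of hG hP sdiff_subset (fun u => ?_) (fun u i w _ _ h => (h5 u i).2 h)
    (fun u x _ h => (h6 u x).2 h), ?_⟩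
  · by_cases hu : u = v
    · subst hu; exact Or.inr ⟨hv', Or.inl hR'⟩
    · exact Or.inl (hs u hu)
  · unfold FF
    rw [BB_one v hs h4, ht, hd, bb_N hv, bb_N hv', h3, h1]

/-- An internal move in `Y`. -/
lemma mv_Y (hG : G.Good) {P : Finset (Crd G V)} (hP : Cls out P) (S : Finset (Fin G.nC)) :
    Cls out (P \ S.image Crd.y) ∧ FF out (P \ S.image Crd.y) =
      (xs (bb P) ^^^ G.gC (YY P \ S)) ^^^ gm out (Tok P) (DD P) := by
  obtain ⟨h1, h2, h3, h5, h6⟩ := facts_Y P S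
  set P' := P \ S.image Crd.y with hP'
  have hs : ∀ u, Same P P' u := fun u => ⟨h2 u, h1 u⟩
  have ht : Tok P' = Tok P := tok_eq fun u => (hs u).tok
  have hd : DD P' = DD P := by
    ext u
    rw [mem_DD, mem_DD, h1]
  have hb : bb P' = bb P := funext fun u => (hs u).bb
  refine ⟨cls_of hG hP sdiff_subset (fun u => Or.inl (hs u)) (fun u i w _ _ h => (h5 u i).2 h)
    (fun u x _ h => (h6 u x).2 h), ?_⟩
  unfold FF BB
  rw [ht, hd, hb, h3]

/-- An internal move in `C_t` for the token `t`. -/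
lemma mv_T (hG : G.Good) {P : Finset (Crd G V)} (hP : Cls out P) {t : V} (ht0 : Tok P t)
    {S : Finset (Fin G.nC)} (hS : S ∈ G.SC) :
    Cls out (P \ S.image (Crd.c t)) ∧ FF out (P \ S.image (Crd.c t)) =
      BB P ^^^ ((G.gZ (ZZ P t) ^^^ 8) ^^^ (G.gZ (ZZ P t) ^^^ G.gC (univ \ S))) := by
  obtain ⟨h1, h2, h3, h4, h5, h6⟩ := facts_C P t S
  set P' := P \ S.image (Crd.c t) with hP'
  have hv := ht0.1
  have hv' : G.f ∉ ZZ P' t := by rw [h1]; exact hv
  have hs : ∀ u, u ≠ t → Same P P' u := fun u hu => ⟨h2 u hu, h1 u⟩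
  have h3' : CC P' t = univ \ S := by rw [h3, ht0.2]
  have hR' : G.R (CC P' t) := by rw [h3']; exact Gad.R.set0 _ hS
  have ht : ∀ u, ¬ Tok P' u := fun u hu => by
    by_cases hut : u = t
    · subst hut
      exact absurd hu.2 (Gad.R_ne_univ hG hR')
    · exact hut (hP.tok u t ((hs u hut).tok.1 hu) ht0)
  refine ⟨cls_of hG hP sdiff_subset (fun u => ?_) (fun u i w _ _ h => (h5 u i).2 h)
    (fun u x _ h => (h6 u x).2 h), ?_⟩
  · by_cases hu : u = t
    · subst hu; exact Or.inr ⟨hv', Or.inl hR'⟩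
    · exact Or.inl (hs u hu)
  · unfold FF
    rw [BB_one t hs h4, gm_none ht, bb_N hv, bb_N hv', h3', h1, ht0.2, hG.full, Nat.xor_zero]

/-- The arc move of the token. -/
lemma mv_arc (hG : G.Good) (hl : ∀ v i, out v i ≠ some v) {P : Finset (Crd G V)} (hP : Cls out P)
    {t w : V} {i : Fin 2} (ht0 : Tok P t) (ho : out t i = some w) (hw : w ∈ DD P) :
    Cls out (P \ {Crd.c t G.c, Crd.z w G.f, Crd.arc t i}) ∧
      FF out (P \ {Crd.c t G.c, Crd.z w G.f, Crd.arc t i}) =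
      BB P ^^^ gam out ((DD P).erase w) w := by
  have htw : t ≠ w := by rintro rfl; exact hl t i ho
  rw [mem_DD] at hw
  obtain ⟨h1, h2, h3, h4, h5, h6, h7⟩ := facts_arc P t w i
  set P' := P \ {Crd.c t G.c, Crd.z w G.f, Crd.arc t i} with hP'
  obtain ⟨hwC, hwZ⟩ := hP.d w hw
  rw [hwZ] at h4
  rw [ht0.2] at h2
  have hfw : G.f ∉ ZZ P' w := by rw [h4]; simp
  have hft : G.f ∉ ZZ P' t := by rw [h3 t htw]; exact ht0.1
  have hCw : CC P' w = univ := by rw [h1 w htw.symm]; exact hwC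
  have hR' : G.R (CC P' t) := by rw [h2]; exact Gad.R.c0
  have hs : ∀ u, u ≠ t → u ≠ w → Same P P' u := fun u hu hu2 => ⟨h1 u hu, h3 u hu2⟩
  have hTw : Tok P' w := ⟨hfw, hCw⟩
  have hno : ∀ u, u ≠ w → ¬ Tok P' u := fun u huw hu => by
    by_cases hut : u = t
    · subst hut
      exact absurd hu.2 (Gad.R_ne_univ hG hR')
    · exact hut (hP.tok u t ((hs u hut huw).tok.1 hu) ht0)
  have hcls : Cls out P' := by
    refine cls_tok hG hP sdiff_subset w hTw (fun u huw => ?_) hno (fun u j w' _ hc h => ?_)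
      (fun u x _ h => (h7 u x).2 h)
    · by_cases hut : u = t
      · subst hut; exact Or.inr ⟨hft, hR'⟩
      · exact Or.inl (hs u hut huw)
    · have hut : u ≠ t := by
        rintro rfl
        rw [h2] at hc
        simp at hc
      exact (h6 u j hut).2 h
  refine ⟨hcls, ?_⟩
  have hd : DD P' = (DD P).erase w := by
    ext u
    rw [mem_erase, mem_DD, mem_DD]
    by_cases hu : u = w
    · subst hu; exact ⟨fun h => absurd h hfw, fun h => absurd rfl h.1⟩
    · rw [h3 u hu]; exact ⟨fun h => ⟨hu, h⟩, fun h => h.2⟩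
  unfold FF
  rw [BB_two htw hs h5, gm_tok hTw hcls.tok, hd, bb_N ht0.1, bb_N hft, bb_D hw, bb_N hfw, h2, hCw,
    h4, h3 t htw, ht0.2, hG.full, hG.cval, hG.fval]
  congr 1
  apply Nat.eq_of_testBit_eq; intro i
  simp only [Nat.testBit_xor, Nat.zero_testBit]
  cases (BB P).testBit i <;> cases (G.gZ (ZZ P t)).testBit i <;> cases (8 : ℕ).testBit i <;> rfl

theorem step1 (hG : G.Good) (hl : ∀ v i, out v i ≠ some v) {P : Finset (Crd G V)}
    (hP : Cls out P) (hF : FF out P ≠ 0) : Reply out P := by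
  classical
  obtain ⟨k, hk, hlt⟩ := exists_top hF
  set g := gm out (Tok P) (DD P) with hg
  have hFF : FF out P = BB P ^^^ g := rfl
  have hsum : FF out P = xs (fun v => bb P v ^^^ (if Tok P v then g else 0)) ^^^ G.gC (YY P) := by
    rw [xs_xor, hFF]
    have h1 : xs (fun v => if Tok P v then g else 0) = g := by
      by_cases h : ∃ t, Tok P t
      · obtain ⟨t, ht⟩ := h
        rw [xs_single t (fun u hu => if_neg fun h => hu (hP.tok u t h ht)), if_pos ht]
      · push Not at h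
        rw [xs_zero (fun v => if_neg (h v)), hg, gm_none h]
    rw [h1]
    unfold BB
    rw [Nat.xor_assoc, Nat.xor_assoc, Nat.xor_comm g]
  have hk2 := hk
  rw [hsum, Nat.testBit_xor] at hk2
  by_cases hY : (G.gC (YY P)).testBit k = true
  · -- move in `Y`
    obtain ⟨S, hS, hSY, hval⟩ := Gad.gC_lt (hlt _ hY)
    obtain ⟨h1, h2⟩ := mv_Y hG hP (out := out) S
    refine ⟨S.image Crd.y, IsS.y S hS, imY_sub.2 hSY, im_nonempty (hG.cardC S hS), h1, ?_⟩
    rw [h2, hval, hFF]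
    unfold BB
    generalize xs (bb P) = a
    generalize G.gC (YY P) = y
    rw [← hg]
    apply Nat.eq_of_testBit_eq; intro i
    simp only [Nat.testBit_xor, Nat.zero_testBit]
    cases a.testBit i <;> cases y.testBit i <;> cases g.testBit i <;> rfl
  · have hY' : (G.gC (YY P)).testBit k = false := by simpa using hY
    rw [hY', Bool.xor_false] at hk2
    obtain ⟨v, hv⟩ := exists_testBit hk2
    by_cases hvD : G.f ∈ ZZ P v
    · exfalso
      have h1 : ¬ Tok P v := fun h => h.1 hvD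
      rw [if_neg h1, bb_D hvD, Nat.xor_self, Nat.zero_testBit] at hv
      exact absurd hv (by simp)
    · rw [bb_N hvD] at hv
      by_cases hz : (G.gZ (ZZ P v)).testBit k = true
      · -- move in `Z_v`
        obtain ⟨S, hS, hSv, hval⟩ := Gad.gZ_lt (hlt _ hz)
        obtain ⟨h1, h2⟩ := mv_Z hG hP hvD S
        refine ⟨S.image (Crd.z v), IsS.z v S hS, imZ_sub.2 hSv, im_nonempty (hG.cardZ S hS), h1, ?_⟩
        rw [h2, hval, hFF]
        exact x1 _ _ _ _
      · have hz' : (G.gZ (ZZ P v)).testBit k = false := by simpa using hz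
        by_cases hT : Tok P v
        · rw [if_pos hT, hT.2, hG.full, Nat.xor_assoc, Nat.testBit_xor, hz', Bool.false_xor] at hv
          have hb := hlt _ hv
          have hg4 : g < 4 := gm_lt _ _ _
          rcases Nat.lt_or_ge ((8 ^^^ g) ^^^ FF out P) 8 with hb8 | hb8
          · -- internal move of the token
            obtain ⟨S, hS, hSu, hval⟩ := Gad.gC_lt (G := G) (A := univ)
              (k := (8 ^^^ g) ^^^ FF out P) (by rw [hG.full]; exact hb8)
            obtain ⟨h1, h2⟩ := mv_T hG hP hT hS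
            refine ⟨S.image (Crd.c v), IsS.c v S hS, imC_sub.2 (by rw [hT.2]; exact hSu),
              im_nonempty (hG.cardC S hS), h1, ?_⟩
            rw [h2, hval, hFF]
            generalize BB P = B
            generalize G.gZ (ZZ P v) = z
            apply Nat.eq_of_testBit_eq; intro i
            simp only [Nat.testBit_xor, Nat.zero_testBit]
            cases B.testBit i <;> cases z.testBit i <;> cases g.testBit i <;>
              cases (8 : ℕ).testBit i <;> rfl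
          · -- arc move
            obtain ⟨j, hj⟩ : ∃ j, (8 ^^^ g) ^^^ FF out P = 8 + j := ⟨_, (Nat.add_sub_cancel' hb8).symm⟩
            have h8g : ∀ a < 4, 8 ^^^ a = 8 + a := by decide
            have hjg : j < g := by
              rw [hj, h8g g hg4] at hb
              omega
            have hgt : g = gam out (DD P) v := gm_tok hT hP.tok
            rw [hgt] at hjg
            obtain ⟨i, w, ho, hw, hval⟩ := gam_lt hjg
            obtain ⟨h1, h2⟩ := mv_arc hG hl hP hT ho hw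
            have hsub : ({Crd.c v G.c, Crd.z w G.f, Crd.arc v i} : Finset (Crd G V)) ⊆ P := by
              intro a ha
              simp only [mem_insert, mem_singleton] at ha
              rcases ha with rfl | rfl | rfl
              · rw [← mem_CC, hT.2]; exact mem_univ _
              · rw [← mem_ZZ]; exact mem_DD.1 hw
              · exact hP.arc v i w ho (by rw [hT.2]; exact mem_univ _)
            refine ⟨_, IsS.arc v i w ho, hsub, ⟨Crd.c v G.c, by simp⟩, h1, ?_⟩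
            rw [h2, hval]
            have hj4 : j < 4 := by
              have := gam_le out (DD P) v
              omega
            rw [← h8g j hj4, hFF] at hj
            have h3 : BB P = j := by
              have h4 : (8 : ℕ) ^^^ g ^^^ (BB P ^^^ g) = 8 ^^^ BB P := by
                generalize BB P = B
                apply Nat.eq_of_testBit_eq; intro i
                simp only [Nat.testBit_xor]
                cases B.testBit i <;> cases g.testBit i <;> cases (8 : ℕ).testBit i <;> rfl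
              rw [h4] at hj
              exact Nat.xor_right_injective hj
            rw [h3, Nat.xor_self]
        · -- move in `C_v`
          rw [if_neg hT, Nat.xor_zero, Nat.testBit_xor, hz', Bool.false_xor] at hv
          obtain ⟨S, hS, hSv, hval⟩ := Gad.gC_lt (hlt _ hv)
          have hR : G.R (CC P v) := by
            rcases hP.r v hvD with h | h
            · exact absurd ⟨hvD, h⟩ hT
            · exact h
          obtain ⟨h1, h2⟩ := mv_C hG hP hvD hR hS hSv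
          refine ⟨S.image (Crd.c v), IsS.c v S hS, imC_sub.2 hSv, im_nonempty (hG.cardC S hS), h1, ?_⟩
          rw [h2, hval, hFF]
          exact x2 _ _ _ _

end step

end Pool.Agent.SetPS
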