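import Pool.Agent.SetPS.CoreStep1

/-!
# Every move from a position of value zero can be answered
-/

namespace Pool.Agent.SetPS

set_option linter.unusedSectionVars false
set_option linter.unusedVariables false

open Finset

section step

variable {G : Gad} {V : Type} [Fintype V] [DecidableEq V] {out : V → Fin 2 → Option V}

lemma fin_one (hG : G.Good) {P P2 : Finset (Crd G V)} (hP : Cls out P) (hsub : P2 ⊆ P) (v : V)
    (hnt : ¬ Tok P v) (hs : ∀ u, u ≠ v → Same P P2 u) (hf : G.f ∉ ZZ P2 v) (hR : G.R (CC P2 v))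
    (hY : YY P2 = YY P)
    (harc : ∀ u i w, out u i = some w → G.c ∈ CC P2 u → Crd.arc u i ∈ P → Crd.arc u i ∈ P2)
    (hfix : ∀ u x, G.f ∈ ZZ P2 u → Crd.fix u x ∈ P → Crd.fix u x ∈ P2) :
    Cls out P2 ∧ FF out P2 = (BB P ^^^ (bb P v ^^^ bb P2 v)) ^^^
      gm out (Tok P) ((DD P).erase v) := by
  have ht : Tok P2 = Tok P := tok_eq fun u => by
    by_cases hu : u = v
    · subst hu
      exact ⟨fun h => absurd h.2 (Gad.R_ne_univ hG hR), fun h => absurd h hnt⟩
    · exact (hs u hu).tok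
  have hd : DD P2 = (DD P).erase v := by
    ext u
    rw [mem_erase, mem_DD, mem_DD]
    by_cases hu : u = v
    · subst hu; exact ⟨fun h => absurd h hf, fun h => absurd rfl h.1⟩
    · rw [(hs u hu).2]; exact ⟨fun h => ⟨hu, h⟩, fun h => h.2⟩
  refine ⟨cls_of hG hP hsub (fun u => ?_) harc hfix, ?_⟩
  · by_cases hu : u = v
    · subst hu; exact Or.inr ⟨hf, Or.inl hR⟩
    · exact Or.inl (hs u hu)
  · unfold FF
    rw [BB_one v hs hY, ht, hd]

lemma fin_two (hG : G.Good) {P P2 : Finset (Crd G V)} (hP : Cls out P) (hsub : P2 ⊆ P) {v w : V}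
    (hvw : v ≠ w) (hntv : ¬ Tok P v) (hntw : ¬ Tok P w)
    (hs : ∀ u, u ≠ v → u ≠ w → Same P P2 u) (hfv : G.f ∉ ZZ P2 v) (hRv : G.R (CC P2 v))
    (hfw : G.f ∉ ZZ P2 w) (hRw : G.R (CC P2 w)) (hY : YY P2 = YY P)
    (harc : ∀ u i w, out u i = some w → G.c ∈ CC P2 u → Crd.arc u i ∈ P → Crd.arc u i ∈ P2)
    (hfix : ∀ u x, G.f ∈ ZZ P2 u → Crd.fix u x ∈ P → Crd.fix u x ∈ P2) :
    Cls out P2 ∧ FF out P2 = (BB P ^^^ ((bb P v ^^^ bb P2 v) ^^^ (bb P w ^^^ bb P2 w))) ^^^
      gm out (Tok P) (((DD P).erase v).erase w) := by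
  have ht : Tok P2 = Tok P := tok_eq fun u => by
    by_cases hu : u = v
    · subst hu
      exact ⟨fun h => absurd h.2 (Gad.R_ne_univ hG hRv), fun h => absurd h hntv⟩
    · by_cases hu2 : u = w
      · subst hu2
        exact ⟨fun h => absurd h.2 (Gad.R_ne_univ hG hRw), fun h => absurd h hntw⟩
      · exact (hs u hu hu2).tok
  have hd : DD P2 = ((DD P).erase v).erase w := by
    ext u
    rw [mem_erase, mem_erase, mem_DD, mem_DD]
    by_cases hu : u = v
    · subst hu; exact ⟨fun h => absurd h hfv, fun h => absurd rfl h.2.1⟩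
    · by_cases hu2 : u = w
      · subst hu2; exact ⟨fun h => absurd h hfw, fun h => absurd rfl h.1⟩
      · rw [(hs u hu hu2).2]; exact ⟨fun h => ⟨hu2, hu, h⟩, fun h => h.2.2⟩
  refine ⟨cls_of hG hP hsub (fun u => ?_) harc hfix, ?_⟩
  · by_cases hu : u = v
    · subst hu; exact Or.inr ⟨hfv, Or.inl hRv⟩
    · by_cases hu2 : u = w
      · subst hu2; exact Or.inr ⟨hfw, Or.inl hRw⟩
      · exact Or.inl (hs u hu hu2)
  · unfold FF
    rw [BB_two hvw hs hY, ht, hd]

lemma xor_lt8 {a b : ℕ} (ha : a < 8) (hb : b < 8) : a ^^^ b < 8 :=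
  Nat.xor_lt_two_pow (n := 3) ha hb

lemma xor_lt4 {a b : ℕ} (ha : a < 4) (hb : b < 4) : a ^^^ b < 4 :=
  Nat.xor_lt_two_pow (n := 2) ha hb

lemma xor8_ne {a : ℕ} (ha : a < 8) : a ^^^ 8 ≠ 0 := by
  intro h
  rw [Nat.xor_eq_zero_iff] at h
  omega

lemma xor4_ne {a b : ℕ} (ha : a < 4) (hb : 4 ≤ b) : a ^^^ b ≠ 0 := by
  intro h
  rw [Nat.xor_eq_zero_iff] at h
  omega

lemma div4_xor {a b : ℕ} (h : a / 4 = b / 4) : a ^^^ b < 4 := by
  have h1 := @Nat.xor_div_two_pow a b 2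
  rw [show (2 : ℕ) ^ 2 = 4 from rfl, h, Nat.xor_self] at h1
  omega

lemma erase_insert_univ {α : Type} [DecidableEq α] [Fintype α] (S : Finset α) {f : α} (h : f ∈ S) :
    f ∉ (univ \ S : Finset α) := by simp [h]

/-- A move in `C_v` at an untouched vertex. -/
lemma c_D (hG : G.Good) {P : Finset (Crd G V)} (hP : Cls out P) (hF : FF out P = 0) {v : V}
    (hv : G.f ∈ ZZ P v) {S : Finset (Fin G.nC)} (hS : S ∈ G.SC) :
    Reply out (P \ S.image (Crd.c v)) := by
  obtain ⟨hC, hZ⟩ := hP.d v hv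
  set g := gm out (Tok P) (DD P) with hg
  have hB : BB P = g := Nat.xor_eq_zero_iff.1 hF
  have hg4 : g < 4 := gm_lt _ _ _
  set g2 := gm out (Tok P) ((DD P).erase v) with hg2
  have hg24 : g2 < 4 := gm_lt _ _ _
  have ht := hG.tight S hS
  obtain ⟨S', hS', hfS', hval⟩ := hG.fmove ((g ^^^ g2) ^^^ G.gC (univ \ S))
    (xor_lt8 (by have := xor_lt4 hg4 hg24; omega) ht)
  obtain ⟨a1, a2, a3, a4, a5, a6⟩ := facts_C P v S
  set P1 := P \ S.image (Crd.c v) with hP1
  obtain ⟨b1, b2, b3, b4, b5, b6⟩ := facts_Z P1 v S'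
  set P2 := P1 \ S'.image (Crd.z v) with hP2
  have hZ2 : ZZ P2 v = univ \ S' := by rw [b3, a1, hZ]
  have hC2 : CC P2 v = univ \ S := by rw [b1, a3, hC]
  have key := fin_one hG hP (P2 := P2) (sdiff_subset.trans sdiff_subset) v (fun h => h.1 hv)
    (fun u hu => ⟨by rw [b1, a2 u hu], by rw [b2 u hu, a1]⟩)
    (by rw [hZ2]; exact erase_insert_univ S' hfS')
    (by rw [hC2]; exact Gad.R.set0 _ hS) (by rw [b4, a4])
    (fun u i w _ _ h => (b5 u i).2 ((a5 u i).2 h)) (fun u x _ h => (b6 u x).2 ((a6 u x).2 h))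
  refine ⟨_, IsS.z v S' hS', imZ_sub.2 (by rw [a1, hZ]; exact subset_univ _),
    im_nonempty (hG.cardZ S' hS'), key.1, ?_⟩
  rw [key.2, hB, bb_D hv, bb_N (by rw [hZ2]; exact erase_insert_univ S' hfS'), hZ2, hC2, hval, ← hg2]
  generalize G.gC (univ \ S) = c
  apply Nat.eq_of_testBit_eq; intro i
  simp only [Nat.testBit_xor, Nat.zero_testBit]
  cases g.testBit i <;> cases g2.testBit i <;> cases c.testBit i <;> rfl

/-- A move in `Z_v` at an untouched vertex. -/
lemma z_D (hG : G.Good) {P : Finset (Crd G V)} (hP : Cls out P) (hF : FF out P = 0) {v : V}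
    (hv : G.f ∈ ZZ P v) {S : Finset (Fin G.nZ)} (hS : S ∈ G.SZ) :
    Reply out (P \ S.image (Crd.z v)) := by
  obtain ⟨hC, hZ⟩ := hP.d v hv
  set g := gm out (Tok P) (DD P) with hg
  have hB : BB P = g := Nat.xor_eq_zero_iff.1 hF
  have hg4 : g < 4 := gm_lt _ _ _
  set g2 := gm out (Tok P) ((DD P).erase v) with hg2
  have hg24 : g2 < 4 := gm_lt _ _ _
  have hgg := xor_lt4 hg4 hg24
  obtain ⟨a1, a2, a3, a4, a5, a6⟩ := facts_Z P v S
  set P1 := P \ S.image (Crd.z v) with hP1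
  by_cases hfS : G.f ∈ S
  · have hk := hG.fsmall S hS hfS
    obtain ⟨S', hS', -, hval⟩ := Gad.gC_lt (G := G) (A := univ)
      (k := (g ^^^ g2) ^^^ G.gZ (univ \ S)) (by rw [hG.full]; exact xor_lt8 (by omega) hk)
    obtain ⟨b1, b2, b3, b4, b5, b6⟩ := facts_C P1 v S'
    set P2 := P1 \ S'.image (Crd.c v) with hP2
    have hZ2 : ZZ P2 v = univ \ S := by rw [b1, a3, hZ]
    have hC2 : CC P2 v = univ \ S' := by rw [b3, a1, hC]
    have key := fin_one hG hP (P2 := P2) (sdiff_subset.trans sdiff_subset) v (fun h => h.1 hv)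
      (fun u hu => ⟨by rw [b2 u hu, a1], by rw [b1, a2 u hu]⟩)
      (by rw [hZ2]; exact erase_insert_univ S hfS)
      (by rw [hC2]; exact Gad.R.set0 _ hS') (by rw [b4, a4])
      (fun u i w _ _ h => (b5 u i).2 ((a5 u i).2 h)) (fun u x _ h => (b6 u x).2 ((a6 u x).2 h))
    refine ⟨_, IsS.c v S' hS', imC_sub.2 (by rw [a1, hC]; exact subset_univ _),
      im_nonempty (hG.cardC S' hS'), key.1, ?_⟩
    rw [key.2, hB, bb_D hv, bb_N (by rw [hZ2]; exact erase_insert_univ S hfS), hZ2, hC2, hval, ← hg2]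
    generalize G.gZ (univ \ S) = c
    apply Nat.eq_of_testBit_eq; intro i
    simp only [Nat.testBit_xor, Nat.zero_testBit]
    cases g.testBit i <;> cases g2.testBit i <;> cases c.testBit i <;> rfl
  · obtain ⟨hk4, hk8⟩ := hG.payload S hS hfS
    set kz := G.gZ ((univ \ S) \ {G.f}) with hkz
    -- the index of the fixer
    have h1 : ∀ a < 4, ∀ b < 8, 4 ≤ b → 4 ≤ a ^^^ b ∧ a ^^^ b < 8 := by decide
    obtain ⟨h2, h3⟩ := h1 (g ^^^ g2) hgg kz hk8 hk4
    obtain ⟨x, hx⟩ : ∃ x : Fin 4, (g ^^^ g2) ^^^ kz = 4 + x :=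
      ⟨⟨((g ^^^ g2) ^^^ kz) - 4, by omega⟩, by simp only; omega⟩
    obtain ⟨b1, b2, b3, b4, b5, b6, b7⟩ := facts_fix P1 v x
    set P2 := P1 \ {Crd.z v G.f, Crd.c v (G.φ x), Crd.fix v x} with hP2
    have hZ2 : ZZ P2 v = (univ \ S) \ {G.f} := by rw [b4, a3, hZ]
    have hC2 : CC P2 v = univ \ {G.φ x} := by rw [b2, a1, hC]
    have hf2 : G.f ∉ ZZ P2 v := by rw [hZ2]; simp
    have key := fin_one hG hP (P2 := P2) (sdiff_subset.trans sdiff_subset) v (fun h => h.1 hv)
      (fun u hu => ⟨by rw [b1 u hu, a1], by rw [b3 u hu, a2 u hu]⟩)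
      hf2 (by rw [hC2]; exact Gad.R.φ0 x) (by rw [b5, a4])
      (fun u i w _ _ h => (b6 u i).2 ((a5 u i).2 h))
      (fun u y hu h => (b7 u y (by rintro rfl; exact hf2 hu)).2 ((a6 u y).2 h))
    have hsub : ({Crd.z v G.f, Crd.c v (G.φ x), Crd.fix v x} : Finset (Crd G V)) ⊆ P1 := by
      intro a ha
      simp only [mem_insert, mem_singleton] at ha
      rcases ha with rfl | rfl | rfl
      · rw [← mem_ZZ, a3, hZ]; simp [hfS]
      · rw [← mem_CC, a1, hC]; exact mem_univ _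
      · exact (a6 v x).2 (hP.fix v x hv)
    refine ⟨_, IsS.fix v x, hsub, ⟨Crd.z v G.f, by simp⟩, key.1, ?_⟩
    rw [key.2, hB, bb_D hv, bb_N hf2, hZ2, hC2, hG.φval, ← hx, ← hg2, ← hkz]
    apply Nat.eq_of_testBit_eq; intro i
    simp only [Nat.testBit_xor, Nat.zero_testBit]
    cases g.testBit i <;> cases g2.testBit i <;> cases kz.testBit i <;> rfl

/-- A fixer move. -/
lemma fix_ne (hG : G.Good) {P : Finset (Crd G V)} (hP : Cls out P) (hF : FF out P = 0) {v : V}
    (hv : G.f ∈ ZZ P v) (x : Fin 4) :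
    Cls out (P \ {Crd.z v G.f, Crd.c v (G.φ x), Crd.fix v x}) ∧
      FF out (P \ {Crd.z v G.f, Crd.c v (G.φ x), Crd.fix v x}) ≠ 0 := by
  obtain ⟨hC, hZ⟩ := hP.d v hv
  set g := gm out (Tok P) (DD P) with hg
  have hB : BB P = g := Nat.xor_eq_zero_iff.1 hF
  have hg4 : g < 4 := gm_lt _ _ _
  set g2 := gm out (Tok P) ((DD P).erase v) with hg2
  have hg24 : g2 < 4 := gm_lt _ _ _
  have hgg := xor_lt4 hg4 hg24
  obtain ⟨b1, b2, b3, b4, b5, b6, b7⟩ := facts_fix P v x
  set P2 := P \ {Crd.z v G.f, Crd.c v (G.φ x), Crd.fix v x} with hP2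
  have hZ2 : ZZ P2 v = univ \ {G.f} := by rw [b4, hZ]
  have hC2 : CC P2 v = univ \ {G.φ x} := by rw [b2, hC]
  have hf2 : G.f ∉ ZZ P2 v := by rw [hZ2]; simp
  have key := fin_one hG hP (P2 := P2) sdiff_subset v (fun h => h.1 hv)
    (fun u hu => ⟨b1 u hu, b3 u hu⟩)
    hf2 (by rw [hC2]; exact Gad.R.φ0 x) b5 (fun u i w _ _ h => (b6 u i).2 h)
    (fun u y hu h => (b7 u y (by rintro rfl; exact hf2 hu)).2 h)
  refine ⟨key.1, ?_⟩
  rw [key.2, hB, bb_D hv, bb_N hf2, hZ2, hC2, hG.φval, hG.fval, ← hg2]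
  have h1 : (g ^^^ (0 ^^^ (0 ^^^ (4 + (x : ℕ))))) ^^^ g2 = (g ^^^ g2) ^^^ (4 + (x : ℕ)) := by
    generalize 4 + (x : ℕ) = y
    apply Nat.eq_of_testBit_eq; intro i
    simp only [Nat.testBit_xor, Nat.zero_testBit]
    cases g.testBit i <;> cases g2.testBit i <;> cases y.testBit i <;> rfl
  rw [h1]
  exact xor4_ne hgg (by omega)

/-- An arc move. -/
lemma arc_case (hG : G.Good) (hl : ∀ v i, out v i ≠ some v) {P : Finset (Crd G V)}
    (hP : Cls out P) (hF : FF out P = 0) {v w : V} {i : Fin 2} (ho : out v i = some w)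
    (hc : G.c ∈ CC P v) (hw : G.f ∈ ZZ P w) :
    (Cls out (P \ {Crd.c v G.c, Crd.z w G.f, Crd.arc v i}) ∧
      FF out (P \ {Crd.c v G.c, Crd.z w G.f, Crd.arc v i}) ≠ 0) ∨
    Reply out (P \ {Crd.c v G.c, Crd.z w G.f, Crd.arc v i}) := by
  have hvw : v ≠ w := by rintro rfl; exact hl v i ho
  obtain ⟨hCw, hZw⟩ := hP.d w hw
  set g := gm out (Tok P) (DD P) with hg
  have hB : BB P = g := Nat.xor_eq_zero_iff.1 hF
  have hg4 : g < 4 := gm_lt _ _ _
  by_cases hT : Tok P v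
  · left
    obtain ⟨h1, h2⟩ := mv_arc hG hl hP hT ho (mem_DD.2 hw)
    refine ⟨h1, ?_⟩
    rw [h2, hB, hg, gm_tok hT hP.tok]
    intro h3
    rw [Nat.xor_eq_zero_iff] at h3
    exact gam_ne ho (mem_DD.2 hw) h3.symm
  right
  have hTw : ¬ Tok P w := fun h => h.1 hw
  obtain ⟨a1, a2, a3, a4, a5, a6, a7⟩ := facts_arc P v w i
  set P1 := P \ {Crd.c v G.c, Crd.z w G.f, Crd.arc v i} with hP1
  rw [hZw] at a4
  by_cases hv : G.f ∈ ZZ P v
  · -- the reply is an annihilator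
    obtain ⟨hCv, hZv⟩ := hP.d v hv
    rw [hCv] at a2
    set g2 := gm out (Tok P) (((DD P).erase v).erase w) with hg2
    have hg24 : g2 < 4 := gm_lt _ _ _
    have hgg := xor_lt4 hg4 hg24
    set x : Fin 4 := ⟨g ^^^ g2, hgg⟩ with hx
    obtain ⟨b1, b2, b3, b4, b5, b6, b7, b8⟩ := facts_ann P1 hvw i x
    set P2 := P1 \ {Crd.z v G.f, Crd.c w (G.κ x), Crd.c v (G.q i x)} with hP2
    have hCv2 : CC P2 v = (univ \ {G.c}) \ {G.q i x} := by rw [b2, a2]
    have hZv2 : ZZ P2 v = univ \ {G.f} := by rw [b5, a3 v hvw, hZv]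
    have hCw2 : CC P2 w = univ \ {G.κ x} := by rw [b3, a1 w hvw.symm, hCw]
    have hZw2 : ZZ P2 w = univ \ {G.f} := by rw [b4 w hvw.symm, a4]
    have hfv2 : G.f ∉ ZZ P2 v := by rw [hZv2]; simp
    have hfw2 : G.f ∉ ZZ P2 w := by rw [hZw2]; simp
    have hRv2 : G.R (CC P2 v) := by
      rw [hCv2, sdiff_right_comm]
      exact Gad.R.c _ (Gad.R.q0 i x)
    have hRw2 : G.R (CC P2 w) := by rw [hCw2]; exact Gad.R.κ0 x
    have key := fin_two hG hP (P2 := P2) (sdiff_subset.trans sdiff_subset) hvw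
      (fun h => h.1 hv) hTw (fun u hu hu2 => ⟨by rw [b1 u hu hu2, a1 u hu], by rw [b4 u hu, a3 u hu2]⟩)
      hfv2 hRv2 hfw2 hRw2 (by rw [b6, a5])
      (fun u j w' _ hc h => (b7 u j).2 ((a6 u j (by
        rintro rfl
        rw [hCv2] at hc
        simp at hc)).2 h)) (fun u y _ h => (b8 u y).2 ((a7 u y).2 h))
    have hsub : ({Crd.z v G.f, Crd.c w (G.κ x), Crd.c v (G.q i x)} : Finset (Crd G V)) ⊆ P1 := by
      intro a ha
      simp only [mem_insert, mem_singleton] at ha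
      rcases ha with rfl | rfl | rfl
      · rw [← mem_ZZ, a3 v hvw, hZv]; exact mem_univ _
      · rw [← mem_CC, a1 w hvw.symm, hCw]; exact mem_univ _
      · rw [← mem_CC, a2, mem_sdiff, mem_singleton]
        exact ⟨mem_univ _, (hG.c_ne_q i x).symm⟩
    refine ⟨_, IsS.ann v i w ho x, hsub, ⟨Crd.z v G.f, by simp⟩, key.1, ?_⟩
    rw [key.2, hB, bb_D hv, bb_D hw, bb_N hfv2, bb_N hfw2, hZv2, hZw2, hCv2, hCw2, hG.fval, ← hg2]
    have h1 := hG.cqκ i x
    have h2 : G.gC ((univ \ {G.c}) \ {G.q i x}) = G.gC (univ \ {G.κ x}) ^^^ (g ^^^ g2) := by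
      have h3 : (x : ℕ) = g ^^^ g2 := rfl
      rw [← h3, ← h1]
      rw [Nat.xor_comm, Nat.xor_assoc, Nat.xor_self, Nat.xor_zero]
    rw [h2]
    generalize G.gC (univ \ {G.κ x}) = c
    apply Nat.eq_of_testBit_eq; intro i
    simp only [Nat.testBit_xor, Nat.zero_testBit]
    cases g.testBit i <;> cases g2.testBit i <;> cases c.testBit i <;> rfl
  · -- the reply is internal to `C_w`
    have hR : G.R (CC P v) := by
      rcases hP.r v hv with h | h
      · exact absurd ⟨hv, h⟩ hT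
      · exact h
    set g2 := gm out (Tok P) (((DD P).erase v).erase w) with hg2
    have hg24 : g2 < 4 := gm_lt _ _ _
    have hgg := xor_lt4 hg4 hg24
    have hR' : G.R (CC P v \ {G.c}) := Gad.R.c _ hR
    have h8 := hG.small _ hR
    have h8' := hG.small _ hR'
    obtain ⟨S', hS', -, hval⟩ := Gad.gC_lt (G := G) (A := univ)
      (k := (g ^^^ g2) ^^^ (G.gC (CC P v) ^^^ G.gC (CC P v \ {G.c})))
      (by rw [hG.full]; exact xor_lt8 (by omega) (xor_lt8 h8 h8'))
    obtain ⟨b1, b2, b3, b4, b5, b6⟩ := facts_C P1 w S'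
    set P2 := P1 \ S'.image (Crd.c w) with hP2
    have hCv2 : CC P2 v = CC P v \ {G.c} := by rw [b2 v hvw, a2]
    have hZv2 : ZZ P2 v = ZZ P v := by rw [b1, a3 v hvw]
    have hCw2 : CC P2 w = univ \ S' := by rw [b3, a1 w hvw.symm, hCw]
    have hZw2 : ZZ P2 w = univ \ {G.f} := by rw [b1, a4]
    have hfv2 : G.f ∉ ZZ P2 v := by rw [hZv2]; exact hv
    have hfw2 : G.f ∉ ZZ P2 w := by rw [hZw2]; simp
    have hRv2 : G.R (CC P2 v) := by rw [hCv2]; exact hR'
    have hRw2 : G.R (CC P2 w) := by rw [hCw2]; exact Gad.R.set0 _ hS'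
    have key := fin_two hG hP (P2 := P2) (sdiff_subset.trans sdiff_subset) hvw
      hT hTw (fun u hu hu2 => ⟨by rw [b2 u hu2, a1 u hu], by rw [b1, a3 u hu2]⟩)
      hfv2 hRv2 hfw2 hRw2 (by rw [b4, a5])
      (fun u j w' _ hc h => (b5 u j).2 ((a6 u j (by
        rintro rfl
        rw [hCv2] at hc
        simp at hc)).2 h)) (fun u y _ h => (b6 u y).2 ((a7 u y).2 h))
    refine ⟨_, IsS.c w S' hS', imC_sub.2 (by rw [a1 w hvw.symm, hCw]; exact subset_univ _),
      im_nonempty (hG.cardC S' hS'), key.1, ?_⟩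
    rw [key.2, hB, bb_N hv, bb_D hw, bb_N hfv2, bb_N hfw2, hZv2, hZw2, hCv2, hCw2, hG.fval, hval,
      ← hg2]
    generalize G.gC (CC P v) = c
    generalize G.gC (CC P v \ {G.c}) = c'
    generalize G.gZ (ZZ P v) = z
    apply Nat.eq_of_testBit_eq; intro i
    simp only [Nat.testBit_xor, Nat.zero_testBit]
    cases g.testBit i <;> cases g2.testBit i <;> cases c.testBit i <;> cases c'.testBit i <;>
      cases z.testBit i <;> rfl

/-- An annihilator move. -/
lemma ann_case (hG : G.Good) (hl : ∀ v i, out v i ≠ some v) {P : Finset (Crd G V)}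
    (hP : Cls out P) (hF : FF out P = 0) {v w : V} {i : Fin 2} (ho : out v i = some w) (x : Fin 4)
    (hv : G.f ∈ ZZ P v) (hκ : G.κ x ∈ CC P w) :
    (Cls out (P \ {Crd.z v G.f, Crd.c w (G.κ x), Crd.c v (G.q i x)}) ∧
      FF out (P \ {Crd.z v G.f, Crd.c w (G.κ x), Crd.c v (G.q i x)}) ≠ 0) ∨
    Reply out (P \ {Crd.z v G.f, Crd.c w (G.κ x), Crd.c v (G.q i x)}) := by
  have hvw : v ≠ w := by rintro rfl; exact hl v i ho
  obtain ⟨hCv, hZv⟩ := hP.d v hv
  set g := gm out (Tok P) (DD P) with hg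
  have hB : BB P = g := Nat.xor_eq_zero_iff.1 hF
  have hg4 : g < 4 := gm_lt _ _ _
  have hTv : ¬ Tok P v := fun h => h.1 hv
  obtain ⟨a1, a2, a3, a4, a5, a6, a7, a8⟩ := facts_ann P hvw i x
  set P1 := P \ {Crd.z v G.f, Crd.c w (G.κ x), Crd.c v (G.q i x)} with hP1
  rw [hCv] at a2
  rw [hZv] at a5
  have hfv1 : G.f ∉ ZZ P1 v := by rw [a5]; simp
  have hRv1 : G.R (CC P1 v) := by rw [a2]; exact Gad.R.q0 i x
  obtain ⟨hq4, hq8⟩ := hG.qval i x
  have hs1 : ∀ u, u ≠ v → u ≠ w → Same P P1 u := fun u hu hu2 => ⟨a1 u hu hu2, a4 u hu⟩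
  set g2 := gm out (Tok P) (((DD P).erase v).erase w) with hg2
  have hg24 : g2 < 4 := gm_lt _ _ _
  have hgg := xor_lt4 hg4 hg24
  by_cases hw : G.f ∈ ZZ P w
  · right
    obtain ⟨hCw, hZw⟩ := hP.d w hw
    have hTw : ¬ Tok P w := fun h => h.1 hw
    have hκ8 := hG.small _ (Gad.R.κ0 (G := G) x)
    obtain ⟨S', hS', hfS', hval⟩ := hG.fmove
      ((g ^^^ g2) ^^^ (G.gC (univ \ {G.q i x}) ^^^ G.gC (univ \ {G.κ x})))
      (xor_lt8 (by omega) (xor_lt8 hq8 hκ8))
    obtain ⟨b1, b2, b3, b4, b5, b6⟩ := facts_Z P1 w S'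
    set P2 := P1 \ S'.image (Crd.z w) with hP2
    have hCv2 : CC P2 v = univ \ {G.q i x} := by rw [b1, a2]
    have hZv2 : ZZ P2 v = univ \ {G.f} := by rw [b2 v hvw, a5]
    have hCw2 : CC P2 w = univ \ {G.κ x} := by rw [b1, a3, hCw]
    have hZw2 : ZZ P2 w = univ \ S' := by rw [b3, a4 w hvw.symm, hZw]
    have hfv2 : G.f ∉ ZZ P2 v := by rw [hZv2]; simp
    have hfw2 : G.f ∉ ZZ P2 w := by rw [hZw2]; exact erase_insert_univ S' hfS'
    have hRv2 : G.R (CC P2 v) := by rw [hCv2]; exact Gad.R.q0 i x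
    have hRw2 : G.R (CC P2 w) := by rw [hCw2]; exact Gad.R.κ0 x
    have key := fin_two hG hP (P2 := P2) (sdiff_subset.trans sdiff_subset) hvw
      hTv hTw (fun u hu hu2 => ⟨by rw [b1, a1 u hu hu2], by rw [b2 u hu2, a4 u hu]⟩)
      hfv2 hRv2 hfw2 hRw2 (by rw [b4, a6])
      (fun u j w' _ _ h => (b5 u j).2 ((a7 u j).2 h)) (fun u y _ h => (b6 u y).2 ((a8 u y).2 h))
    refine ⟨_, IsS.z w S' hS', imZ_sub.2 (by rw [a4 w hvw.symm, hZw]; exact subset_univ _),
      im_nonempty (hG.cardZ S' hS'), key.1, ?_⟩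
    rw [key.2, hB, bb_D hv, bb_D hw, bb_N hfv2, bb_N hfw2, hZv2, hZw2, hCv2, hCw2, hG.fval, hval,
      ← hg2]
    generalize G.gC (univ \ {G.q i x}) = c
    generalize G.gC (univ \ {G.κ x}) = c'
    apply Nat.eq_of_testBit_eq; intro i
    simp only [Nat.testBit_xor, Nat.zero_testBit]
    cases g.testBit i <;> cases g2.testBit i <;> cases c.testBit i <;> cases c'.testBit i <;> rfl
  · left
    have hfw1 : G.f ∉ ZZ P1 w := by rw [a4 w hvw.symm]; exact hw
    by_cases hTw : Tok P w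
    · -- the token disappears
      have hCw1 : CC P1 w = univ \ {G.κ x} := by rw [a3, hTw.2]
      have hRw1 : G.R (CC P1 w) := by rw [hCw1]; exact Gad.R.κ0 x
      have hκ8 := hG.small _ (Gad.R.κ0 (G := G) x)
      have hno : ∀ u, ¬ Tok P1 u := fun u hu => by
        by_cases huv : u = v
        · subst huv; exact absurd hu.2 (Gad.R_ne_univ hG hRv1)
        · by_cases huw : u = w
          · subst huw; exact absurd hu.2 (Gad.R_ne_univ hG hRw1)
          · exact huw (hP.tok u w ((hs1 u huv huw).tok.1 hu) hTw)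
      refine ⟨cls_of hG hP sdiff_subset (fun u => ?_) (fun u j _ _ _ h => (a7 u j).2 h)
        (fun u y _ h => (a8 u y).2 h), ?_⟩
      · by_cases hu : u = v
        · subst hu; exact Or.inr ⟨hfv1, Or.inl hRv1⟩
        · by_cases hu2 : u = w
          · subst hu2; exact Or.inr ⟨hfw1, Or.inl hRw1⟩
          · exact Or.inl (hs1 u hu hu2)
      · unfold FF
        rw [BB_two hvw hs1 a6, gm_none hno, hB, bb_D hv, bb_N hw, bb_N hfv1, bb_N hfw1, a5, a2,
          a4 w hvw.symm, hCw1, hTw.2, hG.full, hG.fval]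
        have h1 : (g ^^^ ((0 ^^^ (0 ^^^ G.gC (univ \ {G.q i x}))) ^^^
            ((G.gZ (ZZ P w) ^^^ 8) ^^^ (G.gZ (ZZ P w) ^^^ G.gC (univ \ {G.κ x}))))) ^^^ 0 =
            (g ^^^ (G.gC (univ \ {G.q i x}) ^^^ G.gC (univ \ {G.κ x}))) ^^^ 8 := by
          generalize G.gC (univ \ {G.q i x}) = c
          generalize G.gC (univ \ {G.κ x}) = c'
          generalize G.gZ (ZZ P w) = z
          apply Nat.eq_of_testBit_eq; intro i
          simp only [Nat.testBit_xor, Nat.zero_testBit]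
          cases g.testBit i <;> cases z.testBit i <;> cases c.testBit i <;> cases c'.testBit i <;>
            cases (8 : ℕ).testBit i <;> rfl
        rw [h1]
        exact xor8_ne (xor_lt8 (by omega) (xor_lt8 hq8 hκ8))
    · have hR : G.R (CC P w) := by
        rcases hP.r w hw with h | h
        · exact absurd ⟨hw, h⟩ hTw
        · exact h
      have hRw1 : G.R (CC P1 w) := by rw [a3]; exact Gad.R.κ _ x hR
      have key := fin_two hG hP (P2 := P1) sdiff_subset hvw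
        hTv hTw hs1 hfv1 hRv1 hfw1 hRw1 a6
        (fun u j w' _ _ h => (a7 u j).2 h) (fun u y _ h => (a8 u y).2 h)
      refine ⟨key.1, ?_⟩
      rw [key.2, hB, bb_D hv, bb_N hw, bb_N hfv1, bb_N hfw1, a5, a2, a4 w hvw.symm, a3, hG.fval,
        ← hg2]
      have hin := div4_xor (hG.inert _ hR x)
      have h1 : (g ^^^ ((0 ^^^ (0 ^^^ G.gC (univ \ {G.q i x}))) ^^^
            ((G.gZ (ZZ P w) ^^^ G.gC (CC P w)) ^^^ (G.gZ (ZZ P w) ^^^ G.gC (CC P w \ {G.κ x}))))) ^^^ g2 =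
            ((g ^^^ g2) ^^^ (G.gC (CC P w) ^^^ G.gC (CC P w \ {G.κ x}))) ^^^
              G.gC (univ \ {G.q i x}) := by
        generalize G.gC (univ \ {G.q i x}) = c
        generalize G.gC (CC P w) = d
        generalize G.gC (CC P w \ {G.κ x}) = c'
        generalize G.gZ (ZZ P w) = z
        apply Nat.eq_of_testBit_eq; intro i
        simp only [Nat.testBit_xor, Nat.zero_testBit]
        cases g.testBit i <;> cases g2.testBit i <;> cases z.testBit i <;> cases c.testBit i <;>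
          cases c'.testBit i <;> cases d.testBit i <;> rfl
      rw [h1]
      exact xor4_ne (xor_lt4 hgg hin) hq4

theorem step2 (hG : G.Good) (hl : ∀ v i, out v i ≠ some v) {P : Finset (Crd G V)}
    (hP : Cls out P) (hF : FF out P = 0) {T : Finset (Crd G V)} (hT : IsS G out T) (hTP : T ⊆ P) :
    (Cls out (P \ T) ∧ FF out (P \ T) ≠ 0) ∨ Reply out (P \ T) := by
  set g := gm out (Tok P) (DD P) with hg
  have hB : BB P = g := Nat.xor_eq_zero_iff.1 hF
  have hg4 : g < 4 := gm_lt _ _ _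
  cases hT with
  | c v S hS =>
    rw [imC_sub] at hTP
    by_cases hv : G.f ∈ ZZ P v
    · exact Or.inr (c_D hG hP hF hv hS)
    · left
      by_cases hT : Tok P v
      · obtain ⟨h1, h2⟩ := mv_T hG hP hT hS
        refine ⟨h1, ?_⟩
        rw [h2, hB]
        have ht := hG.tight S hS
        have h3 : g ^^^ ((G.gZ (ZZ P v) ^^^ 8) ^^^ (G.gZ (ZZ P v) ^^^ G.gC (univ \ S))) =
            (g ^^^ G.gC (univ \ S)) ^^^ 8 := by
          generalize G.gC (univ \ S) = c
          generalize G.gZ (ZZ P v) = z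
          apply Nat.eq_of_testBit_eq; intro i
          simp only [Nat.testBit_xor]
          cases g.testBit i <;> cases z.testBit i <;> cases c.testBit i <;>
            cases (8 : ℕ).testBit i <;> rfl
        rw [h3]
        exact xor8_ne (xor_lt8 (by omega) ht)
      · have hR : G.R (CC P v) := by
          rcases hP.r v hv with h | h
          · exact absurd ⟨hv, h⟩ hT
          · exact h
        obtain ⟨h1, h2⟩ := mv_C hG hP hv hR hS hTP
        refine ⟨h1, ?_⟩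
        have h4 := Gad.gC_ne hG hS hTP
        rw [h2, hB, ← hg]
        have h3 : (g ^^^ ((G.gZ (ZZ P v) ^^^ G.gC (CC P v)) ^^^
            (G.gZ (ZZ P v) ^^^ G.gC (CC P v \ S)))) ^^^ g = G.gC (CC P v \ S) ^^^ G.gC (CC P v) := by
          generalize G.gC (CC P v \ S) = c
          generalize G.gC (CC P v) = c'
          generalize G.gZ (ZZ P v) = z
          apply Nat.eq_of_testBit_eq; intro i
          simp only [Nat.testBit_xor]
          cases g.testBit i <;> cases z.testBit i <;> cases c.testBit i <;>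
            cases c'.testBit i <;> rfl
        rw [h3]
        intro h5
        exact h4 (Nat.xor_eq_zero_iff.1 h5)
  | z v S hS =>
    rw [imZ_sub] at hTP
    by_cases hv : G.f ∈ ZZ P v
    · exact Or.inr (z_D hG hP hF hv hS)
    · left
      obtain ⟨h1, h2⟩ := mv_Z hG hP hv S
      refine ⟨h1, ?_⟩
      have h4 := Gad.gZ_ne hG hS hTP
      rw [h2, hB, ← hg]
      have h3 : (g ^^^ ((G.gZ (ZZ P v) ^^^ G.gC (CC P v)) ^^^
          (G.gZ (ZZ P v \ S) ^^^ G.gC (CC P v)))) ^^^ g = G.gZ (ZZ P v \ S) ^^^ G.gZ (ZZ P v) := by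
        generalize G.gZ (ZZ P v \ S) = c
        generalize G.gC (CC P v) = c'
        generalize G.gZ (ZZ P v) = z
        apply Nat.eq_of_testBit_eq; intro i
        simp only [Nat.testBit_xor]
        cases g.testBit i <;> cases z.testBit i <;> cases c.testBit i <;>
          cases c'.testBit i <;> rfl
      rw [h3]
      intro h5
      exact h4 (Nat.xor_eq_zero_iff.1 h5)
  | y S hS =>
    rw [imY_sub] at hTP
    left
    obtain ⟨h1, h2⟩ := mv_Y hG hP (out := out) S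
    refine ⟨h1, ?_⟩
    have h4 := Gad.gC_ne hG hS hTP
    rw [h2, ← hg]
    intro h5
    have h6 := hB
    unfold BB at h6
    rw [Nat.xor_eq_zero_iff, ← h6] at h5
    exact h4 (Nat.xor_right_injective h5)
  | arc v i w ho =>
    refine arc_case hG hl hP hF ho ?_ ?_
    · rw [mem_CC]; exact hTP (by simp)
    · rw [mem_ZZ]; exact hTP (by simp)
  | ann v i w ho x =>
    refine ann_case hG hl hP hF ho x ?_ ?_
    · rw [mem_ZZ]; exact hTP (by simp)
    · rw [mem_CC]; exact hTP (by simp)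
  | fix v x =>
    left
    refine fix_ne hG hP hF ?_ x
    rw [mem_ZZ]; exact hTP (by simp)

/-- The player to move wins a position of the class iff its value is not zero. -/
theorem wins_cls (hG : G.Good) (hl : ∀ v i, out v i ≠ some v) (n : ℕ) : ∀ P : Finset (Crd G V),
    P.card = n → Cls out P → (Wins (IsS G out) P ↔ FF out P ≠ 0) := by
  induction n using Nat.strong_induction_on with
  | _ n ih =>
    intro P hn hP
    have hcard : ∀ {Q T : Finset (Crd G V)}, T ⊆ Q → T.Nonempty → (Q \ T).card < Q.card := by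
      intro Q T h1 h2
      rw [card_sdiff_of_subset h1]
      have h3 := card_pos.2 h2
      have h4 := card_le_card h1
      omega
    constructor
    · intro hW hF
      obtain ⟨T, hT, hTP, hne, hnw⟩ := (wins_iff _ P).1 hW
      apply hnw
      rcases step2 hG hl hP hF hT hTP with ⟨h1, h2⟩ | ⟨T', hT', hTP', hne', hcl, hF'⟩
      · exact (ih _ (by rw [← hn]; exact hcard hTP hne) _ rfl h1).2 h2
      · rw [wins_iff]
        refine ⟨T', hT', hTP', hne', ?_⟩
        rw [ih _ (by rw [← hn]; exact (hcard hTP' hne').trans (hcard hTP hne)) _ rfl hcl]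
        simpa using hF'
    · intro hF
      obtain ⟨T, hT, hTP, hne, hcl, hF'⟩ := step1 hG hl hP hF
      rw [wins_iff]
      refine ⟨T, hT, hTP, hne, ?_⟩
      rw [ih _ (by rw [← hn]; exact hcard hTP hne) _ rfl hcl]
      simpa using hF'

end step

/-- Module A: the game on the big hypergraph is geography. -/
theorem core (G : Gad) (hG : G.Good) {V : Type} [Fintype V] [DecidableEq V]
    (out : V → Fin 2 → Option V) (h1 : ∀ v i, out v i ≠ some v) (s : V)
    (P : Finset (Crd G V)) (hP : ∀ x, x ∈ P ↔ InStart G out s x) :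
    Wins (IsS G out) P ↔ GeoWins out (Finset.univ.erase s) s := by
  have hC : ∀ u, CC P u = univ := fun u => by
    ext a; rw [mem_CC, hP]; simp [InStart]
  have hZ : ∀ u, u ≠ s → ZZ P u = univ := fun u hu => by
    ext a; rw [mem_ZZ, hP]; simp [InStart, hu]
  have hZs : ZZ P s = univ \ {G.f} := by
    ext a; rw [mem_ZZ, hP]; simp [InStart]
  have hY : YY P = univ := by
    ext a; rw [mem_YY, hP]; simp [InStart]
  have hfs : G.f ∉ ZZ P s := by rw [hZs]; simp
  have hf : ∀ u, G.f ∈ ZZ P u ↔ u ≠ s := fun u =>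
    ⟨fun h1 h2 => hfs (h2 ▸ h1), fun h => by rw [hZ u h]; exact mem_univ _⟩
  have hTs : Tok P s := ⟨hfs, hC s⟩
  have hcls : Cls out P := by
    refine ⟨fun v hv => ⟨hC v, hZ v ((hf v).1 hv)⟩, fun v _ => Or.inl (hC v), ?_, ?_, ?_⟩
    · intro u v hu hv
      have h2 : u = s := by by_contra h; exact hu.1 ((hf u).2 h)
      have h3 : v = s := by by_contra h; exact hv.1 ((hf v).2 h)
      rw [h2, h3]
    · intro v i w ho _
      rw [hP]
      show out v i ≠ none
      rw [ho]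
      simp
    · intro v x _
      rw [hP]
      trivial
  rw [wins_cls hG h1 _ P rfl hcls, geoWins_iff]
  have hD : DD P = univ.erase s := by
    ext u
    rw [mem_DD, hf, mem_erase]
    simp
  have hb : ∀ u, u ≠ s → bb P u = 0 := fun u hu => bb_D ((hf u).2 hu)
  have hF : FF out P = gam out (univ.erase s) s := by
    unfold FF BB
    rw [gm_tok hTs hcls.tok, xs_single s hb, hD, hY, bb_N hfs, hZs, hC, hG.full, hG.fval,
      Nat.zero_xor, Nat.xor_self, Nat.zero_xor]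
  rw [hF]

end Pool.Agent.SetPS
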