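import Pool.Agent.SetPS.EmbDefs
import Mathlib.Tactic

/-!
# Basic lemmas on the vectors of the cards
-/

set_option linter.unusedSectionVars false

namespace Pool.Agent.SetPS

/-- The private card of a missing arc is not used. -/
def Ok {G : Gad} {V : Type} (out : V → Fin 2 → Option V) : Crd G V → Prop
  | .arc v i => out v i ≠ none
  | _ => True

namespace VTab

variable {G : Gad} (T : VTab G) {V : Type} [DecidableEq V] (out : V → Fin 2 → Option V)

/-- From local to global coordinates. -/
def Phi (v : V) (y : LCo T.rb → ZMod 3) : Option V × Co T.rb T.rz → ZMod 3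
  | (some u, .k x) => (if u = v then y (.k x) else 0) -
      ∑ i, (if out v i = some u then y (.q i x) else 0)
  | (some u, .q i x) => if u = v ∧ out v i = none then y (.q i x) else 0
  | (some u, .b j) => if u = v then y (.b j) else 0
  | (some u, .f) => (if u = v then y .f else 0) +
      ∑ i, (if out v i = some u then y (.w i) else 0)
  | (some _, .h _) => 0
  | (none, _) => 0

/-- The cards visible at a vertex. -/
def loc (v : V) : Lc G → Crd G V
  | .c a => .c v a
  | .f => .z v G.f
  | .arc i => .arc v i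
  | .fix x => .fix v x

theorem loc_inj {v : V} {g h : Lc G} (e : loc v g = loc v h) : g = h := by
  cases g <;> cases h <;> simp_all [loc]

theorem Phi_add (v : V) (y z : LCo T.rb → ZMod 3) :
    T.Phi out v (y + z) = T.Phi out v y + T.Phi out v z := by
  funext c
  obtain ⟨_ | u, _ | _ | _ | _ | _⟩ := c <;> simp only [Phi, Pi.add_apply, Fin.sum_univ_two]
  all_goals first | (split_ifs <;> ring) | simp

theorem Phi_neg (v : V) (y : LCo T.rb → ZMod 3) :
    T.Phi out v (-y) = -T.Phi out v y := by
  funext c
  obtain ⟨_ | u, _ | _ | _ | _ | _⟩ := c <;> simp only [Phi, Pi.neg_apply, Fin.sum_univ_two]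
  all_goals first | (split_ifs <;> ring) | simp

theorem Phi_zero (v : V) : T.Phi out v 0 = 0 := by
  funext c
  obtain ⟨_ | u, _ | _ | _ | _ | _⟩ := c <;> simp [Phi]

theorem Phi_sub (v : V) (y z : LCo T.rb → ZMod 3) :
    T.Phi out v (y - z) = T.Phi out v y - T.Phi out v z := by
  rw [sub_eq_add_neg, Phi_add, Phi_neg, sub_eq_add_neg]

theorem Phi_c (v : V) (a : Fin G.nC) : T.Phi out v (T.lc a) = T.vC out v a := by
  funext c
  obtain ⟨_ | u, _ | _ | _ | _ | _⟩ := c <;> simp [Phi, vC, lc]

/-- The unit vector in the coordinate `f` of the vertex `w`. -/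
def df (w : V) : Option V × Co T.rb T.rz → ZMod 3 := fun c => if c = (some w, .f) then 1 else 0

/-- The unit vector in the coordinate `k x` of the vertex `w`. -/
def dk (w : V) (x : Fin 4) : Option V × Co T.rb T.rz → ZMod 3 :=
  fun c => if c = (some w, .k x) then 1 else 0

theorem Phi_f (v : V) : T.Phi out v (ue .f) = T.df v := by
  funext c
  obtain ⟨_ | u, _ | _ | _ | _ | _⟩ := c <;> simp [Phi, ue, df]

theorem Phi_w (v w : V) (i : Fin 2) (h : out v i = some w) :
    T.Phi out v (ue (.w i)) = T.df w := by
  funext c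
  obtain ⟨_ | u, _ | _ | _ | _ | _⟩ := c
  case some.f =>
    have h01 : i = 0 ∨ i = 1 := by fin_cases i <;> simp
    rcases h01 with rfl | rfl <;> simp [Phi, ue, df, h, eq_comm]
  all_goals simp [Phi, ue, df]

theorem Phi_q (v w : V) (i : Fin 2) (h : out v i = some w) (x : Fin 4) :
    T.Phi out v (ue (.q i x)) = -T.dk w x := by
  funext c
  obtain ⟨_ | u, k | ⟨j, y⟩ | _ | _ | _⟩ := c <;> simp only [Phi, ue, dk, Pi.neg_apply]
  · simp
  · simp
  · simp
  · simp
  · simp
  · have e1 : ∀ i' : Fin 2, (if out v i' = some u then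
        (if (LCo.q i' k : LCo T.rb) = .q i x then (1 : ZMod 3) else 0) else 0) =
        if i' = i then (if u = w ∧ k = x then 1 else 0) else 0 := by
      intro i'
      by_cases hi : i' = i
      · subst hi
        simp only [h, Option.some.injEq, LCo.q.injEq, true_and, if_true]
        by_cases h1 : u = w <;> by_cases h2 : k = x <;> simp_all [eq_comm]
      · simp [hi]
    simp only [e1, Finset.sum_ite_eq', Finset.mem_univ, if_true]
    by_cases h1 : u = w <;> by_cases h2 : k = x <;> simp_all
  · by_cases hj : j = i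
    · subst hj
      simp [h]
    · simp [hj]
  · simp
  · simp
  · simp

theorem Phi_k (v : V) (x : Fin 4) : T.Phi out v (ue (.k x)) = T.dk v x := by
  funext c
  obtain ⟨_ | u, _ | _ | _ | _ | _⟩ := c <;> simp [Phi, ue, dk]
  rename_i k
  by_cases h1 : u = v <;> by_cases h2 : k = x <;> simp_all

theorem vZ_f (hT : T.Good) (v : V) : T.vZ v G.f = T.df v := by
  funext c
  obtain ⟨_ | u, _ | _ | _ | _ | _⟩ := c <;> simp [vZ, df, hT.f_zf, hT.f_zh]

theorem vec_loc (hT : T.Good) (v : V) (g : Lc G) (hg : Ok out (loc v g)) :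
    T.vec out (loc v g) = T.Phi out v (T.lv g) := by
  cases g with
  | c a => exact (T.Phi_c out v a).symm
  | f => exact (T.vZ_f hT v).trans (T.Phi_f out v).symm
  | arc i =>
    obtain ⟨w, hw⟩ := Option.ne_none_iff_exists'.1 hg
    have e1 : T.vec out (loc v (.arc i)) = -T.vC out v G.c - T.vZ w G.f := by
      simp only [loc, vec, hw]
    have e2 : T.lv (.arc i) = -T.lc G.c - ue (.w i) := rfl
    rw [e1, e2, Phi_sub, Phi_neg, Phi_c, Phi_w T out v w i hw, vZ_f T hT]
  | fix x =>
    have e1 : T.vec out (loc v (.fix x)) = -T.vC out v (G.φ x) - T.vZ v G.f := rfl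
    have e2 : T.lv (.fix x) = -T.lc (G.φ x) - ue .f := rfl
    rw [e1, e2, Phi_sub, Phi_neg, Phi_c, Phi_f, vZ_f T hT]

theorem Phi_inj (h1 : ∀ v i, out v i ≠ some v) (h2 : ∀ v w, ¬ (out v 0 = some w ∧ out v 1 = some w))
    (v : V) (y : LCo T.rb → ZMod 3) (h : T.Phi out v y = 0)
    (hw : ∀ i, out v i = none → y (.w i) = 0) : y = 0 := by
  have h3 : ∀ i j w, out v i = some w → out v j = some w → i = j := by
    intro i j w hi hj
    have hi01 : i = 0 ∨ i = 1 := by fin_cases i <;> simp
    have hj01 : j = 0 ∨ j = 1 := by fin_cases j <;> simp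
    rcases hi01 with rfl | rfl <;> rcases hj01 with rfl | rfl
    · rfl
    · exact absurd ⟨hi, hj⟩ (h2 v w)
    · exact absurd ⟨hj, hi⟩ (h2 v w)
    · rfl
  have hsum : ∀ (i : Fin 2) (w : V) (F : Fin 2 → ZMod 3), out v i = some w →
      ∑ j, (if out v j = some w then F j else 0) = F i := by
    intro i w F hi
    rw [Finset.sum_eq_single i]
    · rw [if_pos hi]
    · intro j _ hj
      rw [if_neg]
      intro hj'
      exact hj (h3 j i w hj' hi)
    · intro hi'
      exact absurd (Finset.mem_univ _) hi'
  funext c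
  cases c with
  | k x =>
    have := congrFun h (some v, .k x)
    simp only [Phi, if_true, h1, if_false, Finset.sum_const_zero, sub_zero, Pi.zero_apply] at this
    exact this
  | q i x =>
    cases ho : out v i with
    | none =>
      have := congrFun h (some v, .q i x)
      simpa [Phi, ho] using this
    | some w =>
      have hwv : w ≠ v := by
        rintro rfl
        exact h1 _ _ ho
      have := congrFun h (some w, .k x)
      simp only [Phi, if_neg hwv, Pi.zero_apply] at this
      rw [hsum i w _ ho] at this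
      simpa using this
  | b j =>
    have := congrFun h (some v, .b j)
    simpa [Phi] using this
  | f =>
    have := congrFun h (some v, .f)
    simpa [Phi, h1] using this
  | w i =>
    cases ho : out v i with
    | none => exact hw i ho
    | some w =>
      have hwv : w ≠ v := by
        rintro rfl
        exact h1 _ _ ho
      have := congrFun h (some w, .f)
      simp only [Phi, if_neg hwv, Pi.zero_apply] at this
      rw [hsum i w _ ho] at this
      simpa using this

theorem lv_w (g : Lc G) (i : Fin 2) : T.lv g (.w i) = if g = .arc i then -1 else 0 := by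
  cases g with
  | c a => simp [lv, lc]
  | f => simp [lv, ue]
  | arc j =>
    by_cases h : j = i
    · subst h; simp [lv, lc, ue]
    · have h' : i ≠ j := fun e => h e.symm
      simp [lv, lc, ue, h, h']
  | fix x => simp [lv, lc, ue]

theorem lv_w_missing (v : V) (g : Lc G) (hg : Ok out (loc v g)) (i : Fin 2) (hi : out v i = none) :
    T.lv g (.w i) = 0 := by
  rw [lv_w, if_neg]
  rintro rfl
  exact hg hi

/-- The three kinds of cards. -/
theorem cases3 (x : Crd G V) : (∃ a, x = .y a) ∨ (∃ v b, b ≠ G.f ∧ x = .z v b) ∨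
    ∃ v g, x = loc v g := by
  cases x with
  | c v a => exact Or.inr (Or.inr ⟨v, .c a, rfl⟩)
  | z v b =>
    by_cases hb : b = G.f
    · subst hb
      exact Or.inr (Or.inr ⟨v, .f, rfl⟩)
    · exact Or.inr (Or.inl ⟨v, b, hb, rfl⟩)
  | arc v i => exact Or.inr (Or.inr ⟨v, .arc i, rfl⟩)
  | fix v x => exact Or.inr (Or.inr ⟨v, .fix x, rfl⟩)
  | y a => exact Or.inl ⟨a, rfl⟩

theorem Phi_none (v : V) (y : LCo T.rb → ZMod 3) (c : Co T.rb T.rz) :
    T.Phi out v y (none, c) = 0 := by
  cases c <;> rfl

theorem Phi_h (v : V) (y : LCo T.rb → ZMod 3) (u : V) (j : Fin T.rz) :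
    T.Phi out v y (some u, .h j) = 0 := rfl

theorem vZ_none (v : V) (b : Fin G.nZ) (c : Co T.rb T.rz) : T.vZ v b (none, c) = 0 := by
  cases c <;> rfl

theorem vY_some (a : Fin G.nC) (u : V) (c : Co T.rb T.rz) : T.vY V a (some u, c) = 0 := by
  cases c <;> rfl

/-- Restriction to the block `none`. -/
def R (F : Option V × Co T.rb T.rz → ZMod 3) : LCo T.rb → ZMod 3
  | .k x => F (none, .k x)
  | .q i x => F (none, .q i x)
  | .b j => F (none, .b j)
  | .f => -∑ i, ∑ x, F (none, .q i x)
  | .w _ => 0

theorem R_vY (a : Fin G.nC) : T.R (T.vY V a) = T.lc a := by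
  funext c
  cases c <;> rfl

theorem R_add (F F' : Option V × Co T.rb T.rz → ZMod 3) : T.R (F + F') = T.R F + T.R F' := by
  funext c
  cases c <;> simp [R, Finset.sum_add_distrib, add_comm]

theorem R_of_none (F : Option V × Co T.rb T.rz → ZMod 3) (h : ∀ c, F (none, c) = 0) :
    T.R F = 0 := by
  funext c
  cases c <;> simp [R, h]

end VTab

end Pool.Agent.SetPS
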