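import Pool.Agent.SetPS.GadDefs
import Mathlib.Data.ZMod.Basic
import Mathlib.Algebra.BigOperators.Pi

/-!
# Vectors for the cards of the big hypergraph
-/

namespace Pool.Agent.SetPS

/-- The coordinates of one block. -/
inductive Co (rb rz : ℕ) : Type
  | k (x : Fin 4)
  | q (i : Fin 2) (x : Fin 4)
  | b (j : Fin rb)
  | f
  | h (j : Fin rz)
  deriving DecidableEq

/-- Tables for the local coordinates of the cards of the gadget. -/
structure VTab (G : Gad) where
  rb : ℕ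
  rz : ℕ
  tk : Fin G.nC → Fin 4 → ZMod 3
  tq : Fin G.nC → Fin 2 → Fin 4 → ZMod 3
  tb : Fin G.nC → Fin rb → ZMod 3
  zf : Fin G.nZ → ZMod 3
  zh : Fin G.nZ → Fin rz → ZMod 3

namespace VTab

variable {G : Gad} (T : VTab G)

/-! ### Local conditions -/

/-- The cards visible locally at a vertex: its `C`-cards, `f`, the private cards of its arcs and
of its fixers. -/
inductive Lc (G : Gad) : Type
  | c (a : Fin G.nC)
  | f
  | arc (i : Fin 2)
  | fix (x : Fin 4)
  deriving DecidableEq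

/-- Local coordinates. -/
inductive LCo (rb : ℕ) : Type
  | k (x : Fin 4)
  | q (i : Fin 2) (x : Fin 4)
  | b (j : Fin rb)
  | f
  | w (i : Fin 2)
  deriving DecidableEq

/-- The local vector of a `C`-card. -/
def lc (a : Fin G.nC) : LCo T.rb → ZMod 3
  | .k x => T.tk a x
  | .q i x => T.tq a i x
  | .b j => T.tb a j
  | .f => -∑ i, ∑ x, T.tq a i x
  | .w _ => 0

/-- The unit vector. -/
def ue {rb : ℕ} (c : LCo rb) : LCo rb → ZMod 3 := fun d => if d = c then 1 else 0

/-- The local vectors. -/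
def lv : Lc G → LCo T.rb → ZMod 3
  | .c a => T.lc a
  | .f => ue .f
  | .arc i => -T.lc G.c - ue (.w i)
  | .fix x => -T.lc (G.φ x) - ue .f

/-- The card has a nonzero coordinate of type `b`. -/
def Heavy (g : Lc G) : Prop := ∃ j, T.lv g (.b j) ≠ 0

/-- The local conditions. -/
structure Good : Prop where
  κ_q_disj : ∀ x i y, G.κ x ≠ G.q i y
  κ_inj : Function.Injective G.κ
  q_inj : ∀ i x j y, G.q i x = G.q j y → i = j ∧ x = y
  φ_inj : Function.Injective G.φ
  φ_ne_q : ∀ x i y, G.φ x ≠ G.q i y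
  cardC : ∀ S ∈ G.SC, S.card = 3
  cardZ : ∀ S ∈ G.SZ, S.card = 3
  κ_vec : ∀ x, T.lc (G.κ x) = ue (.k x)
  q_vec : ∀ i x, T.lc (G.q i x) = ue (.q i x) - ue .f
  f_zf : T.zf G.f = 1
  f_zh : T.zh G.f = 0
  z_heavy : ∀ b, b ≠ G.f → T.zh b ≠ 0
  z_inj : ∀ a b, T.zf a = T.zf b → T.zh a = T.zh b → a = b
  z_line : ∀ a b c : Fin G.nZ, a ≠ b → b ≠ c → a ≠ c →
    ((T.zf a + T.zf b + T.zf c = 0 ∧ T.zh a + T.zh b + T.zh c = 0) ↔ {a, b, c} ∈ G.SZ)
  c_heavy : ∃ j, T.tb G.c j ≠ 0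
  inj : ∀ g h : Lc G, T.lv g = T.lv h → g = h
  nz : ∀ g : Lc G, T.lv g ≠ 0
  /-- Only `f` has a local vector supported on the coordinate `f`. -/
  only_f : ∀ g : Lc G, (∀ d, d ≠ LCo.f → T.lv g d = 0) → g = .f
  /-- Lines among the local cards are the internal Sets and the fixers. -/
  line : ∀ g h l : Lc G, g ≠ h → h ≠ l → g ≠ l → T.lv g + T.lv h + T.lv l = 0 →
    (∃ a b c, g = .c a ∧ h = .c b ∧ l = .c c ∧ {a, b, c} ∈ G.SC) ∨
    (∃ x, ({g, h, l} : Finset (Lc G)) = {.f, .c (G.φ x), .fix x})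
  /-- Internal Sets are lines. -/
  setC : ∀ a b c : Fin G.nC, a ≠ b → b ≠ c → a ≠ c → {a, b, c} ∈ G.SC →
    T.lc a + T.lc b + T.lc c = 0
  /-- Classification of the light cards. -/
  light : ∀ g : Lc G, ¬ T.Heavy g → T.lv g .f = -1 ∨ g = .f ∨ (∃ x, g = .c (G.κ x)) ∨
    ∃ x y, x ≠ y ∧ T.lv g = -ue (.k x) - ue (.k y)
  /-- (E7) -/
  e7 : ∀ g h : Lc G, g ≠ h → ∀ i x, T.lv g + T.lv h = ue (.q i x) →
    ({g, h} : Finset (Lc G)) = {.f, .c (G.q i x)}
  /-- (E8) -/
  e8 : ∀ g h l : Lc G, g ≠ h → ∀ x y, x ≠ y → T.lv l = -ue (.k x) - ue (.k y) → ∀ i,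
    T.lv g + T.lv h ≠ -ue (.q i x) - ue (.q i y)
  /-- (E9) -/
  e9 : ∀ g h : Lc G, g ≠ h → ∀ i, T.lv g + T.lv h = -ue (.w i) →
    ({g, h} : Finset (Lc G)) = {.c G.c, .arc i}

/-! ### Global vectors -/

variable {V : Type} [DecidableEq V] (out : V → Fin 2 → Option V)

/-- The vector of the card `a` of `C_v`. -/
def vC (v : V) (a : Fin G.nC) : Option V × Co T.rb T.rz → ZMod 3
  | (some u, .k x) => (if u = v then T.tk a x else 0) -
      ∑ i, (if out v i = some u then T.tq a i x else 0)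
  | (some u, .q i x) => if u = v ∧ out v i = none then T.tq a i x else 0
  | (some u, .b j) => if u = v then T.tb a j else 0
  | (some u, .f) => if u = v then -∑ i, ∑ x, T.tq a i x else 0
  | (some _, .h _) => 0
  | (none, _) => 0

/-- The vector of the card `b` of `Z_v`. -/
def vZ (v : V) (b : Fin G.nZ) : Option V × Co T.rb T.rz → ZMod 3
  | (some u, .f) => if u = v then T.zf b else 0
  | (some u, .h j) => if u = v then T.zh b j else 0
  | _ => 0

/-- The vector of the card `a` of the additional copy. -/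
def vY (V : Type) (a : Fin G.nC) : Option V × Co T.rb T.rz → ZMod 3
  | (none, .k x) => T.tk a x
  | (none, .q i x) => T.tq a i x
  | (none, .b j) => T.tb a j
  | _ => 0

/-- The vectors of the cards. -/
def vec : Crd G V → Option V × Co T.rb T.rz → ZMod 3
  | .c v a => T.vC out v a
  | .z v b => T.vZ v b
  | .y a => T.vY V a
  | .arc v i => match out v i with
    | some w => -T.vC out v G.c - T.vZ w G.f
    | none => 0
  | .fix v x => -T.vC out v (G.φ x) - T.vZ v G.f

end VTab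

end Pool.Agent.SetPS
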