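import Pool.Agent.SetPS.EmbBasic

/-!
# The Sets among the vectors of the cards are the Sets of the big hypergraph
-/

set_option linter.unusedSectionVars false

namespace Pool.Agent.SetPS

namespace VTab

variable {G : Gad} {T : VTab G} {V : Type} [DecidableEq V] {out : V → Fin 2 → Option V}

/-! ### Elementary facts -/

theorem Good.Phi_ne (hT : T.Good) (h1 : ∀ v i, out v i ≠ some v)
    (h2 : ∀ v w, ¬ (out v 0 = some w ∧ out v 1 = some w)) (v : V) (g : Lc G)
    (hg : Ok out (loc v g)) : T.Phi out v (T.lv g) ≠ 0 := by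
  intro h
  exact hT.nz g (T.Phi_inj out h1 h2 v _ h (fun i hi => T.lv_w_missing out v g hg i hi))

theorem Good.zh_ne (hT : T.Good) {b : Fin G.nZ} (hb : b ≠ G.f) : ∃ j, T.zh b j ≠ 0 := by
  by_contra h
  push Not at h
  exact hT.z_heavy b hb (funext h)

theorem z_set (hT : T.Good) (v : V) {a b c : Fin G.nZ} (hab : a ≠ b) (hbc : b ≠ c) (hac : a ≠ c)
    (h : T.vZ v a + T.vZ v b + T.vZ v c = 0) :
    IsS G out {Crd.z v a, Crd.z v b, Crd.z v c} := by
  have h1 : T.zf a + T.zf b + T.zf c = 0 := by
    have := congrFun h (some v, .f)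
    simpa [vZ] using this
  have h2 : T.zh a + T.zh b + T.zh c = 0 := by
    funext j
    have := congrFun h (some v, .h j)
    simpa [vZ] using this
  have h3 := IsS.z (out := out) v {a, b, c} ((hT.z_line a b c hab hbc hac).1 ⟨h1, h2⟩)
  simpa [Finset.image_insert] using h3

/-- Three cards at the same vertex. -/
theorem loc3 (hT : T.Good) (h1 : ∀ v i, out v i ≠ some v)
    (h2 : ∀ v w, ¬ (out v 0 = some w ∧ out v 1 = some w)) (v : V) (g h l : Lc G)
    (hg : Ok out (loc v g)) (hh : Ok out (loc v h)) (hl : Ok out (loc v l))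
    (hgh : g ≠ h) (hhl : h ≠ l) (hgl : g ≠ l)
    (hs : T.Phi out v (T.lv g) + T.Phi out v (T.lv h) + T.Phi out v (T.lv l) = 0) :
    IsS G out {loc v g, loc v h, loc v l} := by
  rw [← Phi_add, ← Phi_add] at hs
  have h0 := T.Phi_inj out h1 h2 v _ hs (fun i hi => by
    simp [T.lv_w_missing out v g hg i hi, T.lv_w_missing out v h hh i hi,
      T.lv_w_missing out v l hl i hi])
  rcases hT.line g h l hgh hhl hgl h0 with ⟨a, b, c, rfl, rfl, rfl, hS⟩ | ⟨x, hx⟩
  · have h3 := IsS.c (out := out) v {a, b, c} hS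
    simpa [Finset.image_insert, loc] using h3
  · have h3 := congrArg (Finset.image (loc v)) hx
    simp only [Finset.image_insert, Finset.image_singleton] at h3
    rw [h3]
    exact IsS.fix v x

theorem Phi_other_b (v u : V) (hu : u ≠ v) (y : LCo T.rb → ZMod 3) (j : Fin T.rb) :
    T.Phi out v y (some u, .b j) = 0 := by
  simp [Phi, hu]

theorem Phi_own_b (v : V) (y : LCo T.rb → ZMod 3) (j : Fin T.rb) :
    T.Phi out v y (some v, .b j) = y (.b j) := by
  simp [Phi]

/-- Two cards at a vertex and one at another vertex. -/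
theorem loc21 (hT : T.Good) (h1 : ∀ v i, out v i ≠ some v)
    (h2 : ∀ v w, ¬ (out v 0 = some w ∧ out v 1 = some w)) (v w : V) (hvw : w ≠ v) (g h l : Lc G)
    (hg : Ok out (loc v g)) (hh : Ok out (loc v h)) (hl : Ok out (loc w l))
    (hgh : g ≠ h)
    (hs : T.Phi out v (T.lv g) + T.Phi out v (T.lv h) + T.Phi out w (T.lv l) = 0) :
    IsS G out {loc v g, loc v h, loc w l} := by
  rw [← Phi_add] at hs
  have h3 : ∀ i j w, out v i = some w → out v j = some w → i = j := by
    intro i j w hi hj
    have hi01 : i = 0 ∨ i = 1 := by fin_cases i <;> simp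
    have hj01 : j = 0 ∨ j = 1 := by fin_cases j <;> simp
    rcases hi01 with rfl | rfl <;> rcases hj01 with rfl | rfl
    · rfl
    · exact absurd ⟨hi, hj⟩ (h2 v w)
    · exact absurd ⟨hj, hi⟩ (h2 v w)
    · rfl
  have hsum : ∀ F : Fin 2 → ZMod 3, (∑ j, (if out v j = some w then F j else 0) = 0 ∧
      ∀ i, out v i ≠ some w) ∨ ∃ i, out v i = some w ∧
      ∑ j, (if out v j = some w then F j else 0) = F i := by
    intro F
    by_cases hex : ∃ i, out v i = some w
    · obtain ⟨i, hi⟩ := hex
      right
      refine ⟨i, hi, ?_⟩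
      rw [Finset.sum_eq_single i]
      · rw [if_pos hi]
      · intro j _ hj
        rw [if_neg]
        intro hj'
        exact hj (h3 j i w hj' hi)
      · intro hi'
        exact absurd (Finset.mem_univ _) hi'
    · push Not at hex
      left
      simp [hex]
  have hw0 : ∀ i, out v i = none → (T.lv g + T.lv h) (.w i) = 0 := by
    intro i hi
    simp [T.lv_w_missing out v g hg i hi, T.lv_w_missing out v h hh i hi]
  -- the third card is light
  have hlight : ¬ T.Heavy l := by
    rintro ⟨j, hj⟩
    have := congrFun hs (some w, .b j)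
    rw [Pi.add_apply, Phi_other_b v w hvw, Phi_own_b, zero_add] at this
    exact hj this
  -- the key step
  have key : ∀ y : LCo T.rb → ZMod 3, T.Phi out v y = T.Phi out w (T.lv l) →
      (∀ i, out v i = none → y (.w i) = 0) → T.lv g + T.lv h = -y := by
    intro y hy hy0
    have h4 : T.Phi out v (T.lv g + T.lv h + y) = 0 := by
      rw [Phi_add, hy]
      exact hs
    have h5 := T.Phi_inj out h1 h2 v _ h4 (fun i hi => by
      rw [Pi.add_apply, hw0 i hi, hy0 i hi, add_zero])
    exact eq_neg_of_add_eq_zero_left h5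
  rcases hT.light l hlight with hc | rfl | ⟨x, rfl⟩ | ⟨x, y, hxy, hl'⟩
  · -- the coordinate `f` of `l` is `-1`
    exfalso
    have h4 := congrFun hs (some w, .f)
    simp only [Phi, Pi.add_apply, if_neg hvw, if_true, hc, Pi.zero_apply, h1, if_false,
      Finset.sum_const_zero, zero_add, add_zero] at h4
    have h5 : ∀ i, (T.lv g + T.lv h) (.w i) = 0 ∨ (T.lv g + T.lv h) (.w i) = -1 := by
      intro i
      rw [Pi.add_apply, lv_w, lv_w]
      by_cases e1 : g = .arc i
      · by_cases e2 : h = .arc i
        · exact absurd (e1.trans e2.symm) hgh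
        · right; simp [e1, e2]
      · by_cases e2 : h = .arc i
        · right; simp [e1, e2]
        · left; simp [e1, e2]
    rcases hsum (fun i => (T.lv g + T.lv h) (.w i)) with ⟨h6, _⟩ | ⟨i, _, h6⟩
    · simp only [Pi.add_apply] at h6
      rw [h6] at h4
      revert h4; decide
    · simp only [Pi.add_apply] at h6 h5
      rw [h6] at h4
      rcases h5 i with h7 | h7 <;> rw [h7] at h4 <;> revert h4 <;> decide
  · -- `l = f`
    have hlf : T.Phi out w (T.lv .f) = T.df w := T.Phi_f out w
    have h4 := congrFun hs (some w, .f)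
    rw [hlf] at h4
    simp only [Phi, Pi.add_apply, if_neg hvw, Pi.zero_apply, zero_add, df, if_true] at h4
    rcases hsum (fun i => (T.lv g + T.lv h) (.w i)) with ⟨h6, _⟩ | ⟨i, hi, h6⟩
    · exfalso
      simp only [Pi.add_apply] at h6
      rw [h6] at h4
      revert h4; decide
    · have h7 := key (ue (.w i)) (by rw [T.Phi_w out v w i hi, hlf]) (by
        intro i' hi'
        simp only [ue]
        rw [if_neg]
        intro e
        simp only [LCo.w.injEq] at e
        rw [e, hi] at hi'
        simp at hi')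
      have h8 := hT.e9 g h hgh i h7
      have h9 := congrArg (Finset.image (loc v)) h8
      simp only [Finset.image_insert, Finset.image_singleton] at h9
      have h10 := IsS.arc (G := G) (out := out) v i w hi
      have h11 : ({loc v g, loc v h, loc w .f} : Finset (Crd G V)) =
          {Crd.c v G.c, Crd.z w G.f, Crd.arc v i} := by
        have e1 : ({loc v g, loc v h, loc w .f} : Finset (Crd G V)) =
            insert (loc w .f) {loc v g, loc v h} := by
          ext t; simp only [Finset.mem_insert, Finset.mem_singleton]; tauto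
        rw [e1, h9]
        ext t
        simp only [Finset.mem_insert, Finset.mem_singleton, loc]
        tauto
      rw [h11]
      exact h10
  · -- `l = κ x`
    have hlk : T.Phi out w (T.lv (.c (G.κ x))) = T.dk w x := by
      have : T.lv (.c (G.κ x)) = ue (.k x) := hT.κ_vec x
      rw [this, T.Phi_k out w x]
    have h4 := congrFun hs (some w, .k x)
    rw [hlk] at h4
    simp only [Phi, Pi.add_apply, if_neg hvw, Pi.zero_apply, zero_sub, dk, if_true] at h4
    rcases hsum (fun i => (T.lv g + T.lv h) (.q i x)) with ⟨h6, _⟩ | ⟨i, hi, h6⟩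
    · exfalso
      simp only [Pi.add_apply] at h6
      rw [h6] at h4
      revert h4; decide
    · have h7 := key (-ue (.q i x)) (by rw [Phi_neg, T.Phi_q out v w i hi, hlk, neg_neg]) (by
        intro i' hi'
        simp [ue])
      rw [neg_neg] at h7
      have h8 := hT.e7 g h hgh i x h7
      have h9 := congrArg (Finset.image (loc v)) h8
      simp only [Finset.image_insert, Finset.image_singleton] at h9
      have h10 := IsS.ann (G := G) (out := out) v i w hi x
      have h11 : ({loc v g, loc v h, loc w (.c (G.κ x))} : Finset (Crd G V)) =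
          {Crd.z v G.f, Crd.c w (G.κ x), Crd.c v (G.q i x)} := by
        have e1 : ({loc v g, loc v h, loc w (.c (G.κ x))} : Finset (Crd G V)) =
            insert (loc w (.c (G.κ x))) {loc v g, loc v h} := by
          ext t; simp only [Finset.mem_insert, Finset.mem_singleton]; tauto
        rw [e1, h9]
        ext t
        simp only [Finset.mem_insert, Finset.mem_singleton, loc]
        tauto
      rw [h11]
      exact h10
  · -- pair type
    exfalso
    have hlk : T.Phi out w (T.lv l) = -T.dk w x - T.dk w y := by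
      rw [hl', Phi_sub, Phi_neg, T.Phi_k out w x, T.Phi_k out w y]
    have h4 := congrFun hs (some w, .k x)
    rw [hlk] at h4
    simp only [Phi, Pi.add_apply, if_neg hvw, Pi.zero_apply, zero_sub, dk, if_true,
      Pi.sub_apply, Pi.neg_apply, Prod.mk.injEq, Co.k.injEq, hxy, and_false, if_false,
      sub_zero] at h4
    rcases hsum (fun i => (T.lv g + T.lv h) (.q i x)) with ⟨h6, _⟩ | ⟨i, hi, h6⟩
    · simp only [Pi.add_apply] at h6
      rw [h6] at h4
      revert h4; decide
    · have h7 := key (ue (.q i x) + ue (.q i y)) (by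
        rw [Phi_add, T.Phi_q out v w i hi, T.Phi_q out v w i hi, hlk]; ring) (by
        intro i' hi'
        simp [ue])
      refine hT.e8 g h l hgh x y hxy hl' i ?_
      rw [h7]
      ring

/-- Light cards are not arcs. -/
theorem Good.arc_heavy (hT : T.Good) (i : Fin 2) : T.Heavy (.arc i) := by
  obtain ⟨j, hj⟩ := hT.c_heavy
  refine ⟨j, ?_⟩
  have : T.lv (.arc i) (.b j) = -T.tb G.c j := by
    simp [lv, lc, ue]
  rw [this]
  exact neg_ne_zero.2 hj

theorem light_w (hT : T.Good) {l : Lc G} (hl : ¬ T.Heavy l) (i : Fin 2) : T.lv l (.w i) = 0 := by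
  rw [lv_w, if_neg]
  rintro rfl
  exact hl (hT.arc_heavy i)

/-- For a light card the coordinates `f` are the local ones. -/
theorem light_f (hT : T.Good) {l : Lc G} (hl : ¬ T.Heavy l) (v u : V) :
    T.Phi out v (T.lv l) (some u, .f) = if u = v then T.lv l .f else 0 := by
  simp [Phi, light_w hT hl]

/-- A light card whose `f`-coordinate vanishes has a coordinate `k x` that is not cancelled by
light cards of other vertices. -/
theorem light_k (hT : T.Good) {l : Lc G} (hl : ¬ T.Heavy l) (hf : T.lv l .f = 0) :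
    (∀ i x, T.lv l (.q i x) = 0) ∧ ∃ x, T.lv l (.k x) ≠ 0 := by
  rcases hT.light l hl with h | h | ⟨x, h⟩ | ⟨x, y, hxy, h⟩
  · rw [hf] at h
    exact absurd h (by decide)
  · subst h
    have : T.lv (.f : Lc G) .f = 1 := by simp [lv, ue]
    rw [hf] at this
    exact absurd this (by decide)
  · subst h
    have h' : T.lv (.c (G.κ x)) = ue (.k x) := hT.κ_vec x
    rw [h']
    exact ⟨fun i y => by simp [ue], x, by simp [ue]⟩
  · rw [h]
    exact ⟨fun i z => by simp [ue], x, by simp [ue, hxy]⟩

theorem Phi_k_other (v u : V) (hu : u ≠ v) (y : LCo T.rb → ZMod 3) (hq : ∀ i x, y (.q i x) = 0)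
    (x : Fin 4) : T.Phi out v y (some u, .k x) = 0 := by
  simp [Phi, hu, hq]

theorem Phi_k_own (h1 : ∀ v i, out v i ≠ some v) (v : V) (y : LCo T.rb → ZMod 3) (x : Fin 4) :
    T.Phi out v y (some v, .k x) = y (.k x) := by
  simp [Phi, h1]

/-- Three cards at three different vertices. -/
theorem loc111 (hT : T.Good) (h1 : ∀ v i, out v i ≠ some v) (v₁ v₂ v₃ : V)
    (h12 : v₁ ≠ v₂) (h23 : v₂ ≠ v₃) (h13 : v₁ ≠ v₃) (g₁ g₂ g₃ : Lc G)
    (hs : T.Phi out v₁ (T.lv g₁) + T.Phi out v₂ (T.lv g₂) + T.Phi out v₃ (T.lv g₃) = 0) :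
    False := by
  have hl1 : ¬ T.Heavy g₁ := by
    rintro ⟨j, hj⟩
    have := congrFun hs (some v₁, .b j)
    rw [Pi.add_apply, Pi.add_apply, Phi_own_b, Phi_other_b v₂ v₁ h12, Phi_other_b v₃ v₁ h13,
      add_zero, add_zero] at this
    exact hj this
  have hl2 : ¬ T.Heavy g₂ := by
    rintro ⟨j, hj⟩
    have := congrFun hs (some v₂, .b j)
    rw [Pi.add_apply, Pi.add_apply, Phi_own_b, Phi_other_b v₁ v₂ h12.symm, Phi_other_b v₃ v₂ h23,
      add_zero, zero_add] at this
    exact hj this
  have hl3 : ¬ T.Heavy g₃ := by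
    rintro ⟨j, hj⟩
    have := congrFun hs (some v₃, .b j)
    rw [Pi.add_apply, Pi.add_apply, Phi_own_b, Phi_other_b v₁ v₃ h13.symm,
      Phi_other_b v₂ v₃ h23.symm, zero_add, zero_add] at this
    exact hj this
  have hf1 : T.lv g₁ .f = 0 := by
    have := congrFun hs (some v₁, .f)
    rw [Pi.add_apply, Pi.add_apply, light_f hT hl1, light_f hT hl2, light_f hT hl3, if_pos rfl,
      if_neg h12, if_neg h13, add_zero, add_zero] at this
    exact this
  have hf2 : T.lv g₂ .f = 0 := by
    have := congrFun hs (some v₂, .f)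
    rw [Pi.add_apply, Pi.add_apply, light_f hT hl1, light_f hT hl2, light_f hT hl3, if_pos rfl,
      if_neg h12.symm, if_neg h23, add_zero, zero_add] at this
    exact this
  have hf3 : T.lv g₃ .f = 0 := by
    have := congrFun hs (some v₃, .f)
    rw [Pi.add_apply, Pi.add_apply, light_f hT hl1, light_f hT hl2, light_f hT hl3, if_pos rfl,
      if_neg h13.symm, if_neg h23.symm, zero_add, zero_add] at this
    exact this
  obtain ⟨_, x, hx⟩ := light_k hT hl1 hf1
  obtain ⟨hq2, _⟩ := light_k hT hl2 hf2
  obtain ⟨hq3, _⟩ := light_k hT hl3 hf3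
  have := congrFun hs (some v₁, .k x)
  rw [Pi.add_apply, Pi.add_apply, Phi_k_own h1, Phi_k_other v₂ v₁ h12 _ hq2,
    Phi_k_other v₃ v₁ h13 _ hq3, add_zero, add_zero] at this
  exact hx this

/-- Three local cards. -/
theorem loc_line (hT : T.Good) (h1 : ∀ v i, out v i ≠ some v)
    (h2 : ∀ v w, ¬ (out v 0 = some w ∧ out v 1 = some w)) (v₁ v₂ v₃ : V) (g₁ g₂ g₃ : Lc G)
    (ho1 : Ok out (loc v₁ g₁)) (ho2 : Ok out (loc v₂ g₂)) (ho3 : Ok out (loc v₃ g₃))
    (h12 : loc v₁ g₁ ≠ loc v₂ g₂) (h23 : loc v₂ g₂ ≠ loc v₃ g₃) (h13 : loc v₁ g₁ ≠ loc v₃ g₃)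
    (hs : T.vec out (loc v₁ g₁) + T.vec out (loc v₂ g₂) + T.vec out (loc v₃ g₃) = 0) :
    IsS G out {loc v₁ g₁, loc v₂ g₂, loc v₃ g₃} := by
  rw [T.vec_loc out hT v₁ g₁ ho1, T.vec_loc out hT v₂ g₂ ho2, T.vec_loc out hT v₃ g₃ ho3] at hs
  by_cases e12 : v₁ = v₂
  · subst e12
    have n12 : g₁ ≠ g₂ := fun e => h12 (by rw [e])
    by_cases e13 : v₁ = v₃
    · subst e13
      exact loc3 hT h1 h2 v₁ g₁ g₂ g₃ ho1 ho2 ho3 n12 (fun e => h23 (by rw [e]))
        (fun e => h13 (by rw [e])) hs
    · exact loc21 hT h1 h2 v₁ v₃ (Ne.symm e13) g₁ g₂ g₃ ho1 ho2 ho3 n12 hs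
  · by_cases e13 : v₁ = v₃
    · subst e13
      have n13 : g₁ ≠ g₃ := fun e => h13 (by rw [e])
      have := loc21 hT h1 h2 v₁ v₂ (Ne.symm e12) g₁ g₃ g₂ ho1 ho3 ho2 n13 (by
        rw [← hs]; ring)
      have e : ({loc v₁ g₁, loc v₂ g₂, loc v₁ g₃} : Finset (Crd G V)) =
          {loc v₁ g₁, loc v₁ g₃, loc v₂ g₂} := by
        ext t; simp only [Finset.mem_insert, Finset.mem_singleton]; tauto
      rw [e]
      exact this
    · by_cases e23 : v₂ = v₃
      · subst e23
        have n23 : g₂ ≠ g₃ := fun e => h23 (by rw [e])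
        have := loc21 hT h1 h2 v₂ v₁ e12 g₂ g₃ g₁ ho2 ho3 ho1 n23 (by
          rw [← hs]; ring)
        have e : ({loc v₁ g₁, loc v₂ g₂, loc v₂ g₃} : Finset (Crd G V)) =
            {loc v₂ g₂, loc v₂ g₃, loc v₁ g₁} := by
          ext t; simp only [Finset.mem_insert, Finset.mem_singleton]; tauto
        rw [e]
        exact this
      · exact (loc111 hT h1 v₁ v₂ v₃ e12 e23 e13 g₁ g₂ g₃ hs).elim

/-! ### The general case -/

/-- The kind of a card. -/
def rk : Crd G V → ℕ
  | .y _ => 0
  | .z _ b => if b = G.f then 2 else 1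
  | _ => 2

theorem rk_loc (v : V) (g : Lc G) : rk (loc v g) = 2 := by
  cases g <;> simp [rk, loc]

theorem rk_z (v : V) {b : Fin G.nZ} (hb : b ≠ G.f) : rk (Crd.z (G := G) v b) = 1 := by
  simp [rk, hb]

theorem wlog3 {α : Type} (P : α → α → α → Prop) (rank : α → ℕ)
    (hs1 : ∀ x y z, P x y z → P y x z) (hs2 : ∀ x y z, P x y z → P x z y)
    (h : ∀ x y z, rank x ≤ rank y → rank y ≤ rank z → P x y z) (x y z : α) : P x y z := by
  rcases le_total (rank x) (rank y) with a | a <;> rcases le_total (rank y) (rank z) with b | b <;>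
    rcases le_total (rank x) (rank z) with c | c
  · exact h x y z a b
  · exact h x y z a b
  · exact hs2 _ _ _ (h x z y c b)
  · exact hs2 _ _ _ (hs1 _ _ _ (h z x y c a))
  · exact hs1 _ _ _ (h y x z a c)
  · exact hs1 _ _ _ (hs2 _ _ _ (h y z x b c))
  · exact hs1 _ _ _ (hs2 _ _ _ (hs1 _ _ _ (h z y x b a)))
  · exact hs1 _ _ _ (hs2 _ _ _ (hs1 _ _ _ (h z y x b a)))

theorem vec_loc_none (hT : T.Good) (v : V) (g : Lc G) (hg : Ok out (loc v g))
    (c : Co T.rb T.rz) : T.vec out (loc v g) (none, c) = 0 := by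
  rw [T.vec_loc out hT v g hg, Phi_none]

theorem vec_loc_h (hT : T.Good) (v : V) (g : Lc G) (hg : Ok out (loc v g))
    (u : V) (j : Fin T.rz) : T.vec out (loc v g) (some u, .h j) = 0 := by
  rw [T.vec_loc out hT v g hg, Phi_h]

theorem vec_none (hT : T.Good) (x : Crd G V) (hx : Ok out x) (hr : 1 ≤ rk x)
    (c : Co T.rb T.rz) : T.vec out x (none, c) = 0 := by
  rcases cases3 x with ⟨a, rfl⟩ | ⟨v, b, hb, rfl⟩ | ⟨v, g, rfl⟩
  · simp [rk] at hr
  · exact T.vZ_none v b c
  · exact vec_loc_none hT v g hx c

/-- A card that is not a y-card has a coordinate outside the block `none`. -/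
theorem vec_some (hT : T.Good) (h1 : ∀ v i, out v i ≠ some v)
    (h2 : ∀ v w, ¬ (out v 0 = some w ∧ out v 1 = some w)) (x : Crd G V) (hx : Ok out x)
    (hr : 1 ≤ rk x) : ∃ u c, T.vec out x (some u, c) ≠ 0 := by
  rcases cases3 x with ⟨a, rfl⟩ | ⟨v, b, hb, rfl⟩ | ⟨v, g, rfl⟩
  · simp [rk] at hr
  · obtain ⟨j, hj⟩ := hT.zh_ne hb
    exact ⟨v, .h j, by simpa [vec, vZ] using hj⟩
  · by_contra hcon
    push Not at hcon
    apply hT.Phi_ne h1 h2 v g hx
    rw [← T.vec_loc out hT v g hx]
    funext c
    obtain ⟨_ | u, c⟩ := c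
    · exact vec_loc_none hT v g hx c
    · exact hcon u c

theorem y_ne (hT : T.Good) (a : Fin G.nC) : T.R (T.vY V a) ≠ 0 := by
  rw [R_vY]
  exact hT.nz (.c a)

/-- A local card supported on one coordinate `f` is a card `f`. -/
theorem only_f' (hT : T.Good) (h1 : ∀ v i, out v i ≠ some v)
    (h2 : ∀ v w, ¬ (out v 0 = some w ∧ out v 1 = some w)) (u v : V) (g : Lc G)
    (hg : Ok out (loc u g))
    (h : ∀ c, c ≠ (some v, .f) → T.Phi out u (T.lv g) c = 0) : g = .f ∧ u = v := by
  have h3 : ∀ i j w, out u i = some w → out u j = some w → i = j := by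
    intro i j w hi hj
    have hi01 : i = 0 ∨ i = 1 := by fin_cases i <;> simp
    have hj01 : j = 0 ∨ j = 1 := by fin_cases j <;> simp
    rcases hi01 with rfl | rfl <;> rcases hj01 with rfl | rfl
    · rfl
    · exact absurd ⟨hi, hj⟩ (h2 u w)
    · exact absurd ⟨hj, hi⟩ (h2 u w)
    · rfl
  have hlight : ¬ T.Heavy g := by
    rintro ⟨j, hj⟩
    have := h (some u, .b j) (by simp)
    rw [Phi_own_b] at this
    exact hj this
  have hk : ∀ x, T.lv g (.k x) = 0 := by
    intro x
    have := h (some u, .k x) (by simp)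
    rwa [Phi_k_own h1] at this
  have hq : ∀ i x, T.lv g (.q i x) = 0 := by
    intro i x
    cases ho : out u i with
    | none =>
      have := h (some u, .q i x) (by simp)
      simpa [Phi, ho] using this
    | some w =>
      have hwu : w ≠ u := by
        rintro rfl
        exact h1 _ _ ho
      have := h (some w, .k x) (by simp)
      simp only [Phi, if_neg hwu] at this
      rw [Finset.sum_eq_single i] at this
      · simpa [ho] using this
      · intro j _ hj
        rw [if_neg]
        intro hj'
        exact hj (h3 j i w hj' ho)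
      · intro hi'
        exact absurd (Finset.mem_univ _) hi'
  have hgf : g = .f := by
    apply hT.only_f
    intro d hd
    cases d with
    | k x => exact hk x
    | q i x => exact hq i x
    | b j =>
      by_contra hj
      exact hlight ⟨j, hj⟩
    | f => exact absurd rfl hd
    | w i => exact light_w hT hlight i
  refine ⟨hgf, ?_⟩
  by_contra huv
  have := h (some u, .f) (by simp [huv])
  rw [light_f hT hlight, if_pos rfl, hgf] at this
  simp [lv, ue] at this

theorem vec_line_fwd (hT : T.Good) (h1 : ∀ v i, out v i ≠ some v)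
    (h2 : ∀ v w, ¬ (out v 0 = some w ∧ out v 1 = some w)) (x y z : Crd G V) :
    Ok out x → Ok out y → Ok out z → x ≠ y → y ≠ z → x ≠ z →
    T.vec out x + T.vec out y + T.vec out z = 0 → IsS G out {x, y, z} := by
  refine wlog3 (fun x y z => Ok out x → Ok out y → Ok out z → x ≠ y → y ≠ z → x ≠ z →
    T.vec out x + T.vec out y + T.vec out z = 0 → IsS G out {x, y, z}) rk ?_ ?_ ?_ x y z
  · intro x y z h hy hx hz hyx hxz hyz hs
    have := h hx hy hz hyx.symm hyz hxz (by rw [← hs]; ring)
    rwa [Finset.insert_comm] at this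
  · intro x y z h hx hz hy hxz hzy hxy hs
    have := h hx hy hz hxy hzy.symm hxz (by rw [← hs]; ring)
    rwa [Finset.pair_comm] at this
  intro x y z rxy ryz hx hy hz hxy hyz hxz hs
  rcases cases3 x with ⟨a, rfl⟩ | ⟨v, b, hb, rfl⟩ | ⟨v, g, rfl⟩
  · -- x is a y-card
    rcases cases3 y with ⟨a', rfl⟩ | hy'
    · rcases cases3 z with ⟨a'', rfl⟩ | hz'
      · have h3 : T.lc a + T.lc a' + T.lc a'' = 0 := by
          have h4 := congrArg T.R hs
          rw [R_add, R_add] at h4
          simp only [vec] at h4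
          rw [R_vY, R_vY, R_vY] at h4
          rw [h4]
          exact T.R_of_none _ (fun _ => rfl)
        have n1 : a ≠ a' := fun e => hxy (by rw [e])
        have n2 : a' ≠ a'' := fun e => hyz (by rw [e])
        have n3 : a ≠ a'' := fun e => hxz (by rw [e])
        rcases hT.line (.c a) (.c a') (.c a'') (by simpa using n1) (by simpa using n2)
          (by simpa using n3) h3 with ⟨b, b', b'', e1, e2, e3, hS⟩ | ⟨x, hx⟩
        · simp only [Lc.c.injEq] at e1 e2 e3
          subst e1 e2 e3
          have h5 := IsS.y (out := out) {a, a', a''} hS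
          simpa [Finset.image_insert] using h5
        · exfalso
          have : (Lc.f : Lc G) ∈ ({.c a, .c a', .c a''} : Finset (Lc G)) := by
            rw [hx]; simp
          simp at this
      · exfalso
        have rz : 1 ≤ rk z := by
          rcases hz' with ⟨v, b, hb, rfl⟩ | ⟨v, g, rfl⟩
          · rw [rk_z v hb]
          · rw [rk_loc]; omega
        obtain ⟨u, c, huc⟩ := vec_some hT h1 h2 z hz rz
        have := congrFun hs (some u, c)
        simp only [vec, Pi.add_apply, T.vY_some, zero_add, Pi.zero_apply] at this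
        exact huc this
    · exfalso
      have ry : 1 ≤ rk y := by
        rcases hy' with ⟨v, b, hb, rfl⟩ | ⟨v, g, rfl⟩
        · rw [rk_z v hb]
        · rw [rk_loc]; omega
      have rz : 1 ≤ rk z := ry.trans ryz
      have h4 := congrArg T.R hs
      rw [R_add, R_add, T.R_of_none _ (vec_none hT y hy ry), T.R_of_none _ (vec_none hT z hz rz),
        add_zero, add_zero] at h4
      apply y_ne (V := V) hT a
      rw [show T.vY V a = T.vec out (.y a) from rfl, h4]
      exact T.R_of_none _ (fun _ => rfl)
  · -- x is a heavy Z-card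
    obtain ⟨j, hj⟩ := hT.zh_ne hb
    have hx0 : T.vec out (Crd.z v b) (some v, .h j) = T.zh b j := by simp [vec, vZ]
    have rx : rk (Crd.z (G := G) v b) = 1 := rk_z v hb
    rw [rx] at rxy
    rcases cases3 y with ⟨a', rfl⟩ | ⟨v', b', hb', rfl⟩ | ⟨v', g', rfl⟩
    · simp [rk] at rxy
    · by_cases hv : v' = v
      · subst hv
        rcases cases3 z with ⟨a'', rfl⟩ | ⟨v'', b'', hb'', rfl⟩ | ⟨u, g, rfl⟩
        · have : rk (Crd.z (G := G) v' b') = 1 := rk_z v' hb'
          rw [this] at ryz
          simp [rk] at ryz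
        · by_cases hv2 : v'' = v'
          · subst hv2
            exact z_set hT v'' (fun e => hxy (by rw [e])) (fun e => hyz (by rw [e]))
              (fun e => hxz (by rw [e])) hs
          · exfalso
            obtain ⟨j'', hj''⟩ := hT.zh_ne hb''
            have := congrFun hs (some v'', .h j'')
            simp only [vec, vZ, Pi.add_apply, if_neg hv2, if_true, zero_add, Pi.zero_apply] at this
            exact hj'' this
        · have hs' := hs
          rw [T.vec_loc out hT u g hz] at hs'
          have h5 := only_f' hT h1 h2 u v' g hz (by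
            intro c hc
            have h6 := congrFun hs' c
            obtain ⟨_ | w, _ | _ | _ | _ | _⟩ := c
            · exact T.Phi_none out u _ _
            · exact T.Phi_none out u _ _
            · exact T.Phi_none out u _ _
            · exact T.Phi_none out u _ _
            · exact T.Phi_none out u _ _
            · simpa [vec, vZ] using h6
            · simpa [vec, vZ] using h6
            · simpa [vec, vZ] using h6
            · have hw : w ≠ v' := fun e => hc (by rw [e])
              simpa [vec, vZ, hw] using h6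
            · rfl)
          obtain ⟨rfl, rfl⟩ := h5
          exact z_set hT u (fun e => hxy (by rw [e])) (fun e => hb' e) (fun e => hb e) hs
      · exfalso
        have h5 := congrFun hs (some v, .h j)
        rw [Pi.add_apply, Pi.add_apply, hx0] at h5
        have h6 : T.vec out (Crd.z v' b') (some v, .h j) = 0 := by
          simp only [vec, vZ, if_neg (Ne.symm hv)]
        rw [h6, add_zero] at h5
        rcases cases3 z with ⟨a'', rfl⟩ | ⟨v'', b'', hb'', rfl⟩ | ⟨u, g, rfl⟩
        · have : rk (Crd.z (G := G) v' b') = 1 := rk_z v' hb'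
          rw [this] at ryz
          simp [rk] at ryz
        · by_cases hv2 : v = v''
          · subst hv2
            obtain ⟨j', hj'⟩ := hT.zh_ne hb'
            have h7 := congrFun hs (some v', .h j')
            simp only [vec, vZ, Pi.add_apply, if_neg hv, if_true, zero_add, add_zero,
              Pi.zero_apply] at h7
            exact hj' h7
          · simp only [vec, vZ, if_neg hv2, add_zero] at h5
            exact hj h5
        · rw [vec_loc_h hT u g hz, add_zero] at h5
          exact hj h5
    · exfalso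
      rw [rk_loc] at ryz
      rcases cases3 z with ⟨a'', rfl⟩ | ⟨v'', b'', hb'', rfl⟩ | ⟨u, g, rfl⟩
      · simp [rk] at ryz
      · rw [rk_z v'' hb''] at ryz
        omega
      · have := congrFun hs (some v, .h j)
        rw [Pi.add_apply, Pi.add_apply, hx0, vec_loc_h hT v' g' hy, vec_loc_h hT u g hz,
          add_zero, add_zero] at this
        exact hj this
  · -- all local
    rw [rk_loc] at rxy
    rcases cases3 y with ⟨a', rfl⟩ | ⟨v', b', hb', rfl⟩ | ⟨v', g', rfl⟩
    · simp [rk] at rxy
    · rw [rk_z v' hb'] at rxy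
      omega
    rw [rk_loc] at ryz
    rcases cases3 z with ⟨a'', rfl⟩ | ⟨v'', b'', hb'', rfl⟩ | ⟨v'', g'', rfl⟩
    · simp [rk] at ryz
    · rw [rk_z v'' hb''] at ryz
      omega
    exact loc_line hT h1 h2 v v' v'' g g' g'' hx hy hz hxy hyz hxz hs

/-! ### The Sets are lines -/

theorem vC_sum (v : V) (a b c : Fin G.nC) (h : T.lc a + T.lc b + T.lc c = 0) :
    T.vC out v a + T.vC out v b + T.vC out v c = 0 := by
  rw [← Phi_c, ← Phi_c, ← Phi_c, ← Phi_add, ← Phi_add, h, Phi_zero]

theorem isS_sum (hT : T.Good) (S : Finset (Crd G V)) (hS : IsS G out S) :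
    ∑ t ∈ S, T.vec out t = 0 := by
  cases hS with
  | c v S hS =>
    rw [Finset.sum_image (by intro a _ b _ h; simpa using h)]
    obtain ⟨a, b, c, hab, hac, hbc, rfl⟩ := Finset.card_eq_three.1 (hT.cardC S hS)
    rw [Finset.sum_insert (by simp [hab, hac]), Finset.sum_insert (by simp [hbc]),
      Finset.sum_singleton]
    have := vC_sum (T := T) (out := out) v a b c (hT.setC a b c hab hbc hac hS)
    rw [← this]
    simp only [vec]
    ring
  | z v S hS =>
    rw [Finset.sum_image (by intro a _ b _ h; simpa using h)]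
    obtain ⟨a, b, c, hab, hac, hbc, rfl⟩ := Finset.card_eq_three.1 (hT.cardZ S hS)
    rw [Finset.sum_insert (by simp [hab, hac]), Finset.sum_insert (by simp [hbc]),
      Finset.sum_singleton]
    obtain ⟨h3, h4⟩ := (hT.z_line a b c hab hbc hac).2 hS
    funext d
    obtain ⟨_ | u, _ | _ | _ | _ | _⟩ := d <;> simp only [vec, vZ, Pi.add_apply, Pi.zero_apply,
      add_zero]
    · split_ifs
      · rw [← h3]; ring
      · ring
    · rename_i j
      have h5 := congrFun h4 j
      simp only [Pi.add_apply, Pi.zero_apply] at h5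
      split_ifs
      · rw [← h5]; ring
      · ring
  | y S hS =>
    rw [Finset.sum_image (by intro a _ b _ h; simpa using h)]
    obtain ⟨a, b, c, hab, hac, hbc, rfl⟩ := Finset.card_eq_three.1 (hT.cardC S hS)
    rw [Finset.sum_insert (by simp [hab, hac]), Finset.sum_insert (by simp [hbc]),
      Finset.sum_singleton]
    have h3 := hT.setC a b c hab hbc hac hS
    funext d
    obtain ⟨_ | u, k | ⟨i, k⟩ | j | _ | _⟩ := d <;> simp only [vec, vY, Pi.add_apply, Pi.zero_apply,
      add_zero]
    · have := congrFun h3 (.k k)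
      simp only [lc, Pi.add_apply, Pi.zero_apply] at this
      rw [← this]; ring
    · have := congrFun h3 (.q i k)
      simp only [lc, Pi.add_apply, Pi.zero_apply] at this
      rw [← this]; ring
    · have := congrFun h3 (.b j)
      simp only [lc, Pi.add_apply, Pi.zero_apply] at this
      rw [← this]; ring
  | arc v i w h =>
    rw [Finset.sum_insert (by simp), Finset.sum_insert (by simp), Finset.sum_singleton]
    simp only [vec, h]
    ring
  | ann v i w h x =>
    rw [Finset.sum_insert (by simp), Finset.sum_insert (by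
      simp only [Finset.mem_singleton, Crd.c.injEq, not_and]
      intro _ e
      exact hT.κ_q_disj x i x e), Finset.sum_singleton]
    have e1 : T.vec out (Crd.z v G.f) = T.df v := T.vZ_f hT v
    have e2 : T.vec out (Crd.c w (G.κ x)) = T.dk w x := by
      show T.vC out w (G.κ x) = _
      rw [← Phi_c, hT.κ_vec x, T.Phi_k out w x]
    have e3 : T.vec out (Crd.c v (G.q i x)) = -T.dk w x - T.df v := by
      show T.vC out v (G.q i x) = _
      rw [← Phi_c, hT.q_vec i x, Phi_sub, T.Phi_q out v w i h, T.Phi_f out v]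
    rw [e1, e2, e3]
    ring
  | fix v x =>
    rw [Finset.sum_insert (by simp), Finset.sum_insert (by simp), Finset.sum_singleton]
    simp only [vec]
    ring

theorem Good.vec_line (hT : T.Good)
    (out : V → Fin 2 → Option V) (h1 : ∀ v i, out v i ≠ some v)
    (h2 : ∀ v w, ¬ (out v 0 = some w ∧ out v 1 = some w)) (x y z : Crd G V)
    (hx : Ok out x) (hy : Ok out y) (hz : Ok out z) (hxy : x ≠ y) (hyz : y ≠ z) (hxz : x ≠ z) :
    T.vec out x + T.vec out y + T.vec out z = 0 ↔ IsS G out {x, y, z} := by
  constructor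
  · exact vec_line_fwd hT h1 h2 x y z hx hy hz hxy hyz hxz
  · intro hS
    have := isS_sum hT _ hS
    rw [Finset.sum_insert (by simp [hxy, hxz]), Finset.sum_insert (by simp [hyz]),
      Finset.sum_singleton] at this
    rw [← this]
    ring

/-! ### Injectivity -/

theorem loc_vec_inj (hT : T.Good) (h1 : ∀ v i, out v i ≠ some v)
    (h2 : ∀ v w, ¬ (out v 0 = some w ∧ out v 1 = some w)) (v w : V) (g h : Lc G)
    (hg : Ok out (loc v g)) (hh : Ok out (loc w h))
    (e : T.Phi out v (T.lv g) = T.Phi out w (T.lv h)) : loc v g = loc w h := by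
  by_cases hvw : v = w
  · subst hvw
    have h3 : T.Phi out v (T.lv g - T.lv h) = 0 := by
      rw [Phi_sub, e, sub_self]
    have h4 := T.Phi_inj out h1 h2 v _ h3 (fun i hi => by
      simp [T.lv_w_missing out v g hg i hi, T.lv_w_missing out v h hh i hi])
    rw [hT.inj g h (sub_eq_zero.1 h4)]
  · exfalso
    have hl1 : ¬ T.Heavy g := by
      rintro ⟨j, hj⟩
      have := congrFun e (some v, .b j)
      rw [Phi_own_b, Phi_other_b w v hvw] at this
      exact hj this
    have hl2 : ¬ T.Heavy h := by
      rintro ⟨j, hj⟩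
      have := congrFun e (some w, .b j)
      rw [Phi_own_b, Phi_other_b v w (Ne.symm hvw)] at this
      exact hj this.symm
    have hf1 : T.lv g .f = 0 := by
      have := congrFun e (some v, .f)
      rw [light_f hT hl1, light_f hT hl2, if_pos rfl, if_neg hvw] at this
      exact this
    have hf2 : T.lv h .f = 0 := by
      have := congrFun e (some w, .f)
      rw [light_f hT hl1, light_f hT hl2, if_pos rfl, if_neg (Ne.symm hvw)] at this
      exact this.symm
    obtain ⟨_, x, hx⟩ := light_k hT hl1 hf1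
    obtain ⟨hq2, _⟩ := light_k hT hl2 hf2
    have := congrFun e (some v, .k x)
    rw [Phi_k_own h1, Phi_k_other w v hvw _ hq2] at this
    exact hx this

theorem Good.vec_inj (hT : T.Good)
    (out : V → Fin 2 → Option V) (h1 : ∀ v i, out v i ≠ some v)
    (h2 : ∀ v w, ¬ (out v 0 = some w ∧ out v 1 = some w)) (x y : Crd G V)
    (hx : Ok out x) (hy : Ok out y) (h : T.vec out x = T.vec out y) : x = y := by
  have yy : ∀ (a : Fin G.nC) (t : Crd G V), Ok out t → 1 ≤ rk t →
      T.vec out (Crd.y (G := G) (V := V) a) ≠ T.vec out t := by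
    intro a t ht hr e
    obtain ⟨u, c, huc⟩ := vec_some hT h1 h2 t ht hr
    have := congrFun e (some u, c)
    simp only [vec, T.vY_some] at this
    exact huc this.symm
  have zl : ∀ (v : V) (b : Fin G.nZ) (hb : b ≠ G.f) (w : V) (g : Lc G), Ok out (loc w g) →
      T.vec out (Crd.z v b) ≠ T.vec out (loc w g) := by
    intro v b hb w g hg e
    obtain ⟨j, hj⟩ := hT.zh_ne hb
    have := congrFun e (some v, .h j)
    rw [vec_loc_h hT w g hg] at this
    simp only [vec, vZ, if_true] at this
    exact hj this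
  rcases cases3 x with ⟨a, rfl⟩ | ⟨v, b, hb, rfl⟩ | ⟨v, g, rfl⟩
  · rcases cases3 y with ⟨a', rfl⟩ | ⟨v', b', hb', rfl⟩ | ⟨v', g', rfl⟩
    · have h3 := congrArg T.R h
      simp only [vec] at h3
      rw [R_vY, R_vY] at h3
      have h4 := hT.inj (.c a) (.c a') h3
      simp only [Lc.c.injEq] at h4
      rw [h4]
    · exact absurd h (yy a _ hy (by rw [rk_z v' hb']))
    · exact absurd h (yy a _ hy (by rw [rk_loc]; omega))
  · rcases cases3 y with ⟨a', rfl⟩ | ⟨v', b', hb', rfl⟩ | ⟨v', g', rfl⟩
    · exact absurd h.symm (yy a' _ hx (by rw [rk_z v hb]))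
    · obtain ⟨j, hj⟩ := hT.zh_ne hb
      have hv : v = v' := by
        by_contra hne
        have := congrFun h (some v, .h j)
        simp only [vec, vZ, if_true, if_neg hne] at this
        exact hj this
      subst hv
      have h3 : T.zf b = T.zf b' := by
        have := congrFun h (some v, .f)
        simpa [vec, vZ] using this
      have h4 : T.zh b = T.zh b' := by
        funext j
        have := congrFun h (some v, .h j)
        simpa [vec, vZ] using this
      rw [hT.z_inj b b' h3 h4]
    · exact absurd h (zl v b hb v' g' hy)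
  · rcases cases3 y with ⟨a', rfl⟩ | ⟨v', b', hb', rfl⟩ | ⟨v', g', rfl⟩
    · exact absurd h.symm (yy a' _ hx (by rw [rk_loc]; omega))
    · exact absurd h.symm (zl v' b' hb' v g hx)
    · rw [T.vec_loc out hT v g hx, T.vec_loc out hT v' g' hy] at h
      exact loc_vec_inj hT h1 h2 v v' g g' hx hy h

end VTab

end Pool.Agent.SetPS
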