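import Pool.Agent.SetPS.StrDefs

/-!
# From the big hypergraph to the game of SET
-/

namespace Pool.Agent.SetPS

theorem firstWins_image {X : Type} [DecidableEq X] (E : Finset X → Prop) {n : ℕ}
    (vec : X → Card n) (P : Finset X) (hinj : Set.InjOn vec (P : Set X))
    (hE : ∀ x ∈ P, ∀ y ∈ P, ∀ z ∈ P, x ≠ y → y ≠ z → x ≠ z →
      (IsSet (vec x) (vec y) (vec z) ↔ E {x, y, z}))
    (h3 : ∀ S, E S → S ⊆ P → S.card = 3) :
    FirstWins (P.image vec) ↔ Wins E P := by
  induction hc : P.card using Nat.strong_induction_on generalizing P with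
  | _ c ih =>
    subst hc
    have step : ∀ x ∈ P, ∀ y ∈ P, ∀ z ∈ P,
        (FirstWins (P.image vec \ {vec x, vec y, vec z}) ↔ Wins E (P \ {x, y, z})) := by
      intro x hx y hy z hz
      have hsub : ({x, y, z} : Finset X) ⊆ P := by
        intro t ht
        simp only [Finset.mem_insert, Finset.mem_singleton] at ht
        rcases ht with rfl | rfl | rfl <;> assumption
      have h1 : (P \ {x, y, z}).image vec = P.image vec \ {vec x, vec y, vec z} := by
        rw [Finset.image_sdiff_of_injOn hinj hsub]
        simp
      rw [← h1]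
      refine ih _ ?_ _ ?_ ?_ ?_ rfl
      · apply Finset.card_lt_card
        rw [Finset.ssubset_iff_subset_ne]
        refine ⟨Finset.sdiff_subset, fun h => ?_⟩
        have h2 : x ∈ P \ {x, y, z} := by rw [h]; exact hx
        simp at h2
      · exact hinj.mono (by simp)
      · intro a ha b hb d hd
        exact hE a (Finset.sdiff_subset ha) b (Finset.sdiff_subset hb) d (Finset.sdiff_subset hd)
      · intro S hS hSP
        exact h3 S hS (hSP.trans Finset.sdiff_subset)
    rw [FirstWins, Wins]
    constructor
    · rintro ⟨a, b, c, ha, hb, hc, hs, hw⟩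
      obtain ⟨x, hx, rfl⟩ := Finset.mem_image.1 ha
      obtain ⟨y, hy, rfl⟩ := Finset.mem_image.1 hb
      obtain ⟨z, hz, rfl⟩ := Finset.mem_image.1 hc
      have n1 : x ≠ y := fun h => hs.1 (by rw [h])
      have n2 : y ≠ z := fun h => hs.2.1 (by rw [h])
      have n3 : x ≠ z := fun h => hs.2.2.1 (by rw [h])
      refine ⟨{x, y, z}, (hE x hx y hy z hz n1 n2 n3).1 hs, ?_, ⟨x, by simp⟩, ?_⟩
      · intro t ht
        simp only [Finset.mem_insert, Finset.mem_singleton] at ht
        rcases ht with rfl | rfl | rfl <;> assumption
      · rw [← step x hx y hy z hz]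
        exact hw
    · rintro ⟨S, hS, hSP, -, hw⟩
      obtain ⟨x, y, z, n1, n3, n2, rfl⟩ := Finset.card_eq_three.1 (h3 S hS hSP)
      have hx : x ∈ P := hSP (by simp)
      have hy : y ∈ P := hSP (by simp)
      have hz : z ∈ P := hSP (by simp)
      refine ⟨vec x, vec y, vec z, Finset.mem_image_of_mem _ hx, Finset.mem_image_of_mem _ hy,
        Finset.mem_image_of_mem _ hz, (hE x hx y hy z hz n1 n2 n3).2 hS, ?_⟩
      rw [step x hx y hy z hz]
      exact hw

theorem replicate_inj {n m : ℕ} {s t : List Sy}
    (h : List.replicate n (some 0) ++ none :: s = List.replicate m (some 0) ++ none :: t) :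
    n = m ∧ s = t := by
  induction n generalizing m with
  | zero =>
    cases m with
    | zero => simpa using h
    | succ m => simp [List.replicate_succ] at h
  | succ n ih =>
    cases m with
    | zero => simp [List.replicate_succ] at h
    | succ m =>
      simp only [List.replicate_succ, List.cons_append, List.cons.injEq, true_and] at h
      obtain ⟨h1, h2⟩ := ih h
      exact ⟨by omega, h2⟩

/-- The input string determines the input. -/
theorem encodeInput_inj {n m : ℕ} {l : List (Card n)} {l' : List (Card m)}
    (h : encodeInput n l = encodeInput m l') : ∃ e : n = m, e ▸ l = l' := by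
  obtain ⟨h1, h2⟩ := replicate_inj h
  subst h1
  refine ⟨rfl, ?_⟩
  clear h
  show l = l'
  induction l generalizing l' with
  | nil =>
    cases l' with
    | nil => rfl
    | cons c l' => simp at h2
  | cons c l ih =>
    cases l' with
    | nil => simp at h2
    | cons c' l' =>
      simp only [List.flatMap_cons] at h2
      obtain ⟨h3, h4⟩ := List.append_inj h2 (by simp)
      have h5 : List.ofFn c = List.ofFn c' := by
        have h6 := List.append_cancel_right h3
        exact (List.map_injective_iff.2 (Option.some_injective _)) h6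
      rw [List.ofFn_injective h5, ih h4]

theorem mem_SET {n : ℕ} (l : List (Card n)) (hl : l.Nodup) :
    encodeInput n l ∈ SET ↔ FirstWins l.toFinset := by
  constructor
  · rintro ⟨m, l', -, h, hw⟩
    obtain ⟨e, h1⟩ := encodeInput_inj h
    subst e
    have h2 : l = l' := h1
    rw [h2]
    exact hw
  · intro h
    exact ⟨n, l, hl, rfl, h⟩

end Pool.Agent.SetPS
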