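import Pool.Agent.SetPS.Embed
import Pool.Agent.SetPS.Core
import Pool.Agent.SetPS.Transfer
import Pool.Agent.SetPS.StrPoly

/-!
# From geography to SET
-/

set_option linter.unusedSectionVars false

namespace Pool.Agent.SetPS

open Pool.Agent.PT81 Pool.Agent.IsoImp Polynomial

namespace GS

/-- Local names of cards. -/
inductive LN (G : Gad) : Type
  | c (a : Fin G.nC)
  | z (b : Fin G.nZ)
  | arc (i : Fin 2)
  | fix (x : Fin 4)
  | y (a : Fin G.nC)
  deriving DecidableEq

variable {G : Gad} (T : VTab G)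

/-- An auxiliary injection. -/
def LN.f : LN G → Fin G.nC ⊕ Fin G.nZ ⊕ Fin 2 ⊕ Fin 4 ⊕ Fin G.nC
  | .c a => .inl a
  | .z b => .inr (.inl b)
  | .arc i => .inr (.inr (.inl i))
  | .fix x => .inr (.inr (.inr (.inl x)))
  | .y a => .inr (.inr (.inr (.inr a)))

noncomputable instance : Fintype (LN G) :=
  Fintype.ofInjective LN.f (by intro a b h; cases a <;> cases b <;> simp_all [LN.f])

/-- An auxiliary injection. -/
def cof {rb rz : ℕ} : Co rb rz → Fin 4 ⊕ (Fin 2 × Fin 4) ⊕ Fin rb ⊕ Unit ⊕ Fin rz
  | .k x => .inl x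
  | .q i x => .inr (.inl (i, x))
  | .b j => .inr (.inr (.inl j))
  | .f => .inr (.inr (.inr (.inl ())))
  | .h j => .inr (.inr (.inr (.inr j)))

noncomputable instance {rb rz : ℕ} : Fintype (Co rb rz) :=
  Fintype.ofInjective cof (by intro a b h; cases a <;> cases b <;> simp_all [cof])

/-- An auxiliary injection. -/
def crf {V : Type} : Crd G V → (V × Fin G.nC) ⊕ (V × Fin G.nZ) ⊕ (V × Fin 2) ⊕ (V × Fin 4) ⊕ Fin G.nC
  | .c v a => .inl (v, a)
  | .z v b => .inr (.inl (v, b))
  | .arc v i => .inr (.inr (.inl (v, i)))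
  | .fix v x => .inr (.inr (.inr (.inl (v, x))))
  | .y a => .inr (.inr (.inr (.inr a)))

noncomputable instance {V : Type} [Fintype V] : Fintype (Crd G V) :=
  Fintype.ofInjective crf (by intro a b h; cases a <;> cases b <;> simp_all [crf])

/-- Digits of the cards of `C`. -/
def dC (a : Fin G.nC) (s o0 o1 m0 m1 : Bool) : Co T.rb T.rz → ZMod 3
  | .k x => (if s then T.tk a x else 0) -
      ((if o0 then T.tq a 0 x else 0) + (if o1 then T.tq a 1 x else 0))
  | .q i x => if s && (if i = 0 then m0 else m1) then T.tq a i x else 0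
  | .b j => if s then T.tb a j else 0
  | .f => if s then -∑ i, ∑ x, T.tq a i x else 0
  | .h _ => 0

/-- Digits of the cards of `Z`. -/
def dZ (b : Fin G.nZ) (s : Bool) : Co T.rb T.rz → ZMod 3
  | .f => if s then T.zf b else 0
  | .h j => if s then T.zh b j else 0
  | _ => 0

/-- Digits of the cards of the additional block. -/
def dY (a : Fin G.nC) (s : Bool) : Co T.rb T.rz → ZMod 3
  | .k x => if s then T.tk a x else 0
  | .q i x => if s then T.tq a i x else 0
  | .b j => if s then T.tb a j else 0
  | _ => 0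

/-- Digits of all cards. -/
def dd (s o0 o1 m0 m1 : Bool) (c : Co T.rb T.rz) : LN G → ZMod 3
  | .c a => dC T a s o0 o1 m0 m1 c
  | .z b => dZ T b s c
  | .arc i => -dC T G.c s o0 o1 m0 m1 c - dZ T G.f (if i = 0 then o0 else o1) c
  | .fix x => -dC T (G.φ x) s o0 o1 m0 m1 c - dZ T G.f s c
  | .y a => dY T a s c

/-- The card belongs to the additional block. -/
def isY : LN G → Bool
  | .y _ => true
  | _ => false

/-- The table of the reduction. -/
noncomputable def tab : Tab where
  T := LN G
  D := Fintype.card (Co T.rb T.rz)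
  dg n k s o0 o1 m0 m1 := dd T s o0 o1 m0 m1 ((Fintype.equivFin (Co T.rb T.rz)).symm k) n
  keep n s m0 m1 := match n with
    | .z b => !(s && decide (b = G.f))
    | .arc i => if i = 0 then !m0 else !m1
    | _ => true
  tags := (Finset.univ.filter fun n : LN G => isY n = false).toList
  ytags := (Finset.univ.filter fun n : LN G => isY n = true).toList

noncomputable instance : Fintype (tab T).T := inferInstanceAs (Fintype (LN G))

variable {T} (I : GI)

/-- The name of a card. -/
def nm : Crd G (Fin I.length) → ℕ × LN G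
  | .c v a => (v, .c a)
  | .z v b => (v, .z b)
  | .arc v i => (v, .arc i)
  | .fix v x => (v, .fix x)
  | .y a => (I.length, .y a)

theorem nm_inj : Function.Injective (nm I : Crd G (Fin I.length) → ℕ × LN G) := by
  intro x y h
  cases x <;> cases y <;> simp_all [nm, Fin.ext_iff]

/-- The block with a given number. -/
def blk (u : ℕ) : Option (Fin I.length) := if h : u < I.length then some ⟨u, h⟩ else none

theorem arc_flag (v : Fin I.length) (i : Fin 2) (u : ℕ) :
    ((Tab.arcOf I v i == some u) = true) ↔ ∃ h : u < I.length, I.out v i = some ⟨u, h⟩ := by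
  rw [Tab.arcOf_eq, beq_iff_eq, Option.map_eq_some_iff]
  constructor
  · rintro ⟨w, h1, rfl⟩
    exact ⟨w.2, h1⟩
  · rintro ⟨h, h1⟩
    exact ⟨_, h1, rfl⟩

theorem miss_flag (v : Fin I.length) (i : Fin 2) :
    ((Tab.arcOf I v i).isNone = true) ↔ I.out v i = none := by
  rw [Tab.arcOf_eq]
  simp

theorem vC_eq (v : Fin I.length) (a : Fin G.nC) (u : ℕ) (c : Co T.rb T.rz) :
    T.vC I.out v a (blk I u, c) = dC T a (u == v) (Tab.arcOf I v 0 == some u)
      (Tab.arcOf I v 1 == some u) (Tab.arcOf I v 0).isNone (Tab.arcOf I v 1).isNone c := by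
  by_cases hu : u < I.length
  · have hb : blk I u = some ⟨u, hu⟩ := by simp [blk, hu]
    have hs : ((u == (v : ℕ)) = true) ↔ (⟨u, hu⟩ : Fin I.length) = v := by
      rw [beq_iff_eq, Fin.ext_iff]
    have ho : ∀ i, ((Tab.arcOf I v i == some u) = true) ↔ I.out v i = some ⟨u, hu⟩ := by
      intro i
      rw [arc_flag]
      exact ⟨fun ⟨_, h⟩ => h, fun h => ⟨hu, h⟩⟩
    rw [hb]
    cases c with
    | k x =>
      simp only [VTab.vC, dC, Fin.sum_univ_two, hs, ho]
    | q i x =>
      simp only [VTab.vC, dC, Bool.and_eq_true, hs]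
      congr 1
      apply propext
      apply and_congr_right
      intro _
      by_cases hi : i = 0
      · subst hi
        simp only [if_true]
        exact (miss_flag I v 0).symm
      · have : i = 1 := by omega
        subst this
        simp only [hi, if_false]
        exact (miss_flag I v 1).symm
    | b j => simp only [VTab.vC, dC, hs]
    | f => simp only [VTab.vC, dC, hs]
    | h j => rfl
  · have hb : blk I u = none := by simp [blk, hu]
    have hs : (u == (v : ℕ)) = false := by
      rw [beq_eq_false_iff_ne]; omega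
    have ho : ∀ i, (Tab.arcOf I v i == some u) = false := by
      intro i
      rw [Bool.eq_false_iff]
      intro h
      obtain ⟨h1, -⟩ := (arc_flag I v i u).1 h
      exact hu h1
    rw [hb, hs, ho, ho]
    cases c <;> simp [VTab.vC, dC]

theorem vZ_eq (v : Fin I.length) (b : Fin G.nZ) (u : ℕ) (s : Bool) (hs : s = true ↔ u = v)
    (c : Co T.rb T.rz) : T.vZ v b (blk I u, c) = dZ T b s c := by
  by_cases hu : u < I.length
  · have hb : blk I u = some ⟨u, hu⟩ := by simp [blk, hu]
    have hs : s = true ↔ (⟨u, hu⟩ : Fin I.length) = v := by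
      rw [hs, Fin.ext_iff]
    rw [hb]
    cases c <;> simp only [VTab.vZ, dZ, hs]
  · have hb : blk I u = none := by simp [blk, hu]
    have hs : s = false := by
      rw [Bool.eq_false_iff]
      intro h
      have := hs.1 h
      omega
    rw [hb, hs]
    cases c <;> simp [VTab.vZ, dZ]

theorem digit_eq (x : Crd G (Fin I.length)) (hx : Ok I.out x) (u : ℕ) (hu : u ≤ I.length)
    (k : Fin (tab T).D) :
    (tab T).digit I (nm I x) u k = T.vec I.out x (blk I u, (Fintype.equivFin (Co T.rb T.rz)).symm k) := by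
  generalize hc : (Fintype.equivFin (Co T.rb T.rz)).symm k = c
  have hd : (tab T).digit I (nm I x) u k = dd T (u == (nm I x).1)
      (Tab.arcOf I (nm I x).1 0 == some u) (Tab.arcOf I (nm I x).1 1 == some u)
      (Tab.arcOf I (nm I x).1 0).isNone (Tab.arcOf I (nm I x).1 1).isNone c (nm I x).2 := by
    rw [← hc]; rfl
  rw [hd]
  cases x with
  | c v a => exact (vC_eq I v a u c).symm
  | z v b => exact (vZ_eq I v b u _ (by rw [beq_iff_eq]; rfl) c).symm
  | arc v i =>
    have hx' : I.out v i ≠ none := hx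
    obtain ⟨w, hw⟩ := Option.ne_none_iff_exists'.1 hx'
    have h1 : T.vec I.out (.arc v i) (blk I u, c) =
        -T.vC I.out v G.c (blk I u, c) - T.vZ w G.f (blk I u, c) := by
      simp only [VTab.vec, hw]
      rfl
    rw [h1, vC_eq I v G.c u c]
    have h2 : ∀ i', i' = i → ((Tab.arcOf I v i' == some u) = true ↔ u = w) := by
      intro i' hi'
      rw [hi', arc_flag, hw]
      constructor
      · rintro ⟨h3, h4⟩
        have := Option.some.inj h4
        rw [this]
      · intro h3
        subst h3
        exact ⟨w.2, rfl⟩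
    have h3 := vZ_eq (T := T) I w G.f u
      (if i = 0 then Tab.arcOf I v 0 == some u else Tab.arcOf I v 1 == some u) (by
        by_cases hi : i = 0
        · rw [if_pos hi]; exact h2 0 hi.symm
        · rw [if_neg hi]; exact h2 1 (by omega)) c
    rw [h3]
    rfl
  | fix v x =>
    have h1 : T.vec I.out (.fix v x) (blk I u, c) =
        -T.vC I.out v (G.φ x) (blk I u, c) - T.vZ v G.f (blk I u, c) := rfl
    rw [h1, vC_eq I v _ u c, vZ_eq I v G.f u (u == (v : ℕ)) (by rw [beq_iff_eq]) c]
    rfl
  | y a =>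
    have h1 : T.vec I.out (.y a) (blk I u, c) = T.vY (Fin I.length) a (blk I u, c) := rfl
    rw [h1]
    by_cases hu' : u < I.length
    · have hb : blk I u = some ⟨u, hu'⟩ := by simp [blk, hu']
      have hs : (u == I.length) = false := by rw [beq_eq_false_iff_ne]; omega
      rw [hb]
      show dY T a (u == I.length) c = _
      rw [hs]
      cases c <;> simp [VTab.vY, dY]
    · have hb : blk I u = none := by simp [blk, hu']
      have hs : (u == I.length) = true := by rw [beq_iff_eq]; omega
      rw [hb]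
      show dY T a (u == I.length) c = _
      rw [hs]
      cases c <;> simp [VTab.vY, dY]

/-! ### The cards as vectors -/

/-- The card with the given name. -/
noncomputable def vv (T : VTab G) (x : Crd G (Fin I.length)) : Card ((tab T).dim I) :=
  (tab T).vecOf I (nm I x)

theorem D_pos (i : Fin ((tab T).dim I)) : 0 < (tab T).D := by
  rcases Nat.eq_zero_or_pos (tab T).D with h | h
  · have h1 : (i : ℕ) < (I.length + 1) * (tab T).D := i.2
    rw [h] at h1
    omega
  · exact h

/-- The coordinate with a given number. -/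
noncomputable def pt (T : VTab G) (i : Fin ((tab T).dim I)) :
    Option (Fin I.length) × Co T.rb T.rz :=
  (blk I (i / (tab T).D), (Fintype.equivFin (Co T.rb T.rz)).symm
    (⟨i % (tab T).D, Nat.mod_lt _ (D_pos I i)⟩ : Fin (tab T).D))

theorem vv_apply (x : Crd G (Fin I.length)) (hx : Ok I.out x) (i : Fin ((tab T).dim I)) :
    vv I T x i = T.vec I.out x (pt I T i) := by
  have h1 : (i : ℕ) < (I.length + 1) * (tab T).D := i.2
  have h2 : (i : ℕ) / (tab T).D ≤ I.length :=
    Nat.lt_succ_iff.1 ((Nat.div_lt_iff_lt_mul (D_pos I i)).2 h1)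
  have h3 : (i : ℕ) / (tab T).D * (tab T).D + i % (tab T).D = i := Nat.div_add_mod' _ _
  have h4 := (tab T).vecOf_apply I (nm I x) (i / (tab T).D) h2
    ⟨i % (tab T).D, Nat.mod_lt _ (D_pos I i)⟩ (by simp only [h3]; exact i.2)
  have h5 : (⟨(i : ℕ) / (tab T).D * (tab T).D + i % (tab T).D, by simp only [h3]; exact i.2⟩ :
      Fin ((tab T).dim I)) = i := Fin.ext h3
  simp only [h5] at h4
  have h6 := digit_eq I x hx _ h2 ⟨i % (tab T).D, Nat.mod_lt _ (D_pos I i)⟩
  exact h4.trans h6

theorem pt_surj (p : Option (Fin I.length) × Co T.rb T.rz) : ∃ i, pt I T i = p := by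
  obtain ⟨o, c⟩ := p
  have key : ∀ (u : ℕ), u ≤ I.length → ∃ i, pt I T i = (blk I u, c) := by
    intro u hu
    have hk : (((Fintype.equivFin (Co T.rb T.rz)) c : Fin _) : ℕ) < (tab T).D :=
      ((Fintype.equivFin (Co T.rb T.rz)) c).2
    have hD : 0 < (tab T).D := by omega
    refine ⟨⟨u * (tab T).D + (Fintype.equivFin (Co T.rb T.rz)) c, ?_⟩, ?_⟩
    · show _ < (I.length + 1) * (tab T).D
      calc u * (tab T).D + (Fintype.equivFin (Co T.rb T.rz)) c
          < u * (tab T).D + (tab T).D := by omega
        _ = (u + 1) * (tab T).D := by ring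
        _ ≤ (I.length + 1) * (tab T).D := Nat.mul_le_mul_right _ (by omega)
    · have h1 : (u * (tab T).D + (Fintype.equivFin (Co T.rb T.rz)) c) / (tab T).D = u := by
        rw [Nat.add_comm, Nat.add_mul_div_right _ _ hD, Nat.div_eq_of_lt hk, Nat.zero_add]
      have h2 : (u * (tab T).D + (Fintype.equivFin (Co T.rb T.rz)) c) % (tab T).D =
          (Fintype.equivFin (Co T.rb T.rz)) c := by
        rw [Nat.add_comm, Nat.add_mul_mod_self_right, Nat.mod_eq_of_lt hk]
      unfold pt
      simp only [h1]
      congr 1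
      exact (Equiv.symm_apply_eq _).2 (Fin.ext h2)
  cases o with
  | none =>
    obtain ⟨i, hi⟩ := key I.length le_rfl
    exact ⟨i, by rw [hi]; simp [blk]⟩
  | some w =>
    obtain ⟨i, hi⟩ := key w w.2.le
    exact ⟨i, by rw [hi]; simp [blk]⟩

theorem set_iff {n : ℕ} (a b c : Card n) (h1 : a ≠ b) (h2 : b ≠ c) (h3 : a ≠ c) :
    IsSet a b c ↔ ∀ i, (a i : ZMod 3) + (b i : ZMod 3) + (c i : ZMod 3) = (0 : ZMod 3) := by
  have key : ∀ x y z : Fin 3, ((x = y ∧ y = z) ∨ (x ≠ y ∧ y ≠ z ∧ x ≠ z)) ↔
      (x : ZMod 3) + (y : ZMod 3) + (z : ZMod 3) = (0 : ZMod 3) := by decide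
  unfold IsSet
  constructor
  · rintro ⟨-, -, -, h⟩ i
    exact (key _ _ _).1 (h i)
  · intro h
    exact ⟨h1, h2, h3, fun i => (key _ _ _).2 (h i)⟩

variable (hT : T.Good) (h1 : ∀ v i, I.out v i ≠ some v)
  (h2 : ∀ v w, ¬ (I.out v 0 = some w ∧ I.out v 1 = some w))

include hT h1 h2 in
theorem vv_inj (x y : Crd G (Fin I.length)) (hx : Ok I.out x) (hy : Ok I.out y)
    (h : vv I T x = vv I T y) : x = y := by
  apply hT.vec_inj I.out h1 h2 x y hx hy
  funext p
  obtain ⟨i, rfl⟩ := pt_surj (T := T) I p
  rw [← vv_apply I x hx i, ← vv_apply I y hy i, h]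

include hT h1 h2 in
theorem vv_set (x y z : Crd G (Fin I.length)) (hx : Ok I.out x) (hy : Ok I.out y)
    (hz : Ok I.out z) (hxy : x ≠ y) (hyz : y ≠ z) (hxz : x ≠ z) :
    IsSet (vv I T x) (vv I T y) (vv I T z) ↔ IsS G I.out {x, y, z} := by
  rw [← hT.vec_line I.out h1 h2 x y z hx hy hz hxy hyz hxz]
  rw [set_iff _ _ _ (fun h => hxy (vv_inj I hT h1 h2 x y hx hy h))
    (fun h => hyz (vv_inj I hT h1 h2 y z hy hz h)) (fun h => hxz (vv_inj I hT h1 h2 x z hx hz h))]
  constructor
  · intro h
    funext p
    obtain ⟨i, rfl⟩ := pt_surj (T := T) I p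
    have h3 := h i
    rw [vv_apply I x hx i, vv_apply I y hy i, vv_apply I z hz i] at h3
    exact h3
  · intro h i
    rw [vv_apply I x hx i, vv_apply I y hy i, vv_apply I z hz i]
    exact congrFun h _

theorem isS_card (hG : G.Good) {V : Type} [DecidableEq V] (out : V → Fin 2 → Option V)
    (S : Finset (Crd G V)) (hS : IsS G out S) : S.card = 3 := by
  cases hS with
  | c v S h =>
    rw [Finset.card_image_of_injective _ (fun a b h => by cases h; rfl)]
    exact hG.cardC S h
  | z v S h =>
    rw [Finset.card_image_of_injective _ (fun a b h => by cases h; rfl)]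
    exact hG.cardZ S h
  | y S h =>
    rw [Finset.card_image_of_injective _ (fun a b h => by cases h; rfl)]
    exact hG.cardC S h
  | arc v i w h =>
    rw [Finset.card_eq_three]
    exact ⟨_, _, _, by simp, by simp, by simp, rfl⟩
  | ann v i w h x =>
    rw [Finset.card_eq_three]
    refine ⟨_, _, _, by simp, by simp, ?_, rfl⟩
    intro e
    injection e with e1 e2
    exact hG.κ_ne_q _ _ _ e2
  | fix v x =>
    rw [Finset.card_eq_three]
    exact ⟨_, _, _, by simp, by simp, by simp, rfl⟩

/-! ### The list of cards -/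

theorem mem_tags (n : LN G) (b : Bool) :
    (n ∈ (Finset.univ.filter fun n : LN G => isY n = b).toList) ↔ isY n = b := by
  rw [Finset.mem_toList, Finset.mem_filter]
  simp

theorem mem_cardList (h0 : 0 < I.length) (p : ℕ × (tab T).T) :
    p ∈ (tab T).cardList I ↔ ∃ x : Crd G (Fin I.length), InStart G I.out ⟨0, h0⟩ x ∧ nm I x = p := by
  unfold Tab.cardList
  rw [List.mem_append, List.mem_flatMap, List.mem_map]
  constructor
  · rintro (⟨v, hv, hp⟩ | ⟨n, hn, rfl⟩)
    · obtain ⟨n, hn, rfl⟩ := List.mem_map.1 hp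
      rw [List.mem_filter] at hn
      obtain ⟨hn1, hn2⟩ := hn
      have hv' : v < I.length := List.mem_range.1 hv
      have hn3 : isY n = false := (mem_tags n false).1 hn1
      cases n with
      | c a => exact ⟨.c ⟨v, hv'⟩ a, trivial, rfl⟩
      | z b =>
        refine ⟨.z ⟨v, hv'⟩ b, ?_, rfl⟩
        have h4 : (!((v == 0) && decide (b = G.f))) = true := hn2
        rintro ⟨h5, h6⟩
        have h7 : v = 0 := congrArg Fin.val h5
        rw [h7, h6] at h4
        simp at h4
      | arc i =>
        refine ⟨.arc ⟨v, hv'⟩ i, ?_, rfl⟩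
        have h4 : (if i = 0 then !(Tab.arcOf I v 0).isNone else !(Tab.arcOf I v 1).isNone) = true :=
          hn2
        intro h5
        have h6 := (miss_flag I ⟨v, hv'⟩ i).2 h5
        by_cases hi : i = 0
        · subst hi
          rw [if_pos rfl] at h4
          have h6' : (Tab.arcOf I v 0).isNone = true := h6
          rw [h6'] at h4
          simp at h4
        · have : i = 1 := by omega
          subst this
          rw [if_neg hi] at h4
          have h6' : (Tab.arcOf I v 1).isNone = true := h6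
          rw [h6'] at h4
          simp at h4
      | fix x => exact ⟨.fix ⟨v, hv'⟩ x, trivial, rfl⟩
      | y a => simp [isY] at hn3
    · have hn3 : isY n = true := (mem_tags n true).1 hn
      cases n with
      | c a => simp [isY] at hn3
      | z b => simp [isY] at hn3
      | arc i => simp [isY] at hn3
      | fix x => simp [isY] at hn3
      | y a => exact ⟨.y a, trivial, rfl⟩
  · rintro ⟨x, hx, rfl⟩
    have hm : ∀ n : LN G, isY n = false → n ∈ (tab T).tags := by
      intro n hn
      exact (mem_tags n false).2 hn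
    cases x with
    | c v a =>
      left
      refine ⟨v, List.mem_range.2 v.2, List.mem_map.2 ⟨.c a, ?_, rfl⟩⟩
      exact List.mem_filter.2 ⟨hm _ rfl, rfl⟩
    | z v b =>
      left
      refine ⟨v, List.mem_range.2 v.2, List.mem_map.2 ⟨.z b, ?_, rfl⟩⟩
      refine List.mem_filter.2 ⟨hm _ rfl, ?_⟩
      show (!(((v : ℕ) == 0) && decide (b = G.f))) = true
      have hx' : ¬ (v = ⟨0, h0⟩ ∧ b = G.f) := hx
      by_cases hv : (v : ℕ) = 0
      · have hb : b ≠ G.f := fun h => hx' ⟨Fin.ext hv, h⟩
        simp [hb]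
      · simp [hv]
    | arc v i =>
      left
      refine ⟨v, List.mem_range.2 v.2, List.mem_map.2 ⟨.arc i, ?_, rfl⟩⟩
      refine List.mem_filter.2 ⟨hm _ rfl, ?_⟩
      show (if i = 0 then !(Tab.arcOf I v 0).isNone else !(Tab.arcOf I v 1).isNone) = true
      have hx' : I.out v i ≠ none := hx
      by_cases hi : i = 0
      · subst hi
        rw [if_pos rfl]
        have h5 : (Tab.arcOf I v 0).isNone = false := by
          rw [Bool.eq_false_iff]
          exact fun h => hx' ((miss_flag I v 0).1 h)
        rw [h5]; rfl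
      · have : i = 1 := by omega
        subst this
        rw [if_neg hi]
        have h5 : (Tab.arcOf I v 1).isNone = false := by
          rw [Bool.eq_false_iff]
          exact fun h => hx' ((miss_flag I v 1).1 h)
        rw [h5]; rfl
    | fix v x =>
      left
      refine ⟨v, List.mem_range.2 v.2, List.mem_map.2 ⟨.fix x, ?_, rfl⟩⟩
      exact List.mem_filter.2 ⟨hm _ rfl, rfl⟩
    | y a =>
      right
      exact ⟨.y a, (mem_tags (.y a) true).2 rfl, rfl⟩

theorem nodup_cardList : ((tab T).cardList I).Nodup := by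
  unfold Tab.cardList
  rw [List.nodup_append]
  refine ⟨?_, ?_, ?_⟩
  · rw [List.nodup_flatMap]
    constructor
    · intro v _
      apply List.Nodup.map
      · intro a b h
        exact (Prod.mk.inj h).2
      · apply List.Nodup.filter
        exact Finset.nodup_toList _
    · refine List.nodup_range.imp ?_
      intro v w hvw p hp hq
      obtain ⟨a, -, rfl⟩ := List.mem_map.1 hp
      obtain ⟨b, -, hb⟩ := List.mem_map.1 hq
      exact hvw (Prod.mk.inj hb).1.symm
  · apply List.Nodup.map
    · intro a b h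
      exact (Prod.mk.inj h).2
    · exact Finset.nodup_toList _
  · intro p hp q hq e
    subst e
    obtain ⟨v, hv, hp⟩ := List.mem_flatMap.1 hp
    obtain ⟨a, -, rfl⟩ := List.mem_map.1 hp
    obtain ⟨b, -, hb⟩ := List.mem_map.1 hq
    have := (Prod.mk.inj hb).1
    have := List.mem_range.1 hv
    omega

end GS

open GS in
/-- Module D3. -/
theorem geo_set {G : Gad} (hG : G.Good) {T : VTab G} (hT : T.Good) :
    ∃ s : GI → List Sy, (∀ (E : Env) [Enc E (Fin 3)], Poly E s) ∧
      ∀ I : GI, I.Valid → ∀ h, (I.Wins h ↔ s I ∈ SET) := by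
  classical
  refine ⟨fun I => (tab T).str I, fun E _ => (tab T).poly_str E, ?_⟩
  intro I hI h0
  have h1 := hI.noloop
  have h2 := hI.nodouble
  set P : Finset (Crd G (Fin I.length)) :=
    Finset.univ.filter fun x => InStart G I.out ⟨0, h0⟩ x with hPdef
  have hP : ∀ x, x ∈ P ↔ InStart G I.out ⟨0, h0⟩ x := by
    intro x
    rw [hPdef, Finset.mem_filter]
    simp
  have hok : ∀ x ∈ P, Ok I.out x := by
    intro x hx
    have h3 := (hP x).1 hx
    cases x with
    | arc v i => exact h3
    | c v a => trivial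
    | z v b => trivial
    | fix v x => trivial
    | y a => trivial
  have hcore := core G hG I.out h1 ⟨0, h0⟩ P hP
  have hinj : Set.InjOn (vv I T) (P : Set (Crd G (Fin I.length))) := by
    intro x hx y hy h
    exact vv_inj I hT h1 h2 x y (hok x hx) (hok y hy) h
  have hfw := firstWins_image (IsS G I.out) (vv I T) P hinj
    (fun x hx y hy z hz hxy hyz hxz => vv_set I hT h1 h2 x y z (hok x hx) (hok y hy) (hok z hz)
      hxy hyz hxz) (fun S hS _ => isS_card hG I.out S hS)
  have hnd : (((tab T).cardList I).map ((tab T).vecOf I)).Nodup := by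
    apply List.Nodup.map_on _ (nodup_cardList I)
    intro p hp q hq h
    obtain ⟨x, hx, rfl⟩ := (mem_cardList I h0 p).1 hp
    obtain ⟨y, hy, rfl⟩ := (mem_cardList I h0 q).1 hq
    rw [hinj ((hP x).2 hx) ((hP y).2 hy) h]
  have himg : (((tab T).cardList I).map ((tab T).vecOf I)).toFinset = P.image (vv I T) := by
    ext c
    rw [List.mem_toFinset, List.mem_map, Finset.mem_image]
    constructor
    · rintro ⟨p, hp, rfl⟩
      obtain ⟨x, hx, rfl⟩ := (mem_cardList I h0 p).1 hp
      exact ⟨x, (hP x).2 hx, rfl⟩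
    · rintro ⟨x, hx, rfl⟩
      exact ⟨nm I x, (mem_cardList I h0 _).2 ⟨x, (hP x).1 hx, rfl⟩, rfl⟩
  show GeoWins I.out (Finset.univ.erase ⟨0, h0⟩) ⟨0, h0⟩ ↔ (tab T).str I ∈ SET
  rw [(tab T).str_eq, mem_SET _ hnd, himg, hfw, hcore]

end Pool.Agent.SetPS
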