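import Pool.Agent.SetPS.VTabChk

/-!
# The vectors satisfy the local conditions
-/

namespace Pool.Agent.SetPS

open Pool.Agent.SetPS.Tbl

namespace VT

theorem wl3 {α : Type} (P : α → α → α → Prop) (rank : α → ℕ)
    (hs1 : ∀ x y z, P x y z → P y x z) (hs2 : ∀ x y z, P x y z → P x z y)
    (h : ∀ x y z, rank x ≤ rank y → rank y ≤ rank z → P x y z) (x y z : α) : P x y z := by
  rcases le_total (rank x) (rank y) with a | a <;> rcases le_total (rank y) (rank z) with b | b <;>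
    rcases le_total (rank x) (rank z) with c | c
  · exact h x y z a b
  · exact h x y z a b
  · exact hs2 _ _ _ (h x z y c b)
  · exact hs2 _ _ _ (hs1 _ _ _ (h z x y c a))
  · exact hs1 _ _ _ (h y x z a c)
  · exact hs1 _ _ _ (hs2 _ _ _ (h y z x b c))
  · exact hs1 _ _ _ (hs2 _ _ _ (hs1 _ _ _ (h z y x b a)))
  · exact hs1 _ _ _ (hs2 _ _ _ (hs1 _ _ _ (h z y x b a)))

theorem blt_true {a b : ℕ} (h : a < b) : Nat.blt a b = true := by
  unfold Nat.blt
  exact Nat.ble_eq_true_of_le h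

theorem beq_false {a b : ℕ} (h : a ≠ b) : Nat.beq a b = false := by
  rw [Bool.eq_false_iff]
  exact fun h' => h (Nat.eq_of_beq_eq_true h')

/-- The Sets of `C`, from their codes. -/
theorem setsC_code : ∀ j : Fin 21, cC j / 4096 < 37 ∧ cC j / 64 % 64 < 37 ∧ cC j % 64 < 37 ∧
    setsC j = {Fin.ofNat 37 (cC j / 4096), Fin.ofNat 37 (cC j / 64 % 64),
      Fin.ofNat 37 (cC j % 64)} := by
  decide +kernel

theorem setsZ_code : ∀ j : Fin 22, cZ j / 4096 < 35 ∧ cZ j / 64 % 64 < 35 ∧ cZ j % 64 < 35 ∧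
    setsZ j = {Fin.ofNat 35 (cZ j / 4096), Fin.ofNat 35 (cZ j / 64 % 64),
      Fin.ofNat 35 (cZ j % 64)} := by
  decide +kernel

theorem cF_code : ∀ x : Fin 4,
    ({cF x / 4096, cF x / 64 % 64, cF x % 64} : Finset ℕ) = {37, (gad.φ x).val, 40 + (x : ℕ)} := by
  decide +kernel

theorem cd_div {i j k : ℕ} (hj : j < 64) (hk : k < 64) :
    cd i j k / 4096 = i ∧ cd i j k / 64 % 64 = j ∧ cd i j k % 64 = k := by
  have h : cd i j k = 4096 * i + 64 * j + k := rfl
  rw [h]
  omega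

theorem line_main (g h l : VTab.Lc gad) (hgh : ix g ≤ ix h) (hhl : ix h ≤ ix l) (n1 : g ≠ h)
    (n2 : h ≠ l) (e : vtab.lv g + vtab.lv h + vtab.lv l = 0) :
    (∃ a b c, g = .c a ∧ h = .c b ∧ l = .c c ∧ {a, b, c} ∈ gad.SC) ∨
    (∃ x, ({g, h, l} : Finset (VTab.Lc gad)) = {.f, .c (gad.φ x), .fix x}) := by
  have k1 : ix g < ix h := lt_of_le_of_ne hgh (fun e => n1 (ix_inj e))
  have k2 : ix h < ix l := lt_of_le_of_ne hhl (fun e => n2 (ix_inj e))
  have h1 := all_iff.1 (all_iff.1 (all_iff.1 line_chk _ (ix_lt g)) _ (ix_lt h)) _ (ix_lt l)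
  unfold lineP at h1
  rw [blt_true k1, blt_true k2] at h1
  have h2 : S3 19 (lo VC (ix g)) (lo VC (ix h)) (lo VC (ix l)) = true := S3_spec e
  rw [h2] at h1
  simp only [Bool.not_true, Bool.false_or] at h1
  rw [mem_iff] at h1
  obtain ⟨d1, d2, d3⟩ := cd_div (i := ix g) (lt_of_lt_of_le (ix_lt h) (by norm_num))
    (lt_of_lt_of_le (ix_lt l) (by norm_num : 44 ≤ 64))
  have h3 : (∃ j, cd (ix g) (ix h) (ix l) = cC j) ∨ ∃ x, cd (ix g) (ix h) (ix l) = cF x := by
    have h4 : ∀ n : ℕ, n ∈ ((List.ofFn cC) ++ (List.ofFn cF)) → (∃ j, n = cC j) ∨ ∃ x, n = cF x := by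
      intro n hn
      rcases List.mem_append.1 hn with h | h
      · obtain ⟨j, hj⟩ := (List.mem_ofFn' _ _).1 h
        exact Or.inl ⟨j, hj.symm⟩
      · obtain ⟨j, hj⟩ := (List.mem_ofFn' _ _).1 h
        exact Or.inr ⟨j, hj.symm⟩
    apply h4
    convert h1 using 1
    decide +kernel
  rcases h3 with ⟨j, hj⟩ | ⟨x, hx⟩
  · left
    obtain ⟨b1, b2, b3, b4⟩ := setsC_code j
    rw [← hj, d1] at b1
    rw [← hj, d2] at b2
    rw [← hj, d3] at b3
    refine ⟨(⟨ix g, b1⟩ : Fin 37), (⟨ix h, b2⟩ : Fin 37), (⟨ix l, b3⟩ : Fin 37), ix_c b1 g rfl,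
      ix_c b2 h rfl, ix_c b3 l rfl, ?_⟩
    rw [← hj, d1, d2, d3] at b4
    have b5 : ∀ (n : ℕ) (hn : n < 37), (Fin.ofNat 37 n) = ⟨n, hn⟩ := by
      intro n hn
      apply Fin.ext
      simp [Fin.ofNat, Nat.mod_eq_of_lt hn]
    rw [b5 _ b1, b5 _ b2, b5 _ b3] at b4
    exact (mem_SC _).2 ⟨j, b4.symm⟩
  · right
    refine ⟨x, ?_⟩
    have b1 := cF_code x
    rw [← hx, d1, d2, d3] at b1
    apply Finset.image_injective (f := ix) (fun _ _ h => ix_inj h)
    simp only [Finset.image_insert, Finset.image_singleton]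
    exact b1

theorem lineZ_main (a b c : Fin 35) (hab : (a : ℕ) < b) (hbc : (b : ℕ) < c)
    (e : S3 13 (lo VZ a) (lo VZ b) (lo VZ c) = true) : {a, b, c} ∈ gad.SZ := by
  have h1 := all_iff.1 (all_iff.1 (all_iff.1 lineZ_chk _ a.2) _ b.2) _ c.2
  unfold lineZ at h1
  rw [blt_true hab, blt_true hbc, e] at h1
  simp only [Bool.not_true, Bool.false_or] at h1
  rw [mem_iff] at h1
  obtain ⟨d1, d2, d3⟩ := cd_div (i := (a : ℕ)) (j := b) (k := c) (by omega) (by omega)
  have h3 : ∃ j, cd a b c = cZ j := by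
    have h4 : ∀ n : ℕ, n ∈ (List.ofFn cZ) → (∃ j, n = cZ j) := by
      intro n h
      obtain ⟨j, hj⟩ := (List.mem_ofFn' _ _).1 h
      exact ⟨j, hj.symm⟩
    apply h4
    convert h1 using 1
    decide +kernel
  obtain ⟨j, hj⟩ := h3
  obtain ⟨b1, b2, b3, b4⟩ := setsZ_code j
  rw [← hj, d1, d2, d3] at b4
  have b5 : ∀ (n : Fin 35), (Fin.ofNat 35 (n : ℕ)) = n := by
    intro n
    apply Fin.ext
    simp [Fin.ofNat, Nat.mod_eq_of_lt n.2]
  rw [b5, b5, b5] at b4
  exact (mem_SZ _).2 ⟨j, b4.symm⟩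

theorem sum3 {n : ℕ} (F : Fin n → ZMod 3) {a b c : Fin n} (hab : a ≠ b) (hbc : b ≠ c)
    (hac : a ≠ c) : F a + F b + F c = ∑ x ∈ ({a, b, c} : Finset (Fin n)), F x := by
  have h1 : a ∉ ({b, c} : Finset (Fin n)) := by
    simp only [Finset.mem_insert, Finset.mem_singleton, not_or]; exact ⟨hab, hac⟩
  have h2 : b ∉ ({c} : Finset (Fin n)) := by
    simp only [Finset.mem_singleton]; exact hbc
  rw [Finset.sum_insert h1, Finset.sum_insert h2, Finset.sum_singleton, add_assoc]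

/-! ### Conditions on single cards -/

theorem κ_vec' : ∀ (x : Fin 4) (c : Fin 19), z3 (dg (lo VC (gad.κ x).val) c) =
    if (c : ℕ) = x then 1 else 0 := by decide +kernel

theorem q_vec' : ∀ (i : Fin 2) (x : Fin 4) (c : Fin 19), z3 (dg (lo VC (gad.q i x).val) c) =
    (if (c : ℕ) = 4 + 4 * i + x then 1 else 0) - if (c : ℕ) = 16 then 1 else 0 := by
  decide +kernel

theorem zh_heavy' : ∀ b : Fin 35, b ≠ 0 → ∃ j : Fin 12, z3 (dg (lo VZ b.val) (1 + j)) ≠ 0 := by
  decide +kernel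

theorem nz_chk : ∀ i : Fin 44, ∃ c : Fin 19, z3 (dg (lo VC i) c) ≠ 0 := by decide +kernel

theorem only_chk : ∀ i : Fin 44, (i : ℕ) ≠ 37 → ∃ c : Fin 19, (c : ℕ) ≠ 16 ∧
    z3 (dg (lo VC i) c) ≠ 0 := by decide +kernel

theorem light_chk : ∀ i : Fin 44, (∃ j : Fin 4, z3 (dg (lo VC i) (12 + j)) ≠ 0) ∨
    z3 (dg (lo VC i) 16) = -1 ∨ (i : ℕ) = 37 ∨ (∃ x : Fin 4, (i : ℕ) = (gad.κ x).val) ∨
    ∃ x y : Fin 4, x ≠ y ∧ ∀ c : Fin 19, z3 (dg (lo VC i) c) =
      -(if (c : ℕ) = x then 1 else 0) - (if (c : ℕ) = y then 1 else 0) := by decide +kernel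

theorem setC_chk : ∀ (j : Fin 21) (c : Fin 19),
    ∑ a ∈ setsC j, z3 (dg (lo VC (a : ℕ)) c) = 0 := by decide +kernel

theorem setZ_chk : ∀ (j : Fin 22) (c : Fin 13),
    ∑ a ∈ setsZ j, z3 (dg (lo VZ (a : ℕ)) c) = 0 := by decide +kernel

theorem sh1_chk : ∀ (t : Fin 8) (c : Fin 19),
    (if (c : ℕ) = 4 + t then (1 : ZMod 3) else 0) = z3 (dg (Nat.shiftLeft 1 (2 * (4 + t))) c) := by
  decide +kernel

theorem sh2_chk : ∀ (t : Fin 2) (x y : Fin 4), x ≠ y → ∀ (c : Fin 19),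
    (-(if (c : ℕ) = 4 + 4 * t + x then (1 : ZMod 3) else 0) -
      if (c : ℕ) = 4 + 4 * t + y then 1 else 0) =
      z3 (dg (Nat.add (Nat.shiftLeft 2 (2 * (4 + 4 * t + x)))
        (Nat.shiftLeft 2 (2 * (4 + 4 * t + y)))) c) := by
  decide +kernel

theorem sh3_chk : ∀ (t : Fin 2) (c : Fin 19),
    (-(if (c : ℕ) = 17 + t then (1 : ZMod 3) else 0)) =
      z3 (dg (Nat.shiftLeft 2 (2 * (17 + t))) c) := by
  decide +kernel

theorem qv_chk : ∀ (i : Fin 2) (x : Fin 4), qv (4 * i + x) = (gad.q i x).val := by decide +kernel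

theorem pair_eq {g h k l : VTab.Lc gad} (e : (ix g = ix k ∧ ix h = ix l) ∨
    (ix g = ix l ∧ ix h = ix k)) : ({g, h} : Finset (VTab.Lc gad)) = {k, l} := by
  rcases e with ⟨e1, e2⟩ | ⟨e1, e2⟩
  · rw [ix_inj e1, ix_inj e2]
  · rw [ix_inj e1, ix_inj e2, Finset.pair_comm]

end VT

open VT

theorem vtab_good : vtab.Good where
  κ_q_disj := by decide +kernel
  κ_inj := by
    have h : ∀ x y, gad.κ x = gad.κ y → x = y := by decide +kernel
    exact fun x y => h x y
  q_inj := by decide +kernel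
  φ_inj := by
    have h : ∀ x y, gad.φ x = gad.φ y → x = y := by decide +kernel
    exact fun x y => h x y
  φ_ne_q := by decide +kernel
  cardC := gad_good.cardC
  cardZ := gad_good.cardZ
  κ_vec := by
    intro x
    funext c
    have h := lc_eq (gad.κ x) c
    rw [h]
    have h2 : (VTab.ue (rb := 4) (.k x) c : ZMod 3) = _ := ue_eq _ _
    exact (κ_vec' x ⟨ps c, ps_lt c⟩).trans h2.symm
  q_vec := by
    intro i x
    funext c
    have h := lc_eq (gad.q i x) c
    rw [h]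
    have h2 : (VTab.ue (rb := 4) (.q i x) c : ZMod 3) = _ := ue_eq _ _
    have h3 : (VTab.ue (rb := 4) .f c : ZMod 3) = _ := ue_eq _ _
    have h4 : ((VTab.ue (rb := 4) (.q i x) - VTab.ue (rb := 4) .f) c : ZMod 3) =
      VTab.ue (rb := 4) (.q i x) c - VTab.ue (rb := 4) .f c := rfl
    refine (q_vec' i x ⟨ps c, ps_lt c⟩).trans (Eq.trans ?_ h4.symm)
    rw [h2, h3]
    rfl
  f_zf := by
    have h : z3 (dg (lo VZ 0) 0) = 1 := by decide +kernel
    exact h
  f_zh := by
    have h : ∀ j : Fin 12, z3 (dg (lo VZ 0) (1 + j)) = 0 := by decide +kernel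
    funext j
    exact h j
  z_heavy := by
    intro b hb e
    obtain ⟨j, hj⟩ := zh_heavy' b hb
    exact hj (congrFun e j)
  z_inj := by
    intro a b e1 e2
    by_contra hne
    have h1 := all_iff.1 (all_iff.1 injZ_chk _ a.2) _ b.2
    have hne' : a.val ≠ b.val := fun h => hne (Fin.ext h)
    rw [beq_false hne'] at h1
    have h2 : E2 13 (lo VZ a.val) (lo VZ b.val) = true := by
      unfold E2
      rw [all_iff]
      intro n hn
      rw [eq3_iff]
      cases n with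
      | zero => exact e1
      | succ n =>
        have h3 := congrFun e2 (⟨n, by omega⟩ : Fin 12)
        have h4 : z3 (dg (lo VZ a.val) (1 + n)) = z3 (dg (lo VZ b.val) (1 + n)) := h3
        rw [Nat.add_comm 1 n] at h4
        exact h4
    rw [h2] at h1
    simp at h1
  z_line := by
    intro a b c hab hbc hac
    constructor
    · revert hab hbc hac
      refine wl3 (fun a b c : Fin gad.nZ => a ≠ b → b ≠ c → a ≠ c →
        (vtab.zf a + vtab.zf b + vtab.zf c = 0 ∧ vtab.zh a + vtab.zh b + vtab.zh c = 0) →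
          ({a, b, c} : Finset (Fin gad.nZ)) ∈ gad.SZ) (fun a => a.val) ?_ ?_ ?_ a b c
      · intro x y z h h1 h2 h3 h4
        rw [Finset.insert_comm]
        refine h h1.symm h3 h2 ?_
        rw [add_comm (vtab.zf x), add_comm (vtab.zh x)]
        exact h4
      · intro x y z h h1 h2 h3 h4
        rw [Finset.pair_comm]
        refine h h3 h2.symm h1 ?_
        rw [add_right_comm, add_right_comm (vtab.zh x)]
        exact h4
      · intro x y z hxy hyz h1 h2 h3 h4
        apply lineZ_main x y z (lt_of_le_of_ne hxy fun e => h1 (Fin.ext e))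
          (lt_of_le_of_ne hyz fun e => h2 (Fin.ext e))
        unfold S3
        rw [all_iff]
        intro n hn
        rw [eq3_iff]
        have h5 : z3 (dg (lo VZ x.val) n) + z3 (dg (lo VZ y.val) n) +
            z3 (dg (lo VZ z.val) n) = 0 := by
          cases n with
          | zero => exact h4.1
          | succ n =>
            have h6 := congrFun h4.2 (⟨n, by omega⟩ : Fin 12)
            have h7 : z3 (dg (lo VZ x.val) (1 + n)) + z3 (dg (lo VZ y.val) (1 + n)) +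
              z3 (dg (lo VZ z.val) (1 + n)) = 0 := h6
            rw [Nat.add_comm 1 n] at h7
            exact h7
        have h6 : z3 (dg (lo VZ x.val) n + dg (lo VZ y.val) n + dg (lo VZ z.val) n) =
            z3 0 := by
          rw [z3_add, z3_add, h5]; rfl
        exact h6
    · intro hS
      obtain ⟨j, hj⟩ := (mem_SZ _).1 hS
      have key : ∀ (F : Fin 35 → ZMod 3), F a + F b + F c = ∑ x ∈ setsZ j, F x := fun F =>
        (sum3 (n := 35) F hab hbc hac).trans (congrArg (fun S => ∑ x ∈ S, F x) hj)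
      constructor
      · exact (key _).trans (setZ_chk j 0)
      · funext k
        exact (key (fun a => vtab.zh a k)).trans (setZ_chk j ⟨1 + k, by have : k.val < 12 := k.2; omega⟩)
  c_heavy := by
    have h : ∃ j : Fin 4, z3 (dg (lo VC 23) (12 + j)) ≠ 0 := by decide +kernel
    exact h
  inj := by
    intro g h e
    by_contra hne
    have h1 := all_iff.1 (all_iff.1 inj_chk _ (ix_lt g)) _ (ix_lt h)
    rw [beq_false (fun h => hne (ix_inj h))] at h1
    have h2 : E2 19 (lo VC (ix g)) (lo VC (ix h)) = true := E2_spec e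
    rw [h2] at h1
    simp at h1
  nz := by
    intro g e
    obtain ⟨c, hc⟩ := nz_chk ⟨ix g, ix_lt g⟩
    obtain ⟨d, hd⟩ := ps_surj c c.2
    apply hc
    have h1 := lv_eq g d
    rw [hd, e] at h1
    exact h1.symm
  only_f := by
    intro g hg
    by_contra hne
    obtain ⟨c, hc, hc2⟩ := only_chk ⟨ix g, ix_lt g⟩ (fun h => hne (ix_inj h))
    obtain ⟨d, hd⟩ := ps_surj c c.2
    apply hc2
    have h1 := lv_eq g d
    rw [hd] at h1
    have h2 := hg d (fun e => hc (by rw [← hd, e]; rfl))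
    rw [h2] at h1
    exact h1.symm
  line := by
    intro g h l
    refine wl3 (fun g h l : VTab.Lc gad => g ≠ h → h ≠ l → g ≠ l →
      vtab.lv g + vtab.lv h + vtab.lv l = 0 →
      (∃ a b c, g = .c a ∧ h = .c b ∧ l = .c c ∧ {a, b, c} ∈ gad.SC) ∨
      (∃ x, ({g, h, l} : Finset (VTab.Lc gad)) = {.f, .c (gad.φ x), .fix x})) ix ?_ ?_ ?_ g h l
    · intro x y z h h1 h2 h3 h4
      rcases h h1.symm h3 h2 (by rw [add_comm (vtab.lv x)]; exact h4) with
        ⟨a, b, c, rfl, rfl, rfl, h5⟩ | ⟨w, h5⟩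
      · exact Or.inl ⟨b, a, c, rfl, rfl, rfl, by rw [Finset.insert_comm]; exact h5⟩
      · exact Or.inr ⟨w, by rw [Finset.insert_comm]; exact h5⟩
    · intro x y z h h1 h2 h3 h4
      rcases h h3 h2.symm h1 (by rw [add_right_comm]; exact h4) with
        ⟨a, b, c, rfl, rfl, rfl, h5⟩ | ⟨w, h5⟩
      · exact Or.inl ⟨a, c, b, rfl, rfl, rfl, by rw [Finset.pair_comm c b]; exact h5⟩
      · exact Or.inr ⟨w, by rw [Finset.pair_comm z y]; exact h5⟩
    · intro x y z hxy hyz h1 h2 h3 h4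
      exact line_main x y z hxy hyz h1 h2 h4
  setC := by
    intro a b c hab hbc hac hS
    obtain ⟨j, hj⟩ := (mem_SC _).1 hS
    have key : ∀ (F : Fin 37 → ZMod 3), F a + F b + F c = ∑ x ∈ setsC j, F x := fun F =>
      (sum3 (n := 37) F hab hbc hac).trans (congrArg (fun S => ∑ x ∈ S, F x) hj)
    funext d
    have h1 := lc_eq a d
    have h2 := lc_eq b d
    have h3 := lc_eq c d
    show vtab.lc a d + vtab.lc b d + vtab.lc c d = 0
    rw [h1, h2, h3]
    exact (key (fun a => z3 (dg (lo VC (a : ℕ)) (ps d)))).trans (setC_chk j ⟨ps d, ps_lt d⟩)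
  light := by
    intro g hg
    rcases light_chk ⟨ix g, ix_lt g⟩ with ⟨j, hj⟩ | h | h | ⟨x, h⟩ | ⟨x, y, hxy, h⟩
    · exfalso
      apply hg
      exact ⟨j, fun e => hj ((lv_eq g (.b j)).symm.trans e)⟩
    · left
      exact (lv_eq g .f).trans h
    · right; left
      exact ix_inj h
    · right; right; left
      exact ⟨x, ix_inj h⟩
    · right; right; right
      refine ⟨x, y, hxy, ?_⟩
      funext d
      have h1 := lv_eq g d
      rw [h1]
      have h2 : (VTab.ue (rb := 4) (.k x) d : ZMod 3) = _ := ue_eq _ _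
      have h3 : (VTab.ue (rb := 4) (.k y) d : ZMod 3) = _ := ue_eq _ _
      have h4 : ((-VTab.ue (rb := 4) (.k x) - VTab.ue (rb := 4) (.k y)) d : ZMod 3) =
        -VTab.ue (rb := 4) (.k x) d - VTab.ue (rb := 4) (.k y) d := rfl
      refine (h ⟨ps d, ps_lt d⟩).trans (Eq.trans ?_ h4.symm)
      rw [h2, h3]
      rfl
  e7 := by
    intro g h hgh i x e
    have h0 : 4 * (i : ℕ) + x < 8 := by omega
    have h1 := all_iff.1 (all_iff.1 (all_iff.1 e7_chk _ (ix_lt g)) _ (ix_lt h)) _ h0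
    rw [beq_false (fun h => hgh (ix_inj h))] at h1
    have h2 : S2 19 (lo VC (ix g)) (lo VC (ix h))
        (Nat.shiftLeft 1 (2 * (4 + (4 * (i : ℕ) + x)))) = true := by
      apply S2_spec (τ := VTab.ue (.q i x)) _ e
      intro c
      rw [ue_eq]
      have h3 := sh1_chk ⟨4 * i + x, h0⟩ ⟨ps c, ps_lt c⟩
      rw [← h3]
      simp only [ps]
      congr 1
      rw [Nat.add_assoc]
    rw [h2, qv_chk] at h1
    simp only [Bool.not_true, Bool.false_or, Bool.or_eq_true, Bool.and_eq_true, Nat.beq_eq] at h1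
    exact pair_eq h1
  e8 := by
    intro g h l hgh x y hxy _ i e
    have h1 := all_iff.1 (all_iff.1 (all_iff.1 (all_iff.1 (all_iff.1 e8_chk _ (ix_lt g)) _
      (ix_lt h)) _ i.2) _ x.2) _ y.2
    rw [beq_false (fun h => hxy (Fin.ext h))] at h1
    have h2 : S2 19 (lo VC (ix g)) (lo VC (ix h))
      (Nat.add (Nat.shiftLeft 2 (2 * (4 + 4 * (i : ℕ) + x)))
        (Nat.shiftLeft 2 (2 * (4 + 4 * (i : ℕ) + y)))) = true := by
      apply S2_spec (τ := -VTab.ue (.q i x) - VTab.ue (.q i y)) _ e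
      intro c
      have h3 : ((-VTab.ue (rb := 4) (.q i x) - VTab.ue (rb := 4) (.q i y)) c : ZMod 3) =
        -VTab.ue (rb := 4) (.q i x) c - VTab.ue (rb := 4) (.q i y) c := rfl
      refine h3.trans ?_
      rw [ue_eq, ue_eq]
      exact sh2_chk i x y hxy ⟨ps c, ps_lt c⟩
    rw [h2] at h1
    simp at h1
  e9 := by
    intro g h hgh i e
    have h1 := all_iff.1 (all_iff.1 (all_iff.1 e9_chk _ (ix_lt g)) _ (ix_lt h)) _ i.2
    rw [beq_false (fun h => hgh (ix_inj h))] at h1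
    have h2 : S2 19 (lo VC (ix g)) (lo VC (ix h))
        (Nat.shiftLeft 2 (2 * (17 + (i : ℕ)))) = true := by
      apply S2_spec (τ := -VTab.ue (.w i)) _ e
      intro c
      have h3 : ((-VTab.ue (rb := 4) (.w i)) c : ZMod 3) = -VTab.ue (rb := 4) (.w i) c := rfl
      refine h3.trans ?_
      rw [ue_eq]
      exact sh3_chk i ⟨ps c, ps_lt c⟩
    rw [h2] at h1
    simp only [Bool.not_true, Bool.false_or, Bool.or_eq_true, Bool.and_eq_true, Nat.beq_eq] at h1
    exact pair_eq h1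

end Pool.Agent.SetPS
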