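import Pool.Agent.SetPS.PspaceAcnf
import Pool.Agent.SetPS.AcnfGeo
import Pool.Agent.SetPS.GeoSet
import Pool.Agent.SetPS.VTabGood

/-!
# The two-player game of SET is PSPACE-hard
-/

namespace Pool.Agent.SetPS

open Pool.Agent.PT81 Pool.Agent.IsoImp in
theorem set_hard (Γ : Type) [Fintype Γ] (L : Set (List Γ)) (hL : InPSPACE L) :
    Pool.Agent.SetPS.PolyReduces L SET := by
  classical
  obtain ⟨I, hI, hWF, hx⟩ := pspace_acnf L hL
  obtain ⟨g, hg, hg2⟩ := acnf_geo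
  obtain ⟨s, hs, hs2⟩ := geo_set gad_good vtab_good
  refine ⟨fun x => s (g (I x)), ?_, fun x => ?_⟩
  · let _ : Enc (io Γ Sy) Γ := finEnc _ Γ
    let _ : Enc (io Γ Sy) (Fin 3) := finEnc _ (Fin 3)
    have _ : Inhabited Sy := ⟨none⟩
    exact poly_toTM2 (G₀ := Γ) (G₁ := Sy) (F := fun x => s (g (I x)))
      ((hs (io Γ Sy)).comp ((hg (io Γ Sy)).comp (hI (io Γ Sy)))) _ _ _ (fun _ => rfl)
  · obtain ⟨hv, hw⟩ := hg2 (I x) (hWF x)
    rw [hx x, hw hv.pos, hs2 (g (I x)) hv hv.pos]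

end Pool.Agent.SetPS
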