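import Pool.Agent.SetPS.GadgetChk
import Mathlib.Tactic.FinCases

/-!
# The gadget is good
-/

namespace Pool.Agent.SetPS

open Tbl

/-- The gadget. -/
def gad : Gad where
  nC := 37
  nZ := 35
  SC := Finset.univ.image setsC
  SZ := Finset.univ.image setsZ
  c := 23
  κ := ![30, 25, 9, 13]
  φ := ![5, 6, 25, 13]
  q := ![![21, 24, 4, 28], ![36, 14, 16, 10]]
  f := 0

namespace Tbl

theorem NC_lt : NC < 2 ^ (32 * 8892) := by decide +kernel

theorem NZ_lt : NZ < 2 ^ (32 * 1650) := by decide +kernel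

theorem lstC : Lst setsC lC where
  ne := by decide +kernel
  fst := by decide +kernel
  snd := by decide +kernel

theorem lstZ : Lst setsZ lZ where
  ne := by decide +kernel
  fst := by decide +kernel
  snd := by decide +kernel

theorem nbC_spec : ∀ (x : Fin 37) (i : Fin 21), (nbC x).testBit i = true ↔
    Disjoint (setsC i) {x} := by decide +kernel

theorem nbZ_spec : ∀ (i : Fin 22), nbZ0.testBit i = true ↔
    Disjoint (setsZ i) {0} := by decide +kernel

theorem hokC (k : ℕ) (h : tC k ≠ 99) : okEntry tC lC k (tC k) = true ∧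
    okRem tC 2097151 (nbC 23) [nbC 30, nbC 25, nbC 9, nbC 13] k (tC k) = true := by
  rcases look_spec NC_lt h with ⟨i, hi, h1, h2⟩ | ⟨rfl, h2⟩
  · have h3 := PC_all i hi
    unfold PC at h3
    rw [Bool.and_eq_true, h1, h2] at h3
    exact h3
  · have h3 : tC 0 = 0 := h2
    rw [h3]
    constructor <;> decide +kernel

theorem hokZ (k : ℕ) (h : tZ k ≠ 99) : okEntry tZ lZ k (tZ k) = true := by
  rcases look_spec NZ_lt h with ⟨i, hi, h1, h2⟩ | ⟨rfl, h2⟩
  · have h3 := PZ_all i hi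
    unfold PZ at h3
    rw [h1, h2] at h3
    exact h3
  · have h3 : tZ 0 = 0 := h2
    rw [h3]
    decide +kernel

theorem mem_SC (S : Finset (Fin 37)) : S ∈ gad.SC ↔ ∃ j, S = setsC j := by
  show S ∈ Finset.univ.image setsC ↔ _
  simp [eq_comm]

theorem mem_SZ (S : Finset (Fin 35)) : S ∈ gad.SZ ↔ ∃ j, S = setsZ j := by
  show S ∈ Finset.univ.image setsZ ↔ _
  simp [eq_comm]

theorem gC_eq {A : Finset (Fin 37)} {k : ℕ} (h : Rep setsC A k) (hk : tC k ≠ 99) :
    gad.gC A = tC k :=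
  grundy_eq _ mem_SC lstC (fun k hk => (hokC k hk).1) _ A k le_rfl h hk

theorem gZ_eq {A : Finset (Fin 35)} {k : ℕ} (h : Rep setsZ A k) (hk : tZ k ≠ 99) :
    gad.gZ A = tZ k :=
  grundy_eq _ mem_SZ lstZ hokZ _ A k le_rfl h hk

theorem repC_univ : Rep setsC Finset.univ 2097151 := rep_univ (by norm_num)

theorem repZ_univ : Rep setsZ Finset.univ 4194303 := rep_univ (by norm_num)

/-- Mask of the Sets disjoint from Set `j`. -/
def mC (j : Fin 21) : ℕ := (lC[(j : ℕ)]!).2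

/-- Mask of the Sets disjoint from Set `j`. -/
def mZ (j : Fin 22) : ℕ := (lZ[(j : ℕ)]!).2

theorem mC_spec : ∀ (j i : Fin 21), (mC j).testBit i = true ↔ Disjoint (setsC i) (setsC j) := by
  decide +kernel

theorem mC_mem : ∀ j : Fin 21, ((j : ℕ), mC j) ∈ lC := by decide +kernel

theorem mZ_spec : ∀ (j i : Fin 22), (mZ j).testBit i = true ↔ Disjoint (setsZ i) (setsZ j) := by
  decide +kernel

theorem repC_set (j : Fin 21) : Rep setsC (Finset.univ \ setsC j) (2097151 &&& mC j) :=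
  repC_univ.sdiff _ _ (mC_spec j)

theorem repC_card (x : Fin 37) : Rep setsC (Finset.univ \ {x}) (2097151 &&& nbC x) :=
  repC_univ.sdiff _ _ (nbC_spec x)

theorem repZ_set (j : Fin 22) : Rep setsZ (Finset.univ \ setsZ j) (4194303 &&& mZ j) :=
  repZ_univ.sdiff _ _ (mZ_spec j)

/-- The good masks. -/
def Gk (k : ℕ) : Prop := tC k ≠ 99 ∧ k < 2097151

instance (k : ℕ) : Decidable (Gk k) := inferInstanceAs (Decidable (_ ∧ _))

theorem Gk.rem {k : ℕ} (h : Gk k) : tC k < 8 ∧ tC (k &&& nbC 23) ≠ 99 ∧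
    ∀ c ∈ [nbC 30, nbC 25, nbC 9, nbC 13], tC (k &&& c) ≠ 99 ∧ tC (k &&& c) / 4 = tC k / 4 :=
  okRem_spec (hokC k h.1).2 (by have := h.2; omega)

theorem R_rep {A : Finset (Fin gad.nC)} (h : gad.R A) : ∃ k, @Rep 37 21 setsC A k ∧ Gk k := by
  induction h with
  | set0 S h =>
    obtain ⟨j, rfl⟩ := (mem_SC S).1 h
    have h1 : ∀ j : Fin 21, Gk (2097151 &&& mC j) := by decide +kernel
    exact ⟨_, repC_set j, h1 j⟩
  | c0 => exact ⟨_, repC_card _, by decide +kernel⟩
  | κ0 x =>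
    refine ⟨_, repC_card _, ?_⟩
    revert x
    decide +kernel
  | φ0 x =>
    refine ⟨_, repC_card _, ?_⟩
    revert x
    decide +kernel
  | q0 i x =>
    refine ⟨_, repC_card _, ?_⟩
    revert i x
    decide +kernel
  | set A S h hS hSA ih =>
    obtain ⟨k, hk, hg⟩ := ih
    obtain ⟨j, rfl⟩ := (mem_SC S).1 hS
    refine ⟨k &&& mC j, hk.sdiff _ _ (mC_spec j), ?_, lt_of_le_of_lt Nat.and_le_left hg.2⟩
    have h1 := ((okEntry_spec (hokC k hg.1).1).1 _ (mC_mem j) ((hk j).2 ⟨j.2, hSA⟩)).1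
    simp only at h1
    omega
  | c A h ih =>
    obtain ⟨k, hk, hg⟩ := ih
    exact ⟨k &&& nbC 23, hk.sdiff _ _ (nbC_spec 23), hg.rem.2.1,
      lt_of_le_of_lt Nat.and_le_left hg.2⟩
  | κ A x h ih =>
    obtain ⟨k, hk, hg⟩ := ih
    refine ⟨k &&& nbC (gad.κ x), hk.sdiff _ _ (nbC_spec (gad.κ x)), ?_,
      lt_of_le_of_lt Nat.and_le_left hg.2⟩
    have h1 := hg.rem.2.2
    fin_cases x
    · exact (h1 (nbC 30) (by simp)).1
    · exact (h1 (nbC 25) (by simp)).1
    · exact (h1 (nbC 9) (by simp)).1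
    · exact (h1 (nbC 13) (by simp)).1

end Tbl

theorem gad_good : gad.Good where
  cardC := by
    intro S hS
    obtain ⟨j, rfl⟩ := (mem_SC S).1 hS
    have h1 : ∀ j : Fin 21, (setsC j).card = 3 := by decide +kernel
    exact h1 j
  cardZ := by
    intro S hS
    obtain ⟨j, rfl⟩ := (mem_SZ S).1 hS
    have h1 : ∀ j : Fin 22, (setsZ j).card = 3 := by decide +kernel
    exact h1 j
  c_ne_κ := by decide +kernel
  c_ne_φ := by decide +kernel
  c_ne_q := by decide +kernel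
  κ_ne_q := by decide +kernel
  full := by
    have h1 : tC 2097151 = 8 := by decide +kernel
    have h2 := gC_eq repC_univ (by rw [h1]; norm_num)
    rw [h1] at h2
    exact h2
  tight := by
    intro S hS
    obtain ⟨j, rfl⟩ := (mem_SC S).1 hS
    have h1 : ∀ j : Fin 21, tC (2097151 &&& mC j) < 8 := by decide +kernel
    have h3 := h1 j
    have h2 := gC_eq (repC_set j) (by omega)
    exact h2.trans_lt h3
  small := by
    intro A hA
    obtain ⟨k, hk, hg⟩ := R_rep hA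
    exact (gC_eq hk hg.1).trans_lt hg.rem.1
  cval := by
    have h1 : tC (2097151 &&& nbC 23) = 0 := by decide +kernel
    have h2 := gC_eq (repC_card 23) (by rw [h1]; norm_num)
    rw [h1] at h2
    exact h2
  fval := by
    have h1 : tZ (4194303 &&& nbZ0) = 0 := by decide +kernel
    have h2 := gZ_eq (repZ_univ.sdiff _ _ nbZ_spec) (by rw [h1]; norm_num)
    rw [h1] at h2
    exact h2
  fmove := by
    intro k hk
    have h1 : ∀ k < 8, ∃ j : Fin 22, 0 ∈ setsZ j ∧ tZ (4194303 &&& mZ j) = k := by decide +kernel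
    obtain ⟨j, h2, h3⟩ := h1 k hk
    refine ⟨setsZ j, (mem_SZ _).2 ⟨j, rfl⟩, h2, ?_⟩
    have h4 := gZ_eq (repZ_set j) (by omega)
    rw [h3] at h4
    exact h4
  fsmall := by
    intro S hS hf
    obtain ⟨j, rfl⟩ := (mem_SZ S).1 hS
    have h1 : ∀ j : Fin 22, 0 ∈ setsZ j → tZ (4194303 &&& mZ j) < 8 := by decide +kernel
    have h3 := h1 j hf
    have h2 := gZ_eq (repZ_set j) (by omega)
    exact h2.trans_lt h3
  payload := by
    intro S hS hf
    obtain ⟨j, rfl⟩ := (mem_SZ S).1 hS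
    have h1 : ∀ j : Fin 22, 0 ∉ setsZ j → 4 ≤ tZ (4194303 &&& mZ j &&& nbZ0) ∧
        tZ (4194303 &&& mZ j &&& nbZ0) < 8 := by decide +kernel
    have h3 := h1 j hf
    have h2 := gZ_eq ((repZ_set j).sdiff {0} _ nbZ_spec) (by omega)
    exact ⟨h3.1.trans_eq h2.symm, h2.trans_lt h3.2⟩
  φval := by
    intro x
    have h1 : ∀ x : Fin 4, tC (2097151 &&& nbC (gad.φ x)) = 4 + x := by decide +kernel
    have h2 := gC_eq (repC_card (gad.φ x)) (by rw [h1 x]; omega)
    rw [h1 x] at h2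
    exact h2
  qval := by
    intro i x
    have h1 : ∀ (i : Fin 2) (x : Fin 4), 4 ≤ tC (2097151 &&& nbC (gad.q i x)) ∧
        tC (2097151 &&& nbC (gad.q i x)) < 8 := by decide +kernel
    have h3 := h1 i x
    have h2 := gC_eq (repC_card (gad.q i x)) (by omega)
    exact ⟨h3.1.trans_eq h2.symm, h2.trans_lt h3.2⟩
  cqκ := by
    intro i x
    have h1 : ∀ (i : Fin 2) (x : Fin 4), tC (2097151 &&& nbC 23 &&& nbC (gad.q i x)) ≠ 99 ∧
        tC (2097151 &&& nbC (gad.κ x)) ≠ 99 ∧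
        tC (2097151 &&& nbC 23 &&& nbC (gad.q i x)) ^^^ tC (2097151 &&& nbC (gad.κ x)) = x := by
      decide +kernel
    obtain ⟨h2, h3, h4⟩ := h1 i x
    have h5 : gad.gC ((Finset.univ \ {gad.c}) \ {gad.q i x}) = _ :=
      gC_eq ((repC_card 23).sdiff {gad.q i x} _ (nbC_spec _)) h2
    have h6 : gad.gC (Finset.univ \ {gad.κ x}) = _ := gC_eq (repC_card (gad.κ x)) h3
    rw [h5, h6]
    exact h4
  inert := by
    intro A hA x
    obtain ⟨k, hk, hg⟩ := R_rep hA
    have h1 := hg.rem.2.2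
    have h2 : tC (k &&& nbC (gad.κ x)) ≠ 99 ∧ tC (k &&& nbC (gad.κ x)) / 4 = tC k / 4 := by
      fin_cases x
      · exact h1 (nbC 30) (by simp)
      · exact h1 (nbC 25) (by simp)
      · exact h1 (nbC 9) (by simp)
      · exact h1 (nbC 13) (by simp)
    have h3 : gad.gC (A \ {gad.κ x}) = _ := gC_eq (hk.sdiff {gad.κ x} _ (nbC_spec _)) h2.1
    have h4 : gad.gC A = _ := gC_eq hk hg.1
    rw [h3, h4]
    exact h2.2.symm

end Pool.Agent.SetPS
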