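import Pool.Agent.SetPS.GadgetData

/-!
# The gadget: check of the tables
-/

namespace Pool.Agent.SetPS.Tbl

theorem chkC0 : chk PC 0 1112 = true := by decide +kernel
theorem chkC1 : chk PC 1112 1112 = true := by decide +kernel
theorem chkC2 : chk PC 2224 1112 = true := by decide +kernel
theorem chkC3 : chk PC 3336 1112 = true := by decide +kernel
theorem chkC4 : chk PC 4448 1112 = true := by decide +kernel
theorem chkC5 : chk PC 5560 1112 = true := by decide +kernel
theorem chkC6 : chk PC 6672 1112 = true := by decide +kernel
theorem chkC7 : chk PC 7784 1108 = true := by decide +kernel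
theorem chkZ : chk PZ 0 1650 = true := by decide +kernel

theorem PC_all (i : ℕ) (hi : i < 8892) : PC i = true := by
  by_cases h1 : i < 1112
  · exact chk_spec chkC0 i (by omega) (by omega)
  by_cases h2 : i < 2224
  · exact chk_spec chkC1 i (by omega) (by omega)
  by_cases h3 : i < 3336
  · exact chk_spec chkC2 i (by omega) (by omega)
  by_cases h4 : i < 4448
  · exact chk_spec chkC3 i (by omega) (by omega)
  by_cases h5 : i < 5560
  · exact chk_spec chkC4 i (by omega) (by omega)
  by_cases h6 : i < 6672
  · exact chk_spec chkC5 i (by omega) (by omega)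
  by_cases h7 : i < 7784
  · exact chk_spec chkC6 i (by omega) (by omega)
  · exact chk_spec chkC7 i (by omega) (by omega)

theorem PZ_all (i : ℕ) (hi : i < 1650) : PZ i = true := chk_spec chkZ i (by omega) (by omega)

end Pool.Agent.SetPS.Tbl
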