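import Pool.Agent.SetPS.Defs
import Mathlib.Data.Finset.Basic
import Mathlib.Data.Nat.Find

/-!
# Intermediate problems: alternating CNF and geography with out-degree two
-/

namespace Pool.Agent.SetPS

/-! ### Alternating CNF -/

/-- Names of variables. -/
abbrev Nm : Type := List Bool

/-- A formula in conjunctive normal form: a list of clauses, each a list of literals
(variable, sign). -/
abbrev CNF : Type := List (List (Nm × Bool))

/-- The assignment `a` satisfies the formula. -/
def CNF.Sat (F : CNF) (a : Nm → Bool) : Prop := ∀ cl ∈ F, ∃ l ∈ cl, a l.1 = l.2

/-- The quantifiers range over the variables of the list, in this order and alternatingly; the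
first one is existential if the flag is `true` and universal otherwise. -/
def Alt (F : CNF) : Bool → List Nm → (Nm → Bool) → Prop
  | _, [], a => F.Sat a
  | true, x :: xs, a => ∃ b, Alt F false xs (Function.update a x b)
  | false, x :: xs, a => ∀ b, Alt F true xs (Function.update a x b)

/-- A well-formed instance: distinct variables, an even number of them, no other variable in the
formula. -/
structure WF (I : List Nm × CNF) : Prop where
  nodup : I.1.Nodup
  even : Even I.1.length
  vars : ∀ cl ∈ I.2, ∀ l ∈ cl, l.1 ∈ I.1

/-- The instance is true. -/
def ATrue (I : List Nm × CNF) : Prop := Alt I.2 true I.1 (fun _ => false)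

/-! ### Geography -/

/-- The player to move wins geography, with the token at `t` and `D` the set of unvisited
vertices; the arcs leaving `v` go to `out v 0` and `out v 1`. -/
def GeoWins {V : Type} [DecidableEq V] (out : V → Fin 2 → Option V) (D : Finset V) (t : V) : Prop :=
  ∃ (i : Fin 2) (w : V) (_ : out t i = some w) (_ : w ∈ D), ¬ GeoWins out (D.erase w) w
termination_by D.card
decreasing_by exact Finset.card_erase_lt_of_mem ‹_›

/-- An instance of geography as data: entry `v` contains the numbers of the two out-neighbours of
vertex number `v`. The token starts at vertex `0`. -/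
abbrev GI : Type := List (Option ℕ × Option ℕ)

/-- The arcs of an instance, as a map on the vertex set `Fin G.length`. -/
def GI.out (G : GI) (v : Fin G.length) (i : Fin 2) : Option (Fin G.length) :=
  (if i = 0 then (G.get v).1 else (G.get v).2).bind fun w =>
    if h : w < G.length then some ⟨w, h⟩ else none

/-- There is a vertex, there are no loops and no double arcs. -/
structure GI.Valid (G : GI) : Prop where
  pos : 0 < G.length
  noloop : ∀ v i, G.out v i ≠ some v
  nodouble : ∀ v w, ¬ (G.out v 0 = some w ∧ G.out v 1 = some w)

/-- The player to move wins the instance. -/
def GI.Wins (G : GI) (h : 0 < G.length) : Prop :=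
  GeoWins G.out (Finset.univ.erase ⟨0, h⟩) ⟨0, h⟩

end Pool.Agent.SetPS
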