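import Pool.Agent.SetPS.Defs
import Mathlib.Data.List.Basic

/-!
# Membership of SET in PSPACE: the search algorithm
-/

namespace Pool.Agent.SetPS.Mem

/-- A card as a list of digits. -/
abbrev LC : Type := List (Fin 3)

/-- Three values are equal or pairwise distinct. -/
def tri (p : Option (Fin 3) × (Option (Fin 3) × Option (Fin 3))) : Bool :=
  (decide (p.1 = p.2.1) && decide (p.2.1 = p.2.2)) ||
    (decide (p.1 ≠ p.2.1) && (decide (p.2.1 ≠ p.2.2) && decide (p.1 ≠ p.2.2)))

/-- Three cards form a Set. -/
def isSetL (a b c : LC) : Bool :=
  !(decide (a = b)) && (!(decide (b = c)) && (!(decide (a = c)) &&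
    ((List.range a.length).all fun i => tri (a[i]?, (b[i]?, c[i]?)))))

/-- The moves of a position. -/
def moves (C : List LC) : List (List LC) :=
  C.flatMap fun a => C.flatMap fun b => (C.filter fun c => isSetL a b c).map fun c => [a, b, c]

/-- The position after a move. -/
def rem (C m : List LC) : List LC := C.filter fun a => !(m.any fun b => decide (a = b))

theorem mem_moves {C m : List LC} : m ∈ moves C ↔ ∃ a ∈ C, ∃ b ∈ C, ∃ c ∈ C,
    isSetL a b c = true ∧ m = [a, b, c] := by
  unfold moves
  simp only [List.mem_flatMap, List.mem_map, List.mem_filter]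
  constructor
  · rintro ⟨a, ha, b, hb, c, ⟨hc, h⟩, rfl⟩
    exact ⟨a, ha, b, hb, c, hc, h, rfl⟩
  · rintro ⟨a, ha, b, hb, c, hc, h, rfl⟩
    exact ⟨a, ha, b, hb, c, ⟨hc, h⟩, rfl⟩

theorem mem_rem {C m : List LC} {a : LC} : a ∈ rem C m ↔ a ∈ C ∧ a ∉ m := by
  unfold rem
  rw [List.mem_filter]
  simp only [Bool.not_eq_true', List.any_eq_false, decide_eq_true_eq]
  constructor
  · rintro ⟨h1, h2⟩
    exact ⟨h1, fun h => h2 a h rfl⟩
  · rintro ⟨h1, h2⟩
    exact ⟨h1, fun b hb e => h2 (e ▸ hb)⟩

theorem rem_lt {C m : List LC} (h : m ∈ moves C) : (rem C m).length < C.length := by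
  obtain ⟨a, ha, b, hb, c, hc, -, rfl⟩ := mem_moves.1 h
  unfold rem
  apply List.length_filter_lt_length_iff_exists.2
  exact ⟨a, ha, by simp⟩

/-- The player to move wins. -/
def winL (C : List LC) : Prop := ∃ (m : List LC) (_ : m ∈ moves C), ¬ winL (rem C m)
termination_by C.length
decreasing_by exact rem_lt ‹_›

/-- A state of the search: the value just returned, if any, and the list of open positions with
the moves still to be tried. -/
abbrev St : Type := Option Bool × List (List LC × List (List LC))

/-- One step of the search. -/
def step : St → St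
  | (b, []) => (b, [])
  | (none, (_, []) :: s) => (some false, s)
  | (none, (C, m :: ms) :: s) => (none, (rem C m, moves (rem C m)) :: (C, ms) :: s)
  | (some false, _ :: s) => (some true, s)
  | (some true, f :: s) => (none, f :: s)

/-- The search goes on. -/
def cont (s : St) : Bool := !s.2.isEmpty

/-- The result. -/
def out (s : St) : Bool := decide (s.1 = some true)

/-- The blocks of a string (each one followed by a separator) and the unfinished rest. -/
def blocks (x : List Sy) : List LC × LC :=
  x.foldr (fun a p => match a with
    | none => ([] :: p.1, p.2)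
    | some d => match p.1 with
      | [] => ([], d :: p.2)
      | b :: bs => ((d :: b) :: bs, p.2)) ([], [])

/-- The input has the right format. -/
def valid (p : List LC × LC) : Bool :=
  p.2.isEmpty && (!p.1.isEmpty && ((p.1.headD []).all (fun d => decide (d = 0)) &&
    (p.1.tail.all (fun c => decide (c.length = (p.1.headD []).length)) &&
      p.1.tail.all (fun c => decide ((p.1.tail.filter fun d => decide (d = c)).length = 1)))))

/-- The initial state. -/
def init (x : List Sy) : St :=
  if valid (blocks x) then (none, [((blocks x).1.tail, moves (blocks x).1.tail)])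
  else (some false, [])

end Pool.Agent.SetPS.Mem
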