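import Pool.Agent.SetPS.MemDefs
import Mathlib.Data.List.OfFn
import Mathlib.Tactic.Linarith

/-!
# The search algorithm: the input
-/

namespace Pool.Agent.SetPS.Mem

/-! ### Blocks -/

theorem blocks_none (y : List Sy) : blocks (none :: y) = ([] :: (blocks y).1, (blocks y).2) := rfl

theorem blocks_some_nil (d : Fin 3) (y : List Sy) (h : (blocks y).1 = []) :
    blocks (some d :: y) = ([], d :: (blocks y).2) := by
  show (match (blocks y).1 with
    | [] => (([] : List LC), d :: (blocks y).2)
    | b :: bs => ((d :: b) :: bs, (blocks y).2)) = _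
  rw [h]

theorem blocks_some_cons (d : Fin 3) (y : List Sy) (b : LC) (bs : List LC)
    (h : (blocks y).1 = b :: bs) : blocks (some d :: y) = ((d :: b) :: bs, (blocks y).2) := by
  show (match (blocks y).1 with
    | [] => (([] : List LC), d :: (blocks y).2)
    | b :: bs => ((d :: b) :: bs, (blocks y).2)) = _
  rw [h]

theorem blocks_block (b : LC) (y : List Sy) :
    blocks (b.map some ++ none :: y) = (b :: (blocks y).1, (blocks y).2) := by
  induction b with
  | nil => rfl
  | cons d b ih =>
    show blocks (some d :: (b.map some ++ none :: y)) = _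
    rw [blocks_some_cons d _ b (blocks y).1 (by rw [ih]), ih]

/-- The string with given blocks. -/
def unblocks (p : List LC × LC) : List Sy :=
  p.1.flatMap (fun b => b.map some ++ [none]) ++ p.2.map some

theorem unblocks_blocks (x : List Sy) : unblocks (blocks x) = x := by
  induction x with
  | nil => rfl
  | cons a x ih =>
    cases a with
    | none =>
      rw [blocks_none]
      unfold unblocks at ih ⊢
      simp only [List.flatMap_cons, List.map_nil, List.nil_append, List.cons_append]
      rw [ih]
    | some d =>
      cases h : (blocks x).1 with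
      | nil =>
        rw [blocks_some_nil d x h]
        unfold unblocks at ih ⊢
        rw [h] at ih
        simp only [List.flatMap_nil, List.nil_append, List.map_cons] at ih ⊢
        rw [ih]
      | cons b bs =>
        rw [blocks_some_cons d x b bs h]
        unfold unblocks at ih ⊢
        rw [h] at ih
        simp only [List.flatMap_cons, List.map_cons, List.cons_append, List.append_assoc] at ih ⊢
        rw [ih]

theorem blocks_encode {n : ℕ} (l : List (Card n)) :
    blocks (encodeInput n l) = (List.replicate n 0 :: l.map List.ofFn, []) := by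
  unfold encodeInput
  have h1 : List.replicate n (some (0 : Fin 3)) = (List.replicate n (0 : Fin 3)).map some := by
    simp
  rw [h1, blocks_block]
  have h2 : blocks (l.flatMap fun c => (List.ofFn c).map some ++ [none]) =
      (l.map List.ofFn, []) := by
    induction l with
    | nil => rfl
    | cons c l ih =>
      rw [List.flatMap_cons, List.append_assoc]
      show blocks ((List.ofFn c).map some ++ none ::
        (l.flatMap fun c => (List.ofFn c).map some ++ [none])) = _
      rw [blocks_block, ih]
      rfl
  rw [h2]

/-! ### The game -/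

theorem tri_iff (x y z : Fin 3) : tri (some x, (some y, some z)) = true ↔
    ((x = y ∧ y = z) ∨ (x ≠ y ∧ y ≠ z ∧ x ≠ z)) := by
  revert x y z
  decide

theorem isSetL_iff {n : ℕ} (a b c : Card n) :
    isSetL (List.ofFn a) (List.ofFn b) (List.ofFn c) = true ↔ IsSet a b c := by
  unfold isSetL IsSet
  simp only [Bool.and_eq_true, Bool.not_eq_true', decide_eq_false_iff_not,
    List.ofFn_inj, List.length_ofFn, List.all_eq_true, List.mem_range]
  refine and_congr_right fun _ => and_congr_right fun _ => and_congr_right fun _ => ?_
  constructor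
  · intro h i
    have h1 := h i i.2
    rw [List.getElem?_ofFn, List.getElem?_ofFn, List.getElem?_ofFn] at h1
    simp only [i.2, dite_true, Fin.eta] at h1
    exact (tri_iff _ _ _).1 h1
  · intro h i hi
    rw [List.getElem?_ofFn, List.getElem?_ofFn, List.getElem?_ofFn]
    simp only [hi, dite_true]
    exact (tri_iff _ _ _).2 (h ⟨i, hi⟩)

theorem rem_ofFn {n : ℕ} (l : List (Card n)) (a b c : Card n) :
    rem (l.map List.ofFn) [List.ofFn a, List.ofFn b, List.ofFn c] =
      (l.filter fun d => decide (d ∉ [a, b, c])).map List.ofFn := by
  unfold rem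
  rw [List.filter_map]
  congr 1
  apply List.filter_congr
  intro d _
  simp only [Function.comp_apply, List.any_cons, List.any_nil, Bool.or_false, List.ofFn_inj,
    List.mem_cons, List.not_mem_nil, or_false, not_or]
  by_cases h1 : d = a <;> by_cases h2 : d = b <;> by_cases h3 : d = c <;> simp [h1, h2, h3]

theorem win_iff {n : ℕ} (k : ℕ) : ∀ (l : List (Card n)), l.length ≤ k →
    (winL (l.map List.ofFn) ↔ FirstWins l.toFinset) := by
  induction k with
  | zero =>
    intro l hl
    have : l = [] := List.length_eq_zero_iff.1 (Nat.le_zero.1 hl)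
    subst this
    rw [winL, FirstWins]
    constructor
    · rintro ⟨m, hm, -⟩
      obtain ⟨a, ha, -⟩ := mem_moves.1 hm
      simp at ha
    · rintro ⟨a, b, c, ha, -⟩
      simp at ha
  | succ k ih =>
    intro l hl
    have key : ∀ a b c, a ∈ l → (winL (rem (l.map List.ofFn)
        [List.ofFn a, List.ofFn b, List.ofFn c]) ↔ FirstWins (l.toFinset \ {a, b, c})) := by
      intro a b c ha
      rw [rem_ofFn, ih]
      · have h1 : (l.filter fun d => decide (d ∉ [a, b, c])).toFinset = l.toFinset \ {a, b, c} := by
          ext d
          simp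
        rw [h1]
      · have h2 : (l.filter fun d => decide (d ∉ [a, b, c])).length < l.length := by
          apply List.length_filter_lt_length_iff_exists.2
          exact ⟨a, ha, by simp⟩
        omega
    rw [winL, FirstWins]
    constructor
    · rintro ⟨m, hm, hw⟩
      obtain ⟨a', ha, b', hb, c', hc, hs, rfl⟩ := mem_moves.1 hm
      obtain ⟨a, ha1, rfl⟩ := List.mem_map.1 ha
      obtain ⟨b, hb1, rfl⟩ := List.mem_map.1 hb
      obtain ⟨c, hc1, rfl⟩ := List.mem_map.1 hc
      refine ⟨a, b, c, List.mem_toFinset.2 ha1, List.mem_toFinset.2 hb1,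
        List.mem_toFinset.2 hc1, (isSetL_iff a b c).1 hs, ?_⟩
      rw [← key a b c ha1]
      exact hw
    · rintro ⟨a, b, c, ha, hb, hc, hs, hw⟩
      refine ⟨[List.ofFn a, List.ofFn b, List.ofFn c], mem_moves.2 ⟨_, List.mem_map_of_mem
        (List.mem_toFinset.1 ha), _, List.mem_map_of_mem (List.mem_toFinset.1 hb), _,
        List.mem_map_of_mem (List.mem_toFinset.1 hc), (isSetL_iff a b c).2 hs, rfl⟩, ?_⟩
      rw [key a b c (List.mem_toFinset.1 ha)]
      exact hw

/-! ### The format -/

theorem valid_spec (p : List LC × LC) : valid p = true ↔ p.2 = [] ∧ ∃ z cs, p.1 = z :: cs ∧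
    (∀ d ∈ z, d = 0) ∧ (∀ c ∈ cs, c.length = z.length) ∧ cs.Nodup := by
  obtain ⟨bs, r⟩ := p
  cases bs with
  | nil =>
    have hv : valid (([] : List LC), r) = (r.isEmpty && false) := rfl
    rw [hv]
    simp
  | cons z cs =>
    have hv : valid (z :: cs, r) = (r.isEmpty && (z.all (fun d => decide (d = 0)) &&
      (cs.all (fun c => decide (c.length = z.length)) &&
        cs.all (fun c => decide ((cs.filter fun d => decide (d = c)).length = 1))))) := rfl
    have hnd : (∀ c ∈ cs, (cs.filter fun d => decide (d = c)).length = 1) ↔ cs.Nodup := by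
      rw [List.nodup_iff_count_eq_one]
      refine forall_congr' fun c => forall_congr' fun _ => ?_
      rw [List.count_eq_length_filter]
      have : (cs.filter fun d => decide (d = c)) = cs.filter (fun x => x == c) := by
        apply List.filter_congr
        intro d _
        by_cases h : d = c <;> simp [h]
      rw [this]
    rw [hv]
    simp only [Bool.and_eq_true, List.isEmpty_iff, List.all_eq_true, decide_eq_true_eq,
      List.cons.injEq]
    rw [hnd]
    constructor
    · rintro ⟨h0, h1, h2, h3⟩
      exact ⟨h0, z, cs, ⟨rfl, rfl⟩, h1, h2, h3⟩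
    · rintro ⟨h0, z', cs', ⟨rfl, rfl⟩, h1, h2, h3⟩
      exact ⟨h0, h1, h2, h3⟩

theorem valid_iff (x : List Sy) :
    x ∈ SET ↔ valid (blocks x) = true ∧ winL (blocks x).1.tail := by
  constructor
  · rintro ⟨n, l, hl, rfl, hw⟩
    rw [blocks_encode]
    refine ⟨(valid_spec _).2 ⟨rfl, _, _, rfl, ?_, ?_, ?_⟩, ?_⟩
    · intro d hd
      exact List.eq_of_mem_replicate hd
    · intro c hc
      obtain ⟨a, -, rfl⟩ := List.mem_map.1 hc
      simp
    · exact hl.map List.ofFn_injective
    · exact (win_iff l.length l le_rfl).2 hw
  · rintro ⟨hv, hw⟩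
    obtain ⟨h1, z, cs, h2, h3, h4, h5⟩ := (valid_spec _).1 hv
    have hx := unblocks_blocks x
    have hb : blocks x = (z :: cs, []) := Prod.ext h2 h1
    rw [hb] at hx hw
    set l : List (Card z.length) := cs.map fun c i => c.getD i 0 with hldef
    have hl : l.map List.ofFn = cs := by
      rw [hldef, List.map_map]
      conv_rhs => rw [← List.map_id cs]
      apply List.map_congr_left
      intro c hc
      have hlen := h4 c hc
      simp only [Function.comp_apply, id]
      apply List.ext_getElem
      · simp [hlen]
      · intro i h6 h7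
        simp only [List.getElem_ofFn, List.getD_eq_getElem?_getD, List.getElem?_eq_getElem h7,
          Option.getD_some]
    refine ⟨z.length, l, ?_, ?_, ?_⟩
    · have : (l.map List.ofFn).Nodup := by rw [hl]; exact h5
      exact this.of_map _
    · rw [← hx]
      unfold unblocks encodeInput
      have hz : z = List.replicate z.length 0 := List.eq_replicate_iff.2 ⟨rfl, h3⟩
      have hz' : z.map some = List.replicate z.length (some (0 : Fin 3)) := by
        conv_lhs => rw [hz]
        simp
      rw [← hl, List.flatMap_cons, hz', List.flatMap_map]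
      simp
    · rw [← win_iff l.length l le_rfl, hl]
      exact hw

end Pool.Agent.SetPS.Mem
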