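import Pool.Agent.SetPS.SavGame

/-!
# The Savitch game of a machine
-/

set_option linter.unusedSectionVars false

namespace Pool.Agent.SetPS

open Pool.Agent.PT81 Pool.Agent.IsoImp Polynomial

section machine

variable {C K Sg : Type} [Fintype C] [DecidableEq C] [Fintype K] [DecidableEq K]
  [Fintype Sg] [DecidableEq Sg]

/-- Kinds of cells. -/
abbrev Kc (C K Sg : Type) : Type := C ⊕ (K × Option Sg)

/-- The contents of the cells for a configuration. -/
def val (x : C × (K → List Sg)) : Kc C K Sg × ℕ → Bool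
  | (.inl c, _) => decide (c = x.1)
  | (.inr (k, a), i) => decide ((x.2 k)[i]? = a)

/-- The control is not `c`, or the new cell is a copy of the old one at position `i'`. -/
noncomputable def cpy (c : C) (κ : K × Option Sg) (i i' : ℕ) : CNF :=
  eqIf (An 0 ((.inl c : Kc C K Sg), 0)) false (Bn 0 ((.inr κ : Kc C K Sg), i))
    (An 0 ((.inr κ : Kc C K Sg), i'))

/-- The control is not `c`, or the new cell is the constant `s`. -/
noncomputable def cst0 (c : C) (κ : K × Option Sg) (i : ℕ) (s : Bool) : CNF :=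
  [[(An 0 ((.inl c : Kc C K Sg), 0), false), (Bn 0 ((.inr κ : Kc C K Sg), i), s)]]

theorem sat_cst0 {c : C} {κ : K × Option Sg} {i : ℕ} {s : Bool} {a : Nm → Bool} :
    CNF.Sat (cst0 c κ i s) a ↔ (a (An 0 ((.inl c : Kc C K Sg), 0)) = true →
      a (Bn 0 ((.inr κ : Kc C K Sg), i)) = s) := by
  simp only [CNF.Sat, cst0, List.mem_cons, List.not_mem_nil, or_false, forall_eq,
    exists_eq_or_imp, exists_eq_left]
  cases a (An 0 ((.inl c : Kc C K Sg), 0)) <;> simp

variable (M : UM C K Sg) (W : ℕ)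

/-- The clauses determining a new stack cell when the control is `c`. -/
noncomputable def tgtS (c : C) (κ : K × Option Sg) (i : ℕ) : CNF :=
  if M.kk c = κ.1 then
    match M.ac c with
    | .keep => cpy c κ i i
    | .push b => match i with
      | 0 => cst0 c κ 0 (decide (some b = κ.2))
      | i' + 1 => cpy c κ (i' + 1) i'
    | .pop => if decide (i = W) then cst0 c κ i (decide (none = κ.2)) else cpy c κ i (i + 1)
  else cpy c κ i i

/-- The clauses determining a new control cell when the control is `c`. -/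
noncomputable def tgtC (c c' : C) (i : ℕ) : CNF :=
  (Finset.univ : Finset (Option Sg)).toList.map fun a =>
    [(An 0 ((.inl c : Kc C K Sg), 0), false), (An 0 ((.inr (M.kk c, a) : Kc C K Sg), 0), false),
      (Bn 0 ((.inl c' : Kc C K Sg), i), decide (c' = M.nx c a))]

/-- The clauses determining a new cell when the control is `c`. -/
noncomputable def tgt (c : C) : Kc C K Sg × ℕ → CNF
  | (.inl c', i) => tgtC M c c' i
  | (.inr κ, i) => tgtS M W c κ i

/-- All clauses of a step. -/
noncomputable def stepC : CNF :=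
  (cells (Kc C K Sg) W).flatMap fun cell =>
    (Finset.univ : Finset C).toList.flatMap fun c => tgt M W c cell

theorem sat_tgtC {c c' : C} {i : ℕ} {a : Nm → Bool} {x : C × (K → List Sg)}
    (h : ∀ cell ∈ cells (Kc C K Sg) W, a (An 0 cell) = val x cell) :
    CNF.Sat (tgtC (K := K) (Sg := Sg) M c c' i) a ↔ (c = x.1 →
      a (Bn 0 ((.inl c' : Kc C K Sg), i)) = val (M.step x) (.inl c', i)) := by
  have hc : a (An 0 ((.inl c : Kc C K Sg), 0)) = decide (c = x.1) :=
    h (.inl c, 0) (mem_cells.2 (Nat.zero_le _))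
  have hk : ∀ b, a (An 0 ((.inr (M.kk c, b) : Kc C K Sg), 0)) =
      decide ((x.2 (M.kk c))[0]? = b) := fun b =>
    h (.inr (M.kk c, b), 0) (mem_cells.2 (Nat.zero_le _))
  have h1 : CNF.Sat (tgtC (K := K) (Sg := Sg) M c c' i) a ↔ ∀ b : Option Sg,
      (a (An 0 ((.inl c : Kc C K Sg), 0)) = false ∨
        a (An 0 ((.inr (M.kk c, b) : Kc C K Sg), 0)) = false ∨
        a (Bn 0 ((.inl c' : Kc C K Sg), i)) = decide (c' = M.nx c b)) := by
    simp only [CNF.Sat, tgtC, List.mem_map, Finset.mem_toList, Finset.mem_univ, true_and,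
      forall_exists_index, forall_apply_eq_imp_iff, List.mem_cons, List.not_mem_nil, or_false,
      exists_eq_or_imp, exists_eq_left]
  rw [h1]
  simp only [hc, hk, decide_eq_false_iff_not]
  have h2 : val (M.step x) ((.inl c' : Kc C K Sg), i) =
      decide (c' = M.nx x.1 (x.2 (M.kk x.1)).head?) := rfl
  rw [h2]
  constructor
  · rintro h3 rfl
    rcases h3 ((x.2 (M.kk x.1))[0]?) with h4 | h4 | h4
    · exact absurd rfl h4
    · exact absurd rfl h4
    · rw [h4, List.head?_eq_getElem?]
  · intro h3 b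
    by_cases hcx : c = x.1
    · by_cases hb : (x.2 (M.kk c))[0]? = b
      · right; right
        rw [h3 hcx, ← hb, ← hcx, List.head?_eq_getElem?]
      · exact Or.inr (Or.inl hb)
    · exact Or.inl hcx

theorem sat_tgtS {c : C} {κ : K × Option Sg} {i : ℕ} (hi : i ≤ W) {a : Nm → Bool}
    {x : C × (K → List Sg)}
    (h : ∀ cell ∈ cells (Kc C K Sg) W, a (An 0 cell) = val x cell)
    (hx : ∀ k, (x.2 k).length ≤ W) :
    CNF.Sat (tgtS M W c κ i) a ↔ (c = x.1 →
      a (Bn 0 ((.inr κ : Kc C K Sg), i)) = val (M.step x) (.inr κ, i)) := by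
  have hc : a (An 0 ((.inl c : Kc C K Sg), 0)) = decide (c = x.1) :=
    h (.inl c, 0) (mem_cells.2 (Nat.zero_le _))
  have hk : ∀ i' ≤ W, a (An 0 ((.inr κ : Kc C K Sg), i')) = decide ((x.2 κ.1)[i']? = κ.2) :=
    fun i' hi' => h (.inr κ, i') (mem_cells.2 hi')
  have hcpy : ∀ i' ≤ W, (c = x.1 → val (M.step x) ((.inr κ : Kc C K Sg), i) =
      decide ((x.2 κ.1)[i']? = κ.2)) → (CNF.Sat (cpy c κ i i') a ↔ (c = x.1 →
      a (Bn 0 ((.inr κ : Kc C K Sg), i)) = val (M.step x) (.inr κ, i))) := by
    intro i' hi' hv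
    rw [cpy, sat_eqIf, hk i' hi', hc]
    by_cases hcx : c = x.1
    · simp [hcx, hv hcx]
    · simp [hcx]
  have hcst : ∀ s : Bool, (c = x.1 → val (M.step x) ((.inr κ : Kc C K Sg), i) = s) →
      (CNF.Sat (cst0 c κ i s) a ↔ (c = x.1 →
      a (Bn 0 ((.inr κ : Kc C K Sg), i)) = val (M.step x) (.inr κ, i))) := by
    intro s hv
    rw [sat_cst0, hc]
    by_cases hcx : c = x.1
    · simp [hcx, hv hcx]
    · simp [hcx]
  have hval : val (M.step x) ((.inr κ : Kc C K Sg), i) =
      decide (((M.step x).2 κ.1)[i]? = κ.2) := rfl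
  unfold tgtS
  by_cases hkk : M.kk c = κ.1
  · rw [if_pos hkk]
    have hst : c = x.1 → (M.step x).2 κ.1 = (M.ac c).app (x.2 κ.1) := by
      intro hcx
      rw [← hkk, hcx]
      simp [UM.step]
    cases hac : M.ac c with
    | keep =>
      refine hcpy i hi fun hcx => ?_
      rw [hval, hst hcx, hac]
      rfl
    | push b =>
      cases i with
      | zero =>
        refine hcst _ fun hcx => ?_
        rw [hval, hst hcx, hac]
        rfl
      | succ i =>
        refine hcpy i (by omega) fun hcx => ?_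
        rw [hval, hst hcx, hac]
        rfl
    | pop =>
      by_cases hiW : i = W
      · simp only [hiW, decide_true, if_true]
        subst hiW
        refine hcst _ fun hcx => ?_
        rw [hval, hst hcx, hac]
        have : ((x.2 κ.1).tail)[i]? = none := by
          rw [List.getElem?_eq_none_iff, List.length_tail]
          have := hx κ.1
          omega
        simp only [Act.app, this]
      · simp only [hiW, decide_false, Bool.false_eq_true, if_false]
        refine hcpy (i + 1) (by omega) fun hcx => ?_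
        rw [hval, hst hcx, hac]
        simp [Act.app]
  · rw [if_neg hkk]
    refine hcpy i hi fun hcx => ?_
    rw [hval]
    have : (M.step x).2 κ.1 = x.2 κ.1 := by
      simp only [UM.step]
      rw [Function.update_of_ne]
      rw [← hcx]
      exact fun e => hkk e.symm
    rw [this]

theorem sat_stepC {a : Nm → Bool} {x : C × (K → List Sg)}
    (h : ∀ cell ∈ cells (Kc C K Sg) W, a (An 0 cell) = val x cell)
    (hx : ∀ k, (x.2 k).length ≤ W) :
    CNF.Sat (stepC M W) a ↔ ∀ cell ∈ cells (Kc C K Sg) W,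
      a (Bn 0 cell) = val (M.step x) cell := by
  rw [stepC, sat_flatMap]
  refine forall₂_congr fun cell hcell => ?_
  rw [sat_flatMap]
  have h1 : ∀ c : C, CNF.Sat (tgt M W c cell) a ↔ (c = x.1 →
      a (Bn 0 cell) = val (M.step x) cell) := by
    intro c
    obtain ⟨κ, i⟩ := cell
    cases κ with
    | inl c' => exact sat_tgtC M W h
    | inr κ => exact sat_tgtS M W (mem_cells.1 hcell) h hx
  simp only [Finset.mem_toList, Finset.mem_univ, forall_true_left, h1]
  exact ⟨fun h => h _ rfl, fun h _ _ => h⟩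

theorem vars_stepC : ∀ cl ∈ stepC M W, ∀ l ∈ cl, ∃ c ∈ cells (Kc C K Sg) W,
    l.1 = An 0 c ∨ l.1 = Bn 0 c := by
  have hA : ∀ (κ : Kc C K Sg) (i : ℕ), i ≤ W → ∃ c ∈ cells (Kc C K Sg) W,
      An 0 (κ, i) = An 0 c ∨ An 0 (κ, i) = Bn 0 c := fun κ i hi =>
    ⟨(κ, i), mem_cells.2 hi, Or.inl rfl⟩
  have hB : ∀ (κ : Kc C K Sg) (i : ℕ), i ≤ W → ∃ c ∈ cells (Kc C K Sg) W,
      Bn 0 (κ, i) = An 0 c ∨ Bn 0 (κ, i) = Bn 0 c := fun κ i hi =>
    ⟨(κ, i), mem_cells.2 hi, Or.inr rfl⟩
  have h1 : ∀ (c : C) (κ : K × Option Sg) (i i' : ℕ), i ≤ W → i' ≤ W →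
      ∀ cl ∈ cpy c κ i i', ∀ l ∈ cl, ∃ c ∈ cells (Kc C K Sg) W,
        l.1 = An 0 c ∨ l.1 = Bn 0 c := by
    intro c κ i i' hi hi' cl hcl l hl
    simp only [cpy, eqIf, List.mem_cons, List.not_mem_nil, or_false] at hcl
    rcases hcl with rfl | rfl <;>
    · simp only [List.mem_cons, List.not_mem_nil, or_false] at hl
      rcases hl with rfl | rfl | rfl
      · exact hA _ _ (Nat.zero_le _)
      · exact hB _ _ hi
      · exact hA _ _ hi'
  have h2 : ∀ (c : C) (κ : K × Option Sg) (i : ℕ) (s : Bool), i ≤ W →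
      ∀ cl ∈ cst0 c κ i s, ∀ l ∈ cl, ∃ c ∈ cells (Kc C K Sg) W,
        l.1 = An 0 c ∨ l.1 = Bn 0 c := by
    intro c κ i s hi cl hcl l hl
    simp only [cst0, List.mem_cons, List.not_mem_nil, or_false] at hcl
    subst hcl
    simp only [List.mem_cons, List.not_mem_nil, or_false] at hl
    rcases hl with rfl | rfl
    · exact hA _ _ (Nat.zero_le _)
    · exact hB _ _ hi
  intro cl hcl l hl
  simp only [stepC, List.mem_flatMap, Finset.mem_toList, Finset.mem_univ, true_and] at hcl
  obtain ⟨⟨κ, i⟩, hcell, c, hcl⟩ := hcl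
  have hi : i ≤ W := mem_cells.1 hcell
  cases κ with
  | inl c' =>
    simp only [tgt, tgtC, List.mem_map, Finset.mem_toList, Finset.mem_univ, true_and] at hcl
    obtain ⟨b, rfl⟩ := hcl
    simp only [List.mem_cons, List.not_mem_nil, or_false] at hl
    rcases hl with rfl | rfl | rfl
    · exact hA _ _ (Nat.zero_le _)
    · exact hA _ _ (Nat.zero_le _)
    · exact hB _ _ hi
  | inr κ =>
    simp only [tgt, tgtS] at hcl
    by_cases hkk : M.kk c = κ.1
    · rw [if_pos hkk] at hcl
      cases hac : M.ac c with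
      | keep => rw [hac] at hcl; exact h1 c κ i i hi hi cl hcl l hl
      | push b =>
        rw [hac] at hcl
        cases i with
        | zero => exact h2 c κ 0 _ hi cl hcl l hl
        | succ i => exact h1 c κ (i + 1) i hi (by omega) cl hcl l hl
      | pop =>
        rw [hac] at hcl
        by_cases hiW : i = W
        · simp only [hiW, decide_true, if_true] at hcl
          exact h2 c κ W _ le_rfl cl hcl l hl
        · simp only [hiW, decide_false, Bool.false_eq_true, if_false] at hcl
          exact h1 c κ i (i + 1) hi (by omega) cl hcl l hl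
    · rw [if_neg hkk] at hcl
      exact h1 c κ i i hi hi cl hcl l hl

variable {Γ : Type} (c0 : C) (k₀ k₁ : K) (inX : Γ → Sg) (acc : Sg)

/-- The start configuration. -/
def x0 (x : List Γ) : C × (K → List Sg) := (c0, fun k => if k = k₀ then x.map inX else [])

/-- The clauses for the first and the last configuration. -/
noncomputable def initC (m : ℕ) (x : List Γ) : CNF :=
  ((cells (Kc C K Sg) W).map fun cell => [(An m cell, val (x0 c0 k₀ inX x) cell)]) ++
    [[(Bn m ((.inr (k₁, some acc) : Kc C K Sg), 0), true)]]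

/-- The instance. -/
noncomputable def inst (m : ℕ) (x : List Γ) : List Nm × CNF :=
  (flv (ab (Kc C K Sg) W m ++ pre (Kc C K Sg) W m),
    initC W c0 k₀ k₁ inX acc m x ++ Gc (Kc C K Sg) W (stepC M W) m)

theorem mem_full {j m : ℕ} (hj : j ≤ m) {q : Ix (Kc C K Sg)} (hq : q ∈ ab (Kc C K Sg) W j) :
    q ∈ ab (Kc C K Sg) W m ++ pre (Kc C K Sg) W m := by
  induction m with
  | zero =>
    obtain rfl : j = 0 := by omega
    exact List.mem_append_left _ hq
  | succ m ih =>
    by_cases h : j = m + 1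
    · subst h
      exact List.mem_append_left _ hq
    · exact List.mem_append_right _ (List.mem_append_right _ (ih (by omega)))

theorem mem_full_mx {j m : ℕ} (hj : j ≤ m) {q : Ix (Kc C K Sg)} (hq : q ∈ mx (Kc C K Sg) W j) :
    q ∈ ab (Kc C K Sg) W m ++ pre (Kc C K Sg) W m := by
  induction m with
  | zero =>
    obtain rfl : j = 0 := by omega
    exact List.mem_append_right _ hq
  | succ m ih =>
    by_cases h : j = m + 1
    · subst h
      exact List.mem_append_right _ (List.mem_append_left _ hq)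
    · exact List.mem_append_right _ (List.mem_append_right _ (ih (by omega)))

theorem wf_inst (m : ℕ) (x : List Γ) : WF (inst M W c0 k₀ k₁ inX acc m x) := by
  have hA : ∀ j ≤ m, ∀ c ∈ cells (Kc C K Sg) W, An j c ∈
      flv (ab (Kc C K Sg) W m ++ pre (Kc C K Sg) W m) := fun j hj c hc =>
    (mem_fl _ _).2 ⟨(.inl (0, c.1), j, c.2), mem_full W hj
      (mem_ab.2 ⟨rfl, (mem_cells (c := c)).1 hc, c.1, Or.inl rfl⟩), Or.inl rfl⟩
  have hB : ∀ j ≤ m, ∀ c ∈ cells (Kc C K Sg) W, Bn j c ∈
      flv (ab (Kc C K Sg) W m ++ pre (Kc C K Sg) W m) := fun j hj c hc =>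
    (mem_fl _ _).2 ⟨(.inl (1, c.1), j, c.2), mem_full W hj
      (mem_ab.2 ⟨rfl, (mem_cells (c := c)).1 hc, c.1, Or.inr rfl⟩), Or.inl rfl⟩
  have hM : ∀ j ≤ m, ∀ c ∈ cells (Kc C K Sg) W, Mn j c ∈
      flv (ab (Kc C K Sg) W m ++ pre (Kc C K Sg) W m) := fun j hj c hc =>
    (mem_fl _ _).2 ⟨(.inl (2, c.1), j, c.2), mem_full_mx W hj
      (mem_mx.2 (Or.inl (mem_mm.2 ⟨rfl, (mem_cells (c := c)).1 hc, c.1, rfl⟩))), Or.inl rfl⟩
  have hb : ∀ j ≤ m, bn (Kc C K Sg) j ∈
      flv (ab (Kc C K Sg) W m ++ pre (Kc C K Sg) W m) := fun j hj =>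
    (mem_fl _ _).2 ⟨(.inr (), j, 0), mem_full_mx W hj (mem_mx.2 (Or.inr rfl)), Or.inr rfl⟩
  refine ⟨nodup_fl _ _ (nodup_ab_pre m) (vn_injective _) (vn_injective _) vn_ne,
    length_fl _ _ _, ?_⟩
  intro cl hcl l hl
  show l.1 ∈ flv (ab (Kc C K Sg) W m ++ pre (Kc C K Sg) W m)
  have hcl' : cl ∈ initC W c0 k₀ k₁ inX acc m x ++ Gc (Kc C K Sg) W (stepC M W) m := hcl
  rcases List.mem_append.1 hcl' with h | h
  · simp only [initC, List.mem_append, List.mem_map, List.mem_singleton] at h
    rcases h with ⟨c, hc, rfl⟩ | rfl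
    · simp only [List.mem_singleton] at hl
      subst hl
      exact hA m le_rfl c hc
    · simp only [List.mem_singleton] at hl
      subst hl
      exact hB m le_rfl _ (mem_cells.2 (Nat.zero_le _))
  · have key : ∀ j ≤ m, cl ∈ Gc (Kc C K Sg) W (stepC M W) j →
        l.1 ∈ flv (ab (Kc C K Sg) W m ++ pre (Kc C K Sg) W m) := by
      intro j
      induction j with
      | zero =>
        intro _ h
        obtain ⟨c, hc, h1 | h1⟩ := vars_stepC M W cl h l hl
        · rw [h1]; exact hA 0 (Nat.zero_le _) c hc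
        · rw [h1]; exact hB 0 (Nat.zero_le _) c hc
      | succ j ih =>
        intro hj h
        rw [Gc, List.mem_append] at h
        rcases h with h | h
        · simp only [lev, eqIf, List.mem_flatMap, List.mem_append, List.mem_cons,
            List.not_mem_nil, or_false] at h
          have h1 := hA j (by omega)
          have h2 := hB j (by omega)
          have h3 := hA (j + 1) hj
          have h4 := hB (j + 1) hj
          have h5 := hM (j + 1) hj
          have h6 := hb (j + 1) hj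
          obtain ⟨c, hc, (rfl | rfl) | (rfl | rfl) | (rfl | rfl) | (rfl | rfl)⟩ := h <;>
          · simp only [List.mem_cons, List.not_mem_nil, or_false] at hl
            rcases hl with rfl | rfl | rfl
            all_goals first
              | exact h6
              | exact h1 c hc
              | exact h2 c hc
              | exact h3 c hc
              | exact h4 c hc
              | exact h5 c hc
        · exact ih (by omega) h
    exact key m le_rfl h

theorem inst_correct (m : ℕ) (x : List Γ)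
    (hW : ∀ t k, ((M.step^[t] (x0 c0 k₀ inX x)).2 k).length ≤ W) :
    ATrue (inst M W c0 k₀ k₁ inX acc m x) ↔
      ((M.step^[2 ^ m] (x0 c0 k₀ inX x)).2 k₁)[0]? = some acc := by
  have hS : ∀ cl ∈ stepC M W, ∀ l ∈ cl, ∃ c : Kc C K Sg × ℕ, l.1 = An 0 c ∨ l.1 = Bn 0 c := by
    intro cl hcl l hl
    obtain ⟨c, _, h⟩ := vars_stepC M W cl hcl l hl
    exact ⟨c, h⟩
  have hsav := sav (W := W) (S := stepC M W)
    (v := fun t => val (M.step^[t] (x0 c0 k₀ inX x))) hS (by
      intro a t h
      rw [sat_stepC M W h (hW t)]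
      simp only [Function.iterate_succ_apply']) m
  have hin : ∀ cl ∈ initC W c0 k₀ k₁ inX acc m x, ∀ l ∈ cl,
      l.1 ∉ flv (pre (Kc C K Sg) W m) := by
    intro cl hcl l hl
    simp only [initC, List.mem_append, List.mem_map, List.mem_singleton] at hcl
    rcases hcl with ⟨c, _, rfl⟩ | rfl
    · simp only [List.mem_singleton] at hl
      subst hl
      exact An_notin le_rfl c
    · simp only [List.mem_singleton] at hl
      subst hl
      exact Bn_notin le_rfl _
  have hsat : ∀ a : Nm → Bool, CNF.Sat (initC W c0 k₀ k₁ inX acc m x) a ↔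
      (∀ c ∈ cells (Kc C K Sg) W, a (An m c) = val (x0 c0 k₀ inX x) c) ∧
        a (Bn m ((.inr (k₁, some acc) : Kc C K Sg), 0)) = true := by
    intro a
    simp only [CNF.Sat, initC, List.mem_append, List.mem_map, List.mem_singleton]
    constructor
    · intro h
      refine ⟨fun c hc => ?_, ?_⟩
      · obtain ⟨l, hl, h1⟩ := h _ (Or.inl ⟨c, hc, rfl⟩)
        simp only [List.mem_singleton] at hl
        subst hl
        exact h1
      · obtain ⟨l, hl, h1⟩ := h _ (Or.inr rfl)
        simp only [List.mem_singleton] at hl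
        subst hl
        exact h1
    · rintro ⟨h1, h2⟩ cl (⟨c, hc, rfl⟩ | rfl)
      · exact ⟨_, List.mem_singleton.2 rfl, h1 c hc⟩
      · exact ⟨_, List.mem_singleton.2 rfl, h2⟩
  have e1 : (inst M W c0 k₀ k₁ inX acc m x).1 =
      flv (ab (Kc C K Sg) W m) ++ flv (pre (Kc C K Sg) W m) := fl_append _ _ _ _
  unfold ATrue
  rw [e1]
  show Alt (initC W c0 k₀ k₁ inX acc m x ++ Gc (Kc C K Sg) W (stepC M W) m) true _ _ ↔ _
  have hval : ∀ t, val (M.step^[t] (x0 c0 k₀ inX x)) ((.inr (k₁, some acc) : Kc C K Sg), 0) =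
      decide (((M.step^[t] (x0 c0 k₀ inX x)).2 k₁)[0]? = some acc) := fun _ => rfl
  constructor
  · intro h
    obtain ⟨a, _, h1⟩ := alt_block_mp _ _ h
    rw [alt_append hin, hsat] at h1
    obtain ⟨⟨h2, h3⟩, h4⟩ := h1
    have h5 := (hsav a 0 h2).1 h4 (.inr (k₁, some acc), 0) (mem_cells.2 (Nat.zero_le _))
    rw [h3, Nat.zero_add, hval] at h5
    exact decide_eq_true_iff.1 h5.symm
  · intro h
    refine alt_block_mpr _ _ (fun q => match q.1 with
        | .inl (k, κ) => if k = 0 then val (x0 c0 k₀ inX x) (κ, q.2.2)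
          else val (M.step^[2 ^ m] (x0 c0 k₀ inX x)) (κ, q.2.2)
        | .inr _ => false) (nodup_ab W _) (vn_injective _) vn_ne fun a _ h2 => ?_
    have hA : ∀ c ∈ cells (Kc C K Sg) W, a (An m c) = val (x0 c0 k₀ inX x) c := fun c hc =>
      h2 (.inl (0, c.1), m, c.2) (mem_ab.2 ⟨rfl, (mem_cells (c := c)).1 hc, c.1, Or.inl rfl⟩)
    have hB : ∀ c ∈ cells (Kc C K Sg) W, a (Bn m c) =
        val (M.step^[2 ^ m] (x0 c0 k₀ inX x)) c := fun c hc =>
      h2 (.inl (1, c.1), m, c.2) (mem_ab.2 ⟨rfl, (mem_cells (c := c)).1 hc, c.1, Or.inr rfl⟩)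
    rw [alt_append hin, hsat]
    refine ⟨⟨hA, ?_⟩, (hsav a 0 hA).2 fun c hc => ?_⟩
    · rw [hB _ (mem_cells.2 (Nat.zero_le _)), hval, h]
      simp
    · rw [hB c hc, Nat.zero_add]

end machine

/-! ### Polynomial time -/

section polyn

variable {E : Env} {γ β : Type} [Enc E γ] [Enc E β]

theorem poly_flatConst {ι : Type} (l : List ι) {H : ι → γ → List β} (h : ∀ k, Poly E (H k)) :
    Poly E (fun c => l.flatMap fun k => H k c) := by
  induction l with
  | nil => exact Poly.const _
  | cons k l ih => exact Poly.append (h k) ih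

theorem poly_mapConst {ι : Type} (l : List ι) {H : ι → γ → β} (h : ∀ k, Poly E (H k)) :
    Poly E (fun c => l.map fun k => H k c) := by
  induction l with
  | nil => exact Poly.const _
  | cons k l ih => exact Poly.cons (h k) ih

variable {Kn : Type} [Fintype Kn]

theorem poly_cells {W : γ → ℕ} {H : γ → Kn × ℕ → List β} (hW : Poly E W)
    (h : ∀ κ, Poly E (fun p : γ × ℕ => H p.1 (κ, p.2))) :
    Poly E (fun c => (cells Kn (W c)).flatMap (H c)) := by
  have h1 : Poly E (fun p : γ × ℕ => (Finset.univ : Finset Kn).toList.flatMap fun κ =>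
      H p.1 (κ, p.2)) := poly_flatConst _ h
  refine (Poly.flatMap (g := fun p : γ × ℕ => (Finset.univ : Finset Kn).toList.flatMap fun κ =>
      H p.1 (κ, p.2)) (Poly.range hW.succ) h1).congr fun c => ?_
  rw [cells, List.flatMap_assoc]
  simp only [List.flatMap_map]

theorem poly_vn (e : Bool) (b : Bk Kn) {j i : γ → ℕ} (hj : Poly E j) (hi : Poly E i) :
    Poly E (fun c => vn e (b, j c, i c)) :=
  poly_nm (Fintype.equivFin (Bk Kn × Bool) (b, e) : ℕ) hj hi

theorem poly_An (κ : Kn) {j i : γ → ℕ} (hj : Poly E j) (hi : Poly E i) :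
    Poly E (fun c => An (j c) (κ, i c)) := poly_vn false (.inl (0, κ)) hj hi
theorem poly_Bn (κ : Kn) {j i : γ → ℕ} (hj : Poly E j) (hi : Poly E i) :
    Poly E (fun c => Bn (j c) (κ, i c)) := poly_vn false (.inl (1, κ)) hj hi
theorem poly_Mn (κ : Kn) {j i : γ → ℕ} (hj : Poly E j) (hi : Poly E i) :
    Poly E (fun c => Mn (j c) (κ, i c)) := poly_vn false (.inl (2, κ)) hj hi
theorem poly_bn {j : γ → ℕ} (hj : Poly E j) :
    Poly E (fun c => bn Kn (j c)) := poly_vn (Kn := Kn) true (.inr ()) hj (Poly.const 0)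

theorem poly_eqIf {b x y : γ → Nm} (s : Bool) (hb : Poly E b) (hx : Poly E x) (hy : Poly E y) :
    Poly E (fun c => eqIf (b c) s (x c) (y c)) :=
  Poly.cons (Poly.cons (hb.pair (Poly.const s)) (Poly.cons (hx.pair (Poly.const true))
    (Poly.cons (hy.pair (Poly.const false)) (Poly.const []))))
    (Poly.cons (Poly.cons (hb.pair (Poly.const s)) (Poly.cons (hx.pair (Poly.const false))
    (Poly.cons (hy.pair (Poly.const true)) (Poly.const [])))) (Poly.const []))

theorem poly_lev {W j : γ → ℕ} (hW : Poly E W) (hj : Poly E j) :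
    Poly E (fun c => lev Kn (W c) (j c)) := by
  refine poly_cells (H := fun c cell =>
    eqIf (bn Kn (j c + 1)) false (An (j c) cell) (Mn (j c + 1) cell) ++
    (eqIf (bn Kn (j c + 1)) true (An (j c) cell) (An (j c + 1) cell) ++
    (eqIf (bn Kn (j c + 1)) false (Bn (j c) cell) (Bn (j c + 1) cell) ++
    eqIf (bn Kn (j c + 1)) true (Bn (j c) cell) (Mn (j c + 1) cell)))) hW fun κ => ?_
  have hj' : Poly E (fun p : γ × ℕ => j p.1) := hj.comp Poly.fst
  have hi : Poly E (fun p : γ × ℕ => p.2) := Poly.snd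
  exact Poly.append (poly_eqIf _ (poly_bn hj'.succ) (poly_An κ hj' hi) (poly_Mn κ hj'.succ hi))
    (Poly.append (poly_eqIf _ (poly_bn hj'.succ) (poly_An κ hj' hi) (poly_An κ hj'.succ hi))
    (Poly.append (poly_eqIf _ (poly_bn hj'.succ) (poly_Bn κ hj' hi) (poly_Bn κ hj'.succ hi))
    (poly_eqIf _ (poly_bn hj'.succ) (poly_Bn κ hj' hi) (poly_Mn κ hj'.succ hi))))

theorem Gc_eq (W : ℕ) (S : CNF) (m : ℕ) :
    Gc Kn W S m = ((List.range m).reverse.flatMap fun j => lev Kn W j) ++ S := by
  induction m with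
  | zero => rfl
  | succ m ih =>
    rw [Gc, ih, List.range_succ, List.reverse_append]
    simp

theorem poly_Gc {W m : γ → ℕ} {S : γ → CNF} (hW : Poly E W) (hS : Poly E S) (hm : Poly E m) :
    Poly E (fun c => Gc Kn (W c) (S c) (m c)) := by
  refine (Poly.append (Poly.flatMap (g := fun p : γ × ℕ => lev Kn (W p.1) p.2)
    hm.range.reverse (poly_lev (hW.comp Poly.fst) Poly.snd)) hS).congr fun c => ?_
  rw [Gc_eq]

theorem flv_ab (W j : ℕ) : flv (ab Kn W j) = (cells Kn W).flatMap fun c =>
    [vn false (.inl (0, c.1), j, c.2), vn true (.inl (0, c.1), j, c.2),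
      vn false (.inl (1, c.1), j, c.2), vn true (.inl (1, c.1), j, c.2)] := by
  rw [flv, fl, ab, List.flatMap_assoc]
  rfl

theorem flv_mx (W j : ℕ) : flv (mx Kn W j) = ((cells Kn W).flatMap fun c =>
    [vn false (.inl (2, c.1), j, c.2), vn true (.inl (2, c.1), j, c.2)]) ++
      [vn (Kn := Kn) false (.inr (), j, 0), vn (Kn := Kn) true (.inr (), j, 0)] := by
  rw [flv, mx, fl_append, mm, fl, List.flatMap_map]
  rfl

theorem flv_full (W m : ℕ) : flv (ab Kn W m ++ pre Kn W m) =
    (List.range (m + 1)).reverse.flatMap fun j => flv (ab Kn W j) ++ flv (mx Kn W j) := by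
  induction m with
  | zero => simp [flv, fl_append, pre]
  | succ m ih =>
    rw [List.range_succ, List.reverse_append, List.reverse_singleton, List.singleton_append,
      List.flatMap_cons, ← ih, pre]
    simp only [flv, fl_append, List.append_assoc]

theorem poly_full {W m : γ → ℕ} (hW : Poly E W) (hm : Poly E m) :
    Poly E (fun c => flv (ab Kn (W c) (m c) ++ pre Kn (W c) (m c))) := by
  have hW' : Poly E (fun p : γ × ℕ => W p.1) := hW.comp Poly.fst
  have h1 : Poly E (fun p : γ × ℕ => flv (ab Kn (W p.1) p.2)) := by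
    refine (poly_cells (H := fun p (c : Kn × ℕ) =>
      [vn false (.inl (0, c.1), p.2, c.2), vn true (.inl (0, c.1), p.2, c.2),
      vn false (.inl (1, c.1), p.2, c.2), vn true (.inl (1, c.1), p.2, c.2)]) hW'
      fun κ => ?_).congr fun p => (flv_ab _ _).symm
    have hj : Poly E (fun p : (γ × ℕ) × ℕ => p.1.2) := Poly.snd.comp Poly.fst
    have hi : Poly E (fun p : (γ × ℕ) × ℕ => p.2) := Poly.snd
    show Poly E (fun p : (γ × ℕ) × ℕ => [vn false (.inl (0, κ), p.1.2, p.2),
      vn true (.inl (0, κ), p.1.2, p.2), vn false (.inl (1, κ), p.1.2, p.2),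
      vn true (.inl (1, κ), p.1.2, p.2)])
    exact Poly.cons (poly_vn false (.inl (0, κ)) hj hi) (Poly.cons (poly_vn true (.inl (0, κ)) hj hi)
      (Poly.cons (poly_vn false (.inl (1, κ)) hj hi)
        (Poly.cons (poly_vn true (.inl (1, κ)) hj hi) (Poly.const []))))
  have h2 : Poly E (fun p : γ × ℕ => flv (mx Kn (W p.1) p.2)) := by
    refine (Poly.append (poly_cells (H := fun p (c : Kn × ℕ) =>
      [vn false (.inl (2, c.1), p.2, c.2), vn true (.inl (2, c.1), p.2, c.2)]) hW'
      fun κ => ?_) (Poly.cons (poly_vn (Kn := Kn) false (.inr ()) (i := fun _ => 0) Poly.snd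
        (Poly.const 0)) (Poly.cons (poly_vn (Kn := Kn) true (.inr ()) (i := fun _ => 0) Poly.snd
        (Poly.const 0)) (Poly.const [])))).congr fun p => (flv_mx _ _).symm
    have hj : Poly E (fun p : (γ × ℕ) × ℕ => p.1.2) := Poly.snd.comp Poly.fst
    have hi : Poly E (fun p : (γ × ℕ) × ℕ => p.2) := Poly.snd
    show Poly E (fun p : (γ × ℕ) × ℕ => [vn false (.inl (2, κ), p.1.2, p.2),
      vn true (.inl (2, κ), p.1.2, p.2)])
    exact Poly.cons (poly_vn false (.inl (2, κ)) hj hi)
      (Poly.cons (poly_vn true (.inl (2, κ)) hj hi) (Poly.const []))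
  refine (Poly.flatMap (g := fun p : γ × ℕ => flv (ab Kn (W p.1) p.2) ++ flv (mx Kn (W p.1) p.2))
    hm.succ.range.reverse (Poly.append h1 h2)).congr fun c => ?_
  rw [flv_full]

section mach

variable {C K Sg : Type} [Fintype C] [DecidableEq C] [Fintype K] [DecidableEq K]
  [Fintype Sg] [DecidableEq Sg] (M : UM C K Sg)

theorem poly_cpy (c : C) (κ : K × Option Sg) {i i' : γ → ℕ} (hi : Poly E i) (hi' : Poly E i') :
    Poly E (fun x => cpy c κ (i x) (i' x)) :=
  poly_eqIf _ (Poly.const _) (poly_Bn _ (Poly.const 0) hi) (poly_An _ (Poly.const 0) hi')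

theorem poly_cst0 (c : C) (κ : K × Option Sg) {i : γ → ℕ} (s : Bool) (hi : Poly E i) :
    Poly E (fun x => cst0 c κ (i x) s) :=
  Poly.cons (Poly.cons (Poly.const _) (Poly.cons ((poly_Bn _ (Poly.const 0) hi).pair
    (Poly.const s)) (Poly.const []))) (Poly.const [])

theorem poly_tgtS (c : C) (κ : K × Option Sg) {W i : γ → ℕ} (hW : Poly E W) (hi : Poly E i) :
    Poly E (fun x => tgtS M (W x) c κ (i x)) := by
  unfold tgtS
  by_cases hkk : M.kk c = κ.1
  · simp only [if_pos hkk]
    cases hac : M.ac c with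
    | keep => exact poly_cpy c κ hi hi
    | push b =>
      refine (Poly.natCases (f := i) (g := fun _ => cst0 c κ 0 (decide (some b = κ.2)))
        (h := fun p : γ × ℕ => cpy c κ (p.2 + 1) p.2) hi (Poly.const _)
        (poly_cpy c κ (Poly.succ Poly.snd) Poly.snd)).congr fun x => ?_
      cases i x <;> rfl
    | pop =>
      exact Poly.ite (Poly.eq hi hW) (poly_cst0 c κ _ hi) (poly_cpy c κ hi hi.succ)
  · simp only [if_neg hkk]
    exact poly_cpy c κ hi hi

theorem poly_tgt (c : C) (κ : Kc C K Sg) {W i : γ → ℕ} (hW : Poly E W) (hi : Poly E i) :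
    Poly E (fun x => tgt M (W x) c (κ, i x)) := by
  cases κ with
  | inl c' =>
    exact poly_mapConst _ fun a => Poly.cons (Poly.const _) (Poly.cons (Poly.const _)
      (Poly.cons ((poly_Bn _ (Poly.const 0) hi).pair (Poly.const _)) (Poly.const [])))
  | inr κ => exact poly_tgtS M c κ hW hi

theorem poly_stepC {W : γ → ℕ} (hW : Poly E W) : Poly E (fun x => stepC M (W x)) :=
  poly_cells (H := fun x cell => (Finset.univ : Finset C).toList.flatMap fun c =>
    tgt M (W x) c cell) hW fun κ => poly_flatConst _ fun c =>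
      poly_tgt M c κ (hW.comp Poly.fst) Poly.snd

variable {Γ : Type} [Fintype Γ] [Enc E Γ] (c0 : C) (k₀ k₁ : K) (inX : Γ → Sg) (acc : Sg)

theorem poly_val {x : γ → List Γ} {i : γ → ℕ} (κ : Kc C K Sg) (hx : Poly E x) (hi : Poly E i) :
    Poly E (fun c => val (x0 c0 k₀ inX (x c)) (κ, i c)) := by
  cases κ with
  | inl c => exact (Poly.const (decide (c = c0)) : Poly E (fun _ : γ => decide (c = c0)))
  | inr κ =>
    obtain ⟨k, a⟩ := κ
    let : Enc E Sg := finEnc E Sg
    by_cases hk : k = k₀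
    · have h1 : Poly E (fun c => (x c).map inX) :=
        Poly.map (g := fun p : γ × Γ => inX p.2) hx (Poly.comp₁ inX Poly.snd)
      have h2 : Poly E (fun c => ((x c).map inX)[i c]?) := Poly.getElem? h1 hi
      refine (Poly.eq h2 (Poly.const a)).congr fun c => ?_
      simp only [val, x0, if_pos hk]
    · refine (Poly.const (decide ((none : Option Sg) = a))).congr fun c => ?_
      simp only [val, x0, if_neg hk, List.getElem?_nil]

theorem poly_initC {W m : γ → ℕ} {x : γ → List Γ} (hW : Poly E W) (hm : Poly E m)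
    (hx : Poly E x) : Poly E (fun c => initC (K := K) (W c) c0 k₀ k₁ inX acc (m c) (x c)) := by
  refine Poly.append ?_ (Poly.cons (Poly.cons ((poly_Bn _ hm (Poly.const 0)).pair
    (Poly.const true)) (Poly.const [])) (Poly.const []))
  refine (poly_cells (H := fun c cell => [[(An (m c) cell,
    val (x0 c0 k₀ inX (x c)) cell)]]) hW fun κ => ?_).congr fun c => ?_
  · exact Poly.cons (Poly.cons ((poly_An κ (hm.comp Poly.fst) Poly.snd).pair
      (poly_val c0 k₀ inX κ (hx.comp Poly.fst) Poly.snd)) (Poly.const [])) (Poly.const [])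
  · rw [List.map_eq_flatMap]

end mach

end polyn

/-- The Savitch game of a machine with polynomial space as an alternating formula. -/
theorem um_acnf {Γ : Type} [Fintype Γ] {C K Sg : Type} [Fintype C] [DecidableEq C] [Fintype K]
    [DecidableEq K] [Fintype Sg] [DecidableEq Sg] (M : UM C K Sg) (c0 : C) (k₀ k₁ : K)
    (inX : Γ → Sg) (acc : Sg) (p q : ℕ[X]) :
    ∃ I : List Γ → List Nm × CNF, (∀ (E : Env) [Enc E Γ], Poly E I) ∧ (∀ x, WF (I x)) ∧
      ∀ x, (∀ t k, ((M.step^[t] (c0, fun k => if k = k₀ then x.map inX else [])).2 k).length ≤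
          p.eval x.length) →
        (ATrue (I x) ↔ ((M.step^[2 ^ (q.eval x.length)]
          (c0, fun k => if k = k₀ then x.map inX else [])).2 k₁)[0]? = some acc) := by
  refine ⟨fun x => inst M (p.eval x.length) c0 k₀ k₁ inX acc (q.eval x.length) x,
    fun E _ => ?_, fun x => wf_inst M _ c0 k₀ k₁ inX acc _ x, fun x h =>
    inst_correct M _ c0 k₀ k₁ inX acc _ x h⟩
  have hW : Poly E (fun x : List Γ => p.eval x.length) := Poly.polyEval p (Poly.length Poly.id)
  have hm : Poly E (fun x : List Γ => q.eval x.length) := Poly.polyEval q (Poly.length Poly.id)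
  exact (poly_full hW hm).pair (Poly.append (poly_initC c0 k₀ k₁ inX acc hW hm Poly.id)
    (poly_Gc hW (poly_stepC M hW) hm))

end Pool.Agent.SetPS
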