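import Pool.Agent.SetPS.PspaceUM
import Pool.Agent.SetPS.Savitch

/-!
# Polynomial space reduces to alternating formulas
-/

namespace Pool.Agent.SetPS

open Pool.Agent.PT81 Pool.Agent.IsoImp Polynomial

/-- Every problem in polynomial space reduces to the truth of alternating formulas. -/
theorem pspace_acnf {Γ : Type} [Fintype Γ] (L : Set (List Γ)) (hL : InPSPACE L) :
    ∃ I : List Γ → List Nm × CNF, (∀ (E : Env) [Enc E Γ], Poly E I) ∧ (∀ x, WF (I x)) ∧
      ∀ x, (x ∈ L ↔ ATrue (I x)) := by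
  obtain ⟨C, K, Sg, _, _, _, _, _, _, M, c0, k₀, k₁, inX, acc, p, q, h⟩ := pspace_um L hL
  obtain ⟨I, h1, h2, h3⟩ := um_acnf M c0 k₀ k₁ inX acc p q
  exact ⟨I, h1, h2, fun x => (h x).2.trans (h3 x (h x).1).symm⟩

end Pool.Agent.SetPS
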