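import Pool.Agent.SetPS.GadDefs
import Pool.Agent.Lib_MP_a1eae6_lc.Hard

/-!
# Module F1: polynomial space machines as simple machines with an exponential time bound
-/

set_option linter.unusedSectionVars false

namespace Pool.Agent.SetPS

open Pool.Agent.PT81 Pool.Agent.IsoImp Polynomial Turing

/-! ### Simple machines -/

section um

variable {C K Sg : Type} [DecidableEq K]

theorem um_len_step (M : UM C K Sg) (x : C × (K → List Sg)) (k : K) :
    ((M.step x).2 k).length ≤ (x.2 k).length + 1 := by
  unfold UM.step
  by_cases h : k = M.kk x.1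
  · subst h
    simp only [Function.update_self]
    cases M.ac x.1 with
    | keep => simp [Act.app]
    | push a => simp [Act.app]
    | pop => simp only [Act.app, List.length_tail]; omega
  · simp [Function.update_of_ne h]

theorem um_len_iter (M : UM C K Sg) (n : ℕ) : ∀ (x : C × (K → List Sg)) (k : K),
    ((M.step^[n] x).2 k).length ≤ (x.2 k).length + n := by
  induction n with
  | zero => intro x k; simp
  | succ n ih =>
    intro x k
    rw [Function.iterate_succ_apply]
    have h1 := ih (M.step x) k
    have h2 := um_len_step M x k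
    omega

/-- A run in bounded space that reaches a fixed configuration does so in at most as many steps
as there are configurations. -/
theorem um_time [Fintype C] [Fintype K] [Fintype Sg] (M : UM C K Sg)
    (x : C × (K → List Sg)) (W : ℕ) (hW : ∀ t k, ((M.step^[t] x).2 k).length ≤ W)
    (H : C × (K → List Sg)) (hH : M.step H = H) (hx : ∃ t, M.step^[t] x = H) :
    ∃ T, T < Fintype.card C * ((Fintype.card Sg + 1) ^ W) ^ Fintype.card K ∧
      M.step^[T] x = H := by
  classical
  have hHt : ∀ n, M.step^[n] H = H := by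
    intro n
    induction n with
    | zero => rfl
    | succ n ih => rw [Function.iterate_succ_apply, hH, ih]
  set T := Nat.find hx with hT
  have hTs : M.step^[T] x = H := Nat.find_spec hx
  have hTmin : ∀ t, t < T → M.step^[t] x ≠ H := fun t ht => Nat.find_min hx ht
  refine ⟨T, ?_, hTs⟩
  -- the configurations up to time T are distinct
  have hne : ∀ i j, i < j → j ≤ T → M.step^[i] x ≠ M.step^[j] x := by
    intro i j hij hj he
    refine hTmin (i + (T - j)) (by omega) ?_
    rw [Nat.add_comm, Function.iterate_add_apply, he, ← Function.iterate_add_apply]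
    rw [Nat.sub_add_cancel hj]
    exact hTs
  let code : Fin (T + 1) → C × (K → Fin W → Option Sg) := fun i =>
    ((M.step^[i.1] x).1, fun k j => ((M.step^[i.1] x).2 k)[j.1]?)
  have hinj : Function.Injective code := by
    intro i j hij
    by_contra hcon
    have hconf : M.step^[i.1] x = M.step^[j.1] x := by
      simp only [code, Prod.mk.injEq] at hij
      refine Prod.ext hij.1 ?_
      funext k
      apply List.ext_getElem?
      intro n
      by_cases hn : n < W
      · exact congrFun (congrFun hij.2 k) ⟨n, hn⟩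
      · rw [List.getElem?_eq_none ((hW i.1 k).trans (by omega)),
          List.getElem?_eq_none ((hW j.1 k).trans (by omega))]
    rcases lt_trichotomy i.1 j.1 with h | h | h
    · exact hne _ _ h (by omega) hconf
    · exact hcon (Fin.ext h)
    · exact hne _ _ h (by omega) hconf.symm
  have hcard := Fintype.card_le_of_injective code hinj
  rw [Fintype.card_fin, Fintype.card_prod, Fintype.card_fun, Fintype.card_fun, Fintype.card_option,
    Fintype.card_fin] at hcard
  omega

end um

/-! ### Simulation -/

section cover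

variable {tm : FinTM2} {g : Σ k, tm.Γ k}

theorem relS_len {S : ∀ k, List (tm.Γ k)} {S' : tm.K → List (SS tm g)} (h : RelS tm g S S')
    (k : tm.K) : (S' k).length = (S k).length := by
  have := congrArg List.length (h k)
  simpa using this

theorem iter_none (tm : FinTM2) (n : ℕ) :
    (flip bind (TM2.step tm.m))^[n] (none : Option (TM2.Cfg tm.Γ tm.Λ tm.σ)) = none := by
  induction n with
  | zero => rfl
  | succ n ih => rw [Function.iterate_succ_apply]; exact ih

/-- Every micro configuration before the end of the run is close to a macro configuration. -/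
theorem cover (n : ℕ) : ∀ {c c' : TM2.Cfg tm.Γ tm.Λ tm.σ}
    {x : CC tm × (tm.K → List (SS tm g))} (_ : RelC tm g c x)
    (_ : (flip bind (TM2.step tm.m))^[n] (some c) = some c'),
    ∃ T, RelC tm g c' ((sim tm g).step^[T] x) ∧
      ∀ t ≤ T, ∃ j c'' s, (flip bind (TM2.step tm.m))^[j] (some c) = some c'' ∧ s ≤ t ∧
        t ≤ s + depMax tm ∧ RelC tm g c'' ((sim tm g).step^[s] x) := by
  induction n with
  | zero =>
    intro c c' x h hc
    simp only [Function.iterate_zero, id_eq, Option.some.injEq] at hc
    subst hc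
    refine ⟨0, h, fun t ht => ⟨0, c, 0, rfl, by omega, by omega, h⟩⟩
  | succ n ih =>
    intro c c' x h hc
    rw [Function.iterate_succ_apply] at hc
    cases hs : TM2.step tm.m c with
    | none =>
      have : (flip bind (TM2.step tm.m)) (some c) = none := by simp [flip, hs]
      rw [this, iter_none] at hc
      exact absurd hc (by simp)
    | some c₁ =>
      have h1' : (flip bind (TM2.step tm.m)) (some c) = some c₁ := by simp [flip, hs]
      rw [h1'] at hc
      obtain ⟨k₁, hk₁, h₁⟩ := sim_step h hs
      obtain ⟨T, hT, hcov⟩ := ih h₁ hc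
      refine ⟨T + k₁, ?_, ?_⟩
      · rw [Function.iterate_add_apply]; exact hT
      · intro t ht
        by_cases htk : t ≤ k₁
        · exact ⟨0, c, 0, rfl, by omega, by omega, h⟩
        · obtain ⟨j, c'', s, hj, hs1, hs2, hr⟩ := hcov (t - k₁) (by omega)
          refine ⟨j + 1, c'', s + k₁, ?_, by omega, by omega, ?_⟩
          · rw [Function.iterate_succ_apply, h1']
            exact hj
          · rw [Function.iterate_add_apply]; exact hr

end cover

theorem len_le_space (tm : FinTM2) (c : tm.Cfg) (k : tm.K) : (c.stk k).length ≤ space tm c := by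
  letI := tm.kFin
  unfold space
  exact Finset.single_le_sum (f := fun k => (c.stk k).length) (fun _ _ => Nat.zero_le _)
    (Finset.mem_univ k)

theorem peval_mono (p : ℕ[X]) {a b : ℕ} (h : a ≤ b) : p.eval a ≤ p.eval b := by
  exact pmono p h

/-- Module F1. -/
theorem pspace_um {Γ : Type} [Fintype Γ] (L : Set (List Γ)) (hL : InPSPACE L) :
    ∃ (C K Sg : Type) (_ : Fintype C) (_ : DecidableEq C) (_ : Fintype K) (_ : DecidableEq K)
      (_ : Fintype Sg) (_ : DecidableEq Sg) (M : UM C K Sg) (c0 : C) (k₀ k₁ : K) (inX : Γ → Sg)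
      (acc : Sg) (p q : ℕ[X]), ∀ x : List Γ,
      (∀ t k, ((M.step^[t] (c0, fun k => if k = k₀ then x.map inX else [])).2 k).length ≤
        p.eval x.length) ∧
      (x ∈ L ↔ ((M.step^[2 ^ (q.eval x.length)]
        (c0, fun k => if k = k₀ then x.map inX else [])).2 k₁)[0]? = some acc) := by
  classical
  obtain ⟨tm, inA, outA, p₀, hp₀⟩ := hL
  set g : Σ k, tm.Γ k := ⟨tm.k₁, outA.symm true⟩ with hg
  letI : Fintype tm.K := tm.kFin
  letI : Fintype tm.σ := tm.σFin
  set p : ℕ[X] := p₀ + C (depMax tm) with hp
  set q : ℕ[X] := C (Fintype.card (CC tm)) +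
    C ((Fintype.card (SS tm g) + 1) * Fintype.card tm.K) * p with hq
  refine ⟨CC tm, tm.K, SS tm g, inferInstance, Classical.decEq _, inferInstance, tm.kDecidableEq,
    inferInstance, Classical.decEq _, sim tm g,
    (some ⟨tm.m tm.main, main_mem _ _⟩, tm.initialState), tm.k₀, tm.k₁,
    fun a => ⟨⟨tm.k₀, inA.symm a⟩, mem_syms_in _⟩, ⟨g, mem_syms_self⟩, p, q, fun x => ?_⟩
  obtain ⟨⟨b, hb, n, hn⟩, hsp⟩ := hp₀ x
  set x₀ : CC tm × (tm.K → List (SS tm g)) :=
    ((some ⟨tm.m tm.main, main_mem _ _⟩, tm.initialState), fun k =>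
      if k = tm.k₀ then x.map (fun a => (⟨⟨tm.k₀, inA.symm a⟩, mem_syms_in _⟩ : SS tm g)) else [])
    with hx₀
  have hrel : RelC tm g (initList tm (x.map inA.symm)) x₀ := by
    refine ⟨rfl, rfl, fun k => ?_⟩
    rw [init_stk]
    by_cases h : k = tm.k₀
    · simp only [hx₀, if_pos h, List.map_map]
      rfl
    · simp only [hx₀, if_neg h, List.map_nil]
  obtain ⟨T, hT, hcov⟩ := cover n hrel hn
  have hfix : ∀ d, (sim tm g).step^[d] ((sim tm g).step^[T] x₀) = (sim tm g).step^[T] x₀ :=
    fun d => sim_halt hT rfl d
  have hpe : p.eval x.length = p₀.eval x.length + depMax tm := by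
    simp [hp]
  have hlen : ∀ t k, (((sim tm g).step^[t] x₀).2 k).length ≤ p.eval x.length := by
    have hle : ∀ t ≤ T, ∀ k, (((sim tm g).step^[t] x₀).2 k).length ≤ p.eval x.length := by
      intro t ht k
      obtain ⟨j, c'', s, hj, hs1, hs2, hr⟩ := hcov t ht
      obtain ⟨d, rfl⟩ := Nat.exists_eq_add_of_le hs1
      rw [Nat.add_comm s d, Function.iterate_add_apply]
      have h1 := um_len_iter (sim tm g) d ((sim tm g).step^[s] x₀) k
      rw [relS_len hr.2.2 k] at h1
      have h2 := len_le_space tm c'' k
      have h3 := hsp j c'' hj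
      rw [hpe]
      omega
    intro t k
    rcases le_total t T with h | h
    · exact hle t h k
    · obtain ⟨d, rfl⟩ := Nat.exists_eq_add_of_le h
      rw [Nat.add_comm T d, Function.iterate_add_apply, hfix]
      exact hle T le_rfl k
  refine ⟨hlen, ?_⟩
  obtain ⟨T', hT', hTH⟩ := um_time (sim tm g) x₀ (p.eval x.length) hlen
    ((sim tm g).step^[T] x₀) (hfix 1) ⟨T, rfl⟩
  have hbound : Fintype.card (CC tm) * ((Fintype.card (SS tm g) + 1) ^ (p.eval x.length)) ^
      Fintype.card tm.K ≤ 2 ^ (q.eval x.length) := by
    have hqe : q.eval x.length = Fintype.card (CC tm) +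
        (Fintype.card (SS tm g) + 1) * Fintype.card tm.K * p.eval x.length := by
      simp [hq]
    rw [hqe, pow_add]
    refine Nat.mul_le_mul (Nat.lt_two_pow_self).le ?_
    have h1 : Fintype.card (SS tm g) + 1 ≤ 2 ^ (Fintype.card (SS tm g) + 1) :=
      (Nat.lt_two_pow_self).le
    calc ((Fintype.card (SS tm g) + 1) ^ (p.eval x.length)) ^ Fintype.card tm.K
        ≤ ((2 ^ (Fintype.card (SS tm g) + 1)) ^ (p.eval x.length)) ^ Fintype.card tm.K :=
          Nat.pow_le_pow_left (Nat.pow_le_pow_left h1 _) _
      _ = 2 ^ ((Fintype.card (SS tm g) + 1) * Fintype.card tm.K * p.eval x.length) := by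
          rw [← pow_mul, ← pow_mul]
          congr 1
          ring
  have hbig : (sim tm g).step^[2 ^ (q.eval x.length)] x₀ = (sim tm g).step^[T] x₀ := by
    obtain ⟨d, hd⟩ := Nat.exists_eq_add_of_le (hT'.le.trans hbound)
    rw [hd, Nat.add_comm T' d, Function.iterate_add_apply, hTH, hfix]
  rw [hbig]
  obtain ⟨_, _, h3⟩ := hT
  have h4 := h3 tm.k₁
  rw [halt_stk] at h4
  rw [← hb]
  cases hSc : ((sim tm g).step^[T] x₀).2 tm.k₁ with
  | nil => rw [hSc] at h4; simp at h4
  | cons a l =>
    rw [hSc] at h4
    simp only [List.map_cons, List.cons.injEq, List.map_nil] at h4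
    obtain ⟨h5, _⟩ := h4
    simp only [List.getElem?_cons_zero, Option.some.injEq]
    rw [Subtype.ext_iff, h5]
    constructor
    · intro h
      rw [h]
    · intro h
      have h6 := eq_of_heq (Sigma.mk.inj h).2
      exact outA.symm.injective h6

end Pool.Agent.SetPS
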