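import Pool.Agent.SetPS.While
import Pool.Agent.SetPS.StrPoly

/-!
# Evaluating a binary AND-OR tree of polynomial depth in polynomial space
-/

namespace Pool.Agent.SetPS.Qb

open Pool.Agent.PT81 Pool.Agent.IsoImp Polynomial

/-- The value of a binary AND-OR tree: the list says for the remaining levels whether they are
OR-levels; `path` is the list of the choices made so far, the most recent first. -/
def qval (leaf : List Bool → Bool) : List Bool → List Bool → Bool
  | [], path => leaf path
  | t :: ts, path => bif t then qval leaf ts (false :: path) || qval leaf ts (true :: path)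
      else qval leaf ts (false :: path) && qval leaf ts (true :: path)

/-- A state of the search: the value just returned, if any; the remaining levels; and the levels
already passed with the choices made. -/
abbrev St (δ : Type) : Type := δ × (Option Bool × (List Bool × List (Bool × Bool)))

variable {δ : Type}

/-- One step of the search. -/
def step (leaf : δ × List Bool → Bool) : St δ → St δ
  | (x, none, [], ds) => (x, some (leaf (x, ds.map Prod.snd)), [], ds)
  | (x, none, t :: ts, ds) => (x, none, ts, (t, false) :: ds)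
  | (x, some b, ts, []) => (x, some b, ts, [])
  | (x, some b, ts, (t, c) :: ds) =>
    bif c || (b == t) then (x, some b, t :: ts, ds) else (x, none, ts, (t, true) :: ds)

/-- The search goes on. -/
def cont (s : St δ) : Bool := s.2.1.isNone || !s.2.2.2.isEmpty

/-- The result. -/
def out (s : St δ) : Bool := decide (s.2.1 = some true)

variable (leaf : δ × List Bool → Bool)

/-- The search leads from `s` to `s'` in `N` steps, and it does not stop in between. -/
def Run (s : St δ) (N : ℕ) (s' : St δ) : Prop :=
  (step leaf)^[N] s = s' ∧ ∀ t < N, cont ((step leaf)^[t] s) = true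

variable {leaf}

theorem Run.trans {s s' s'' : St δ} {N N' : ℕ} (h : Run leaf s N s') (h' : Run leaf s' N' s'') :
    Run leaf s (N + N') s'' := by
  refine ⟨by rw [Nat.add_comm, Function.iterate_add_apply, h.1, h'.1], ?_⟩
  intro t ht
  by_cases h1 : t < N
  · exact h.2 t h1
  · obtain ⟨r, rfl⟩ := Nat.exists_eq_add_of_le (le_of_not_gt h1)
    rw [Nat.add_comm, Function.iterate_add_apply, h.1]
    exact h'.2 r (by omega)

theorem Run.one {s s' : St δ} (h : step leaf s = s') (hs : cont s = true) :
    Run leaf s 1 s' := by
  refine ⟨h, fun t ht => ?_⟩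
  have : t = 0 := by omega
  subst this
  exact hs

theorem run (x : δ) (ts : List Bool) : ∀ ds : List (Bool × Bool),
    ∃ N, Run leaf (x, none, ts, ds) N
      (x, some (qval (fun b => leaf (x, b)) ts (ds.map Prod.snd)), ts, ds) := by
  induction ts with
  | nil =>
    intro ds
    exact ⟨1, Run.one rfl rfl⟩
  | cons t ts ih =>
    intro ds
    obtain ⟨N1, h1⟩ := ih ((t, false) :: ds)
    have h0 : Run leaf (x, none, t :: ts, ds) 1 (x, none, ts, (t, false) :: ds) :=
      Run.one rfl rfl
    have h2 := h0.trans h1
    simp only [List.map_cons] at h2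
    set b1 := qval (fun b => leaf (x, b)) ts (false :: ds.map Prod.snd) with hb1
    by_cases hbt : b1 = t
    · have h3 : Run leaf (x, some b1, ts, (t, false) :: ds) 1 (x, some b1, t :: ts, ds) := by
        refine Run.one ?_ rfl
        simp [step, hbt]
      refine ⟨1 + N1 + 1, ?_⟩
      · have h4 := h2.trans h3
        have e : qval (fun b => leaf (x, b)) (t :: ts) (ds.map Prod.snd) = b1 := by
          simp only [qval, ← hb1]
          cases t <;> simp [hbt]
        rw [e]
        exact h4
    · obtain ⟨N2, h4⟩ := ih ((t, true) :: ds)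
      simp only [List.map_cons] at h4
      set b2 := qval (fun b => leaf (x, b)) ts (true :: ds.map Prod.snd) with hb2
      have h3 : Run leaf (x, some b1, ts, (t, false) :: ds) 1 (x, none, ts, (t, true) :: ds) := by
        refine Run.one ?_ rfl
        have : (b1 == t) = false := by simpa using hbt
        simp [step, this]
      have h5 : Run leaf (x, some b2, ts, (t, true) :: ds) 1 (x, some b2, t :: ts, ds) := by
        refine Run.one ?_ rfl
        simp [step]
      refine ⟨1 + N1 + 1 + N2 + 1, ?_⟩
      · have h6 := ((h2.trans h3).trans h4).trans h5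
        have e : qval (fun b => leaf (x, b)) (t :: ts) (ds.map Prod.snd) = b2 := by
          simp only [qval, ← hb1, ← hb2]
          clear h1 h2 h3 h4 h5 h6 hb1 hb2
          clear_value b1 b2
          cases t <;> cases b1 <;> cases b2 <;> simp at hbt ⊢
        rw [e]
        exact h6

theorem search_correct (x : δ) (ts : List Bool) : ∃ N,
    cont ((step leaf)^[N] (x, none, ts, [])) = false ∧
    (∀ t < N, cont ((step leaf)^[t] (x, none, ts, [])) = true) ∧
    (out ((step leaf)^[N] (x, none, ts, [])) = true ↔
      qval (fun b => leaf (x, b)) ts [] = true) := by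
  obtain ⟨N, h1, h2⟩ := run (leaf := leaf) x ts []
  refine ⟨N, ?_, h2, ?_⟩
  · rw [h1]; rfl
  · rw [h1]
    simp [out]

/-! ### Size of the states -/

theorem inv_step {x : δ} {D : ℕ} {s : St δ} (h : s.1 = x ∧ s.2.2.1.length + s.2.2.2.length = D) :
    (step leaf s).1 = x ∧ (step leaf s).2.2.1.length + (step leaf s).2.2.2.length = D := by
  obtain ⟨y, o, ts, ds⟩ := s
  simp only at h
  obtain ⟨rfl, h⟩ := h
  cases o with
  | none =>
    cases ts with
    | nil => exact ⟨rfl, h⟩
    | cons t ts =>
      refine ⟨rfl, ?_⟩
      simp only [step, List.length_cons] at *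
      omega
  | some b =>
    cases ds with
    | nil => cases ts <;> exact ⟨rfl, h⟩
    | cons d ds =>
      obtain ⟨t, c⟩ := d
      have e : step leaf (y, some b, ts, (t, c) :: ds) =
          bif c || (b == t) then (y, some b, t :: ts, ds) else (y, none, ts, (t, true) :: ds) := by
        cases ts <;> rfl
      rw [e]
      cases c || (b == t)
      · refine ⟨rfl, ?_⟩
        simp only [cond_false, List.length_cons] at *
        omega
      · refine ⟨rfl, ?_⟩
        simp only [cond_true, List.length_cons] at *
        omega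

theorem inv_iter {x : δ} {ts : List Bool} (t : ℕ) :
    ((step leaf)^[t] (x, none, ts, [])).1 = x ∧
      ((step leaf)^[t] (x, none, ts, [])).2.2.1.length +
      ((step leaf)^[t] (x, none, ts, [])).2.2.2.length = ts.length := by
  induction t with
  | zero => exact ⟨rfl, by simp⟩
  | succ t ih => rw [Function.iterate_succ_apply']; exact inv_step ih

/-! ### Everything is computable in polynomial time -/

variable {E : Env} [Enc E δ]

theorem poly_step (hl : Poly E leaf) : Poly E (step leaf) := by
  refine Poly.optCasesF (f := fun s : St δ => s.2.1)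
    (g := fun s => step leaf (s.1, none, s.2.2.1, s.2.2.2))
    (h := fun p : St δ × Bool => step leaf (p.1.1, some p.2, p.1.2.2.1, p.1.2.2.2)) _
    (Poly.fst.comp Poly.snd) ?_ ?_ ?_ ?_
  · refine Poly.listCasesF (f := fun s : St δ => s.2.2.1)
      (g := fun s => (s.1, some (leaf (s.1, s.2.2.2.map Prod.snd)), [], s.2.2.2))
      (h := fun p : St δ × (Bool × List Bool) =>
        (p.1.1, none, p.2.2, (p.2.1, false) :: p.1.2.2.2)) _
      (Poly.fst.comp (Poly.snd.comp Poly.snd)) ?_ ?_ ?_ ?_
    · refine Poly.pair Poly.fst (Poly.pair (Poly.osome (hl.comp (Poly.pair Poly.fst ?_)))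
        (Poly.pair (Poly.const _) (Poly.snd.comp (Poly.snd.comp Poly.snd))))
      exact Poly.map (g := fun q : St δ × (Bool × Bool) => q.2.2)
        (Poly.snd.comp (Poly.snd.comp Poly.snd)) (Poly.snd.comp Poly.snd)
    · refine Poly.pair (Poly.fst.comp Poly.fst) (Poly.pair (Poly.const _)
        (Poly.pair (Poly.snd.comp Poly.snd) (Poly.cons (Poly.pair (Poly.fst.comp Poly.snd)
          (Poly.const _)) (Poly.snd.comp (Poly.snd.comp (Poly.snd.comp Poly.fst))))))
    · rintro ⟨x, o, ts, ds⟩ h
      simp only at h
      subst h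
      rfl
    · rintro ⟨x, o, ts, ds⟩ t l h
      simp only at h
      subst h
      rfl
  · refine Poly.listCasesF (f := fun p : St δ × Bool => p.1.2.2.2)
      (g := fun p => (p.1.1, some p.2, p.1.2.2.1, []))
      (h := fun q : (St δ × Bool) × ((Bool × Bool) × List (Bool × Bool)) =>
        bif q.2.1.2 || (q.1.2 == q.2.1.1) then (q.1.1.1, some q.1.2, q.2.1.1 :: q.1.1.2.2.1, q.2.2)
        else (q.1.1.1, none, q.1.1.2.2.1, (q.2.1.1, true) :: q.2.2)) _
      (Poly.snd.comp (Poly.snd.comp (Poly.snd.comp Poly.fst))) ?_ ?_ ?_ ?_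
    · exact Poly.pair (Poly.fst.comp Poly.fst) (Poly.pair (Poly.osome Poly.snd)
        (Poly.pair (Poly.fst.comp (Poly.snd.comp (Poly.snd.comp Poly.fst))) (Poly.const _)))
    · have hx : Poly E (fun q : (St δ × Bool) × ((Bool × Bool) × List (Bool × Bool)) =>
          q.1.1.1) := Poly.fst.comp (Poly.fst.comp Poly.fst)
      have hts : Poly E (fun q : (St δ × Bool) × ((Bool × Bool) × List (Bool × Bool)) =>
          q.1.1.2.2.1) := Poly.fst.comp (Poly.snd.comp (Poly.snd.comp (Poly.fst.comp Poly.fst)))
      have hb : Poly E (fun q : (St δ × Bool) × ((Bool × Bool) × List (Bool × Bool)) =>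
          q.1.2) := Poly.snd.comp Poly.fst
      have ht : Poly E (fun q : (St δ × Bool) × ((Bool × Bool) × List (Bool × Bool)) =>
          q.2.1.1) := Poly.fst.comp (Poly.fst.comp Poly.snd)
      have hc : Poly E (fun q : (St δ × Bool) × ((Bool × Bool) × List (Bool × Bool)) =>
          q.2.1.2) := Poly.snd.comp (Poly.fst.comp Poly.snd)
      have hds : Poly E (fun q : (St δ × Bool) × ((Bool × Bool) × List (Bool × Bool)) =>
          q.2.2) := Poly.snd.comp Poly.snd
      exact Poly.cond (Poly.or hc (poly_beq hb ht))
        (Poly.pair hx (Poly.pair (Poly.osome hb) (Poly.pair (Poly.cons ht hts) hds)))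
        (Poly.pair hx (Poly.pair (Poly.const _) (Poly.pair hts
          (Poly.cons (Poly.pair ht (Poly.const _)) hds))))
    · rintro ⟨⟨x, o, ts, ds⟩, b⟩ h
      simp only at h
      subst h
      cases ts <;> rfl
    · rintro ⟨⟨x, o, ts, ds⟩, b⟩ ⟨t, c⟩ l h
      simp only at h
      subst h
      cases ts <;> rfl
  · rintro ⟨x, o, ts, ds⟩ h
    simp only at h
    subst h
    rfl
  · rintro ⟨x, o, ts, ds⟩ b h
    simp only at h
    subst h
    rfl

theorem poly_cont : Poly E (cont (δ := δ)) :=
  Poly.or (poly_isNone (Poly.fst.comp Poly.snd))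
    (Poly.not (Poly.isEmpty (Poly.snd.comp (Poly.snd.comp Poly.snd))))

theorem poly_out : Poly E (out (δ := δ)) :=
  Poly.eq (Poly.fst.comp Poly.snd) (Poly.const _)

theorem esz_len_le {α : Type} [Enc E α] (M : ℕ) (hM : ∀ a : α, esz E a ≤ M) (l : List α) :
    esz E l ≤ (1 + M) * l.length + 1 := by
  induction l with
  | nil => simp
  | cons a l ih =>
    have h1 := hM a
    simp only [esz_cons, List.length_cons]
    have h2 : (1 + M) * (l.length + 1) = (1 + M) * l.length + (1 + M) := by ring
    rw [h2]
    omega

end Qb

open Qb Pool.Agent.PT81 Pool.Agent.IsoImp Polynomial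

/-- Evaluating a binary AND-OR tree of polynomial depth with polynomial-time leaves is in
PSPACE. -/
theorem inPSPACE_qval {Γ δ : Type} [Fintype Γ] [DecidableEq Γ] [Enc (io Γ Bool) Γ]
    [Enc (io Γ Bool) δ] (L : Set (List Γ)) (d : List Γ → δ) (ts : List Γ → List Bool)
    (leaf : δ × List Bool → Bool) (hd : Poly (io Γ Bool) d) (hts : Poly (io Γ Bool) ts)
    (hl : Poly (io Γ Bool) leaf)
    (hL : ∀ x, x ∈ L ↔ qval (fun b => leaf (d x, b)) (ts x) [] = true) : InPSPACE L := by
  obtain ⟨p1, h1⟩ := hd.bound
  obtain ⟨p2, h2⟩ := hts.bound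
  obtain ⟨M, hM⟩ : ∃ M : ℕ, ∀ x : List Γ, esz (io Γ Bool) x ≤ M * x.length + 1 := by
    refine ⟨1 + Finset.univ.sup (fun a : Γ => esz (io Γ Bool) a), fun x => ?_⟩
    induction x with
    | nil => simp
    | cons a x ih =>
      have h1 : esz (io Γ Bool) a ≤ Finset.univ.sup (fun a : Γ => esz (io Γ Bool) a) :=
        Finset.le_sup (f := fun a : Γ => esz (io Γ Bool) a) (Finset.mem_univ a)
      simp only [esz_cons, List.length_cons]
      have h2 : (1 + Finset.univ.sup (fun a : Γ => esz (io Γ Bool) a)) * (x.length + 1) =
        (1 + Finset.univ.sup (fun a : Γ => esz (io Γ Bool) a)) * x.length +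
          (1 + Finset.univ.sup (fun a : Γ => esz (io Γ Bool) a)) := by ring
      rw [h2]
      omega
  refine inPSPACE_of_while L (fun x => (d x, none, ts x, [])) (step leaf) cont out
    (Poly.pair hd (Poly.pair (Poly.const _) (Poly.pair hts (Poly.const _)))) (poly_step hl)
    poly_cont poly_out (p1.comp (C M * X + 1) + 20 * p2.comp (C M * X + 1) + 20) ?_ ?_
  · intro x t
    obtain ⟨h3, h4⟩ := inv_iter (leaf := leaf) (x := d x) (ts := ts x) t
    generalize (step leaf)^[t] (d x, none, ts x, []) = s at h3 h4
    obtain ⟨y, o, ts', ds⟩ := s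
    simp only at h3 h4
    subst h3
    have e1 := (h1 x).trans (pmono p1 (hM x))
    have e2 := (h2 x).trans (pmono p2 (hM x))
    have e3 := length_le_esz (E := io Γ Bool) (ts x)
    have e4 := esz_len_le (E := io Γ Bool) 3 (fun a : Bool => esz_bool a) ts'
    have e5 := esz_len_le (E := io Γ Bool) 7 (fun a : Bool × Bool => by
      have := esz_bool (E := io Γ Bool) a.1
      have := esz_bool (E := io Γ Bool) a.2
      obtain ⟨a, b⟩ := a
      simp only [esz_prod] at *
      omega) ds
    have e6 : esz (io Γ Bool) o ≤ 5 := by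
      cases o with
      | none => simp
      | some b =>
        have := esz_bool (E := io Γ Bool) b
        simp only [esz_some]
        omega
    simp only [esz_prod, eval_add, eval_comp, eval_mul, eval_C, eval_X, eval_one, eval_ofNat]
    omega
  · intro x
    obtain ⟨N, e1, e2, e3⟩ := search_correct (leaf := leaf) (d x) (ts x)
    exact ⟨N, e1, e2, e3.trans (hL x).symm⟩

end Pool.Agent.SetPS
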