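import Pool.Agent.SetPS.Iface
import Pool.Agent.Lib_MP_a1eae6_lc.Gen

/-!
# The Savitch game as an alternating CNF: abstract part
-/

namespace Pool.Agent.SetPS

open Pool.Agent.PT81 Pool.Agent.IsoImp Polynomial

/-! ### Alternation -/

section alt

theorem sat_append (F G : CNF) (a : Nm → Bool) :
    CNF.Sat (F ++ G) a ↔ CNF.Sat F a ∧ CNF.Sat G a := by
  unfold CNF.Sat
  simp only [List.mem_append, or_imp, forall_and]

theorem sat_congr {F : CNF} {a b : Nm → Bool} (h : ∀ cl ∈ F, ∀ l ∈ cl, a l.1 = b l.1) :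
    CNF.Sat F a ↔ CNF.Sat F b := by
  unfold CNF.Sat
  refine forall₂_congr fun cl hcl => ?_
  constructor
  · rintro ⟨l, hl, h1⟩
    exact ⟨l, hl, by rw [← h cl hcl l hl]; exact h1⟩
  · rintro ⟨l, hl, h1⟩
    exact ⟨l, hl, by rw [h cl hcl l hl]; exact h1⟩

theorem sat_flatMap {α : Type} (L : List α) (f : α → CNF) (a : Nm → Bool) :
    CNF.Sat (L.flatMap f) a ↔ ∀ x ∈ L, CNF.Sat (f x) a := by
  unfold CNF.Sat
  simp only [List.mem_flatMap]
  constructor
  · intro h x hx cl hcl
    exact h cl ⟨x, hx, hcl⟩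
  · rintro h cl ⟨x, hx, hcl⟩
    exact h x hx cl hcl

theorem alt_append {F G : CNF} {L : List Nm} (h : ∀ cl ∈ F, ∀ l ∈ cl, l.1 ∉ L) (q : Bool)
    (a : Nm → Bool) : Alt (F ++ G) q L a ↔ CNF.Sat F a ∧ Alt G q L a := by
  induction L generalizing q a with
  | nil => cases q <;> simp only [Alt, sat_append]
  | cons x L ih =>
    have h' : ∀ cl ∈ F, ∀ l ∈ cl, l.1 ∉ L := fun cl hcl l hl hm =>
      h cl hcl l hl (List.mem_cons_of_mem _ hm)
    have hx : ∀ b, CNF.Sat F (Function.update a x b) ↔ CNF.Sat F a := fun b =>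
      sat_congr fun cl hcl l hl => by
        have hne : l.1 ≠ x := fun e => h cl hcl l hl (by rw [e]; exact List.mem_cons_self ..)
        rw [Function.update_of_ne hne]
    cases q
    · simp only [Alt, ih h', hx]
      constructor
      · intro h1
        exact ⟨(h1 true).1, fun b => (h1 b).2⟩
      · rintro ⟨h1, h2⟩ b
        exact ⟨h1, h2 b⟩
    · simp only [Alt, ih h', hx]
      constructor
      · rintro ⟨b, h1, h2⟩
        exact ⟨h1, b, h2⟩
      · rintro ⟨h1, b, h2⟩
        exact ⟨b, h1, h2⟩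

theorem alt_indep {F : CNF} {L : List Nm} (h : ∀ cl ∈ F, ∀ l ∈ cl, l.1 ∉ L) (q : Bool)
    (a : Nm → Bool) : Alt F q L a ↔ CNF.Sat F a := by
  have h1 := alt_append (G := []) h q a
  rw [List.append_nil] at h1
  rw [h1]
  have h2 : ∀ (L : List Nm) (q : Bool) (a : Nm → Bool), Alt [] q L a := by
    intro L
    induction L with
    | nil => intro q a; cases q <;> simp [Alt, CNF.Sat]
    | cons x L ih =>
      intro q a
      cases q
      · exact fun b => ih _ _
      · exact ⟨true, ih _ _⟩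
  exact and_iff_left (h2 L q a)

variable {Q : Type} (E U : Q → Nm)

/-- The list of variables given by a list of pairs. -/
def fl (L : List Q) : List Nm := L.flatMap fun q => [E q, U q]

theorem fl_append (L M : List Q) : fl E U (L ++ M) = fl E U L ++ fl E U M := by
  simp [fl]

theorem fl_cons (q : Q) (L : List Q) : fl E U (q :: L) = E q :: U q :: fl E U L := rfl

theorem mem_fl {L : List Q} {x : Nm} : x ∈ fl E U L ↔ ∃ q ∈ L, x = E q ∨ x = U q := by
  simp [fl]

theorem length_fl (L : List Q) : Even (fl E U L).length := by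
  induction L with
  | nil => simp [fl]
  | cons q L ih =>
    rw [fl_cons]
    simp only [List.length_cons]
    obtain ⟨k, hk⟩ := ih
    exact ⟨k + 1, by omega⟩

theorem nodup_fl {L : List Q} (hL : L.Nodup) (hE : Function.Injective E)
    (hU : Function.Injective U) (hEU : ∀ p q, E p ≠ U q) : (fl E U L).Nodup := by
  induction L with
  | nil => simp [fl]
  | cons q L ih =>
    rw [List.nodup_cons] at hL
    rw [fl_cons, List.nodup_cons, List.nodup_cons, List.mem_cons, mem_fl, mem_fl]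
    refine ⟨?_, ?_, ih hL.2⟩
    · rintro (h | ⟨p, hp, h | h⟩)
      · exact hEU _ _ h
      · exact hL.1 (hE h ▸ hp)
      · exact hEU _ _ h
    · rintro ⟨p, hp, h | h⟩
      · exact hEU _ _ h.symm
      · exact hL.1 (hU h ▸ hp)

theorem alt_block_mp {F : CNF} {L : List Q} {rest : List Nm} {a : Nm → Bool}
    (h : Alt F true (fl E U L ++ rest) a) :
    ∃ a', (∀ x, x ∉ fl E U L → a' x = a x) ∧ Alt F true rest a' := by
  induction L generalizing a with
  | nil => exact ⟨a, fun _ _ => rfl, h⟩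
  | cons q L ih =>
    have h' : Alt F true (E q :: U q :: (fl E U L ++ rest)) a := h
    simp only [Alt] at h'
    obtain ⟨b, hb⟩ := h'
    obtain ⟨a', h1, h2⟩ := ih (hb false)
    refine ⟨a', fun x hx => ?_, h2⟩
    rw [fl_cons, List.mem_cons, List.mem_cons, not_or, not_or] at hx
    rw [h1 x hx.2.2, Function.update_of_ne hx.2.1, Function.update_of_ne hx.1]

theorem alt_block_mpr {F : CNF} {L : List Q} {rest : List Nm} {a : Nm → Bool} (f : Q → Bool)
    (hL : L.Nodup) (hE : Function.Injective E) (hEU : ∀ p q, E p ≠ U q)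
    (h : ∀ a', (∀ x, x ∉ fl E U L → a' x = a x) → (∀ q ∈ L, a' (E q) = f q) →
      Alt F true rest a') :
    Alt F true (fl E U L ++ rest) a := by
  induction L generalizing a with
  | nil => exact h a (fun _ _ => rfl) (by simp)
  | cons q L ih =>
    rw [List.nodup_cons] at hL
    show Alt F true (E q :: U q :: (fl E U L ++ rest)) a
    simp only [Alt]
    refine ⟨f q, fun b => ih hL.2 fun a' h1 h2 => h a' (fun x hx => ?_) fun p hp => ?_⟩
    · rw [fl_cons, List.mem_cons, List.mem_cons, not_or, not_or] at hx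
      rw [h1 x hx.2.2, Function.update_of_ne hx.2.1, Function.update_of_ne hx.1]
    · rcases List.mem_cons.1 hp with rfl | hp
      · have h3 : E p ∉ fl E U L := by
          rw [mem_fl]
          rintro ⟨r, hr, h4 | h4⟩
          · exact hL.1 (hE h4 ▸ hr)
          · exact hEU _ _ h4
        rw [h1 _ h3, Function.update_of_ne (hEU _ _), Function.update_self]
      · exact h2 p hp

end alt

/-! ### The game -/

/-- Kinds of indices. -/
abbrev Bk (Kn : Type) : Type := (Fin 3 × Kn) ⊕ Unit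

/-- Indices of the pairs of variables: kind, level, position. -/
abbrev Ix (Kn : Type) : Type := Bk Kn × ℕ × ℕ

section game

variable {Kn : Type} [Fintype Kn]

/-- Names of the variables; the flag is `true` for the universal ones. -/
noncomputable def vn (e : Bool) (q : Ix Kn) : Nm :=
  nm (Fintype.equivFin (Bk Kn × Bool) (q.1, e)) q.2.1 q.2.2

theorem vn_inj {e e' : Bool} {q q' : Ix Kn} (h : vn e q = vn e' q') : e = e' ∧ q = q' := by
  obtain ⟨h1, h2, h3⟩ := nm_inj h
  have h4 := (Fintype.equivFin (Bk Kn × Bool)).injective (Fin.ext h1)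
  simp only [Prod.mk.injEq] at h4
  exact ⟨h4.2, Prod.ext h4.1 (Prod.ext h2 h3)⟩

theorem vn_injective (e : Bool) : Function.Injective (vn e : Ix Kn → Nm) :=
  fun _ _ h => (vn_inj h).2

theorem vn_ne (p q : Ix Kn) : vn false p ≠ vn true q := fun h => by
  have := (vn_inj h).1
  simp at this

/-- The cells of a block. -/
noncomputable def cells (Kn : Type) [Fintype Kn] (W : ℕ) : List (Kn × ℕ) :=
  (List.range (W + 1)).flatMap fun i => (Finset.univ : Finset Kn).toList.map fun κ => (κ, i)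

theorem mem_cells {W : ℕ} {c : Kn × ℕ} : c ∈ cells Kn W ↔ c.2 ≤ W := by
  obtain ⟨κ, i⟩ := c
  simp [cells]

theorem nodup_cells (W : ℕ) : (cells Kn W).Nodup := by
  rw [cells, List.nodup_flatMap]
  refine ⟨fun i _ => ?_, ?_⟩
  · refine List.Nodup.map ?_ (Finset.nodup_toList _)
    intro a b h
    simpa using h
  · have := List.nodup_range (n := W + 1)
    refine List.Pairwise.imp ?_ this
    intro i j hij
    simp only [Function.onFun, List.disjoint_left]
    intro x hx hy
    simp only [List.mem_map] at hx hy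
    obtain ⟨_, _, rfl⟩ := hx
    obtain ⟨_, _, h⟩ := hy
    simp only [Prod.mk.injEq] at h
    exact hij h.2.symm

/-- The three blocks of level `j` and the bit. -/
noncomputable def An (j : ℕ) (c : Kn × ℕ) : Nm := vn false (.inl (0, c.1), j, c.2)
noncomputable def Bn (j : ℕ) (c : Kn × ℕ) : Nm := vn false (.inl (1, c.1), j, c.2)
noncomputable def Mn (j : ℕ) (c : Kn × ℕ) : Nm := vn false (.inl (2, c.1), j, c.2)
noncomputable def bn (Kn : Type) [Fintype Kn] (j : ℕ) : Nm := vn (Kn := Kn) true (.inr (), j, 0)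

/-- Indices of the blocks `A` and `B`. -/
noncomputable def ab (Kn : Type) [Fintype Kn] (W j : ℕ) : List (Ix Kn) :=
  (cells Kn W).flatMap fun c => [(.inl (0, c.1), j, c.2), (.inl (1, c.1), j, c.2)]

/-- Indices of the block `M`. -/
noncomputable def mm (Kn : Type) [Fintype Kn] (W j : ℕ) : List (Ix Kn) :=
  (cells Kn W).map fun c => (.inl (2, c.1), j, c.2)

/-- Indices of the block `M` and of the bit. -/
noncomputable def mx (Kn : Type) [Fintype Kn] (W j : ℕ) : List (Ix Kn) :=
  mm Kn W j ++ [(.inr (), j, 0)]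

/-- What remains when the blocks `A`, `B` of level `j` are fixed. -/
noncomputable def pre (Kn : Type) [Fintype Kn] (W : ℕ) : ℕ → List (Ix Kn)
  | 0 => mx Kn W 0
  | j + 1 => mx Kn W (j + 1) ++ (ab Kn W j ++ pre Kn W j)

theorem mem_ab {W j : ℕ} {q : Ix Kn} : q ∈ ab Kn W j ↔
    q.2.1 = j ∧ q.2.2 ≤ W ∧ ∃ κ, q.1 = .inl (0, κ) ∨ q.1 = .inl (1, κ) := by
  obtain ⟨b, j', i⟩ := q
  simp only [ab, List.mem_flatMap, List.mem_cons, List.not_mem_nil, or_false]
  constructor
  · rintro ⟨c, hc, h | h⟩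
    · simp only [Prod.mk.injEq] at h
      rw [mem_cells] at hc
      exact ⟨h.2.1, by rw [h.2.2]; exact hc, c.1, Or.inl h.1⟩
    · simp only [Prod.mk.injEq] at h
      rw [mem_cells] at hc
      exact ⟨h.2.1, by rw [h.2.2]; exact hc, c.1, Or.inr h.1⟩
  · rintro ⟨h1, h2, κ, h | h⟩
    · exact ⟨(κ, i), mem_cells.2 h2, Or.inl (by rw [h1, h])⟩
    · exact ⟨(κ, i), mem_cells.2 h2, Or.inr (by rw [h1, h])⟩

theorem mem_mm {W j : ℕ} {q : Ix Kn} : q ∈ mm Kn W j ↔
    q.2.1 = j ∧ q.2.2 ≤ W ∧ ∃ κ, q.1 = .inl (2, κ) := by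
  obtain ⟨b, j', i⟩ := q
  simp only [mm, List.mem_map]
  constructor
  · rintro ⟨c, hc, h⟩
    simp only [Prod.mk.injEq] at h
    rw [mem_cells] at hc
    exact ⟨h.2.1.symm, by rw [← h.2.2]; exact hc, c.1, h.1.symm⟩
  · rintro ⟨h1, h2, κ, h⟩
    exact ⟨(κ, i), mem_cells.2 h2, by rw [h1, h]⟩

theorem mem_mx {W j : ℕ} {q : Ix Kn} : q ∈ mx Kn W j ↔
    q ∈ mm Kn W j ∨ q = (.inr (), j, 0) := by
  simp [mx]

theorem mem_pre {W j : ℕ} {q : Ix Kn} (h : q ∈ pre Kn W j) :
    q.2.1 < j ∨ (q.2.1 = j ∧ (q.1 = .inr () ∨ ∃ κ, q.1 = .inl (2, κ))) := by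
  have hx : ∀ j, q ∈ mx Kn W j → (q.2.1 = j ∧ (q.1 = .inr () ∨ ∃ κ, q.1 = .inl (2, κ))) := by
    intro j h
    rcases mem_mx.1 h with h | h
    · obtain ⟨h1, _, h2⟩ := mem_mm.1 h
      exact ⟨h1, Or.inr h2⟩
    · rw [h]
      exact ⟨rfl, Or.inl rfl⟩
  induction j with
  | zero => exact Or.inr (hx 0 h)
  | succ j ih =>
    rw [pre, List.mem_append, List.mem_append] at h
    rcases h with h | h | h
    · exact Or.inr (hx _ h)
    · have := (mem_ab.1 h).1
      left
      omega
    · rcases ih h with h | h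
      · left; omega
      · left; omega

/-- The list of variables of a list of indices. -/
noncomputable abbrev flv (L : List (Ix Kn)) : List Nm := fl (vn false) (vn true) L

theorem nodup_ab (W j : ℕ) : (ab Kn W j).Nodup := by
  rw [ab, List.nodup_flatMap]
  refine ⟨fun c _ => by simp, ?_⟩
  refine List.Pairwise.imp ?_ (nodup_cells W)
  intro c d hcd
  simp only [Function.onFun, List.disjoint_left, List.mem_cons, List.not_mem_nil, or_false]
  rintro x (rfl | rfl) (h | h)
  · simp only [Prod.mk.injEq, Sum.inl.injEq, true_and] at h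
    exact hcd (Prod.ext h.1 h.2)
  · simp at h
  · simp at h
  · simp only [Prod.mk.injEq, Sum.inl.injEq, true_and] at h
    exact hcd (Prod.ext h.1 h.2)

theorem nodup_mm (W j : ℕ) : (mm Kn W j).Nodup := by
  refine List.Nodup.map ?_ (nodup_cells W)
  intro c d h
  simp only [Prod.mk.injEq, Sum.inl.injEq, true_and] at h
  exact Prod.ext h.1 h.2

theorem nodup_mx (W j : ℕ) : (mx Kn W j).Nodup := by
  rw [mx, List.nodup_append]
  refine ⟨nodup_mm W j, by simp, ?_⟩
  intro a ha b hb
  simp only [List.mem_singleton] at hb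
  obtain ⟨_, _, κ, h⟩ := mem_mm.1 ha
  rintro rfl
  rw [hb] at h
  simp at h

theorem nodup_ab_pre {W : ℕ} (j : ℕ) : (ab Kn W j ++ pre Kn W j).Nodup := by
  have key : ∀ j, (pre Kn W j).Nodup → (ab Kn W j ++ pre Kn W j).Nodup := by
    intro j h
    rw [List.nodup_append]
    refine ⟨nodup_ab W j, h, ?_⟩
    rintro a ha b hb rfl
    obtain ⟨h1, _, κ, h2⟩ := mem_ab.1 ha
    rcases mem_pre hb with h3 | ⟨_, h3 | ⟨κ', h3⟩⟩
    · omega
    · rcases h2 with h2 | h2 <;> rw [h3] at h2 <;> simp at h2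
    · rcases h2 with h2 | h2 <;> rw [h3] at h2 <;> simp at h2
  refine key j ?_
  induction j with
  | zero => exact nodup_mx W 0
  | succ j ih =>
    rw [pre, List.nodup_append]
    refine ⟨nodup_mx W _, key j ih, ?_⟩
    rintro a ha b hb rfl
    have h1 : a.2.1 = j + 1 := by
      rcases mem_mx.1 ha with h | h
      · exact (mem_mm.1 h).1
      · rw [h]
    rcases List.mem_append.1 hb with h | h
    · have := (mem_ab.1 h).1
      omega
    · rcases mem_pre h with h | h
      · omega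
      · omega

/-- If `b` has the value `s` then nothing, else `x = y`. -/
def eqIf (b : Nm) (s : Bool) (x y : Nm) : CNF :=
  [[(b, s), (x, true), (y, false)], [(b, s), (x, false), (y, true)]]

theorem sat_eqIf {b : Nm} {s : Bool} {x y : Nm} {a : Nm → Bool} :
    CNF.Sat (eqIf b s x y) a ↔ (a b ≠ s → a x = a y) := by
  simp only [CNF.Sat, eqIf, List.mem_cons, List.not_mem_nil, or_false, forall_eq_or_imp,
    exists_eq_or_imp, forall_eq, exists_eq_left]
  cases a b <;> cases s <;> cases a x <;> cases a y <;> simp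

/-- The clauses linking level `j + 1` to level `j`. -/
noncomputable def lev (Kn : Type) [Fintype Kn] (W j : ℕ) : CNF :=
  (cells Kn W).flatMap fun c =>
    eqIf (bn Kn (j + 1)) false (An j c) (Mn (j + 1) c) ++
    (eqIf (bn Kn (j + 1)) true (An j c) (An (j + 1) c) ++
    (eqIf (bn Kn (j + 1)) false (Bn j c) (Bn (j + 1) c) ++
    eqIf (bn Kn (j + 1)) true (Bn j c) (Mn (j + 1) c)))

/-- All clauses up to level `j`. -/
noncomputable def Gc (Kn : Type) [Fintype Kn] (W : ℕ) (S : CNF) : ℕ → CNF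
  | 0 => S
  | j + 1 => lev Kn W j ++ Gc Kn W S j

theorem sat_lev {W j : ℕ} {a : Nm → Bool} : CNF.Sat (lev Kn W j) a ↔ ∀ c ∈ cells Kn W,
    (a (bn Kn (j + 1)) = true → a (An j c) = a (Mn (j + 1) c) ∧
      a (Bn j c) = a (Bn (j + 1) c)) ∧
    (a (bn Kn (j + 1)) = false → a (An j c) = a (An (j + 1) c) ∧
      a (Bn j c) = a (Mn (j + 1) c)) := by
  rw [lev, sat_flatMap]
  refine forall₂_congr fun c _ => ?_
  simp only [sat_append, sat_eqIf]
  cases a (bn Kn (j + 1)) <;> simp

theorem notin_pre {W j : ℕ} {e : Bool} {q : Ix Kn} (h : vn e q ∈ flv (pre Kn W j)) :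
    q.2.1 < j ∨ (q.2.1 = j ∧ (q.1 = .inr () ∨ ∃ κ, q.1 = .inl (2, κ))) := by
  rw [mem_fl] at h
  obtain ⟨p, hp, h | h⟩ := h
  · rw [(vn_inj h).2]
    exact mem_pre hp
  · rw [(vn_inj h).2]
    exact mem_pre hp

theorem An_notin {W j k : ℕ} (hk : j ≤ k) (c : Kn × ℕ) : An k c ∉ flv (pre Kn W j) := by
  intro h
  rcases notin_pre h with h | ⟨_, h | ⟨κ, h⟩⟩
  · simp only at h; omega
  · simp at h
  · simp at h

theorem Bn_notin {W j k : ℕ} (hk : j ≤ k) (c : Kn × ℕ) : Bn k c ∉ flv (pre Kn W j) := by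
  intro h
  rcases notin_pre h with h | ⟨_, h | ⟨κ, h⟩⟩
  · simp only at h; omega
  · simp at h
  · simp at h

theorem lev_notin {W j : ℕ} : ∀ cl ∈ lev Kn W j, ∀ l ∈ cl, l.1 ∉ flv (pre Kn W j) := by
  intro cl hcl l hl
  have hb : bn Kn (j + 1) ∉ flv (pre Kn W j) := by
    intro h
    rcases notin_pre h with h | ⟨h, _⟩
    · simp only at h; omega
    · simp only at h; omega
  have hM : ∀ c : Kn × ℕ, Mn (j + 1) c ∉ flv (pre Kn W j) := by
    intro c h
    rcases notin_pre h with h | ⟨h, _⟩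
    · simp only at h; omega
    · simp only at h; omega
  have h1 := fun c : Kn × ℕ => An_notin (W := W) (le_refl j) c
  have h2 := fun c : Kn × ℕ => Bn_notin (W := W) (le_refl j) c
  have h3 := fun c : Kn × ℕ => An_notin (W := W) (Nat.le_succ j) c
  have h4 := fun c : Kn × ℕ => Bn_notin (W := W) (Nat.le_succ j) c
  simp only [lev, eqIf, List.mem_flatMap, List.mem_append, List.mem_cons, List.not_mem_nil,
    or_false] at hcl
  obtain ⟨c, _, (rfl | rfl) | (rfl | rfl) | (rfl | rfl) | (rfl | rfl)⟩ := hcl <;>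
  · simp only [List.mem_cons, List.not_mem_nil, or_false] at hl
    rcases hl with rfl | rfl | rfl <;> simp only [hb, hM, h1, h2, h3, h4, not_false_eq_true]

variable {W : ℕ} {S : CNF} {v : ℕ → Kn × ℕ → Bool}

theorem sav (hS : ∀ cl ∈ S, ∀ l ∈ cl, ∃ c : Kn × ℕ, l.1 = An 0 c ∨ l.1 = Bn 0 c)
    (hstep : ∀ (a : Nm → Bool) (t : ℕ), (∀ c ∈ cells Kn W, a (An 0 c) = v t c) →
      (CNF.Sat S a ↔ ∀ c ∈ cells Kn W, a (Bn 0 c) = v (t + 1) c)) (j : ℕ) :
    ∀ (a : Nm → Bool) (t : ℕ), (∀ c ∈ cells Kn W, a (An j c) = v t c) →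
      (Alt (Gc Kn W S j) true (flv (pre Kn W j)) a ↔
        ∀ c ∈ cells Kn W, a (Bn j c) = v (t + 2 ^ j) c) := by
  induction j with
  | zero =>
    intro a t h
    rw [Gc, alt_indep, hstep a t h]
    · rfl
    · intro cl hcl l hl
      obtain ⟨c, h | h⟩ := hS cl hcl l hl
      · rw [h]; exact An_notin le_rfl c
      · rw [h]; exact Bn_notin le_rfl c
  | succ j ih =>
    intro a t h
    have e1 : flv (pre Kn W (j + 1)) = flv (mm Kn W (j + 1)) ++
        (vn (Kn := Kn) false (.inr (), j + 1, 0) :: bn Kn (j + 1) ::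
          (flv (ab Kn W j) ++ flv (pre Kn W j))) := by
      simp only [pre, mx, flv, fl_append, fl_cons, List.append_assoc]
      rfl
    rw [e1, Gc]
    -- names not touched by a block
    have nM : ∀ e (q : Ix Kn), (∀ κ, q.1 ≠ .inl (2, κ)) → vn e q ∉ flv (mm Kn W (j + 1)) := by
      intro e q hq h
      rw [mem_fl] at h
      obtain ⟨p, hp, h | h⟩ := h
      · obtain ⟨_, _, κ, h2⟩ := mem_mm.1 hp
        exact hq κ (by rw [(vn_inj h).2]; exact h2)
      · obtain ⟨_, _, κ, h2⟩ := mem_mm.1 hp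
        exact hq κ (by rw [(vn_inj h).2]; exact h2)
    have nAB : ∀ e (q : Ix Kn), q.2.1 = j + 1 → vn e q ∉ flv (ab Kn W j) := by
      intro e q hq h
      rw [mem_fl] at h
      obtain ⟨p, hp, h | h⟩ := h
      · have h1 := (mem_ab.1 hp).1
        rw [(vn_inj h).2] at hq
        omega
      · have h1 := (mem_ab.1 hp).1
        rw [(vn_inj h).2] at hq
        omega
    have neX : ∀ (q : Ix Kn), q.1 ≠ .inr () →
        vn false q ≠ vn (Kn := Kn) false (.inr (), j + 1, 0) := by
      intro q hq h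
      exact hq (by rw [(vn_inj h).2])
    have neb : ∀ (q : Ix Kn), vn false q ≠ bn Kn (j + 1) := fun q => vn_ne _ _
    constructor
    · intro hA
      obtain ⟨a1, h1, hA1⟩ := alt_block_mp _ _ hA
      simp only [Alt] at hA1
      obtain ⟨x, hx⟩ := hA1
      -- the situation after both answers
      have key : ∀ b : Bool, ∃ a' : Nm → Bool, (∀ c : Kn × ℕ, a' (An (j + 1) c) = a (An (j + 1) c)) ∧
          (∀ c : Kn × ℕ, a' (Bn (j + 1) c) = a (Bn (j + 1) c)) ∧
          (∀ c : Kn × ℕ, a' (Mn (j + 1) c) = a1 (Mn (j + 1) c)) ∧ a' (bn Kn (j + 1)) = b ∧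
          CNF.Sat (lev Kn W j) a' ∧ Alt (Gc Kn W S j) true (flv (pre Kn W j)) a' := by
        intro b
        obtain ⟨a', h2, hA'⟩ := alt_block_mp _ _ (hx b)
        rw [alt_append lev_notin] at hA'
        refine ⟨a', fun c => ?_, fun c => ?_, fun c => ?_, ?_, hA'.1, hA'.2⟩
        · rw [An, h2 _ (nAB _ _ rfl), Function.update_of_ne (neb _),
            Function.update_of_ne (neX _ (by simp)), h1 _ (nM _ _ (by simp))]
        · rw [Bn, h2 _ (nAB _ _ rfl), Function.update_of_ne (neb _),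
            Function.update_of_ne (neX _ (by simp)), h1 _ (nM _ _ (by simp))]
        · rw [Mn, h2 _ (nAB _ _ rfl), Function.update_of_ne (neb _),
            Function.update_of_ne (neX _ (by simp))]
        · rw [bn, h2 _ (nAB _ _ rfl)]
          exact Function.update_self ..
      obtain ⟨a2, hA2, hB2, hM2, hb2, hL2, hG2⟩ := key false
      obtain ⟨a3, hA3, hB3, hM3, hb3, hL3, hG3⟩ := key true
      rw [sat_lev] at hL2 hL3
      have hm : ∀ c ∈ cells Kn W, a1 (Mn (j + 1) c) = v (t + 2 ^ j) c := by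
        intro c hc
        have h4 := (ih a2 t (fun c hc => by
          rw [((hL2 c hc).2 hb2).1, hA2, h c hc])).1 hG2 c hc
        rw [← h4, ((hL2 c hc).2 hb2).2, hM2]
      intro c hc
      have h5 := (ih a3 (t + 2 ^ j) (fun c hc => by
        rw [((hL3 c hc).1 hb3).1, hM3, hm c hc])).1 hG3 c hc
      rw [((hL3 c hc).1 hb3).2, hB3] at h5
      rw [h5, pow_succ]
      congr 1
      ring
    · intro hB
      refine alt_block_mpr _ _ (fun q => match q.1 with
          | .inl (_, κ) => v (t + 2 ^ j) (κ, q.2.2)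
          | .inr _ => false) (nodup_mm W _) (vn_injective _) vn_ne fun a1 h1 h2 => ?_
      simp only [Alt]
      refine ⟨false, fun b => ?_⟩
      refine alt_block_mpr _ _ (fun q => match q.1 with
          | .inl (k, κ) => if k = 0 then (if b then v (t + 2 ^ j) (κ, q.2.2) else v t (κ, q.2.2))
            else (if b then v (t + 2 ^ (j + 1)) (κ, q.2.2) else v (t + 2 ^ j) (κ, q.2.2))
          | .inr _ => false) (nodup_ab W _) (vn_injective _) vn_ne fun a' h3 h4 => ?_
      have hA' : ∀ c : Kn × ℕ, a' (An (j + 1) c) = a (An (j + 1) c) := fun c => by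
        rw [An, h3 _ (nAB _ _ rfl), Function.update_of_ne (neb _),
          Function.update_of_ne (neX _ (by simp)), h1 _ (nM _ _ (by simp))]
      have hB' : ∀ c : Kn × ℕ, a' (Bn (j + 1) c) = a (Bn (j + 1) c) := fun c => by
        rw [Bn, h3 _ (nAB _ _ rfl), Function.update_of_ne (neb _),
          Function.update_of_ne (neX _ (by simp)), h1 _ (nM _ _ (by simp))]
      have hM' : ∀ c ∈ cells Kn W, a' (Mn (j + 1) c) = v (t + 2 ^ j) c := fun c hc => by
        rw [Mn, h3 _ (nAB _ _ rfl), Function.update_of_ne (neb _),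
          Function.update_of_ne (neX _ (by simp))]
        exact h2 (.inl (2, c.1), j + 1, c.2) (mem_mm.2 ⟨rfl, (mem_cells (c := c)).1 hc, c.1, rfl⟩)
      have hb' : a' (bn Kn (j + 1)) = b := by
        rw [bn, h3 _ (nAB _ _ rfl)]
        exact Function.update_self ..
      have hA0 : ∀ c ∈ cells Kn W, a' (An j c) = if b then v (t + 2 ^ j) c else v t c :=
        fun c hc => h4 (.inl (0, c.1), j, c.2)
          (mem_ab.2 ⟨rfl, (mem_cells (c := c)).1 hc, c.1, Or.inl rfl⟩)
      have hB0 : ∀ c ∈ cells Kn W, a' (Bn j c) =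
          if b then v (t + 2 ^ (j + 1)) c else v (t + 2 ^ j) c :=
        fun c hc => h4 (.inl (1, c.1), j, c.2)
          (mem_ab.2 ⟨rfl, (mem_cells (c := c)).1 hc, c.1, Or.inr rfl⟩)
      rw [alt_append lev_notin, sat_lev]
      refine ⟨fun c hc => ⟨fun hb => ?_, fun hb => ?_⟩, ?_⟩
      · rw [hb'] at hb
        rw [hA0 c hc, hB0 c hc, hM' c hc, hB' c, hB c hc, hb]
        simp
      · rw [hb'] at hb
        rw [hA0 c hc, hB0 c hc, hM' c hc, hA' c, h c hc, hb]
        simp
      · cases b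
        · rw [ih a' t (fun c hc => by rw [hA0 c hc]; simp)]
          intro c hc
          rw [hB0 c hc]
          simp
        · rw [ih a' (t + 2 ^ j) (fun c hc => by rw [hA0 c hc]; simp)]
          intro c hc
          rw [hB0 c hc]
          simp only [if_true]
          congr 1
          ring

end game

end Pool.Agent.SetPS
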