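import Pool.Agent.SetPS.StrDefs
import Mathlib.Tactic.Ring
import Mathlib.Tactic.Linarith

/-!
# The string of a table: digits
-/

namespace Pool.Agent.SetPS

theorem Tab.length_digits (t : Tab) (G : GI) (c : ℕ × t.T) : (t.digits G c).length = t.dim G := by
  unfold Tab.digits Tab.dim
  rw [List.length_flatMap]
  simp

theorem getD_flatMap {α : Type} (f : ℕ → List α) (D : ℕ) (hf : ∀ u, (f u).length = D) (d : α)
    (n u k : ℕ) (hu : u < n) (hk : k < D) :
    ((List.range n).flatMap f).getD (u * D + k) d = (f u).getD k d := by
  induction n with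
  | zero => omega
  | succ n ih =>
    rw [List.range_succ, List.flatMap_append]
    have hl : ((List.range n).flatMap f).length = n * D := by
      rw [List.length_flatMap]
      simp [hf]
    simp only [List.flatMap_singleton]
    by_cases h : u < n
    · rw [List.getD_append, ih h]
      rw [hl]
      calc u * D + k < u * D + D := by omega
        _ = (u + 1) * D := by ring
        _ ≤ n * D := Nat.mul_le_mul_right _ h
    · have h1 : u = n := by omega
      subst h1
      rw [List.getD_append_right]
      · rw [hl, Nat.add_sub_cancel_left]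
      · rw [hl]; omega

theorem Tab.vecOf_apply (t : Tab) (G : GI) (c : ℕ × t.T) (u : ℕ) (hu : u ≤ G.length)
    (k : Fin t.D) (h : u * t.D + k < t.dim G) :
    t.vecOf G c ⟨u * t.D + k, h⟩ = t.digit G c u k := by
  unfold Tab.vecOf Tab.digits
  rw [getD_flatMap (D := t.D) (hf := by intro u; simp) (hu := by omega) (hk := k.2)]
  simp [List.getD_eq_getElem?_getD]

theorem ofFn_getD {α : Type} (l : List α) (n : ℕ) (h : l.length = n) (d : α) :
    List.ofFn (fun i : Fin n => l.getD i d) = l := by
  subst h
  apply List.ext_getElem
  · simp
  · intro i h1 h2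
    simp [List.getD_eq_getElem?_getD]

theorem Tab.str_eq (t : Tab) (G : GI) :
    t.str G = encodeInput (t.dim G) ((t.cardList G).map (t.vecOf G)) := by
  unfold Tab.str encodeInput
  congr 2
  rw [List.flatMap_map]
  congr 1
  funext c
  have h : List.ofFn (t.vecOf G c) = t.digits G c := ofFn_getD _ _ (t.length_digits G c) _
  rw [h]

theorem Tab.arcOf_eq (G : GI) (v : Fin G.length) (i : Fin 2) :
    Tab.arcOf G v i = (G.out v i).map Fin.val := by
  unfold Tab.arcOf GI.out
  have h : G.getD v (none, none) = G.get v := by
    simp [List.getD_eq_getElem?_getD]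
  rw [h]
  generalize (if i = 0 then (G.get v).1 else (G.get v).2) = o
  cases o with
  | none => rfl
  | some w =>
    by_cases hw : w < G.length
    · simp [Option.filter, hw]
    · simp [Option.filter, hw]

end Pool.Agent.SetPS
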