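import Pool.Agent.SetPS.GadDefs

/-!
# The string produced by the reduction, for arbitrary finite tables
-/

namespace Pool.Agent.SetPS

/-- Finite tables describing the cards: `T` is the type of local names of cards, `D` the number of
coordinates per block, `dg` the digits, `keep` tells which cards are present at a vertex, `tags`
lists the cards of a vertex and `ytags` those of the additional block. The arguments of type
`Bool` of `dg` mean: the block is that of the vertex itself, of its out-neighbour number 0, of its
out-neighbour number 1, arc 0 is missing, arc 1 is missing. Those of `keep` mean: the vertex is the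
start vertex, arc 0 is missing, arc 1 is missing. -/
structure Tab where
  T : Type
  D : ℕ
  dg : T → Fin D → Bool → Bool → Bool → Bool → Bool → Fin 3
  keep : T → Bool → Bool → Bool → Bool
  tags : List T
  ytags : List T

namespace Tab

variable (t : Tab)

/-- The arc number `i` of vertex `v`. -/
def arcOf (G : GI) (v : ℕ) (i : Fin 2) : Option ℕ :=
  (if i = 0 then (G.getD v (none, none)).1 else (G.getD v (none, none)).2).filter
    fun w => decide (w < G.length)

/-- The number of attributes. -/
def dim (G : GI) : ℕ := (G.length + 1) * t.D

/-- The list of all cards, as pairs of a vertex number and a local name. -/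
def cardList (G : GI) : List (ℕ × t.T) :=
  ((List.range G.length).flatMap fun v =>
    (t.tags.filter fun a => t.keep a (v == 0) (arcOf G v 0).isNone (arcOf G v 1).isNone).map
      fun a => (v, a)) ++ t.ytags.map fun a => (G.length, a)

/-- Digit number `k` of block `u` of a card. -/
def digit (G : GI) (c : ℕ × t.T) (u : ℕ) (k : Fin t.D) : Fin 3 :=
  t.dg c.2 k (u == c.1) (arcOf G c.1 0 == some u) (arcOf G c.1 1 == some u)
    (arcOf G c.1 0).isNone (arcOf G c.1 1).isNone

/-- All digits of a card. -/
def digits (G : GI) (c : ℕ × t.T) : List (Fin 3) :=
  (List.range (G.length + 1)).flatMap fun u => (List.finRange t.D).map fun k => t.digit G c u k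

/-- The string. -/
def str (G : GI) : List Sy :=
  List.replicate (t.dim G) (some 0) ++
    none :: (t.cardList G).flatMap fun c => (t.digits G c).map some ++ [none]

/-- The card as a vector. -/
def vecOf (G : GI) (c : ℕ × t.T) : Card (t.dim G) := fun i => (t.digits G c).getD i 0

end Tab

end Pool.Agent.SetPS
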