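import Pool.Agent.SetPS.GadDefs
import Mathlib.Data.Nat.Bitwise
import Mathlib.Tactic.Ring
import Mathlib.Tactic.Linarith

/-!
# Grundy values from a certified table

A table is given by two numbers `N` (32-bit entries `key * 16 + value`) and `O` (16-bit row
offsets): the entry of the key `k` sits at position `offset (k / 256) + k % 256`.
-/

namespace Pool.Agent.SetPS.Tbl

/-- Entry `i` of a packed table: 32 bits, the value being in the 4 low bits. -/
def ent (N i : ℕ) : ℕ := Nat.land (Nat.shiftRight N (Nat.mul 32 i)) 4294967295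

/-- The position of the key `k`. -/
def idx (O k : ℕ) : ℕ :=
  Nat.add (Nat.land (Nat.shiftRight O (Nat.mul 16 (Nat.shiftRight k 8))) 65535) (Nat.land k 255)

/-- The value of the key `k`; the answer is 99 if it is absent. -/
def look (N O k : ℕ) : ℕ :=
  match Nat.beq (Nat.shiftRight (ent N (idx O k)) 4) k with
  | true => Nat.land (ent N (idx O k)) 15
  | false => 99

theorem look_spec {N O k M : ℕ} (hN : N < 2 ^ (32 * M)) (h : look N O k ≠ 99) :
    (∃ i < M, Nat.shiftRight (ent N i) 4 = k ∧ Nat.land (ent N i) 15 = look N O k) ∨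
      (k = 0 ∧ look N O k = 0) := by
  unfold look at h ⊢
  by_cases h1 : Nat.beq (Nat.shiftRight (ent N (idx O k)) 4) k = true
  · rw [h1]
    by_cases h2 : idx O k < M
    · exact Or.inl ⟨_, h2, Nat.eq_of_beq_eq_true h1, rfl⟩
    · right
      have h3 : ent N (idx O k) = 0 := by
        have h4 : Nat.shiftRight N (Nat.mul 32 (idx O k)) = 0 := by
          show N >>> (32 * idx O k) = 0
          rw [Nat.shiftRight_eq_div_pow]
          apply Nat.div_eq_of_lt
          refine lt_of_lt_of_le hN (Nat.pow_le_pow_right (by norm_num) ?_)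
          exact Nat.mul_le_mul_left _ (by omega)
        unfold ent
        rw [h4]
        rfl
      have h5 := Nat.eq_of_beq_eq_true h1
      rw [h3] at h5 ⊢
      exact ⟨h5.symm, rfl⟩
  · have h1' : Nat.beq (Nat.shiftRight (ent N (idx O k)) 4) k = false := Bool.eq_false_iff.2 h1
    rw [h1'] at h
    exact absurd rfl h

/-- The set of the values of the options of the position `k`, as a bit mask. -/
noncomputable def opts (tv : ℕ → ℕ) (k : ℕ) (l : List (ℕ × ℕ)) : ℕ :=
  @List.rec (ℕ × ℕ) (fun _ => ℕ) 0 (fun p _ ih =>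
    match Nat.beq (Nat.land (Nat.shiftRight k p.1) 1) 1 with
    | true => Nat.lor (Nat.shiftLeft 1 (tv (Nat.land k p.2))) ih
    | false => ih) l

theorem bit_iff (k j : ℕ) :
    Nat.beq (Nat.land (Nat.shiftRight k j) 1) 1 = true ↔ k.testBit j = true := by
  have h1 : Nat.land (Nat.shiftRight k j) 1 = k / 2 ^ j % 2 := by
    show (k >>> j) &&& 1 = _
    rw [Nat.and_one_is_mod, Nat.shiftRight_eq_div_pow]
  rw [h1, Nat.testBit_eq_decide_div_mod_eq]
  simp

theorem testBit_opts (tv : ℕ → ℕ) (k : ℕ) (b : ℕ) : ∀ (l : List (ℕ × ℕ)),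
    ((opts tv k l).testBit b = true ↔
      ∃ p ∈ l, k.testBit p.1 = true ∧ tv (k &&& p.2) = b) := by
  intro l
  induction l with
  | nil => simp [opts]
  | cons p l ih =>
    have h0 : opts tv k (p :: l) = (match Nat.beq (Nat.land (Nat.shiftRight k p.1) 1) 1 with
      | true => Nat.lor (Nat.shiftLeft 1 (tv (Nat.land k p.2))) (opts tv k l)
      | false => opts tv k l) := rfl
    rw [h0]
    by_cases hb : Nat.beq (Nat.land (Nat.shiftRight k p.1) 1) 1 = true
    · rw [hb]
      have hk := (bit_iff k p.1).1 hb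
      show ((1 <<< (tv (k &&& p.2))) ||| opts tv k l).testBit b = true ↔ _
      rw [Nat.testBit_or, Bool.or_eq_true, ih, Nat.one_shiftLeft, Nat.testBit_two_pow]
      constructor
      · rintro (h | ⟨q, hq, h1, h2⟩)
        · exact ⟨p, by simp, hk, by simpa using h⟩
        · exact ⟨q, by simp [hq], h1, h2⟩
      · rintro ⟨q, hq, h1, h2⟩
        rcases List.mem_cons.1 hq with rfl | hq
        · left; simpa using h2
        · exact Or.inr ⟨q, hq, h1, h2⟩
    · have hb' : Nat.beq (Nat.land (Nat.shiftRight k p.1) 1) 1 = false := Bool.eq_false_iff.2 hb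
      rw [hb']
      have hk : ¬ k.testBit p.1 = true := fun h => hb ((bit_iff k p.1).2 h)
      show (opts tv k l).testBit b = true ↔ _
      rw [ih]
      constructor
      · rintro ⟨q, hq, h1, h2⟩
        exact ⟨q, by simp [hq], h1, h2⟩
      · rintro ⟨q, hq, h1, h2⟩
        rcases List.mem_cons.1 hq with rfl | hq
        · exact absurd h1 hk
        · exact ⟨q, hq, h1, h2⟩

/-- The entry with key `k` and value `v` is consistent with the table. -/
noncomputable def okEntry (tv : ℕ → ℕ) (l : List (ℕ × ℕ)) (k v : ℕ) : Bool :=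
  and (Nat.beq (Nat.land (opts tv k l) (Nat.sub (Nat.shiftLeft 2 v) 1))
    (Nat.sub (Nat.shiftLeft 1 v) 1)) (Nat.blt (opts tv k l) 65536)

theorem okEntry_spec {tv : ℕ → ℕ} {l : List (ℕ × ℕ)} {k v : ℕ} (h : okEntry tv l k v = true) :
    (∀ p ∈ l, k.testBit p.1 = true → tv (k &&& p.2) < 16 ∧ tv (k &&& p.2) ≠ v) ∧
    ∀ u < v, ∃ p ∈ l, k.testBit p.1 = true ∧ tv (k &&& p.2) = u := by
  unfold okEntry at h
  rw [Bool.and_eq_true] at h
  obtain ⟨h1, h2⟩ := h
  have h1' : opts tv k l &&& (2 ^ (v + 1) - 1) = 2 ^ v - 1 := by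
    have h3 := Nat.eq_of_beq_eq_true h1
    have h4 : Nat.shiftLeft 2 v = 2 ^ (v + 1) := by
      show 2 <<< v = _
      rw [Nat.shiftLeft_eq]; ring
    have h5 : Nat.shiftLeft 1 v = 2 ^ v := by
      show 1 <<< v = _
      rw [Nat.one_shiftLeft]
    rw [h4, h5] at h3
    exact h3
  have h2' : opts tv k l < 65536 := by
    have h3 := Nat.le_of_ble_eq_true h2
    omega
  have h3 : ∀ u ≤ v, ((opts tv k l).testBit u = true ↔ u < v) := by
    intro u hu
    have h4 := congrArg (fun n => n.testBit u) h1'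
    simp only [Nat.testBit_and, Nat.testBit_two_pow_sub_one] at h4
    have h5 : decide (u < v + 1) = true := by simpa using (by omega : u < v + 1)
    rw [h5, Bool.and_true] at h4
    rw [h4]
    simp
  refine ⟨fun p hp hk => ⟨?_, ?_⟩, fun u hu => ?_⟩
  · have h4 : (opts tv k l).testBit (tv (k &&& p.2)) = true :=
      (testBit_opts tv k _ l).2 ⟨p, hp, hk, rfl⟩
    by_contra h5
    have h6 : (opts tv k l).testBit (tv (k &&& p.2)) = false := by
      apply Nat.testBit_eq_false_of_lt
      refine lt_of_lt_of_le h2' ?_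
      calc 65536 = 2 ^ 16 := by norm_num
        _ ≤ 2 ^ tv (k &&& p.2) := Nat.pow_le_pow_right (by norm_num) (by omega)
    rw [h4] at h6
    exact absurd h6 (by simp)
  · intro h4
    have h5 : (opts tv k l).testBit v = true :=
      (testBit_opts tv k _ l).2 ⟨p, hp, hk, h4⟩
    exact absurd ((h3 v le_rfl).1 h5) (lt_irrefl _)
  · exact (testBit_opts tv k u l).1 ((h3 u hu.le).2 hu)

/-- Closure under the removal of cards. -/
noncomputable def okRem (tv : ℕ → ℕ) (full : ℕ) (rc : ℕ) (rk : List ℕ) (k v : ℕ) : Bool :=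
  match Nat.beq k full with
  | true => true
  | false => and (Nat.blt v 8) (and (Nat.blt (tv (Nat.land k rc)) 99)
    (@List.rec ℕ (fun _ => Bool) true (fun c _ ih =>
      and (and (Nat.blt (tv (Nat.land k c)) 99)
        (Nat.beq (Nat.shiftRight (tv (Nat.land k c)) 2) (Nat.shiftRight v 2))) ih) rk))

theorem okRem_spec {tv : ℕ → ℕ} {full rc : ℕ} {rk : List ℕ} {k v : ℕ}
    (h : okRem tv full rc rk k v = true) (hk : k ≠ full) :
    v < 8 ∧ tv (k &&& rc) ≠ 99 ∧ ∀ c ∈ rk, tv (k &&& c) ≠ 99 ∧ tv (k &&& c) / 4 = v / 4 := by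
  unfold okRem at h
  have h1 : Nat.beq k full = false := by
    rw [Bool.eq_false_iff]
    exact fun h => hk (Nat.eq_of_beq_eq_true h)
  rw [h1] at h
  simp only [Bool.and_eq_true] at h
  obtain ⟨h2, h3, h4⟩ := h
  refine ⟨?_, ?_, ?_⟩
  · have := Nat.le_of_ble_eq_true h2
    omega
  · have := Nat.le_of_ble_eq_true h3
    show tv (Nat.land k rc) ≠ 99
    omega
  · clear h1 h2 h3 hk
    induction rk with
    | nil => intro c hc; simp at hc
    | cons d rk ih =>
      have h5 : and (and (Nat.blt (tv (Nat.land k d)) 99)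
        (Nat.beq (Nat.shiftRight (tv (Nat.land k d)) 2) (Nat.shiftRight v 2)))
        (@List.rec ℕ (fun _ => Bool) true (fun c _ ih =>
          and (and (Nat.blt (tv (Nat.land k c)) 99)
            (Nat.beq (Nat.shiftRight (tv (Nat.land k c)) 2) (Nat.shiftRight v 2))) ih) rk) =
              true := h4
      simp only [Bool.and_eq_true] at h5
      obtain ⟨⟨h6, h7⟩, h8⟩ := h5
      intro c hc
      rcases List.mem_cons.1 hc with rfl | hc
      · refine ⟨?_, ?_⟩
        · have := Nat.le_of_ble_eq_true h6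
          show tv (Nat.land k c) ≠ 99
          omega
        · have h9 : tv (k &&& c) >>> 2 = v >>> 2 := Nat.eq_of_beq_eq_true h7
          rw [Nat.shiftRight_eq_div_pow, Nat.shiftRight_eq_div_pow] at h9
          exact h9
      · exact ih h8 c hc

/-- All entries `base ≤ i < base + n` satisfy `P`. -/
noncomputable def chk (P : ℕ → Bool) (base n : ℕ) : Bool :=
  @Nat.rec (fun _ => Bool) true (fun i ih => and (P (Nat.add base i)) ih) n

theorem chk_spec {P : ℕ → Bool} {base n : ℕ} (h : chk P base n = true) :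
    ∀ i, base ≤ i → i < base + n → P i = true := by
  induction n with
  | zero => intro i h1 h2; omega
  | succ n ih =>
    have h1 : and (P (base + n)) (chk P base n) = true := h
    rw [Bool.and_eq_true] at h1
    intro i h2 h3
    by_cases h4 : i = base + n
    · rw [h4]; exact h1.1
    · exact ih h1.2 i h2 (by omega)

/-! ### Positions represented by masks -/

section rep

variable {n m : ℕ} (sets : Fin m → Finset (Fin n))

/-- The mask `k` lists the Sets all of whose cards are in `A`. -/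
def Rep (A : Finset (Fin n)) (k : ℕ) : Prop :=
  ∀ i, k.testBit i = true ↔ ∃ h : i < m, sets ⟨i, h⟩ ⊆ A

variable {sets}

theorem Rep.sdiff {A : Finset (Fin n)} {k : ℕ} (h : Rep sets A k) (B : Finset (Fin n)) (c : ℕ)
    (hc : ∀ i : Fin m, c.testBit i = true ↔ Disjoint (sets i) B) : Rep sets (A \ B) (k &&& c) := by
  intro i
  rw [Nat.testBit_and, Bool.and_eq_true, h i]
  constructor
  · rintro ⟨⟨hi, h1⟩, h2⟩
    exact ⟨hi, Finset.subset_sdiff.2 ⟨h1, (hc ⟨i, hi⟩).1 h2⟩⟩
  · rintro ⟨hi, h1⟩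
    obtain ⟨h2, h3⟩ := Finset.subset_sdiff.1 h1
    exact ⟨⟨hi, h2⟩, (hc ⟨i, hi⟩).2 h3⟩

theorem rep_univ {full : ℕ} (hf : full = 2 ^ m - 1) : Rep sets Finset.univ full := by
  intro i
  rw [hf, Nat.testBit_two_pow_sub_one]
  simp

theorem mex_eq {s : Set ℕ} {v : ℕ} (h1 : v ∉ s) (h2 : ∀ u < v, u ∈ s) : mex s = v := by
  unfold mex
  apply le_antisymm
  · exact Nat.sInf_le h1
  · by_contra h
    push Not at h
    have h3 : sInf sᶜ ∈ sᶜ := Nat.sInf_mem ⟨v, h1⟩
    exact h3 (h2 _ h)

/-- The pairs of `l` consist of the number of a Set and the mask of the Sets disjoint from it. -/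
structure Lst (sets : Fin m → Finset (Fin n)) (l : List (ℕ × ℕ)) : Prop where
  ne : ∀ j, (sets j).Nonempty
  fst : l.map Prod.fst = List.range m
  snd : ∀ p ∈ l, ∀ j : Fin m, (j : ℕ) = p.1 →
    ∀ i : Fin m, p.2.testBit i = true ↔ Disjoint (sets i) (sets j)

theorem Lst.get {l : List (ℕ × ℕ)} (h : Lst sets l) (j : Fin m) :
    ∃ c, ((j : ℕ), c) ∈ l ∧ ∀ i : Fin m, c.testBit i = true ↔ Disjoint (sets i) (sets j) := by
  have h1 : (j : ℕ) ∈ l.map Prod.fst := by rw [h.fst]; simp
  obtain ⟨⟨a, c⟩, h2, h3⟩ := List.mem_map.1 h1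
  simp only at h3
  subst h3
  exact ⟨c, h2, h.snd _ h2 j rfl⟩

theorem Lst.lt {l : List (ℕ × ℕ)} (h : Lst sets l) {p : ℕ × ℕ} (hp : p ∈ l) : p.1 < m := by
  have h1 : p.1 ∈ l.map Prod.fst := List.mem_map_of_mem hp
  rw [h.fst] at h1
  simpa using h1

/-- The values of a consistent table are the Grundy values. -/
theorem grundy_eq (E : Finset (Fin n) → Prop) (hE : ∀ S, E S ↔ ∃ j, S = sets j)
    {l : List (ℕ × ℕ)} (hl : Lst sets l)
    {tv : ℕ → ℕ} (hok : ∀ k, tv k ≠ 99 → okEntry tv l k (tv k) = true) :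
    ∀ (c : ℕ) (A : Finset (Fin n)) (k : ℕ), A.card ≤ c → Rep sets A k → tv k ≠ 99 →
      grundy E A = tv k := by
  intro c
  induction c with
  | zero =>
    intro A k hA hk hv
    obtain ⟨h1, h2⟩ := okEntry_spec (hok k hv)
    have hA0 : A = ∅ := Finset.card_eq_zero.1 (Nat.le_zero.1 hA)
    have h3 : ∀ i, k.testBit i = false := by
      intro i
      by_contra h4
      obtain ⟨hi, h5⟩ := (hk i).1 (by simpa using h4)
      rw [hA0, Finset.subset_empty] at h5
      have h6 := hl.ne ⟨i, hi⟩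
      rw [h5] at h6
      simp at h6
    unfold grundy
    apply mex_eq
    · rintro ⟨S, hS, hSA, hSne, -⟩
      rw [hA0, Finset.subset_empty] at hSA
      rw [hSA] at hSne
      simp at hSne
    · intro u hu
      obtain ⟨p, hp, h4, -⟩ := h2 u hu
      rw [h3 p.1] at h4
      exact absurd h4 (by simp)
  | succ c ih =>
    intro A k hA hk hv
    obtain ⟨h1, h2⟩ := okEntry_spec (hok k hv)
    have key : ∀ (p : ℕ × ℕ) (hp : p ∈ l), k.testBit p.1 = true →
        grundy E (A \ sets ⟨p.1, hl.lt hp⟩) = tv (k &&& p.2) := by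
      intro p hp hki
      obtain ⟨_, hsub⟩ := (hk p.1).1 hki
      apply ih
      · have h4 : (A \ sets ⟨p.1, hl.lt hp⟩).card < A.card := by
          apply Finset.card_lt_card
          rw [Finset.ssubset_iff_subset_ne]
          refine ⟨Finset.sdiff_subset, fun h => ?_⟩
          obtain ⟨x, hx⟩ := hl.ne ⟨p.1, hl.lt hp⟩
          have h5 : x ∈ A \ sets ⟨p.1, hl.lt hp⟩ := by rw [h]; exact hsub hx
          simp [hx] at h5
        omega
      · exact hk.sdiff _ _ (hl.snd p hp ⟨p.1, hl.lt hp⟩ rfl)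
      · have := (h1 p hp hki).1
        omega
    unfold grundy
    apply mex_eq
    · rintro ⟨S, hS, hSA, hSne, h4⟩
      obtain ⟨j, rfl⟩ := (hE S).1 hS
      obtain ⟨d, hd, -⟩ := hl.get j
      have hkj : k.testBit j = true := (hk j).2 ⟨j.2, hSA⟩
      have h5 := key _ hd hkj
      simp only [Fin.eta] at h5
      rw [h5] at h4
      exact (h1 _ hd hkj).2 h4.symm
    · intro u hu
      obtain ⟨p, hp, h4, h5⟩ := h2 u hu
      obtain ⟨_, hsub⟩ := (hk p.1).1 h4
      exact ⟨sets ⟨p.1, hl.lt hp⟩, (hE _).2 ⟨_, rfl⟩, hsub, hl.ne _, by rw [key p hp h4, h5]⟩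

end rep

end Pool.Agent.SetPS.Tbl
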