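import Pool.Agent.SetPS.Gadget
import Pool.Agent.SetPS.EmbDefs

/-!
# The vectors for the cards of the gadget
-/

namespace Pool.Agent.SetPS

open Pool.Agent.SetPS.Tbl

namespace VT

/-- A 64-bit word of a packed list. -/
def lo (N i : ℕ) : ℕ := Nat.land (Nat.shiftRight N (Nat.mul 64 i)) 18446744073709551615

/-- A digit of a packed vector. -/
def dg (v j : ℕ) : ℕ := Nat.land (Nat.shiftRight v (Nat.mul 2 j)) 3

/-- The residue of a number. -/
def z3 (n : ℕ) : ZMod 3 := (Fin.ofNat 3 n : Fin 3)

/-- The vectors of the local cards. -/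
def VC : ℕ := 0x20000008000000002000000080000000101000400000000010100100000000022011000000000000a011000000000000100000000000000020001000000000000800000140000000040000000000000010248020000000000020501110000000200980200000000000000000100000000010090000000000200004000000000000a0501000000000020000014000000000000000400000002000004000000000102200000000000001000000000000002000001000000000001082200000000020108021100000001020401510000000004000000000000020010000000000000010a0200000000020004000000000000000000400000000000000028000000020108028000000002004000000000000000000010000000010280000000000000000000220000000102000800000000010200200000000002000010000000000102040100000000000100000000000002002401000000000200080200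

/-- The vectors of the cards of `Z`. -/
def VZ : ℕ := 0x802000000000080000200000000000000220000000000001a140000000000000064000000000000252a000000000000004600000000020002000000000000010102000000000100000000000000004000000000000000084a00000000000002020000000000000020080000000000208000000000000002050000000000000005020000000000020209000000000010000000000000000800020000000000040081000000000004000000000000000085000000000000001a05000000000001000000000000000040000000000000000a0000000000000010000000000000000400000000000000010000000000000000880000000000000040000000000000001000000000000000040000000000000001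

end VT

open VT

/-- The tables of coordinates. -/
def vtab : VTab gad where
  rb := 4
  rz := 12
  tk a x := z3 (dg (lo VC a.val) x)
  tq a i x := z3 (dg (lo VC a.val) (4 + 4 * i + x))
  tb a j := z3 (dg (lo VC a.val) (12 + j))
  zf b := z3 (dg (lo VZ b.val) 0)
  zh b j := z3 (dg (lo VZ b.val) (1 + j))

namespace VT

/-- The position of a coordinate. -/
def ps : VTab.LCo 4 → ℕ
  | .k x => x
  | .q i x => 4 + 4 * i + x
  | .b j => 12 + j
  | .f => 16
  | .w i => 17 + i

/-- The number of a local card. -/
def ix : VTab.Lc gad → ℕ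
  | .c a => a.val
  | .f => 37
  | .arc i => 38 + i
  | .fix x => 40 + x

/-- The packed vector of a local card. -/
def pv (g : VTab.Lc gad) : ℕ := lo VC (ix g)

theorem ix_lt (g : VTab.Lc gad) : ix g < 44 := by
  cases g with
  | c a => have : a.val < 37 := a.2; simp only [ix]; omega
  | f => simp [ix]
  | arc i => simp only [ix]; omega
  | fix x => simp only [ix]; omega

theorem ix_inj {g h : VTab.Lc gad} (e : ix g = ix h) : g = h := by
  have aux : ∀ a : Fin gad.nC, a.val < 37 := fun a => a.2
  cases g with
  | c a =>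
    have ha := aux a
    cases h with
    | c b => exact congrArg _ (Fin.ext e)
    | f => simp only [ix] at e; omega
    | arc i => simp only [ix] at e; omega
    | fix x => simp only [ix] at e; omega
  | f =>
    cases h with
    | c b => have hb := aux b; simp only [ix] at e; omega
    | f => rfl
    | arc i => simp only [ix] at e; omega
    | fix x => simp only [ix] at e; omega
  | arc i =>
    cases h with
    | c b => have hb := aux b; simp only [ix] at e; omega
    | f => simp only [ix] at e; omega
    | arc j => simp only [ix] at e; exact congrArg _ (Fin.ext (by omega))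
    | fix x => simp only [ix] at e; omega
  | fix x =>
    cases h with
    | c b => have hb := aux b; simp only [ix] at e; omega
    | f => simp only [ix] at e; omega
    | arc j => simp only [ix] at e; omega
    | fix y => simp only [ix] at e; exact congrArg _ (Fin.ext (by omega))

theorem ix_c {i : ℕ} (hi : i < 37) (g : VTab.Lc gad) (h : ix g = i) :
    g = .c (⟨i, hi⟩ : Fin 37) := ix_inj h

theorem ps_lt (c : VTab.LCo 4) : ps c < 19 := by
  cases c <;> simp only [ps] <;> omega

theorem ps_surj : ∀ n < 19, ∃ c, ps c = n := by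
  intro n hn
  by_cases h1 : n < 4
  · exact ⟨.k ⟨n, h1⟩, rfl⟩
  by_cases h2 : n < 8
  · exact ⟨.q 0 ⟨n - 4, by omega⟩, by simp only [ps]; simp; omega⟩
  by_cases h3 : n < 12
  · exact ⟨.q 1 ⟨n - 8, by omega⟩, by simp only [ps]; simp; omega⟩
  by_cases h4 : n < 16
  · exact ⟨.b ⟨n - 12, by omega⟩, by simp only [ps]; omega⟩
  by_cases h5 : n < 17
  · exact ⟨.f, by simp only [ps]; omega⟩
  · exact ⟨.w ⟨n - 17, by omega⟩, by simp only [ps]; omega⟩

theorem z3_eq (n : ℕ) : z3 n = (n : ZMod 3) := by
  unfold z3
  exact Fin.ofNat_eq_cast 3 n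

theorem z3_iff {a b : ℕ} : z3 a = z3 b ↔ a % 3 = b % 3 := by
  rw [z3_eq, z3_eq, ZMod.natCast_eq_natCast_iff']

/-! ### The local vectors -/

theorem lcf : ∀ a : Fin 37, (-∑ i : Fin 2, ∑ x : Fin 4, z3 (dg (lo VC a.val) (4 + 4 * i + x))) =
    z3 (dg (lo VC a.val) 16) := by decide +kernel

theorem lcw : ∀ (a : Fin 37) (i : Fin 2), (0 : ZMod 3) = z3 (dg (lo VC a.val) (17 + i)) := by
  decide +kernel

theorem lc_eq (a : Fin 37) (c : VTab.LCo 4) :
    vtab.lc a c = z3 (dg (lo VC a.val) (ps c)) := by
  cases c with
  | k x => rfl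
  | q i x => rfl
  | b j => rfl
  | f => exact lcf a
  | w i => exact lcw a i

/-- The unit vector, as a function of positions. -/
theorem ue_eq (c d : VTab.LCo 4) : (VTab.ue c d : ZMod 3) = if ps d = ps c then 1 else 0 := by
  have h : (ps d = ps c) ↔ d = c := by
    constructor
    · cases c <;> cases d <;> simp only [ps] <;> intro h <;>
        first
          | rfl
          | (exact congrArg _ (Fin.ext (by omega)))
          | (exact absurd h (by omega))
          | (congr 1 <;> apply Fin.ext <;> omega)
    · intro h; rw [h]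
  unfold VTab.ue
  by_cases e : d = c
  · rw [if_pos e, if_pos (h.2 e)]
  · rw [if_neg e, if_neg (fun h' => e (h.1 h'))]

theorem lv_arc : ∀ (i : Fin 2) (c : Fin 19),
    -z3 (dg (lo VC 23) c) - (if (c : ℕ) = 17 + i then 1 else 0) = z3 (dg (lo VC (38 + i)) c) := by
  decide +kernel

theorem lv_fix : ∀ (x : Fin 4) (c : Fin 19),
    -z3 (dg (lo VC (gad.φ x).val) c) - (if (c : ℕ) = 16 then 1 else 0) =
      z3 (dg (lo VC (40 + x)) c) := by
  decide +kernel

theorem lv_f : ∀ (c : Fin 19), (if (c : ℕ) = 16 then (1 : ZMod 3) else 0) =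
      z3 (dg (lo VC 37) c) := by
  decide +kernel

theorem lv_eq (g : VTab.Lc gad) (c : VTab.LCo 4) : vtab.lv g c = z3 (dg (pv g) (ps c)) := by
  cases g with
  | c a => exact lc_eq a c
  | f =>
    show (VTab.ue (rb := 4) .f c : ZMod 3) = _
    rw [ue_eq]
    exact lv_f ⟨ps c, ps_lt c⟩
  | arc i =>
    show -vtab.lc (23 : Fin 37) c - (VTab.ue (rb := 4) (.w i) c : ZMod 3) = _
    rw [ue_eq, lc_eq]
    exact lv_arc i ⟨ps c, ps_lt c⟩
  | fix x =>
    show -vtab.lc (gad.φ x) c - (VTab.ue (rb := 4) .f c : ZMod 3) = _
    rw [ue_eq]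
    have h := lc_eq (gad.φ x) c
    rw [h]
    exact lv_fix x ⟨ps c, ps_lt c⟩

/-! ### Boolean checks -/

/-- All numbers below `n` satisfy `P`. -/
noncomputable def all (n : ℕ) (P : ℕ → Bool) : Bool :=
  @Nat.rec (fun _ => Bool) true (fun i ih => and (P i) ih) n

theorem all_iff {n : ℕ} {P : ℕ → Bool} : all n P = true ↔ ∀ i < n, P i = true := by
  induction n with
  | zero => simp [all]
  | succ n ih =>
    have h1 : all (n + 1) P = and (P n) (all n P) := rfl
    rw [h1, Bool.and_eq_true, ih]
    constructor
    · rintro ⟨h2, h3⟩ i hi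
      by_cases h4 : i = n
      · rw [h4]; exact h2
      · exact h3 i (by omega)
    · intro h
      exact ⟨h n (by omega), fun i hi => h i (by omega)⟩

/-- Equality of two digits modulo 3. -/
def eq3 (a b : ℕ) : Bool := Nat.beq (Nat.mod a 3) (Nat.mod b 3)

theorem eq3_iff {a b : ℕ} : eq3 a b = true ↔ z3 a = z3 b := by
  rw [z3_iff]
  unfold eq3
  rw [Nat.beq_eq]
  rfl

/-- The first `n` digits of two vectors agree. -/
noncomputable def E2 (n a b : ℕ) : Bool := all n fun c => eq3 (dg a c) (dg b c)

/-- The first `n` digits of `a + b` and `t` agree. -/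
noncomputable def S2 (n a b t : ℕ) : Bool :=
  all n fun c => eq3 (Nat.add (dg a c) (dg b c)) (dg t c)

/-- The first `n` digits of `a + b + d` vanish. -/
noncomputable def S3 (n a b d : ℕ) : Bool :=
  all n fun c => eq3 (Nat.add (Nat.add (dg a c) (dg b c)) (dg d c)) 0

theorem E2_spec {g h : VTab.Lc gad} (e : vtab.lv g = vtab.lv h) : E2 19 (pv g) (pv h) = true := by
  unfold E2
  rw [all_iff]
  intro n hn
  obtain ⟨c, rfl⟩ := ps_surj n hn
  rw [eq3_iff, ← lv_eq, ← lv_eq, e]

theorem z3_add (a b : ℕ) : z3 (a + b) = z3 a + z3 b := by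
  rw [z3_eq, z3_eq, z3_eq, Nat.cast_add]

theorem S2_spec {g h : VTab.Lc gad} {τ : VTab.LCo 4 → ZMod 3} {t : ℕ}
    (ht : ∀ c, τ c = z3 (dg t (ps c)))
    (e : vtab.lv g + vtab.lv h = τ) : S2 19 (pv g) (pv h) t = true := by
  unfold S2
  rw [all_iff]
  intro n hn
  obtain ⟨c, rfl⟩ := ps_surj n hn
  rw [eq3_iff, ← ht]
  have h1 := congrFun e c
  have h2 : vtab.lv g c + vtab.lv h c = τ c := h1
  rw [lv_eq, lv_eq] at h2
  rw [← h2]
  exact z3_add _ _

theorem S3_spec {g h l : VTab.Lc gad} (e : vtab.lv g + vtab.lv h + vtab.lv l = 0) :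
    S3 19 (pv g) (pv h) (pv l) = true := by
  unfold S3
  rw [all_iff]
  intro n hn
  obtain ⟨c, rfl⟩ := ps_surj n hn
  rw [eq3_iff]
  have h1 := congrFun e c
  have h2 : vtab.lv g c + vtab.lv h c + vtab.lv l c = 0 := h1
  rw [lv_eq, lv_eq, lv_eq] at h2
  have h3 : z3 (dg (pv g) (ps c) + dg (pv h) (ps c) + dg (pv l) (ps c)) = z3 0 := by
    rw [z3_add, z3_add, h2]; rfl
  exact h3

/-- Membership in a list of numbers. -/
noncomputable def mem (l : List ℕ) (n : ℕ) : Bool :=
  @List.rec ℕ (fun _ => Bool) false (fun a _ ih => or (Nat.beq a n) ih) l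

theorem mem_iff {l : List ℕ} {n : ℕ} : mem l n = true ↔ n ∈ l := by
  induction l with
  | nil => simp [mem]
  | cons a l ih =>
    have h1 : mem (a :: l) n = or (Nat.beq a n) (mem l n) := rfl
    rw [h1, Bool.or_eq_true, ih, Nat.beq_eq, List.mem_cons]
    exact or_congr_left eq_comm

/-- The code of a triple. -/
def cd (i j k : ℕ) : ℕ := Nat.add (Nat.add (Nat.mul 4096 i) (Nat.mul 64 j)) k

/-- Codes of the Sets of `C`. -/
def cC : Fin 21 → ℕ := ![29394, 29278, 62555, 29664, 4767, 80, 9239, 8714, 8600, 8453, 13284, 12564, 37657, 12833, 917, 131, 12755, 50586, 13005, 22301, 51363]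

/-- Codes of the fixers. -/
def cF : Fin 4 → ℕ := ![22888, 26985, 104810, 55659]

/-- Codes of the Sets of `Z`. -/
def cZ : Fin 22 → ℕ := ![8925, 33356, 8478, 50007, 4565, 4292, 21142, 33427, 20872, 37908, 847, 284, 5210, 46229, 418, 13199, 530, 1434, 1887, 1569, 22107, 160]

/-- The check of the lines among local cards. -/
noncomputable def lineP (i j k : ℕ) : Bool :=
  or (not (Nat.blt i j)) (or (not (Nat.blt j k)) (or (not (S3 19 (lo VC i) (lo VC j) (lo VC k)))
    (mem [29394, 29278, 62555, 29664, 4767, 80, 9239, 8714, 8600, 8453, 13284, 12564, 37657, 12833, 917, 131, 12755, 50586, 13005, 22301, 51363, 22888, 26985, 104810, 55659] (cd i j k))))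

theorem line_chk : (all 44 fun i => all 44 fun j => all 44 fun k => lineP i j k) = true := by
  decide +kernel

/-- The check of the lines among the cards of `Z`. -/
noncomputable def lineZ (i j k : ℕ) : Bool :=
  or (not (Nat.blt i j)) (or (not (Nat.blt j k)) (or (not (S3 13 (lo VZ i) (lo VZ j) (lo VZ k)))
    (mem [8925, 33356, 8478, 50007, 4565, 4292, 21142, 33427, 20872, 37908, 847, 284, 5210, 46229, 418, 13199, 530, 1434, 1887, 1569, 22107, 160] (cd i j k))))

theorem lineZ_chk : (all 35 fun i => all 35 fun j => all 35 fun k => lineZ i j k) = true := by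
  decide +kernel

theorem inj_chk : (all 44 fun i => all 44 fun j =>
    or (Nat.beq i j) (not (E2 19 (lo VC i) (lo VC j)))) = true := by decide +kernel

theorem injZ_chk : (all 35 fun i => all 35 fun j =>
    or (Nat.beq i j) (not (E2 13 (lo VZ i) (lo VZ j)))) = true := by decide +kernel

/-- The position of `q i x` and the card. -/
def qv : ℕ → ℕ := fun t => Nat.land (Nat.shiftRight 725095088258291733 (Nat.mul 8 t)) 255

theorem e7_chk : (all 44 fun i => all 44 fun j => all 8 fun t =>
    or (Nat.beq i j) (or (not (S2 19 (lo VC i) (lo VC j) (Nat.shiftLeft 1 (2 * (4 + t)))))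
      (or (and (Nat.beq i 37) (Nat.beq j (qv t))) (and (Nat.beq i (qv t)) (Nat.beq j 37))))) =
    true := by decide +kernel

theorem e8_chk : (all 44 fun i => all 44 fun j => all 2 fun t => all 4 fun x => all 4 fun y =>
    or (Nat.beq x y) (not (S2 19 (lo VC i) (lo VC j)
      (Nat.add (Nat.shiftLeft 2 (2 * (4 + 4 * t + x))) (Nat.shiftLeft 2 (2 * (4 + 4 * t + y))))))) =
    true := by decide +kernel

theorem e9_chk : (all 44 fun i => all 44 fun j => all 2 fun t =>
    or (Nat.beq i j) (or (not (S2 19 (lo VC i) (lo VC j) (Nat.shiftLeft 2 (2 * (17 + t)))))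
      (or (and (Nat.beq i 23) (Nat.beq j (38 + t))) (and (Nat.beq i (38 + t)) (Nat.beq j 23))))) =
    true := by decide +kernel

end VT

end Pool.Agent.SetPS
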